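import Mathlib

/-!
# The unitary group with its Haar probability measure and the Frobenius norm
-/

open MeasureTheory Matrix
open scoped Matrix.Norms.Frobenius Topology ENNReal

namespace Pool.Agent.T2H01.EK2

set_option linter.unusedSectionVars false
set_option linter.unusedVariables false

noncomputable section

/-- complex matrices -/
abbrev MM (ι : Type) := Matrix ι ι ℂ

/-- the unitary group -/
abbrev UG (ι : Type) [Fintype ι] [DecidableEq ι] := Matrix.unitaryGroup ι ℂ

variable {ι κ : Type} [Fintype ι] [DecidableEq ι] [Fintype κ] [DecidableEq κ]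

lemma ug1 (g : UG ι) : (g : MM ι)ᴴ * (g : MM ι) = 1 := by
  have := Matrix.mem_unitaryGroup_iff'.1 g.2
  rwa [star_eq_conjTranspose] at this

lemma ug2 (g : UG ι) : (g : MM ι) * (g : MM ι)ᴴ = 1 := by
  have := Matrix.mem_unitaryGroup_iff.1 g.2
  rwa [star_eq_conjTranspose] at this

lemma ug_inv (g : UG ι) : ((g⁻¹ : UG ι) : MM ι) = (g : MM ι)ᴴ := rfl

lemma ug_mul (g h : UG ι) : ((g * h : UG ι) : MM ι) = (g : MM ι) * (h : MM ι) := rfl

lemma ug_one : ((1 : UG ι) : MM ι) = 1 := rfl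

/-- the Frobenius norm by the trace -/
lemma fr_sq (A : Matrix ι κ ℂ) : ‖A‖ ^ 2 = (trace (Aᴴ * A)).re := by
  rw [Matrix.frobenius_norm_def, ← Real.sqrt_eq_rpow, Real.sq_sqrt (by positivity)]
  simp only [trace, diag_apply, Matrix.mul_apply, conjTranspose_apply]
  rw [Complex.re_sum, Finset.sum_comm]
  refine Finset.sum_congr rfl fun i _ => ?_
  rw [Complex.re_sum]
  refine Finset.sum_congr rfl fun j _ => ?_
  have h : (star (A j i) * A j i) = ((‖A j i‖ ^ 2 : ℝ) : ℂ) := by
    rw [← Complex.normSq_eq_norm_sq, Complex.star_def, mul_comm, Complex.mul_conj]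
  rw [h, Complex.ofReal_re]
  norm_num

lemma fr_mul_left (g : UG ι) (A : Matrix ι κ ℂ) : ‖(g : MM ι) * A‖ = ‖A‖ := by
  have h : ‖(g : MM ι) * A‖ ^ 2 = ‖A‖ ^ 2 := by
    rw [fr_sq, fr_sq, conjTranspose_mul, Matrix.mul_assoc, ← Matrix.mul_assoc ((g : MM ι)ᴴ), ug1,
      Matrix.one_mul]
  exact (sq_eq_sq₀ (norm_nonneg _) (norm_nonneg _)).1 h

lemma fr_mul_right (g : UG ι) (A : Matrix κ ι ℂ) : ‖A * (g : MM ι)‖ = ‖A‖ := by
  have h : ‖A * (g : MM ι)‖ ^ 2 = ‖A‖ ^ 2 := by
    rw [fr_sq, fr_sq, conjTranspose_mul, trace_mul_comm, Matrix.mul_assoc,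
      ← Matrix.mul_assoc (g : MM ι), ug2, Matrix.one_mul, trace_mul_comm]
  exact (sq_eq_sq₀ (norm_nonneg _) (norm_nonneg _)).1 h

lemma fr_unit (g : UG ι) : ‖(g : MM ι)‖ ^ 2 = Fintype.card ι := by
  rw [fr_sq, ug1, trace_one, Complex.natCast_re]

lemma fr_conj (g : UG ι) (A : MM ι) : ‖(g : MM ι) * A * ((g⁻¹ : UG ι) : MM ι)‖ = ‖A‖ := by
  rw [fr_mul_right, fr_mul_left]

instance : CompactSpace (UG ι) := by
  have h0 : IsCompact ((Matrix.unitaryGroup ι ℂ : Submonoid (MM ι)) : Set (MM ι)) := ?_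
  · exact isCompact_iff_compactSpace.1 h0
  refine Metric.isCompact_of_isClosed_isBounded ?_ ?_
  · have h : ((Matrix.unitaryGroup ι ℂ : Submonoid (MM ι)) : Set (MM ι)) =
        {A : MM ι | star A * A = 1} := by
      ext A
      simp only [SetLike.mem_coe, Set.mem_ofPred_eq]
      exact Matrix.mem_unitaryGroup_iff'
    rw [h]
    exact isClosed_eq (continuous_star.mul continuous_id) continuous_const
  · refine (Metric.isBounded_iff_subset_closedBall 0).2 ⟨Real.sqrt (Fintype.card ι), fun A hA => ?_⟩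
    rw [mem_closedBall_zero_iff]
    refine Real.le_sqrt_of_sq_le ?_
    exact (fr_unit (⟨A, hA⟩ : UG ι)).le

instance : SecondCountableTopology (UG ι) := by
  have : SecondCountableTopology (MM ι) :=
    inferInstanceAs (SecondCountableTopology (ι → ι → ℂ))
  exact TopologicalSpace.Subtype.secondCountableTopology _

instance : MeasurableSpace (UG ι) := borel _

instance : BorelSpace (UG ι) := ⟨rfl⟩

/-- the Haar probability measure -/
def hm (ι : Type) [Fintype ι] [DecidableEq ι] : Measure (UG ι) :=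
  Measure.haarMeasure ⊤

instance : (hm ι).IsHaarMeasure := by unfold hm; infer_instance

instance : IsProbabilityMeasure (hm ι) := ⟨by
  unfold hm
  have := Measure.haarMeasure_self (K₀ := (⊤ : TopologicalSpace.PositiveCompacts (UG ι)))
  simpa using this⟩

instance : (hm ι).IsMulRightInvariant := by
  refine ⟨fun g => ?_⟩
  have h1 : IsProbabilityMeasure (Measure.map (fun x => x * g) (hm ι)) :=
    Measure.isProbabilityMeasure_map (measurable_mul_const g).aemeasurable
  exact Measure.isHaarMeasure_eq_of_isProbabilityMeasure _ _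

instance : (hm ι).IsInvInvariant := by
  refine ⟨?_⟩
  have h1 : IsProbabilityMeasure (hm ι).inv :=
    Measure.isProbabilityMeasure_map measurable_inv.aemeasurable
  have h2 : (hm ι).inv.IsMulLeftInvariant := inferInstance
  have h3 : (hm ι).inv.IsHaarMeasure :=
    Measure.isHaarMeasure_of_isCompact_nonempty_interior (hm ι).inv Set.univ isCompact_univ
      (by simp) (by simp) (by simp)
  exact Measure.isHaarMeasure_eq_of_isProbabilityMeasure _ _

/-- the Frobenius distance of `g` from one -/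
def D0 (g : UG ι) : ℝ := ‖1 - (g : MM ι)‖

lemma D0_cont : Continuous (D0 : UG ι → ℝ) := (continuous_const.sub continuous_subtype_val).norm

lemma D0_one : D0 (1 : UG ι) = 0 := by unfold D0; rw [ug_one, sub_self, norm_zero]

lemma D0_nonneg (g : UG ι) : 0 ≤ D0 g := norm_nonneg _

lemma D0_mul (g h : UG ι) : D0 (g * h) ≤ D0 g + D0 h := by
  unfold D0
  have e1 : (1 : MM ι) - ((g * h : UG ι) : MM ι) = (1 - (g : MM ι)) + (g : MM ι) * (1 - (h : MM ι)) := by
    rw [ug_mul, mul_sub, mul_one]; abel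
  rw [e1]
  refine (norm_add_le _ _).trans ?_
  rw [fr_mul_left]

lemma D0_inv (g : UG ι) : D0 g⁻¹ = D0 g := by
  unfold D0
  have e1 : (1 : MM ι) - ((g⁻¹ : UG ι) : MM ι) = -(((g⁻¹ : UG ι) : MM ι) * (1 - (g : MM ι))) := by
    rw [mul_sub, mul_one, ← ug_mul, inv_mul_cancel, ug_one]; abel
  rw [e1, norm_neg, fr_mul_left]

lemma D0_conj (g h : UG ι) : D0 (g * h * g⁻¹) = D0 h := by
  unfold D0
  have e1 : (1 : MM ι) - ((g * h * g⁻¹ : UG ι) : MM ι) =
      (g : MM ι) * (1 - (h : MM ι)) * ((g⁻¹ : UG ι) : MM ι) := by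
    rw [ug_mul, ug_mul, mul_sub, mul_one, sub_mul, ← ug_mul g g⁻¹, mul_inv_cancel, ug_one]
  rw [e1, fr_conj]

lemma D0_div (g h : UG ι) : D0 (g * h⁻¹) = ‖(g : MM ι) - (h : MM ι)‖ := by
  unfold D0
  have e1 : (1 : MM ι) - ((g * h⁻¹ : UG ι) : MM ι) = -(((g : MM ι) - (h : MM ι)) * ((h⁻¹ : UG ι) : MM ι)) := by
    rw [sub_mul, ← ug_mul h h⁻¹, mul_inv_cancel, ug_one, ug_mul]; abel
  rw [e1, norm_neg, fr_mul_right]

/-- the matrices of rank at most `r` from one -/
def Rk (ι : Type) [Fintype ι] [DecidableEq ι] (r : ℕ) : Set (UG ι) := {C | ((C : MM ι) - 1).rank ≤ r}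

/-- robust commutation: the commutator is close to a matrix of small rank from one -/
def RC (N r : ℕ) (τ : ℝ) (U V : UG ι) : Prop :=
  ∃ C ∈ Rk ι r, ‖(U : MM ι) * V - C * V * U‖ < τ * Real.sqrt N

/-- block diagonal unitary matrices -/
def blk (k : UG ι × UG κ) : UG (ι ⊕ κ) :=
  ⟨Matrix.fromBlocks k.1 0 0 k.2, by
    rw [Matrix.mem_unitaryGroup_iff', star_eq_conjTranspose, fromBlocks_conjTranspose,
      fromBlocks_multiply]
    simp only [conjTranspose_zero, add_zero, zero_add, Matrix.zero_mul,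
      Matrix.mul_zero, ug1, fromBlocks_one]⟩

lemma blk_val (k : UG ι × UG κ) : ((blk k : UG (ι ⊕ κ)) : MM (ι ⊕ κ)) =
    Matrix.fromBlocks (k.1 : MM ι) 0 0 (k.2 : MM κ) := rfl

lemma blk_mul (k k' : UG ι × UG κ) : blk (k * k') = blk k * blk k' := by
  apply Subtype.ext
  rw [ug_mul, blk_val, blk_val, blk_val, fromBlocks_multiply]
  simp

lemma blk_one : blk (1 : UG ι × UG κ) = 1 := by
  apply Subtype.ext
  rw [blk_val]
  exact fromBlocks_one

lemma blk_cont : Continuous (blk : UG ι × UG κ → UG (ι ⊕ κ)) := by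
  refine Continuous.subtype_mk ?_ _
  exact Continuous.matrix_fromBlocks (continuous_subtype_val.comp continuous_fst) continuous_const
    continuous_const (continuous_subtype_val.comp continuous_snd)

/-- reindexing -/
def rix (e : ι ≃ κ) (g : UG ι) : UG κ :=
  ⟨(g : MM ι).submatrix e.symm e.symm, by
    rw [Matrix.mem_unitaryGroup_iff', star_eq_conjTranspose, conjTranspose_submatrix,
      submatrix_mul_equiv, ug1, submatrix_one_equiv]⟩

lemma rix_val (e : ι ≃ κ) (g : UG ι) : ((rix e g : UG κ) : MM κ) = (g : MM ι).submatrix e.symm e.symm :=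
  rfl

lemma rix_mul (e : ι ≃ κ) (g h : UG ι) : rix e (g * h) = rix e g * rix e h := by
  apply Subtype.ext
  rw [ug_mul, rix_val, rix_val, rix_val, submatrix_mul_equiv, ug_mul]

/-- the first `m` and the last `n` indices -/
def eN {m n N : ℕ} (h : m + n = N) : Fin m ⊕ Fin n ≃ Fin N := finSumFinEquiv.trans (finCongr h)

/-- conjugation by `g⁻¹`, in block form -/
def cj {m n N : ℕ} (h : m + n = N) (g V : UG (Fin N)) : UG (Fin m ⊕ Fin n) :=
  rix (eN h).symm (g⁻¹ * V * g)

end

end Pool.Agent.T2H01.EK2
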