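import Mathlib
import Pool.Agent.T2H01.EK2.Base

/-!
# From a group between `SU(N)` and `U(N)` to `U(N)`
-/

open MeasureTheory Matrix Filter
open scoped Matrix.Norms.Frobenius Topology

namespace Pool.Agent.T2H01.EK2

set_option linter.unusedSectionVars false
set_option linter.unusedVariables false

noncomputable section

variable {N d : ℕ}

/-- scalar elements -/
def IsSc (z : UG (Fin N)) : Prop := ∃ c : ℂ, (z : MM (Fin N)) = c • 1

lemma det_norm (V : UG (Fin N)) : ‖(V : MM (Fin N)).det‖ = 1 := by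
  have h := congrArg Matrix.det (ug1 V)
  rw [det_mul, det_conjTranspose, det_one] at h
  have h2 : ((‖(V : MM (Fin N)).det‖ ^ 2 : ℝ) : ℂ) = 1 := by
    rw [← h, ← Complex.normSq_eq_norm_sq, Complex.normSq_eq_conj_mul_self]
    rfl
  have h3 : ‖(V : MM (Fin N)).det‖ ^ 2 = 1 := by exact_mod_cast h2
  have := norm_nonneg (V : MM (Fin N)).det
  nlinarith

/-- every unitary matrix is a scalar times a special unitary one -/
lemma exists_sc (hN : 0 < N) (V : UG (Fin N)) :
    ∃ z s : UG (Fin N), IsSc z ∧ (s : MM (Fin N)).det = 1 ∧ V = z * s := by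
  obtain ⟨c, hc, hcN⟩ : ∃ c : ℂ, ‖c‖ = 1 ∧ c ^ N = (V : MM (Fin N)).det := by
    refine ⟨Complex.exp ((((V : MM (Fin N)).det.arg / N : ℝ) : ℂ) * Complex.I),
      Complex.norm_exp_ofReal_mul_I _, ?_⟩
    have hN' : (N : ℂ) ≠ 0 := by exact_mod_cast hN.ne'
    rw [← Complex.exp_nat_mul]
    have e1 : (N : ℂ) * ((((V : MM (Fin N)).det.arg / N : ℝ) : ℂ) * Complex.I) =
        ((V : MM (Fin N)).det.arg : ℂ) * Complex.I := by
      push_cast
      field_simp
    rw [e1]
    have e2 := Complex.norm_mul_exp_arg_mul_I (V : MM (Fin N)).det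
    rwa [det_norm, Complex.ofReal_one, one_mul] at e2
  have hcc : star c * c = 1 := by
    rw [Complex.star_def, ← Complex.normSq_eq_conj_mul_self, Complex.normSq_eq_norm_sq, hc]
    simp
  obtain ⟨z, hz⟩ : ∃ z : UG (Fin N), (z : MM (Fin N)) = c • 1 := by
    refine ⟨⟨c • 1, ?_⟩, rfl⟩
    rw [Matrix.mem_unitaryGroup_iff', star_eq_conjTranspose, conjTranspose_smul,
      conjTranspose_one, smul_mul_smul_comm, hcc, one_mul, one_smul]
  refine ⟨z, z⁻¹ * V, ⟨c, hz⟩, ?_, by group⟩
  rw [ug_mul, ug_inv, hz, conjTranspose_smul, conjTranspose_one, det_mul, det_smul, det_one,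
    mul_one, Fintype.card_fin, ← hcN, ← mul_pow, hcc, one_pow]

variable {G : Subgroup (UG (Fin N))} [MeasurableSpace G] [BorelSpace G] [CompactSpace G]
  [SecondCountableTopology G] (μ : Measure G) [IsProbabilityMeasure μ] [μ.IsMulLeftInvariant]
  [μ.IsMulRightInvariant]

/-- the integral of a function of `d` group elements which does not see the scalars -/
theorem conv (hN : 0 < N) (hSU : ∀ U : UG (Fin N), (U : MM (Fin N)).det = 1 → U ∈ G)
    {Φ : (Fin d → UG (Fin N)) → ℝ} (hΦ : Continuous Φ)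
    (hinv : ∀ z V : Fin d → UG (Fin N), (∀ i, IsSc (z i)) → Φ (z * V) = Φ V) :
    ∫ P : Fin d → G, Φ (fun i => (P i : UG (Fin N))) ∂Measure.pi (fun _ => μ) =
      ∫ V, Φ V ∂Measure.pi (fun _ : Fin d => hm (Fin N)) := by
  obtain ⟨c, hc⟩ : ∃ c : (Fin d → G) → Fin d → UG (Fin N), c = fun P i => (P i : UG (Fin N)) :=
    ⟨_, rfl⟩
  have hcc : Continuous c := by
    rw [hc]
    exact continuous_pi fun i => continuous_subtype_val.comp (continuous_apply i)
  have hmul : ∀ P Q, c (P * Q) = c P * c Q := by intro P Q; rw [hc]; rfl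
  have h1 : ∀ P : Fin d → G, ∫ V, Φ V ∂Measure.pi (fun _ : Fin d => hm (Fin N)) =
      ∫ V, Φ (c P * V) ∂Measure.pi (fun _ : Fin d => hm (Fin N)) := fun P =>
    (integral_mul_left_eq_self (μ := Measure.pi (fun _ : Fin d => hm (Fin N))) Φ (c P)).symm
  have h2 : ∫ P, ∫ V, Φ (c P * V) ∂Measure.pi (fun _ : Fin d => hm (Fin N))
      ∂(Measure.pi fun _ : Fin d => μ) = ∫ V, Φ V ∂Measure.pi (fun _ : Fin d => hm (Fin N)) := by
    simp only [← h1]
    rw [integral_const, probReal_univ, one_smul]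
  rw [← h2, integral_integral_swap]
  · have h3 : ∀ V : Fin d → UG (Fin N), ∫ P, Φ (c P * V) ∂(Measure.pi fun _ : Fin d => μ) =
        ∫ P, Φ (c P) ∂(Measure.pi fun _ : Fin d => μ) := by
      intro V
      choose z s hz hs hV using fun i => exists_sc hN (V i)
      obtain ⟨Q, hQ⟩ : ∃ Q : Fin d → G, Q = fun i => ⟨s i, hSU _ (hs i)⟩ := ⟨_, rfl⟩
      have hcQ : c Q = s := by
        rw [hc, hQ]
      have hzc : ∀ P, c P * V = z * c (P * Q) := by
        intro P
        rw [hmul, hcQ]
        funext i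
        simp only [Pi.mul_apply]
        rw [hV i, ← mul_assoc, ← mul_assoc]
        congr 1
        obtain ⟨a, ha⟩ := hz i
        apply Subtype.ext
        rw [ug_mul, ug_mul, ha]
        simp
      simp only [hzc, hinv z _ hz]
      exact integral_mul_right_eq_self (μ := Measure.pi fun _ : Fin d => μ) (fun P => Φ (c P)) Q
    simp only [h3]
    rw [integral_const, probReal_univ, one_smul, hc]
  · have h4 : Continuous (Function.uncurry fun (P : Fin d → G) (V : Fin d → UG (Fin N)) =>
        Φ (c P * V)) := hΦ.comp ((hcc.comp continuous_fst).mul continuous_snd)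
    exact h4.integrable_of_hasCompactSupport (HasCompactSupport.of_compactSpace _)

end

end Pool.Agent.T2H01.EK2
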