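import Mathlib
import Pool.Agent.T2H01.EK.WkB
import Pool.Agent.T2H01.EK2.Base

/-!
# From the torus to `d` commuting matrices
-/

open MeasureTheory Matrix Filter
open scoped Matrix.Norms.Frobenius Topology
open Pool.Agent.H906R3.YM Pool.Agent.W793.YM Pool.Agent.TH618.YM Pool.Agent.T2H01.YM
open Pool.Agent.T2H01.EK

namespace Pool.Agent.T2H01.EK2

set_option linter.unusedSectionVars false
set_option linter.unusedVariables false

noncomputable section

section tor

variable {G : Type*} [Group G] [TopologicalSpace G] [IsTopologicalGroup G] [CompactSpace G]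
  [SecondCountableTopology G] [MeasurableSpace G] [BorelSpace G] (μ : Measure G)
  [IsProbabilityMeasure μ] [μ.IsMulLeftInvariant] [μ.IsMulRightInvariant] [μ.IsInvInvariant]
  {N n d l : ℕ} [NeZero l] {L : LD G N n}

/-- the shift of the first links of the lines -/
def shT (P : Fin d → G) : Ed d l → G := fun e => if e.1 = 0 then P e.2 else 1

lemma ln_shT_rest (U : Ed d l → G) (P : Fin d → G) (k : Fin d) (m a : ℕ) (ha : 1 ≤ a)
    (hm : a + m ≤ l) : ln (shT P * U) k m (a • (eT k : Fin d → ZMod l)) =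
      ln U k m (a • (eT k : Fin d → ZMod l)) := by
  induction m generalizing a with
  | zero => rfl
  | succ m ih =>
    show (shT P * U : Ed d l → G) (a • eT k, k) * ln (shT P * U) k m (a • eT k + eT k) =
      U (a • eT k, k) * ln U k m (a • eT k + eT k)
    have h1 : (a • eT k + eT k : Fin d → ZMod l) = (a + 1) • eT k := by
      rw [add_smul, one_smul]
    have h2 : ¬(a • (eT k : Fin d → ZMod l)) = 0 := by
      intro h
      have h3 := congrFun h k
      simp only [Pi.zero_apply] at h3
      rw [LN.nsmul_eT_apply, if_pos rfl, ZMod.natCast_eq_zero_iff] at h3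
      have := Nat.le_of_dvd (by omega) h3
      omega
    rw [h1, ih (a + 1) (by omega) (by omega), Pi.mul_apply]
    unfold shT
    simp only [if_neg h2, one_mul]

lemma pol_shT (U : Ed d l → G) (P : Fin d → G) (k : Fin d) :
    pol (shT P * U) k = P k * pol U k := by
  have hl : l ≠ 0 := NeZero.ne l
  obtain ⟨m, rfl⟩ : ∃ m, l = m + 1 := ⟨l - 1, by omega⟩
  unfold pol
  show (shT P * U : Ed d (m + 1) → G) (0, k) * ln (shT P * U) k m (0 + eT k) =
    P k * (U (0, k) * ln U k m (0 + eT k))
  have h1 : (0 + eT k : Fin d → ZMod (m + 1)) = 1 • eT k := by simp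
  rw [h1, ln_shT_rest U P k m 1 le_rfl (by omega), Pi.mul_apply]
  unfold shT
  simp only [if_true, mul_assoc]

/-- the lines around the torus are independent Haar variables -/
lemma law_pol {F : (Fin d → G) → ℝ} (hF : Continuous F) :
    ∫ U, F (fun k => pol U k) ∂ME μ (Ed d l) = ∫ P, F P ∂Measure.pi fun _ : Fin d => μ := by
  have hpc : Continuous fun U : Ed d l → G => fun k => pol U k := continuous_pi fun k => pol_cont k
  have h1 : ∀ P : Fin d → G, ∫ U, F (fun k => pol U k) ∂ME μ (Ed d l) =
      ∫ U, F (P * fun k => pol U k) ∂ME μ (Ed d l) := by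
    intro P
    have e1 := integral_mul_left_eq_self (μ := ME μ (Ed d l)) (fun U => F (fun k => pol U k))
      (shT P : Ed d l → G)
    rw [← e1]
    refine integral_congr_ae (Eventually.of_forall fun U => ?_)
    simp only [pol_shT]
    rfl
  have h2 : ∫ P, ∫ U, F (P * fun k => pol U k) ∂ME μ (Ed d l) ∂(Measure.pi fun _ : Fin d => μ) =
      ∫ U, F (fun k => pol U k) ∂ME μ (Ed d l) := by
    simp only [← h1]
    rw [integral_const, probReal_univ, one_smul]
  rw [← h2, integral_integral_swap]
  · have h3 : ∀ U : Ed d l → G, ∫ P, F (P * fun k => pol U k) ∂(Measure.pi fun _ : Fin d => μ) =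
        ∫ P, F P ∂(Measure.pi fun _ : Fin d => μ) := fun U =>
      integral_mul_right_eq_self (μ := Measure.pi fun _ : Fin d => μ) F _
    simp only [h3]
    rw [integral_const, probReal_univ, one_smul]
  · have h4 : Continuous (Function.uncurry fun (P : Fin d → G) (U : Ed d l → G) =>
        F (P * fun k => pol U k)) :=
      hF.comp (continuous_fst.mul (hpc.comp continuous_snd))
    exact h4.integrable_of_hasCompactSupport (HasCompactSupport.of_compactSpace _)

variable (L) in
/-- the squares of the commutators -/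
def cms (P : Fin d → G) : ℝ := ∑ i : Fin d, ∑ j : Fin d,
  if i < j then ‖L.rho (P i) * L.rho (P j) - L.rho (P j) * L.rho (P i)‖ ^ 2 else 0

lemma cms_cont : Continuous (cms L : (Fin d → G) → ℝ) := by
  unfold cms
  refine continuous_finsetSum _ fun i _ => continuous_finsetSum _ fun j _ => ?_
  split_ifs
  · have h : ∀ k : Fin d, Continuous fun P : Fin d → G => L.rho (P k) := fun k =>
      L.cont.comp (continuous_apply k)
    exact ((((h i).mul (h j)).sub ((h j).mul (h i))).norm).pow 2
  · exact continuous_const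

lemma comm_norm (a c : G) : ‖1 - L.rho (a * c * a⁻¹ * c⁻¹)‖ =
    ‖L.rho a * L.rho c - L.rho c * L.rho a‖ := by
  have e1 : (L.rho a * L.rho c - L.rho c * L.rho a) =
      -((1 - L.rho (a * c * a⁻¹ * c⁻¹)) * L.rho (c * a)) := by
    rw [sub_mul, one_mul, ← map_mul, ← map_mul, ← map_mul]
    have : a * c * a⁻¹ * c⁻¹ * (c * a) = a * c := by group
    rw [this]; abel
  have e2 : ∀ (A : Mat N) (g : G), ‖A * L.rho g‖ = ‖A‖ := by
    intro A g
    have h2 : ‖A * L.rho g‖ ^ 2 = ‖A‖ ^ 2 := by
      rw [norm_sq_ip, norm_sq_ip, ip_apply, ip_apply, conjTranspose_mul, trace_mul_comm, mul_assoc,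
        ← mul_assoc (L.rho g), L.unit, one_mul, trace_mul_comm]
    exact (sq_eq_sq₀ (norm_nonneg _) (norm_nonneg _)).1 h2
  rw [e1, norm_neg, e2]

/-- the action is bounded below by the ordinary plaquettes and the commutators -/
lemma act_lower2 {O : Finset (Ed d l)} {pd : Ed d l → (Fin d → ZMod l) × Fin d × Fin d}
    {rk : Ed d l → ℕ} (hO : ∀ e ∈ O, (pd e).2.1 ≠ (pd e).2.2 ∧ e ∈ lks (pd e) ∧ 1 ≤ rk e ∧
      ∀ e' ∈ lks (pd e), e' ≠ e → e' ∈ O → rk e' < rk e) (U : Ed d l → G) :
    1 / 2 * ∑ e ∈ O, we L (plqT U (pd e).1 (pd e).2.1 (pd e).2.2) +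
      1 / (4 * (l : ℝ) ^ 2) * cms L (fun k => pol U k) ≤ act L U := by
  have hl' : (0 : ℝ) < l := by
    have := NeZero.pos l
    exact_mod_cast this
  have h1 := ord_le (L := L) hO U
  have h3 : 1 / (4 * (l : ℝ) ^ 2) * cms L (fun k => pol U k) ≤ 1 / 2 * act L U := by
    unfold cms act
    rw [Finset.mul_sum]
    have e0 : ∑ x : Fin d → ZMod l, ∑ i : Fin d, ∑ j : Fin d,
        (if i < j then we L (plqT U x i j) else 0) =
        ∑ i : Fin d, ∑ j : Fin d, if i < j then ∑ x : Fin d → ZMod l, we L (plqT U x i j) else 0 := by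
      rw [Finset.sum_comm]
      refine Finset.sum_congr rfl fun i _ => ?_
      rw [Finset.sum_comm]
      refine Finset.sum_congr rfl fun j _ => ?_
      split_ifs
      · rfl
      · exact Finset.sum_const_zero
    rw [e0, Finset.mul_sum]
    refine Finset.sum_le_sum fun i _ => ?_
    rw [Finset.mul_sum, Finset.mul_sum]
    refine Finset.sum_le_sum fun j _ => ?_
    split_ifs with hij
    · have e2 := comm_le (L := L) (ne_of_lt hij) U
      rw [comm_norm] at e2
      have e3 := mul_le_mul_of_nonneg_left e2 (show 0 ≤ 1 / (4 * (l : ℝ) ^ 2) by positivity)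
      refine e3.trans (le_of_eq ?_)
      field_simp
      ring
    · simp
  linarith

/-- the upper bound -/
theorem tor_upper (hN : 0 < N) (hg : HG L) {b : ℝ} (hb : 0 ≤ b) {W : (Fin d → G) → ℝ}
    (hW : Continuous W) (hW0 : ∀ P, 0 ≤ W P) :
    Zt μ L (N * b) (fun U : Ed d l → G => W (fun k => pol U k)) ≤
      Real.exp (-(((N : ℝ) ^ 2 - 1) / 2 * Real.log (1 + b))) ^ ((d - 1) * (l ^ d - 1)) *
        ∫ P, W P * Real.exp (-(N * b / (4 * (l : ℝ) ^ 2) * cms L P)) ∂Measure.pi fun _ : Fin d => μ := by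
  classical
  obtain ⟨O, pd, rk, hcard, hO, hax, -⟩ := tree d l
  have hl' : (0 : ℝ) < l := by
    have := NeZero.pos l
    exact_mod_cast this
  have hN' : (0 : ℝ) < N := by exact_mod_cast hN
  have hOc : ∀ e ∈ O, ∀ (k : Fin d) (a : ℕ), e ≠ ((a • (eT k : Fin d → ZMod l), k) : Ed d l) := by
    intro e he k a h
    exact hax k a (h ▸ he)
  have hl2 : ∀ e ∈ O, 2 ≤ l := by
    intro e he
    have h1 : 0 < O.card := Finset.card_pos.2 ⟨e, he⟩
    rw [hcard] at h1
    by_contra hlt
    have h2 : l = 1 := by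
      have := NeZero.pos l
      omega
    subst h2
    simp at h1
  have hpc : Continuous fun U : Ed d l → G => fun k => pol U k := continuous_pi fun k => pol_cont k
  have hplc : ∀ e : Ed d l, Continuous fun U : Ed d l → G =>
      plqT U (pd e).1 (pd e).2.1 (pd e).2.2 := by
    intro e
    unfold plqT
    have h : ∀ e, Continuous fun U : Ed d l → G => U e := fun e => continuous_apply e
    exact (((h _).mul (h _)).mul (h _).inv).mul (h _).inv
  obtain ⟨F0, hF0⟩ : ∃ F0 : (Fin d → G) → ℝ, F0 = fun P =>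
    W P * Real.exp (-(N * b / (4 * (l : ℝ) ^ 2) * cms L P)) := ⟨_, rfl⟩
  have hF0c : Continuous F0 := by
    rw [hF0]
    exact hW.mul (Real.continuous_exp.comp (continuous_const.mul cms_cont).neg)
  obtain ⟨F1, hF1⟩ : ∃ F1 : (Ed d l → G) → ℝ, F1 = fun U => F0 (fun k => pol U k) := ⟨_, rfl⟩
  have hF1c : Continuous F1 := by
    rw [hF1]; exact hF0c.comp hpc
  have hF10 : ∀ U, 0 ≤ F1 U := by
    intro U
    rw [hF1, hF0]
    exact mul_nonneg (hW0 _) (Real.exp_pos _).le
  obtain ⟨f, hf⟩ : ∃ f : Ed d l → (Ed d l → G) → ℝ, f = fun e U =>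
    Real.exp (-(N * (b / 2) * we L (plqT U (pd e).1 (pd e).2.1 (pd e).2.2))) := ⟨_, rfl⟩
  have hfc : ∀ e, Continuous (f e) := by
    intro e
    rw [hf]
    exact Real.continuous_exp.comp (continuous_const.mul (we_cont.comp (hplc e))).neg
  have hf0 : ∀ e U, 0 ≤ f e U := by
    intro e U
    rw [hf]
    exact (Real.exp_pos _).le
  have s1 : Zt μ L (N * b) (fun U : Ed d l → G => W (fun k => pol U k)) ≤
      ∫ U, (∏ e ∈ O, f e U) * F1 U ∂ME μ (Ed d l) := by
    unfold Zt
    refine integral_mono (intE μ ?_) (intE μ ?_) fun U => ?_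
    · exact (hW.comp hpc).mul (Real.continuous_exp.comp
        (continuous_const.mul (act_cont : Continuous (act L : (Ed d l → G) → ℝ))).neg)
    · exact (continuous_finsetProd _ fun e _ => hfc e).mul hF1c
    · show W (fun k => pol U k) * Real.exp (-(N * b * act L U)) ≤ (∏ e ∈ O, f e U) * F1 U
      rw [hF1, hF0, hf]
      simp only
      rw [← Real.exp_sum, mul_comm (W _), mul_comm (W _), ← mul_assoc, ← Real.exp_add]
      refine mul_le_mul_of_nonneg_right (Real.exp_le_exp.2 ?_) (hW0 _)
      rw [Finset.sum_neg_distrib, ← Finset.mul_sum, ← neg_add]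
      refine neg_le_neg ?_
      have e1 := mul_le_mul_of_nonneg_left (act_lower2 (L := L) hO U)
        (show 0 ≤ (N : ℝ) * b by positivity)
      refine le_trans (le_of_eq ?_) e1
      field_simp
  -- step 2: the ordinary links
  have s2 : ∫ U, (∏ e ∈ O, f e U) * F1 U ∂ME μ (Ed d l) ≤
      (∏ e ∈ O, Real.exp (-(((N : ℝ) ^ 2 - 1) / 2 * Real.log (1 + b)))) *
        ∫ U, F1 U ∂ME μ (Ed d l) := by
    refine seq_le μ O id rk f F1 _ hfc hf0 hF1c hF10 ?_ ?_ ?_
    · intro e he U
      rw [hf]
      simp only [id]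
      rw [plq_int μ (hl2 e he) (hO e he).1 (hO e he).2.1
        (fun g => Real.exp (-(N * (b / 2) * we L g))) U]
      have e1 := link_plq μ (L := L) hN hg (t := b / 2) (by linarith)
      have e2 : 1 + 2 * (b / 2) = 1 + b := by ring
      rwa [e2] at e1
    · intro e he e' he' hne hrk g U
      rw [hf]
      simp only [id]
      rw [plq_sh_not]
      intro hmem
      have := (hO e' he').2.2.2 e hmem hne.symm he
      omega
    · intro e he g U
      rw [hF1]
      simp only [id]
      have e1 : ∀ k, pol (LN.sh e g U) k = pol U k := fun k => pol_sh_not (hOc e he k) g U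
      simp only [e1]
  refine s1.trans (s2.trans (le_of_eq ?_))
  rw [Finset.prod_const, hcard, hF1, law_pol μ hF0c, hF0]

end tor

end

end Pool.Agent.T2H01.EK2
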