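import Mathlib
import Pool.Agent.T2H01.EK2.Base

/-!
# The inequality of Cauchy and Schwarz along a cycle
-/

open MeasureTheory Matrix
open scoped Matrix.Norms.Frobenius Topology ENNReal

namespace Pool.Agent.T2H01.EK2

set_option linter.unusedSectionVars false
set_option linter.unusedVariables false

noncomputable section

variable {ι κ : Type} [Fintype ι] [DecidableEq ι] [Fintype κ] [DecidableEq κ]

lemma cyc_snoc {X : Type*} [MeasurableSpace X] (ν : Measure X) [IsProbabilityMeasure ν] {n : ℕ}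
    (F : (Fin (n + 1) → X) → ℝ≥0∞) (hF : Measurable F) :
    ∫⁻ x, F x ∂(Measure.pi fun _ : Fin (n + 1) => ν) =
      ∫⁻ y : Fin n → X, ∫⁻ z, F (Fin.snoc (α := fun _ => X) y z) ∂ν
        ∂(Measure.pi fun _ : Fin n => ν) := by
  have hp := (measurePreserving_piFinSuccAbove (fun _ : Fin (n + 1) => ν) (Fin.last n)).symm
  rw [← hp.lintegral_comp hF]
  rw [lintegral_prod_symm' (fun a : X × (Fin n → X) =>
    F ((MeasurableEquiv.piFinSuccAbove (fun _ => X) (Fin.last n)).symm a)) (hF.comp hp.measurable)]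
  refine lintegral_congr fun y => lintegral_congr fun z => ?_
  congr 1
  exact Fin.insertNth_last' _ _

lemma cyc_cs {X : Type*} [MeasurableSpace X] (ν : Measure X) {u v : X → ℝ≥0∞}
    (hu : Measurable u) (hv : Measurable v) :
    (∫⁻ x, u x * v x ∂ν) ^ 2 ≤ (∫⁻ x, u x ^ 2 ∂ν) * ∫⁻ x, v x ^ 2 ∂ν := by
  have h := ENNReal.lintegral_mul_le_Lp_mul_Lq ν (p := 2) (q := 2)
    Real.HolderConjugate.two_two hu.aemeasurable hv.aemeasurable
  have h2 := pow_le_pow_left' h 2
  rw [mul_pow, ← ENNReal.rpow_mul_natCast, ← ENNReal.rpow_mul_natCast] at h2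
  simpa using h2

/-- the path kernels -/
def cyk {X : Type*} [MeasurableSpace X] (ν : Measure X) (f : X × X → ℝ≥0∞) : ℕ → X × X → ℝ≥0∞
  | 0 => f
  | n + 1 => fun p => ∫⁻ z, cyk ν f n (p.1, z) * f (z, p.2) ∂ν

lemma cyk_meas {X : Type*} [MeasurableSpace X] (ν : Measure X) [IsProbabilityMeasure ν]
    {f : X × X → ℝ≥0∞} (hf : Measurable f) (n : ℕ) : Measurable (cyk ν f n) := by
  induction n with
  | zero => exact hf
  | succ n ih =>
    unfold cyk
    refine Measurable.lintegral_prod_right' (f := fun q : (X × X) × X =>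
      cyk ν f n (q.1.1, q.2) * f (q.2, q.1.2)) ?_
    exact (ih.comp (by fun_prop)).mul (hf.comp (by fun_prop))

lemma cyk_norm {X : Type*} [MeasurableSpace X] (ν : Measure X) [IsProbabilityMeasure ν]
    {f : X × X → ℝ≥0∞} (hf : Measurable f) (n : ℕ) :
    ∫⁻ p, cyk ν f n p ^ 2 ∂ν.prod ν ≤ (∫⁻ p, f p ^ 2 ∂ν.prod ν) ^ (n + 1) := by
  induction n with
  | zero => simp [cyk]
  | succ n ih =>
    have hk := cyk_meas ν hf n
    have h1 : ∀ p : X × X, cyk ν f (n + 1) p ^ 2 ≤
        (∫⁻ z, cyk ν f n (p.1, z) ^ 2 ∂ν) * ∫⁻ z, f (z, p.2) ^ 2 ∂ν := fun p =>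
      cyc_cs ν (hk.comp (by fun_prop)) (hf.comp (by fun_prop))
    refine (lintegral_mono h1).trans ?_
    have hA : Measurable fun x : X => ∫⁻ z, cyk ν f n (x, z) ^ 2 ∂ν :=
      Measurable.lintegral_prod_right' (f := fun q : X × X => cyk ν f n q ^ 2) (hk.pow_const 2)
    have hB : Measurable fun y : X => ∫⁻ z, f (z, y) ^ 2 ∂ν :=
      Measurable.lintegral_prod_right' (f := fun q : X × X => f (q.2, q.1) ^ 2)
        ((hf.comp (by fun_prop)).pow_const 2)
    rw [lintegral_prod_mul hA.aemeasurable hB.aemeasurable, ← lintegral_prod _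
      (hk.pow_const 2).aemeasurable, ← lintegral_prod_symm' (fun q : X × X => f q ^ 2)
      (hf.pow_const 2), pow_succ]
    exact mul_le_mul' ih le_rfl

lemma cyc_path {X : Type*} [MeasurableSpace X] (ν : Measure X) [IsProbabilityMeasure ν]
    {f : X × X → ℝ≥0∞} (hf : Measurable f) (n : ℕ) : ∀ (h : X × X → ℝ≥0∞), Measurable h →
    ∫⁻ x : Fin (n + 2) → X, (∏ i : Fin (n + 1), f (x i.castSucc, x i.succ)) *
        h (x 0, x (Fin.last (n + 1))) ∂(Measure.pi fun _ => ν) =
      ∫⁻ p, cyk ν f n p * h p ∂ν.prod ν := by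
  induction n with
  | zero =>
    intro h hh
    rw [cyc_snoc ν _ (by fun_prop)]
    have hp := (measurePreserving_piUnique (fun _ : Fin 1 => ν)).symm
    rw [← hp.lintegral_comp (f := fun y : Fin 1 → X => ∫⁻ z, (∏ i : Fin (0 + 1),
        f (Fin.snoc (α := fun _ => X) y z i.castSucc, Fin.snoc (α := fun _ => X) y z i.succ)) *
        h (Fin.snoc (α := fun _ => X) y z 0,
          Fin.snoc (α := fun _ => X) y z (Fin.last (0 + 1))) ∂ν) (by
        refine Measurable.lintegral_prod_right' (f := fun q : (Fin 1 → X) × X =>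
          (∏ i : Fin (0 + 1), f (Fin.snoc (α := fun _ => X) q.1 q.2 i.castSucc,
            Fin.snoc (α := fun _ => X) q.1 q.2 i.succ)) *
          h (Fin.snoc (α := fun _ => X) q.1 q.2 0,
            Fin.snoc (α := fun _ => X) q.1 q.2 (Fin.last (0 + 1)))) ?_
        simp [Fin.snoc]
        fun_prop)]
    rw [lintegral_prod (fun p => cyk ν f 0 p * h p) ((hf.mul hh).aemeasurable)]
    refine lintegral_congr fun y => lintegral_congr fun z => ?_
    simp [Fin.snoc, cyk]
  | succ n ih =>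
    intro h hh
    have hk := cyk_meas ν hf n
    rw [cyc_snoc ν _ (by fun_prop)]
    set H : X × X → ℝ≥0∞ := fun p => ∫⁻ z, f (p.2, z) * h (p.1, z) ∂ν with hH
    have hHm : Measurable H := by
      refine Measurable.lintegral_prod_right' (f := fun q : (X × X) × X =>
        f (q.1.2, q.2) * h (q.1.1, q.2)) ?_
      exact (hf.comp (by fun_prop)).mul (hh.comp (by fun_prop))
    have e1 : ∀ y : Fin (n + 2) → X, ∫⁻ z, (∏ i : Fin (n + 1 + 1),
        f (Fin.snoc (α := fun _ => X) y z i.castSucc, Fin.snoc (α := fun _ => X) y z i.succ)) *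
        h (Fin.snoc (α := fun _ => X) y z 0,
          Fin.snoc (α := fun _ => X) y z (Fin.last (n + 1 + 1))) ∂ν =
        (∏ i : Fin (n + 1), f (y i.castSucc, y i.succ)) * H (y 0, y (Fin.last (n + 1))) := by
      intro y
      rw [hH, ← lintegral_const_mul _ (by fun_prop)]
      refine lintegral_congr fun z => ?_
      rw [Fin.prod_univ_castSucc, mul_assoc]
      congr 1
      · refine Finset.prod_congr rfl fun i _ => ?_
        rw [Fin.succ_castSucc, Fin.snoc_castSucc, Fin.snoc_castSucc]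
      · rw [Fin.snoc_castSucc, Fin.succ_last, Fin.snoc_last, ← Fin.castSucc_zero,
          Fin.snoc_castSucc]
    rw [lintegral_congr e1, ih H hHm,
      lintegral_prod (fun p => cyk ν f n p * H p) ((hk.mul hHm).aemeasurable),
      lintegral_prod (fun p => cyk ν f (n + 1) p * h p)
        (((cyk_meas ν hf (n + 1)).mul hh).aemeasurable)]
    refine lintegral_congr fun x => ?_
    have e2 : ∀ y : X, cyk ν f n (x, y) * H (x, y) =
        ∫⁻ z, cyk ν f n (x, y) * (f (y, z) * h (x, z)) ∂ν := by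
      intro y
      rw [hH, lintegral_const_mul _ (by fun_prop)]
    have e3 : ∀ z : X, cyk ν f (n + 1) (x, z) * h (x, z) =
        ∫⁻ y, cyk ν f n (x, y) * (f (y, z) * h (x, z)) ∂ν := by
      intro z
      have e4 : cyk ν f (n + 1) (x, z) = ∫⁻ y, cyk ν f n (x, y) * f (y, z) ∂ν := rfl
      rw [e4, ← lintegral_mul_const _ (by fun_prop)]
      refine lintegral_congr fun y => ?_
      rw [mul_assoc]
    rw [lintegral_congr e2, lintegral_congr e3, lintegral_lintegral_swap]
    exact Measurable.aemeasurable (by fun_prop)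

theorem cyc {X : Type*} [MeasurableSpace X] (ν : Measure X) [IsProbabilityMeasure ν] {d : ℕ}
    [NeZero d] (hd : 2 ≤ d) (f : X × X → ℝ≥0∞) (hf : Measurable f) :
    (∫⁻ x : Fin d → X, ∏ i, f (x i, x (i + 1)) ∂Measure.pi fun _ => ν) ^ 2 ≤
      (∫⁻ p, f p ^ 2 ∂ν.prod ν) ^ d := by
  obtain ⟨n, rfl⟩ : ∃ n, d = n + 2 := ⟨d - 2, by omega⟩
  have e : ∀ x : Fin (n + 2) → X, ∏ i, f (x i, x (i + 1)) =
      (∏ i : Fin (n + 1), f (x i.castSucc, x i.succ)) *
        (fun p : X × X => f p.swap) (x 0, x (Fin.last (n + 1))) := by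
    intro x
    rw [Fin.prod_univ_castSucc]
    congr 1
    · refine Finset.prod_congr rfl fun i _ => ?_
      rw [Fin.coeSucc_eq_succ]
    · rw [Fin.last_add_one]; rfl
  rw [lintegral_congr e, cyc_path ν hf n (fun p : X × X => f p.swap) (hf.comp measurable_swap)]
  refine (cyc_cs (ν.prod ν) (cyk_meas ν hf n) (hf.comp measurable_swap)).trans ?_
  have h2 : ∫⁻ p, f p.swap ^ 2 ∂ν.prod ν = ∫⁻ p, f p ^ 2 ∂ν.prod ν :=
    lintegral_prod_swap (fun p => f p ^ 2)
  have h3 := cyk_norm ν hf n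
  calc _ = (∫⁻ p, cyk ν f n p ^ 2 ∂ν.prod ν) * ∫⁻ p, f p ^ 2 ∂ν.prod ν := by rw [← h2]; rfl
    _ ≤ (∫⁻ p, f p ^ 2 ∂ν.prod ν) ^ (n + 1) * ∫⁻ p, f p ^ 2 ∂ν.prod ν := mul_le_mul' h3 le_rfl
    _ = _ := (pow_succ _ _).symm

end

end Pool.Agent.T2H01.EK2
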