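import Mathlib

/-!
# Unitary matrices are unitarily diagonalizable (any index type); points on the circle
-/

namespace Pool.Agent.T2H01.EK2.TwoD

open Matrix
open scoped Matrix.Norms.L2Operator

set_option linter.unusedSectionVars false
set_option linter.unusedVariables false

variable {ι : Type} [Fintype ι] [DecidableEq ι]

/-- the unit circle is infinite, so some unit number avoids a finite set -/
theorem expl_exists_unit (s : Set ℂ) (hs : s.Finite) : ∃ c : ℂ, ‖c‖ = 1 ∧ -c ∉ s := by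
  have h1 : (Set.range (fun n : ℕ => (-((Circle.exp (1 / ((n : ℝ) + 1)) : Circle) : ℂ)))).Infinite := by
    refine Set.infinite_range_of_injective ?_
    intro n m hnm
    have h2 : ((Circle.exp (1 / ((n : ℝ) + 1)) : Circle) : ℂ) = (Circle.exp (1 / ((m : ℝ) + 1)) : Circle) :=
      neg_injective hnm
    have h3 : ∀ n : ℕ, Complex.arg ((Circle.exp (1 / ((n : ℝ) + 1)) : Circle) : ℂ) = 1 / ((n : ℝ) + 1) := by
      intro n
      have h4 : (0 : ℝ) < 1 / ((n : ℝ) + 1) := by positivity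
      have h5 : 1 / ((n : ℝ) + 1) ≤ 1 := by
        rw [div_le_one (by positivity)]
        have : (0 : ℝ) ≤ n := Nat.cast_nonneg n
        linarith
      have h6 := Real.pi_gt_three
      exact Circle.arg_exp (by linarith) (by linarith)
    have h4 := h3 n
    rw [h2, h3 m] at h4
    have h5 : (m : ℝ) + 1 = (n : ℝ) + 1 := by
      have := congrArg (fun x : ℝ => x⁻¹) h4
      simpa using this
    have h6 : (m : ℝ) = n := by linarith
    exact_mod_cast h6.symm
  obtain ⟨x, ⟨n, rfl⟩, hx⟩ := h1.exists_notMem_finite hs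
  exact ⟨_, Circle.norm_coe _, hx⟩

theorem unitary_exp (u : Matrix.unitaryGroup ι ℂ) : ∃ c : ℂ, ‖c‖ = 1 ∧ ∃ h : Matrix ι ι ℂ,
    h.IsHermitian ∧ (u : Matrix ι ι ℂ) = c • NormedSpace.exp (Complex.I • h) := by
  have hfin : (spectrum ℂ (u : Matrix ι ι ℂ)).Finite := Matrix.finite_spectrum _
  obtain ⟨c, hc1, hc2⟩ := expl_exists_unit _ hfin
  have hc0 : c ≠ 0 := by
    rintro rfl
    simp at hc1
  have hcc : star c * c = 1 := by
    have h1 : star c * c = ((‖c‖ ^ 2 : ℝ) : ℂ) := by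
      rw [← Complex.normSq_eq_norm_sq, Complex.normSq_eq_conj_mul_self]
      rfl
    rw [h1, hc1]
    norm_num
  have hcc' : c * star c = 1 := by rw [mul_comm]; exact hcc
  have hmem : star c • (u : Matrix ι ι ℂ) ∈ unitary (Matrix ι ι ℂ) := by
    rw [Unitary.mem_iff]
    have h1 : star (u : Matrix ι ι ℂ) * (u : Matrix ι ι ℂ) = 1 := Unitary.coe_star_mul_self u
    have h2 : (u : Matrix ι ι ℂ) * star (u : Matrix ι ι ℂ) = 1 := Unitary.coe_mul_star_self u
    constructor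
    · rw [star_smul, star_star, smul_mul_smul_comm, h1, hcc', one_smul]
    · rw [star_smul, star_star, smul_mul_smul_comm, h2, hcc, one_smul]
  set u' : unitary (Matrix ι ι ℂ) := ⟨star c • (u : Matrix ι ι ℂ), hmem⟩ with hu'
  have hlt : ‖((u' : Matrix ι ι ℂ) - 1)‖ < 2 := by
    rw [Unitary.norm_sub_one_lt_two_iff hmem]
    intro hspec
    apply hc2
    have hsc : IsUnit (star c) := IsUnit.mk0 _ (by simpa using hc0)
    have h3 := spectrum.smul_mem_smul_iff (a := (u : Matrix ι ι ℂ)) (s := -c) (r := hsc.unit)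
    rw [← h3]
    have h4 : hsc.unit • (-c) = (-1 : ℂ) := by
      change star c * (-c) = -1
      rw [mul_neg, hcc]
    rw [h4]
    exact hspec
  refine ⟨c, hc1, (Unitary.argSelfAdjoint u' : Matrix ι ι ℂ), ?_, ?_⟩
  · exact (Unitary.argSelfAdjoint u').2
  · have h6 := congrArg (fun x : unitary (Matrix ι ι ℂ) => (x : Matrix ι ι ℂ))
      (expUnitary_argSelfAdjoint (u := u') hlt)
    simp only [selfAdjoint.expUnitary_coe] at h6
    rw [h6]
    rw [hu', smul_smul, hcc', one_smul]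

/-- unitary diagonalization of unitary matrices -/
theorem diag_unitary (u : Matrix.unitaryGroup ι ℂ) : ∃ (V : Matrix.unitaryGroup ι ℂ) (z : ι → ℂ),
    (∀ j, ‖z j‖ = 1) ∧
      ((V⁻¹ * u * V : Matrix.unitaryGroup ι ℂ) : Matrix ι ι ℂ) = diagonal z := by
  obtain ⟨c, hc, h, hh, hu⟩ := unitary_exp u
  set V := hh.eigenvectorUnitary with hV
  let z : ι → ℂ := fun j => c * Complex.exp (Complex.I * ((hh.eigenvalues j : ℝ) : ℂ))
  have hz : ∀ j, ‖z j‖ = 1 := by
    intro j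
    simp only [z]
    rw [norm_mul, hc, mul_comm Complex.I, Complex.norm_exp_ofReal_mul_I, one_mul]
  refine ⟨V, z, hz, ?_⟩
  have hVV : ((V⁻¹ : Matrix.unitaryGroup ι ℂ) : Matrix ι ι ℂ) * (V : Matrix ι ι ℂ) = 1 := by
    have : ((V⁻¹ * V : Matrix.unitaryGroup ι ℂ) : Matrix ι ι ℂ) =
      ((V⁻¹ : Matrix.unitaryGroup ι ℂ) : Matrix ι ι ℂ) * (V : Matrix ι ι ℂ) := rfl
    rw [← this, inv_mul_cancel]
    rfl
  have hVV' : (V : Matrix ι ι ℂ) * ((V⁻¹ : Matrix.unitaryGroup ι ℂ) : Matrix ι ι ℂ) = 1 := by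
    have : ((V * V⁻¹ : Matrix.unitaryGroup ι ℂ) : Matrix ι ι ℂ) =
      (V : Matrix ι ι ℂ) * ((V⁻¹ : Matrix.unitaryGroup ι ℂ) : Matrix ι ι ℂ) := rfl
    rw [← this, mul_inv_cancel]
    rfl
  have hinv : (V : Matrix ι ι ℂ)⁻¹ = ((V⁻¹ : Matrix.unitaryGroup ι ℂ) : Matrix ι ι ℂ) :=
    Matrix.inv_eq_left_inv hVV
  have hunit : IsUnit (V : Matrix ι ι ℂ) := IsUnit.of_mul_eq_one _ hVV'
  have hspec : h = (V : Matrix ι ι ℂ) * diagonal (RCLike.ofReal ∘ hh.eigenvalues) *
      ((V⁻¹ : Matrix.unitaryGroup ι ℂ) : Matrix ι ι ℂ) := by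
    have h1 := hh.spectral_theorem
    conv_lhs => rw [h1]
    rw [Unitary.conjStarAlgAut_apply]
    rfl
  have hI : Complex.I • h = (V : Matrix ι ι ℂ) * diagonal (fun j => Complex.I *
      ((hh.eigenvalues j : ℝ) : ℂ)) * (V : Matrix ι ι ℂ)⁻¹ := by
    rw [hinv]
    conv_lhs => rw [hspec]
    rw [← Matrix.smul_mul, ← Matrix.mul_smul, ← Matrix.diagonal_smul]
    rfl
  have hexp : NormedSpace.exp (Complex.I • h) = (V : Matrix ι ι ℂ) * diagonal (fun j =>
      Complex.exp (Complex.I * ((hh.eigenvalues j : ℝ) : ℂ))) * (V : Matrix ι ι ℂ)⁻¹ := by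
    rw [hI, Matrix.exp_conj _ _ hunit, Matrix.exp_diagonal]
    congr 3
    funext j
    rw [Complex.exp_eq_exp_ℂ]
    exact Pi.coe_exp _ j
  have e1 : ((V⁻¹ * u * V : Matrix.unitaryGroup ι ℂ) : Matrix ι ι ℂ) =
      ((V⁻¹ : Matrix.unitaryGroup ι ℂ) : Matrix ι ι ℂ) * (u : Matrix ι ι ℂ) * (V : Matrix ι ι ℂ) :=
    rfl
  rw [e1, hu, hexp, hinv]
  rw [Matrix.mul_smul, Matrix.smul_mul]
  have e2 : ((V⁻¹ : Matrix.unitaryGroup ι ℂ) : Matrix ι ι ℂ) * ((V : Matrix ι ι ℂ) * diagonal (fun j =>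
      Complex.exp (Complex.I * ((hh.eigenvalues j : ℝ) : ℂ))) *
        ((V⁻¹ : Matrix.unitaryGroup ι ℂ) : Matrix ι ι ℂ)) *
      (V : Matrix ι ι ℂ) = diagonal (fun j =>
      Complex.exp (Complex.I * ((hh.eigenvalues j : ℝ) : ℂ))) := by
    rw [Matrix.mul_assoc, Matrix.mul_assoc, hVV, Matrix.mul_one, ← Matrix.mul_assoc, hVV,
      Matrix.one_mul]
  rw [e2, ← Matrix.diagonal_smul]
  rfl

/-- points on the circle -/
noncomputable def cpt (N j : ℕ) : ℂ := Complex.exp (Complex.I * ((2 * Real.pi * j / N : ℝ) : ℂ))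

theorem norm_cpt (N j : ℕ) : ‖cpt N j‖ = 1 := by
  unfold cpt
  rw [mul_comm, Complex.norm_exp_ofReal_mul_I]

theorem norm_exp_sub_le (a b : ℝ) :
    ‖Complex.exp (Complex.I * (a : ℂ)) - Complex.exp (Complex.I * (b : ℂ))‖ ≤ |a - b| := by
  have h : Complex.exp (Complex.I * (a : ℂ)) - Complex.exp (Complex.I * (b : ℂ)) =
      Complex.exp (Complex.I * (b : ℂ)) * (Complex.exp (Complex.I * ((a - b : ℝ) : ℂ)) - 1) := by
    rw [mul_sub, mul_one, ← Complex.exp_add]
    congr 2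
    push_cast
    ring
  rw [h, norm_mul, mul_comm Complex.I (b : ℂ), Complex.norm_exp_ofReal_mul_I, one_mul]
  exact Real.norm_exp_I_mul_ofReal_sub_one_le

theorem exists_cpt {N : ℕ} (hN : 0 < N) (z : ℂ) (hz : ‖z‖ = 1) :
    ∃ j : Fin N, ‖z - cpt N j.val‖ ≤ 2 * Real.pi / N := by
  have hpi := Real.pi_pos
  have hNr : (0 : ℝ) < N := by exact_mod_cast hN
  -- an angle in [0, 2 pi)
  obtain ⟨θ, hθ0, hθ1, hθ⟩ : ∃ θ : ℝ, 0 ≤ θ ∧ θ < 2 * Real.pi ∧
      z = Complex.exp (Complex.I * (θ : ℂ)) := by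
    have h0 : z = Complex.exp (Complex.I * (z.arg : ℂ)) := by
      have := Complex.norm_mul_exp_arg_mul_I z
      rw [hz] at this
      simp only [Complex.ofReal_one, one_mul] at this
      rw [mul_comm]
      exact this.symm
    by_cases hneg : z.arg < 0
    · refine ⟨z.arg + 2 * Real.pi, ?_, by linarith, ?_⟩
      · have := Complex.neg_pi_lt_arg z
        linarith
      · conv_lhs => rw [h0]
        push_cast
        rw [mul_add, Complex.exp_add]
        have : Complex.exp (Complex.I * (2 * (Real.pi : ℂ))) = 1 := by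
          rw [mul_comm]
          exact Complex.exp_two_pi_mul_I
        rw [this, mul_one]
    · push Not at hneg
      refine ⟨z.arg, hneg, ?_, h0⟩
      have := Complex.arg_le_pi z
      linarith
  have hj0 : 0 ≤ θ * N / (2 * Real.pi) := by positivity
  have hjN : ⌊θ * N / (2 * Real.pi)⌋₊ < N := by
    rw [Nat.floor_lt hj0, div_lt_iff₀ (by positivity)]
    nlinarith
  refine ⟨⟨_, hjN⟩, ?_⟩
  rw [hθ]
  unfold cpt
  refine (norm_exp_sub_le _ _).trans ?_
  have h1 := Nat.floor_le hj0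
  have h2 := Nat.lt_floor_add_one (θ * N / (2 * Real.pi))
  simp only
  set j : ℝ := (⌊θ * N / (2 * Real.pi)⌋₊ : ℝ) with hj
  have e : θ - 2 * Real.pi * j / N = (2 * Real.pi / N) * (θ * N / (2 * Real.pi) - j) := by
    field_simp
  rw [e, abs_mul, abs_of_nonneg (by positivity)]
  have h3 : |θ * N / (2 * Real.pi) - j| ≤ 1 := by
    rw [abs_le]; constructor <;> linarith
  calc 2 * Real.pi / N * |θ * N / (2 * Real.pi) - j| ≤ 2 * Real.pi / N * 1 :=
        mul_le_mul_of_nonneg_left h3 (by positivity)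
    _ = _ := mul_one _

/-- diagonal unitary matrix -/
noncomputable def dU (d : ι → ℂ) (hd : ∀ j, ‖d j‖ = 1) : Matrix.unitaryGroup ι ℂ :=
  ⟨diagonal d, by
    rw [mem_unitaryGroup_iff, star_eq_conjTranspose, diagonal_conjTranspose, diagonal_mul_diagonal]
    rw [← diagonal_one]
    congr 1
    funext j
    have h := Complex.mul_conj (d j)
    rw [Complex.normSq_eq_norm_sq, hd j] at h
    simpa using h⟩

theorem dU_val (d : ι → ℂ) (hd : ∀ j, ‖d j‖ = 1) :
    ((dU d hd : Matrix.unitaryGroup ι ℂ) : Matrix ι ι ℂ) = diagonal d := rfl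

end Pool.Agent.T2H01.EK2.TwoD
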