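import Mathlib
import Pool.Agent.T2H01.EK2.Base
import Pool.Agent.T2H01.EK2.TwoD
import Pool.Agent.T2H01.EK.BallA

/-!
# Almost commuting pairs: doubling, orbits, nets
-/

open MeasureTheory Matrix
open scoped Matrix.Norms.Frobenius Topology ENNReal

namespace Pool.Agent.T2H01.EK2.TwoA

set_option linter.unusedSectionVars false
set_option linter.unusedVariables false

noncomputable section

variable {ι : Type} [Fintype ι] [DecidableEq ι]

/-- the near commutant of `D` -/
def S (D : UG ι) (r : ℝ) : Set (UG ι) := {V | ‖(V : MM ι) * D - D * V‖ < r}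

/-- the conjugate -/
def cg (D V : UG ι) : MM ι := ((V * D * V⁻¹ : UG ι) : MM ι)

/-- the tube of the orbit of `D` -/
def T (D : UG ι) (r : ℝ) : Set (UG ι) := {U | ∃ g : UG ι, ‖(U : MM ι) - cg D g‖ < r}

lemma cg_cont (D : UG ι) : Continuous (cg D) := by
  unfold cg
  exact continuous_subtype_val.comp ((continuous_id.mul continuous_const).mul continuous_inv)

lemma comm_eq (D V : UG ι) : ‖(V : MM ι) * D - D * V‖ = ‖cg D V - (D : MM ι)‖ := by
  have e : (cg D V - (D : MM ι)) * (V : MM ι) = (V : MM ι) * D - D * V := by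
    unfold cg
    rw [sub_mul, ← ug_mul, inv_mul_cancel_right, ug_mul]
  rw [← e, fr_mul_right]

lemma cg_mul_left (D g V : UG ι) (W : UG ι) :
    ‖cg D (g * V) - cg D (g * W)‖ = ‖cg D V - cg D W‖ := by
  have e : cg D (g * V) - cg D (g * W) = (g : MM ι) * (cg D V - cg D W) * ((g⁻¹ : UG ι) : MM ι) := by
    unfold cg
    have h : ∀ X : UG ι, g * X * D * (g * X)⁻¹ = g * (X * D * X⁻¹) * g⁻¹ := by intro X; group
    rw [mul_sub, sub_mul, h, h, ← ug_mul, ← ug_mul, ← ug_mul, ← ug_mul]
  rw [e, fr_conj]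

lemma cg_one (D : UG ι) : cg D 1 = (D : MM ι) := by
  unfold cg; rw [one_mul, inv_one, mul_one]

lemma S_open (D : UG ι) (r : ℝ) : IsOpen (S D r) := by
  have : S D r = {V | ‖cg D V - (D : MM ι)‖ < r} := by
    ext V; simp only [S, Set.mem_ofPred_eq, comm_eq]
  rw [this]
  exact isOpen_lt ((cg_cont D).sub continuous_const).norm continuous_const

lemma mem_S (D V : UG ι) (r : ℝ) : V ∈ S D r ↔ ‖cg D V - cg D 1‖ < r := by
  unfold S; rw [Set.mem_ofPred_eq, comm_eq, cg_one]

/-- left translates of the near commutant -/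
lemma mem_trans (D g V : UG ι) (r : ℝ) : g⁻¹ * V ∈ S D r ↔ ‖cg D V - cg D g‖ < r := by
  rw [mem_S, ← cg_mul_left D g, mul_inv_cancel_left, mul_one]

/-- A maximal family of points with a symmetric relation. -/
lemma exists_max_sep {α : Type*} (K : ℝ) (r : α → α → Prop) (hr : ∀ x y, r x y → r y x)
    (T : Set α)
    (hb : ∀ s : Finset α, (∀ x ∈ s, x ∈ T) → (∀ x ∈ s, ∀ y ∈ s, x ≠ y → r x y) →
      (s.card : ℝ) ≤ K) :
    ∃ s : Finset α, (s.card : ℝ) ≤ K ∧ ∀ x ∈ T, ∃ y ∈ s, x = y ∨ ¬ r y x := by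
  classical
  obtain ⟨P, hP⟩ : ∃ P : ℕ → Prop, P = fun m => ∃ s : Finset α, s.card = m ∧ (∀ x ∈ s, x ∈ T) ∧
    (∀ x ∈ s, ∀ y ∈ s, x ≠ y → r x y) := ⟨_, rfl⟩
  have h0 : P 0 := by
    rw [hP]
    exact ⟨∅, rfl, fun s hs => absurd hs (Finset.notMem_empty s),
      fun s hs => absurd hs (Finset.notMem_empty s)⟩
  have hspec : P (Nat.findGreatest P ⌊K⌋₊) :=
    Nat.findGreatest_spec (Nat.zero_le _) h0
  obtain ⟨m, hm⟩ : ∃ m, m = Nat.findGreatest P ⌊K⌋₊ := ⟨_, rfl⟩
  rw [← hm] at hspec
  have hmax : ∀ k, P k → k ≤ m := by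
    intro k hk
    rw [hm]
    refine Nat.le_findGreatest ?_ hk
    rw [hP] at hk
    obtain ⟨S, h1, h2, h3⟩ := hk
    rw [← h1]
    exact Nat.le_floor (hb S h2 h3)
  rw [hP] at hspec
  obtain ⟨S, h1, h2, h3⟩ := hspec
  refine ⟨S, hb S h2 h3, fun v hv => ?_⟩
  by_contra hcon
  push Not at hcon
  have hvS : v ∉ S := fun hvS => (hcon v hvS).1 rfl
  have h4 : P (m + 1) := by
    rw [hP]
    refine ⟨insert v S, by rw [Finset.card_insert_of_notMem hvS, h1], ?_, ?_⟩
    · intro s hs
      rcases Finset.mem_insert.1 hs with h | h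
      · rw [h]; exact hv
      · exact h2 s h
    · intro c hc d hd hcd
      rcases Finset.mem_insert.1 hc with h | h
      · rcases Finset.mem_insert.1 hd with h' | h'
        · exact absurd (h.trans h'.symm) hcd
        · rw [h]; exact hr _ _ (hcon d h').2
      · rcases Finset.mem_insert.1 hd with h' | h'
        · rw [h']; exact (hcon c h).2
        · exact h3 c h d h' hcd
  have := hmax _ h4
  omega

/-- doubling of the near commutants -/
theorem doubling (D : UG ι) {r : ℝ} (hr : 0 < r) :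
    hm ι (S D (3 * r)) ≤ ENNReal.ofReal (81 ^ (Fintype.card ι ^ 2)) * hm ι (S D r) := by
  classical
  have hb : ∀ s : Finset (UG ι), (∀ x ∈ s, x ∈ S D (3 * r)) →
      (∀ x ∈ s, ∀ y ∈ s, x ≠ y → r ≤ ‖cg D x - cg D y‖) →
      (s.card : ℝ) ≤ 81 ^ (Fintype.card ι ^ 2) := by
    intro s hs1 hs2
    set f : UG ι → MM ι := fun V => ((3 * r)⁻¹ : ℝ) • (cg D V - cg D 1) with hf
    have hd : ∀ x y, ‖f x - f y‖ = (3 * r)⁻¹ * ‖cg D x - cg D y‖ := by
      intro x y
      rw [hf]
      simp only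
      rw [← smul_sub, norm_smul, Real.norm_of_nonneg (by positivity)]
      congr 2
      abel
    have hinj : Set.InjOn f s := by
      intro x hx y hy hxy
      by_contra hne
      have h1 := hs2 x hx y hy hne
      have h2 := hd x y
      rw [hxy, sub_self, norm_zero] at h2
      have h3 : 0 < (3 * r)⁻¹ * ‖cg D x - cg D y‖ := by
        have : 0 < ‖cg D x - cg D y‖ := lt_of_lt_of_le hr h1
        positivity
      linarith
    have h1 := EK.card_sep (E := MM ι) (ε := 1 / 3) (by norm_num) (by norm_num) (s.image f)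
      (by
        intro c hc
        obtain ⟨x, hx, rfl⟩ := Finset.mem_image.1 hc
        have h1 := (mem_S D x (3 * r)).1 (hs1 x hx)
        simp only [hf]
        rw [norm_smul, Real.norm_of_nonneg (by positivity), inv_mul_le_iff₀ (by positivity)]
        linarith)
      (by
        intro c hc d hd' hcd
        obtain ⟨x, hx, rfl⟩ := Finset.mem_image.1 hc
        obtain ⟨y, hy, rfl⟩ := Finset.mem_image.1 hd'
        have hne : x ≠ y := fun h => hcd (by rw [h])
        have h1 := hs2 x hx y hy hne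
        rw [hd, le_inv_mul_iff₀ (by positivity)]
        linarith)
    rw [Finset.card_image_of_injOn hinj] at h1
    have h2 : Module.finrank ℝ (MM ι) = 2 * Fintype.card ι ^ 2 := by
      rw [Module.finrank_matrix, Complex.finrank_real_complex]
      ring
    rw [h2, pow_mul] at h1
    refine h1.trans (le_of_eq ?_)
    norm_num
  obtain ⟨s, hs1, hs2⟩ := exists_max_sep _ (fun x y => r ≤ ‖cg D x - cg D y‖)
    (fun x y h => by rw [norm_sub_rev]; exact h) (S D (3 * r)) hb
  have hsub : S D (3 * r) ⊆ ⋃ y ∈ s, (fun V => y⁻¹ * V) ⁻¹' S D r := by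
    intro V hV
    obtain ⟨y, hy, hyV⟩ := hs2 V hV
    refine Set.mem_iUnion₂.2 ⟨y, hy, ?_⟩
    rw [Set.mem_preimage, mem_trans]
    rcases hyV with h | h
    · rw [h, sub_self, norm_zero]; exact hr
    · rw [norm_sub_rev]; exact not_le.1 h
  calc hm ι (S D (3 * r)) ≤ hm ι (⋃ y ∈ s, (fun V => y⁻¹ * V) ⁻¹' S D r) := measure_mono hsub
    _ ≤ ∑ y ∈ s, hm ι ((fun V => y⁻¹ * V) ⁻¹' S D r) := measure_biUnion_finset_le _ _
    _ = ∑ y ∈ s, hm ι (S D r) := by
        refine Finset.sum_congr rfl fun y _ => ?_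
        exact measure_preimage_mul _ _ _
    _ = (s.card : ℝ≥0∞) * hm ι (S D r) := by rw [Finset.sum_const, nsmul_eq_mul]
    _ ≤ _ := by
        gcongr
        rw [← ENNReal.ofReal_natCast]
        exact ENNReal.ofReal_le_ofReal hs1

lemma T_open (D : UG ι) (r : ℝ) : IsOpen (T D r) := by
  have : T D r = ⋃ g : UG ι, {U : UG ι | ‖(U : MM ι) - cg D g‖ < r} := by
    ext U; simp only [T, Set.mem_ofPred_eq, Set.mem_iUnion]
  rw [this]
  exact isOpen_iUnion fun g => isOpen_lt (continuous_subtype_val.sub continuous_const).norm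
    continuous_const

/-- volume of the tube of an orbit -/
theorem tube_orbit (D : UG ι) {r : ℝ} (hr : 0 < r) :
    hm ι (T D r) * hm ι (S D r) ≤ hm ι {g | D0 g < 2 * r} := by
  set E : Set (UG ι × UG ι) := {p | ‖(p.1 : MM ι) - cg D p.2‖ < 2 * r} with hE
  have hEo : IsOpen E := isOpen_lt
    ((continuous_subtype_val.comp continuous_fst).sub ((cg_cont D).comp continuous_snd)).norm
    continuous_const
  have hEm : MeasurableSet E := hEo.measurableSet
  have h1 : ((hm ι).prod (hm ι)) E = hm ι {g | D0 g < 2 * r} := by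
    rw [Measure.prod_apply_symm hEm]
    have : ∀ g : UG ι, hm ι ((fun x => (x, g)) ⁻¹' E) = hm ι {g | D0 g < 2 * r} := by
      intro g
      have e : ((fun x : UG ι => (x, g)) ⁻¹' E) =
          (fun x => x * (g * D * g⁻¹)⁻¹) ⁻¹' {g | D0 g < 2 * r} := by
        ext x
        rw [Set.mem_preimage, Set.mem_preimage, hE, Set.mem_ofPred_eq, Set.mem_ofPred_eq, D0_div]
        rfl
      rw [e, measure_preimage_mul_right]
    simp only [this]
    rw [lintegral_const, measure_univ, mul_one]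
  rw [← h1, Measure.prod_apply hEm]
  calc hm ι (T D r) * hm ι (S D r) = ∫⁻ U in T D r, hm ι (S D r) ∂(hm ι) := by
        rw [lintegral_const, Measure.restrict_apply_univ, mul_comm]
    _ ≤ ∫⁻ U in T D r, hm ι (Prod.mk U ⁻¹' E) ∂(hm ι) := by
        refine setLIntegral_mono' (T_open D r).measurableSet fun U hU => ?_
        obtain ⟨g0, hg0⟩ := hU
        calc hm ι (S D r) = hm ι ((fun V => g0⁻¹ * V) ⁻¹' S D r) := (measure_preimage_mul _ _ _).symm
          _ ≤ _ := by
            refine measure_mono fun V hV => ?_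
            rw [Set.mem_preimage, mem_trans] at hV
            rw [Set.mem_preimage, hE, Set.mem_ofPred_eq]
            have : (U : MM ι) - cg D V = ((U : MM ι) - cg D g0) + (cg D g0 - cg D V) := by abel
            rw [this]
            refine (norm_add_le _ _).trans_lt ?_
            rw [norm_sub_rev (cg D g0)]
            linarith
    _ ≤ ∫⁻ U, hm ι (Prod.mk U ⁻¹' E) ∂(hm ι) := setLIntegral_le_lintegral _ _

/-- sections of the almost commuting pairs -/
theorem section_le (D U : UG ι) {s : ℝ} (hU : U ∈ T D s) :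
    hm ι {V | ‖(U : MM ι) * V - V * U‖ < s} ≤ hm ι (S D (3 * s)) := by
  obtain ⟨g, hg⟩ := hU
  have h1 : {V : UG ι | ‖(U : MM ι) * V - V * U‖ < s} ⊆
      (fun V => V * g) ⁻¹' ((fun V => g⁻¹ * V) ⁻¹' S D (3 * s)) := by
    intro V hV
    rw [Set.mem_ofPred_eq] at hV
    rw [Set.mem_preimage, Set.mem_preimage, mem_trans]
    have e1 : cg D (V * g) - cg D g = ((V : MM ι) * cg D g - cg D g * V) * ((V⁻¹ : UG ι) : MM ι) := by
      unfold cg
      have h1 : V * (g * D * g⁻¹) * V⁻¹ = V * g * D * (V * g)⁻¹ := by group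
      have h2 : g * D * g⁻¹ * V * V⁻¹ = g * D * g⁻¹ := by group
      rw [sub_mul, ← ug_mul, ← ug_mul, ← ug_mul, ← ug_mul, h1, h2]
    rw [e1, fr_mul_right]
    have e2 : (V : MM ι) * cg D g - cg D g * V =
        -((V : MM ι) * ((U : MM ι) - cg D g)) + (-((U : MM ι) * V - V * U)) +
          ((U : MM ι) - cg D g) * V := by
      rw [mul_sub, sub_mul]; abel
    rw [e2]
    refine (norm_add_le _ _).trans_lt ?_
    have h2 := norm_add_le (-((V : MM ι) * ((U : MM ι) - cg D g))) (-((U : MM ι) * V - V * U))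
    rw [norm_neg, norm_neg, fr_mul_left] at h2
    rw [fr_mul_right]
    linarith
  calc _ ≤ hm ι ((fun V => V * g) ⁻¹' ((fun V => g⁻¹ * V) ⁻¹' S D (3 * s))) := measure_mono h1
    _ = _ := by rw [measure_preimage_mul_right, measure_preimage_mul]

/-- every unitary matrix is close to a conjugate of an element of a small finite set -/
theorem net (τ : ℝ) (hτ : 0 < τ) (hτ1 : τ ≤ 1) (N : ℕ) (hN : Fintype.card ι ≤ N) (hN1 : 1 ≤ N) :
    ∃ F : Finset (UG ι), (F.card : ℝ) ≤ (15 / τ) ^ (Fintype.card ι) ∧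
      ∀ U : UG ι, ∃ D ∈ F, U ∈ T D (τ * Real.sqrt N) := by
  classical
  have hpi := Real.pi_pos
  have hpi4 := Real.pi_lt_four
  have hpi2 : Real.pi < 3.5 := by have := Real.pi_lt_d2; linarith
  set M : ℕ := ⌈4 * Real.pi / τ⌉₊ with hM
  have hMle : 4 * Real.pi / τ ≤ M := Nat.le_ceil _
  have hMpos : 0 < M := Nat.ceil_pos.2 (by positivity)
  have hMr : (0 : ℝ) < M := by exact_mod_cast hMpos
  have hMC : (M : ℝ) ≤ 15 / τ := by
    have h1 := Nat.ceil_lt_add_one (a := 4 * Real.pi / τ) (by positivity)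
    have h2 : 1 ≤ 1 / τ := by
      rw [le_div_iff₀ hτ]; linarith
    have h3 : 15 / τ = 14 / τ + 1 / τ := by ring
    have h4 : 4 * Real.pi / τ ≤ 14 / τ := by
      apply div_le_div_of_nonneg_right _ hτ.le
      linarith
    linarith
  have hMε : 2 * Real.pi / M ≤ τ / 2 := by
    rw [div_le_iff₀ hτ] at hMle
    rw [div_le_iff₀ hMr]
    linarith
  let f : (ι → Fin M) → UG ι := fun g =>
    TwoD.dU (fun j => TwoD.cpt M (g j).val) (fun j => TwoD.norm_cpt _ _)
  refine ⟨Finset.univ.image f, ?_, ?_⟩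
  · have h1 : (Finset.univ.image f).card ≤ M ^ (Fintype.card ι) := by
      refine Finset.card_image_le.trans ?_
      rw [Finset.card_univ, Fintype.card_fun, Fintype.card_fin]
    calc ((Finset.univ.image f).card : ℝ) ≤ ((M ^ (Fintype.card ι) : ℕ) : ℝ) := by exact_mod_cast h1
      _ = (M : ℝ) ^ (Fintype.card ι) := by push_cast; rfl
      _ ≤ _ := pow_le_pow_left₀ (Nat.cast_nonneg _) hMC _
  · intro U
    obtain ⟨V, z, hz, hV⟩ := TwoD.diag_unitary U
    choose g hg using fun j => TwoD.exists_cpt hMpos (z j) (hz j)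
    refine ⟨f g, Finset.mem_image_of_mem _ (Finset.mem_univ _), V, ?_⟩
    have e1 : (U : MM ι) - cg (f g) V =
        (V : MM ι) * (diagonal z - (f g : MM ι)) * ((V⁻¹ : UG ι) : MM ι) := by
      have h1 : V * (V⁻¹ * U * V) * V⁻¹ = U := by group
      rw [← hV, mul_sub, sub_mul, ← ug_mul, ← ug_mul, h1]
      rfl
    rw [e1, fr_conj]
    have e2 : (f g : MM ι) = diagonal (fun j => TwoD.cpt M (g j).val) := rfl
    rw [e2, diagonal_sub]
    have h1 : ‖(diagonal (fun j => z j - TwoD.cpt M (g j).val) : MM ι)‖ ^ 2 ≤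
        (τ / 2) ^ 2 * N := by
      rw [fr_sq, diagonal_conjTranspose, diagonal_mul_diagonal, trace_diagonal, Complex.re_sum]
      have h2 : ∀ j, ((star (fun j => z j - TwoD.cpt M (g j).val) j *
          (z j - TwoD.cpt M (g j).val) : ℂ)).re ≤ (τ / 2) ^ 2 := by
        intro j
        have h3 : (star (fun j => z j - TwoD.cpt M (g j).val) j *
          (z j - TwoD.cpt M (g j).val) : ℂ) = ((‖z j - TwoD.cpt M (g j).val‖ ^ 2 : ℝ) : ℂ) := by
          rw [Pi.star_apply, ← Complex.normSq_eq_norm_sq, Complex.star_def, mul_comm, Complex.mul_conj]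
        rw [h3, Complex.ofReal_re]
        exact pow_le_pow_left₀ (norm_nonneg _) ((hg j).trans hMε) 2
      refine (Finset.sum_le_sum fun j _ => h2 j).trans ?_
      rw [Finset.sum_const, Finset.card_univ, nsmul_eq_mul, mul_comm]
      have h4 : ((Fintype.card ι : ℕ) : ℝ) ≤ N := by exact_mod_cast hN
      exact mul_le_mul_of_nonneg_left h4 (by positivity)
    have hs : 0 < Real.sqrt N := Real.sqrt_pos.2 (by exact_mod_cast hN1)
    have hs2 : Real.sqrt N ^ 2 = N := Real.sq_sqrt (Nat.cast_nonneg _)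
    have h5 : ‖(diagonal (fun j => z j - TwoD.cpt M (g j).val) : MM ι)‖ ≤ τ / 2 * Real.sqrt N := by
      refine (pow_le_pow_iff_left₀ (norm_nonneg _) (by positivity) two_ne_zero).1 ?_
      rw [mul_pow, hs2]
      exact h1
    have h6 : 0 < τ * Real.sqrt N := by positivity
    linarith

theorem pair_le (τ : ℝ) (hτ : 0 < τ) (hτ1 : τ ≤ 1) (N : ℕ) (hN : Fintype.card ι ≤ N) (hN1 : 1 ≤ N) :
    ((hm ι).prod (hm ι)).real {p | ‖(p.1 : MM ι) * p.2 - p.2 * p.1‖ < τ * Real.sqrt N} ≤
      (15 / τ) ^ (Fintype.card ι) * (81 ^ (Fintype.card ι ^ 2) *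
        (hm ι).real {g | D0 g < 2 * (τ * Real.sqrt N)}) := by
  classical
  obtain ⟨F, hF, hF2⟩ := net (ι := ι) τ hτ hτ1 N hN hN1
  have hs0 : 0 < Real.sqrt N := Real.sqrt_pos.2 (by exact_mod_cast hN1)
  set s : ℝ := τ * Real.sqrt N with hs
  have hspos : 0 < s := by positivity
  set E : Set (UG ι × UG ι) := {p | ‖(p.1 : MM ι) * p.2 - p.2 * p.1‖ < s} with hE
  have hc1 : Continuous fun p : UG ι × UG ι => (p.1 : MM ι) :=
    continuous_subtype_val.comp continuous_fst
  have hc2 : Continuous fun p : UG ι × UG ι => (p.2 : MM ι) :=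
    continuous_subtype_val.comp continuous_snd
  have hEo : IsOpen E := isOpen_lt ((hc1.mul hc2).sub (hc2.mul hc1)).norm continuous_const
  have h1 : ((hm ι).prod (hm ι)) E ≤ (F.card : ℝ≥0∞) *
      (ENNReal.ofReal (81 ^ (Fintype.card ι ^ 2)) * hm ι {g | D0 g < 2 * s}) := by
    rw [Measure.prod_apply hEo.measurableSet]
    calc ∫⁻ U, hm ι (Prod.mk U ⁻¹' E) ∂(hm ι)
        ≤ ∫⁻ U, ∑ D ∈ F, (T D s).indicator (fun _ => hm ι (S D (3 * s))) U ∂(hm ι) := by
          refine lintegral_mono fun U => ?_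
          obtain ⟨D, hD, hU⟩ := hF2 U
          have h2 := section_le D U hU
          refine le_trans ?_ (Finset.single_le_sum (f := fun D =>
            (T D s).indicator (fun _ => hm ι (S D (3 * s))) U) (fun _ _ => zero_le) hD)
          simp only
          rw [Set.indicator_of_mem hU]
          exact h2
      _ = ∑ D ∈ F, hm ι (S D (3 * s)) * hm ι (T D s) := by
          rw [lintegral_finsetSum]
          · refine Finset.sum_congr rfl fun D _ => ?_
            rw [lintegral_indicator (T_open D s).measurableSet, lintegral_const,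
              Measure.restrict_apply_univ]
          · intro D _
            exact measurable_const.indicator (T_open D s).measurableSet
      _ ≤ ∑ D ∈ F, ENNReal.ofReal (81 ^ (Fintype.card ι ^ 2)) * hm ι {g | D0 g < 2 * s} := by
          refine Finset.sum_le_sum fun D _ => ?_
          calc hm ι (S D (3 * s)) * hm ι (T D s)
              ≤ (ENNReal.ofReal (81 ^ (Fintype.card ι ^ 2)) * hm ι (S D s)) * hm ι (T D s) := by
                gcongr
                exact doubling D hspos
            _ = ENNReal.ofReal (81 ^ (Fintype.card ι ^ 2)) * (hm ι (T D s) * hm ι (S D s)) := by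
                rw [mul_assoc, mul_comm (hm ι (S D s))]
            _ ≤ _ := by
                gcongr
                exact tube_orbit D hspos
      _ = _ := by rw [Finset.sum_const, nsmul_eq_mul]
  have h2 : ((hm ι).prod (hm ι)).real E ≤ (F.card : ℝ) *
      (81 ^ (Fintype.card ι ^ 2) * (hm ι).real {g | D0 g < 2 * s}) := by
    have h3 := ENNReal.toReal_mono (by
      refine ENNReal.mul_ne_top (ENNReal.natCast_ne_top _) (ENNReal.mul_ne_top
        ENNReal.ofReal_ne_top (measure_ne_top _ _))) h1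
    rw [ENNReal.toReal_mul, ENNReal.toReal_mul, ENNReal.toReal_natCast,
      ENNReal.toReal_ofReal (by positivity)] at h3
    exact h3
  refine h2.trans ?_
  have h3 : 0 ≤ (hm ι).real {g : UG ι | D0 g < 2 * s} := measureReal_nonneg
  gcongr

end

end Pool.Agent.T2H01.EK2.TwoA
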