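import Mathlib
import Pool.Agent.T2H01.EK2.Base
import Pool.Agent.T2H01.EK.Ball
import Pool.Agent.T2H01.EK.Ode

/-!
# Volumes of balls
-/

open MeasureTheory Matrix
open scoped Matrix.Norms.Frobenius Topology ENNReal
open Pool.Agent.H906R3 Pool.Agent.W793 Pool.Agent.TH618 Pool.Agent.T2H01 Pool.Agent

namespace Pool.Agent.T2H01.EK2

set_option linter.unusedSectionVars false
set_option linter.unusedVariables false

noncomputable section

variable {ι κ : Type} [Fintype ι] [DecidableEq ι] [Fintype κ] [DecidableEq κ]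

/-! ### reindexing -/

lemma rix_cont (e : ι ≃ κ) : Continuous (rix e : UG ι → UG κ) := by
  refine Continuous.subtype_mk ?_ _
  exact continuous_subtype_val.matrix_submatrix _ _

lemma rix_rix (e : ι ≃ κ) (g : UG κ) : rix e (rix e.symm g) = g := by
  apply Subtype.ext
  rw [rix_val, rix_val, submatrix_submatrix]
  ext i j
  simp

lemma fr_submatrix (e : ι ≃ κ) (A : MM ι) :
    ‖(A.submatrix e.symm e.symm : MM κ)‖ = ‖A‖ := by
  rw [Matrix.frobenius_norm_def, Matrix.frobenius_norm_def]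
  congr 1
  rw [← e.sum_comp]
  refine Finset.sum_congr rfl fun i _ => ?_
  rw [← e.sum_comp]
  refine Finset.sum_congr rfl fun j _ => ?_
  simp

lemma D0_rix (e : ι ≃ κ) (g : UG ι) : D0 (rix e g) = D0 g := by
  unfold D0
  rw [rix_val, ← fr_submatrix e (1 - (g : MM ι))]
  congr 1
  ext i j
  simp [Matrix.one_apply]

/-! ### transfer to the subgroup `⊤` of the unitary group of `Fin n` -/

/-- the transfer map -/
def tf {n : ℕ} (e : ι ≃ Fin n) (g : UG ι) : (⊤ : Subgroup (UG (Fin n))) :=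
  ⟨rix e g, Subgroup.mem_top _⟩

lemma tf_cont {n : ℕ} (e : ι ≃ Fin n) : Continuous (tf e) := Continuous.subtype_mk (rix_cont e) _

lemma tf_mul {n : ℕ} (e : ι ≃ Fin n) (g h : UG ι) : tf e (g * h) = tf e g * tf e h := by
  apply Subtype.ext
  exact rix_mul e g h

lemma tf_surj {n : ℕ} (e : ι ≃ Fin n) (h : (⊤ : Subgroup (UG (Fin n)))) :
    tf e (rix e.symm (h : UG (Fin n))) = h := by
  apply Subtype.ext
  exact rix_rix e _

/-- the Haar measure on the subgroup `⊤` -/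
def mu {n : ℕ} (e : ι ≃ Fin n) : Measure (⊤ : Subgroup (UG (Fin n))) := (hm ι).map (tf e)

instance {n : ℕ} (e : ι ≃ Fin n) : IsProbabilityMeasure (mu e) :=
  Measure.isProbabilityMeasure_map (tf_cont e).measurable.aemeasurable

instance {n : ℕ} (e : ι ≃ Fin n) : (mu e).IsMulLeftInvariant := by
  refine ⟨fun h => ?_⟩
  have h1 : Measurable (tf e) := (tf_cont e).measurable
  have h2 : Measurable (fun x : (⊤ : Subgroup (UG (Fin n))) => h * x) :=
    (continuous_const.mul continuous_id).measurable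
  have h3 : Measurable (fun x : UG ι => rix e.symm (h : UG (Fin n)) * x) :=
    (continuous_const.mul continuous_id).measurable
  unfold mu
  rw [Measure.map_map h2 h1]
  have e1 : (fun x : (⊤ : Subgroup (UG (Fin n))) => h * x) ∘ tf e =
      tf e ∘ fun x : UG ι => rix e.symm (h : UG (Fin n)) * x := by
    funext x
    simp only [Function.comp_apply]
    rw [tf_mul, tf_surj]
  rw [e1, ← Measure.map_map h1 h3, map_mul_left_eq_self]

lemma mu_real {n : ℕ} (e : ι ≃ Fin n) {S : Set (⊤ : Subgroup (UG (Fin n)))} (hS : MeasurableSet S) :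
    (mu e).real S = (hm ι).real (tf e ⁻¹' S) := by
  rw [measureReal_def, measureReal_def]
  unfold mu
  rw [Measure.map_apply (tf_cont e).measurable hS]

lemma D0_tf {n : ℕ} (e : ι ≃ Fin n) (g : UG ι) :
    ‖(1 : MM (Fin n)) - Pool.Agent.H906R3.YM.mt (tf e g)‖ = D0 g := by
  rw [← D0_rix e g]
  rfl

theorem ball_lower : ∃ C : ℝ, 1 ≤ C ∧ ∀ (ι : Type) [Fintype ι] [DecidableEq ι] (N : ℕ) (ρ : ℝ),
    Fintype.card ι ≤ N → 1 ≤ N → 0 < ρ → ρ ≤ 1 →
    (ρ / C) ^ (Fintype.card ι ^ 2) ≤ (hm ι).real {g | D0 g < ρ * Real.sqrt N} := by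
  obtain ⟨C, hC, hb⟩ := EK.ball
  refine ⟨2 * C, by linarith, ?_⟩
  intro ι _ _ N ρ hn hN h0 h1
  have hN' : (1 : ℝ) ≤ N := by exact_mod_cast hN
  have hn' : (Fintype.card ι : ℝ) ≤ N := by exact_mod_cast hn
  obtain ⟨e⟩ : Nonempty (ι ≃ Fin (Fintype.card ι)) := ⟨Fintype.equivFin ι⟩
  have h2 := hb (Fintype.card ι) (⊤ : Subgroup (UG (Fin (Fintype.card ι)))) (mu e)
    (by rw [Subgroup.coe_top]; exact isClosed_univ) (ρ / 2) (by linarith) (by linarith)
  rw [div_div] at h2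
  refine h2.trans ?_
  rw [mu_real e (EK.measurable_ball _)]
  refine measureReal_mono ?_ (measure_ne_top _ _)
  intro g hg
  have hg1 : LN.opn (1 - Pool.Agent.H906R3.YM.mt (tf e g)) ≤ ρ / 2 := hg
  show D0 g < ρ * Real.sqrt N
  have h3 := LN.frob_opn (1 - Pool.Agent.H906R3.YM.mt (tf e g))
  rw [D0_tf] at h3
  have h4 : 0 ≤ LN.opn (1 - Pool.Agent.H906R3.YM.mt (tf e g)) := norm_nonneg _
  have h5 : D0 g ^ 2 ≤ (ρ / 2 * Real.sqrt N) ^ 2 := by
    rw [mul_pow, Real.sq_sqrt (by positivity)]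
    refine h3.trans ?_
    have h6 : LN.opn (1 - Pool.Agent.H906R3.YM.mt (tf e g)) ^ 2 ≤ (ρ / 2) ^ 2 :=
      pow_le_pow_left₀ h4 hg1 2
    rw [mul_comm ((ρ / 2) ^ 2)]
    exact mul_le_mul hn' h6 (by positivity) (by positivity)
  have h6 : D0 g ≤ ρ / 2 * Real.sqrt N := (sq_le_sq₀ (D0_nonneg g) (by positivity)).1 h5
  have h7 : 0 < Real.sqrt N := Real.sqrt_pos.2 (by linarith)
  nlinarith

theorem ball_upper : ∃ C : ℝ, 1 ≤ C ∧ ∀ (ι : Type) [Fintype ι] [DecidableEq ι] (N : ℕ) (r : ℝ),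
    Fintype.card ι ≤ N → 0 < r →
    (hm ι).real {g | D0 g < r * Real.sqrt N} ≤ C ^ (N ^ 2) * r ^ (Fintype.card ι ^ 2 - 1) := by
  refine ⟨2, by norm_num, ?_⟩
  intro ι _ _ N r hn h0
  obtain ⟨n, hnn⟩ : ∃ n, n = Fintype.card ι := ⟨_, rfl⟩
  rw [← hnn] at hn ⊢
  rcases Nat.eq_zero_or_pos n with hz | hpos
  · rw [hz]
    simp only [ne_eq, OfNat.ofNat_ne_zero, not_false_eq_true, zero_pow, zero_tsub, pow_zero,
      mul_one]
    exact measureReal_le_one.trans (one_le_pow₀ (by norm_num))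
  obtain ⟨e⟩ : Nonempty (ι ≃ Fin n) := by
    rw [hnn]; exact ⟨Fintype.equivFin ι⟩
  have hn1 : (1 : ℝ) ≤ n := by exact_mod_cast hpos
  have hnN : (n : ℝ) ≤ N := by exact_mod_cast hn
  have hN0 : (0 : ℝ) < N := by linarith
  have hcl : IsClosed ((⊤ : Subgroup (UG (Fin n))) : Set (UG (Fin n))) := by
    rw [Subgroup.coe_top]; exact isClosed_univ
  have hc1 : CompactSpace (⊤ : Subgroup (UG (Fin n))) := isCompact_iff_compactSpace.1 hcl.isCompact
  have hc2 : SecondCountableTopology (⊤ : Subgroup (UG (Fin n))) :=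
    TopologicalSpace.Subtype.secondCountableTopology _
  obtain ⟨m, ⟨B⟩⟩ := YM.exists_frame hcl
  have hg : EK.HG B.toLD := EK.hg_of B (fun U _ => Subgroup.mem_top U)
  have hwe : ∀ g : UG ι, YM.we B.toLD (tf e g) = D0 g ^ 2 / 2 := by
    intro g
    rw [YM.we_tr, ← D0_tf e g]
    have h1 := LN.frob_tr (EK.mt_unit (tf e g))
    rw [h1]
    have h2 : B.toLD.rho (tf e g) = Pool.Agent.H906R3.YM.mt (tf e g) := rfl
    rw [h2]
    ring
  obtain ⟨t, ht⟩ : ∃ t : ℝ, t = N / (n * r ^ 2) := ⟨_, rfl⟩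
  have ht0 : 0 ≤ t := by rw [ht]; positivity
  have h1 := EK.link_plq (mu e) (L := B.toLD) hpos hg ht0
  have hcont : Continuous fun g : (⊤ : Subgroup (UG (Fin n))) =>
      Real.exp (-(n * t * YM.we B.toLD g)) :=
    Real.continuous_exp.comp (continuous_const.mul YM.we_cont).neg
  have h2 := mul_meas_ge_le_integral_of_nonneg (μ := mu e)
    (f := fun g => Real.exp (-(n * t * YM.we B.toLD g)))
    (Filter.Eventually.of_forall fun g => (Real.exp_pos _).le)
    (LN.intG (mu e) hcont) (Real.exp (-((N : ℝ) ^ 2 / 2)))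
  have hmeas : MeasurableSet {g : (⊤ : Subgroup (UG (Fin n))) |
      Real.exp (-((N : ℝ) ^ 2 / 2)) ≤ Real.exp (-(n * t * YM.we B.toLD g))} :=
    (isClosed_le continuous_const hcont).measurableSet
  rw [mu_real e hmeas] at h2
  have h3 : (hm ι).real {g | D0 g < r * Real.sqrt N} ≤ (hm ι).real (tf e ⁻¹'
      {g : (⊤ : Subgroup (UG (Fin n))) |
      Real.exp (-((N : ℝ) ^ 2 / 2)) ≤ Real.exp (-(n * t * YM.we B.toLD g))}) := by
    refine measureReal_mono ?_ (measure_ne_top _ _)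
    intro g hg
    have hg1 : D0 g < r * Real.sqrt N := hg
    show Real.exp (-((N : ℝ) ^ 2 / 2)) ≤ Real.exp (-(n * t * YM.we B.toLD (tf e g)))
    rw [hwe, Real.exp_le_exp, neg_le_neg_iff]
    have h4 : D0 g ^ 2 ≤ r ^ 2 * N := by
      have := pow_le_pow_left₀ (D0_nonneg g) hg1.le 2
      rwa [mul_pow, Real.sq_sqrt (by positivity)] at this
    have h5 : (n : ℝ) * t * (r ^ 2 * N / 2) = (N : ℝ) ^ 2 / 2 := by
      rw [ht]; field_simp
    rw [← h5]
    exact mul_le_mul_of_nonneg_left (by linarith) (by positivity)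
  have hn2 : ((n ^ 2 - 1 : ℕ) : ℝ) = (n : ℝ) ^ 2 - 1 := by
    rw [Nat.cast_sub (Nat.one_le_pow _ _ hpos)]; push_cast; ring
  have h4 : Real.exp (-(((n : ℝ) ^ 2 - 1) / 2 * Real.log (1 + 2 * t))) ≤ r ^ (n ^ 2 - 1) := by
    have h5 : r ^ (n ^ 2 - 1) = Real.exp (((n : ℝ) ^ 2 - 1) * Real.log r) := by
      rw [← hn2, Real.exp_nat_mul, Real.exp_log h0]
    rw [h5, Real.exp_le_exp]
    have h6 : Real.log (1 / r ^ 2) ≤ Real.log (1 + 2 * t) := by
      refine Real.log_le_log (by positivity) ?_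
      have h7 : 1 / r ^ 2 ≤ t := by
        rw [ht, div_le_div_iff₀ (by positivity) (by positivity)]
        have : (n : ℝ) * r ^ 2 ≤ N * r ^ 2 := mul_le_mul_of_nonneg_right hnN (by positivity)
        linarith
      linarith
    rw [one_div, Real.log_inv, Real.log_pow] at h6
    push_cast at h6
    have h8 : (0 : ℝ) ≤ (n : ℝ) ^ 2 - 1 := by nlinarith
    nlinarith [mul_nonneg h8 (sub_nonneg.2 h6)]
  have h5 : Real.exp (-((N : ℝ) ^ 2 / 2)) * (hm ι).real {g | D0 g < r * Real.sqrt N} ≤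
      r ^ (n ^ 2 - 1) :=
    (mul_le_mul_of_nonneg_left h3 (Real.exp_pos _).le).trans (h2.trans (h1.trans h4))
  have h6 : Real.exp ((N : ℝ) ^ 2 / 2) ≤ 2 ^ (N ^ 2) := by
    have h7 : Real.exp ((N : ℝ) ^ 2 / 2) = Real.exp (1 / 2) ^ (N ^ 2) := by
      rw [← Real.exp_nat_mul]
      congr 1
      push_cast
      ring
    rw [h7]
    refine pow_le_pow_left₀ (Real.exp_pos _).le ?_ _
    have h8 : Real.exp (1 / 2) ^ 2 = Real.exp 1 := by
      rw [← Real.exp_nat_mul]; norm_num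
    have h9 := Real.exp_one_lt_d9
    have h10 := Real.exp_pos (1 / 2)
    nlinarith
  calc (hm ι).real {g | D0 g < r * Real.sqrt N}
      = Real.exp ((N : ℝ) ^ 2 / 2) * (Real.exp (-((N : ℝ) ^ 2 / 2)) *
          (hm ι).real {g | D0 g < r * Real.sqrt N}) := by
        rw [← mul_assoc, ← Real.exp_add, add_neg_cancel, Real.exp_zero, one_mul]
    _ ≤ Real.exp ((N : ℝ) ^ 2 / 2) * r ^ (n ^ 2 - 1) :=
        mul_le_mul_of_nonneg_left h5 (Real.exp_pos _).le
    _ ≤ 2 ^ (N ^ 2) * r ^ (n ^ 2 - 1) := mul_le_mul_of_nonneg_right h6 (by positivity)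

end

end Pool.Agent.T2H01.EK2
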