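import Mathlib
import Pool.Agent.T2H01.EK2.Vol
import Pool.Agent.T2H01.EK2.TwoA
import Pool.Agent.T2H01.EK.BallA

/-!
# Almost commuting pairs
-/

open MeasureTheory Matrix
open scoped Matrix.Norms.Frobenius Topology ENNReal

namespace Pool.Agent.T2H01.EK2

set_option linter.unusedSectionVars false
set_option linter.unusedVariables false

noncomputable section

variable {ι κ : Type} [Fintype ι] [DecidableEq ι] [Fintype κ] [DecidableEq κ]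

lemma two_arith {C τ : ℝ} (hC : 1 ≤ C) (hτ : 0 < τ) (hτ1 : τ ≤ 1) {n N : ℕ} (hn : n ≤ N)
    (hN : 1 ≤ N) :
    (15 / τ) ^ n * (81 ^ (n ^ 2) * (C ^ (N ^ 2) * (2 * τ) ^ (n ^ 2 - 1))) ≤
      (15 * 81 * C * 2) ^ (N ^ 2) * (1 / τ) ^ (N + 1) * τ ^ (n ^ 2) := by
  have hN2 : n ≤ N ^ 2 := by nlinarith
  have hn2 : n ^ 2 ≤ N ^ 2 := Nat.pow_le_pow_left hn 2
  have h1τ : 1 ≤ 1 / τ := by rw [le_div_iff₀ hτ]; linarith
  have e1 : (15 / τ) ^ n = 15 ^ n * (1 / τ) ^ n := by rw [← mul_pow]; congr 1; ring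
  have h1 : (15 : ℝ) ^ n ≤ 15 ^ (N ^ 2) := pow_le_pow_right₀ (by norm_num) hN2
  have h2 : (1 / τ) ^ n ≤ (1 / τ) ^ N := pow_le_pow_right₀ h1τ hn
  have h3 : (81 : ℝ) ^ (n ^ 2) ≤ 81 ^ (N ^ 2) := pow_le_pow_right₀ (by norm_num) hn2
  have h4 : (2 : ℝ) ^ (n ^ 2 - 1) ≤ 2 ^ (N ^ 2) := pow_le_pow_right₀ (by norm_num) (by omega)
  have h5 : τ ^ (n ^ 2 - 1) ≤ (1 / τ) * τ ^ (n ^ 2) := by
    rcases Nat.eq_zero_or_pos n with h | h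
    · subst h
      simpa using h1τ
    · obtain ⟨m, hm⟩ : ∃ m, n ^ 2 = m + 1 := ⟨n ^ 2 - 1, by
        have : 1 ≤ n ^ 2 := Nat.one_le_pow _ _ h
        omega⟩
      rw [hm, Nat.add_sub_cancel, pow_succ]
      have e : 1 / τ * (τ ^ m * τ) = τ ^ m := by field_simp
      rw [e]
  have hC0 : 0 ≤ C := by linarith
  calc (15 / τ) ^ n * (81 ^ (n ^ 2) * (C ^ (N ^ 2) * (2 * τ) ^ (n ^ 2 - 1)))
      = (15 ^ n * (1 / τ) ^ n) * (81 ^ (n ^ 2) * (C ^ (N ^ 2) * (2 ^ (n ^ 2 - 1) *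
          τ ^ (n ^ 2 - 1)))) := by rw [e1, mul_pow 2 τ]
    _ ≤ (15 ^ (N ^ 2) * (1 / τ) ^ N) * (81 ^ (N ^ 2) * (C ^ (N ^ 2) * (2 ^ (N ^ 2) *
          ((1 / τ) * τ ^ (n ^ 2))))) := by
        gcongr
    _ = _ := by
        rw [mul_pow, mul_pow, mul_pow, pow_succ]
        ring

theorem two_body : ∃ C : ℝ, 1 ≤ C ∧ ∀ (ι : Type) [Fintype ι] [DecidableEq ι] (N : ℕ) (τ : ℝ),
    Fintype.card ι ≤ N → 1 ≤ N → 0 < τ → τ ≤ 1 →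
    ((hm ι).prod (hm ι)).real {p | ‖(p.1 : MM ι) * p.2 - p.2 * p.1‖ < τ * Real.sqrt N} ≤
      C ^ (N ^ 2) * (1 / τ) ^ (N + 1) * τ ^ (Fintype.card ι ^ 2) := by
  obtain ⟨C, hC1, hC⟩ := ball_upper
  refine ⟨15 * 81 * C * 2, by linarith, fun ι _ _ N τ hN hN1 hτ hτ1 => ?_⟩
  have h1 := TwoA.pair_le (ι := ι) τ hτ hτ1 N hN hN1
  have h2 := hC ι N (2 * τ) hN (by positivity)
  rw [mul_assoc 2 τ] at h2
  refine h1.trans (le_trans ?_ (two_arith hC1 hτ hτ1 hN hN1))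
  gcongr

end

end Pool.Agent.T2H01.EK2
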