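import Mathlib
import Pool.Agent.T2H01.EK2.Two
import Pool.Agent.T2H01.EK2.Cyc

/-!
# The partition function of the reduced commuting model
-/

open MeasureTheory Matrix
open scoped Matrix.Norms.Frobenius Topology ENNReal

namespace Pool.Agent.T2H01.EK2

set_option linter.unusedSectionVars false
set_option linter.unusedVariables false

noncomputable section

/-- the squared norm of the commutator -/
def cmn {N : ℕ} (p : UG (Fin N) × UG (Fin N)) : ℝ :=
  ‖(p.1 : MM (Fin N)) * p.2 - p.2 * p.1‖ ^ 2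

lemma cmn_cont {N : ℕ} : Continuous (cmn : UG (Fin N) × UG (Fin N) → ℝ) := by
  unfold cmn
  have hc1 : Continuous fun p : UG (Fin N) × UG (Fin N) => (p.1 : MM (Fin N)) :=
    continuous_subtype_val.comp continuous_fst
  have hc2 : Continuous fun p : UG (Fin N) × UG (Fin N) => (p.2 : MM (Fin N)) :=
    continuous_subtype_val.comp continuous_snd
  exact ((hc1.mul hc2).sub (hc2.mul hc1)).norm.pow 2

lemma cmn_nonneg {N : ℕ} (p : UG (Fin N) × UG (Fin N)) : 0 ≤ cmn p := by
  unfold cmn; positivity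

/-- pointwise bound by shells -/
lemma shell {N : ℕ} (hN : 1 ≤ N) {t : ℝ} (ht : 1 ≤ t) (K : ℕ) {x : ℝ} (hx : 0 ≤ x) :
    Real.exp (-(t * N * x)) ≤
      (∑ k ∈ Finset.range K, if x < (k + 1) / t * N then Real.exp (-((N : ℝ) ^ 2 * k)) else 0) +
        Real.exp (-((N : ℝ) ^ 2 * K)) := by
  have hNr : (1 : ℝ) ≤ N := by exact_mod_cast hN
  have hNp : (0 : ℝ) < N := by linarith
  have htp : (0 : ℝ) < t := by linarith
  set y : ℝ := t * x / N with hy
  have hy0 : 0 ≤ y := by positivity
  have hxy : t * N * x = (N : ℝ) ^ 2 * y := by rw [hy]; field_simp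
  have hsum0 : ∀ k ∈ Finset.range K,
      0 ≤ (if x < ((k : ℝ) + 1) / t * N then Real.exp (-((N : ℝ) ^ 2 * k)) else 0) := by
    intro k _
    split_ifs
    · exact (Real.exp_pos _).le
    · exact le_rfl
  rcases le_or_gt (K : ℝ) y with h | h
  · have h1 : Real.exp (-(t * N * x)) ≤ Real.exp (-((N : ℝ) ^ 2 * K)) := by
      apply Real.exp_le_exp.2
      rw [hxy]
      have : (N : ℝ) ^ 2 * K ≤ (N : ℝ) ^ 2 * y := mul_le_mul_of_nonneg_left h (by positivity)
      linarith
    have h2 := Finset.sum_nonneg hsum0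
    linarith
  · set j := ⌊y⌋₊ with hj
    have hj1 : (j : ℝ) ≤ y := Nat.floor_le hy0
    have hj2 : y < j + 1 := Nat.lt_floor_add_one y
    have hjK : j < K := by
      have : (j : ℝ) < K := lt_of_le_of_lt hj1 h
      exact_mod_cast this
    have hxj : x < ((j : ℝ) + 1) / t * N := by
      have e : x = y / t * N := by rw [hy]; field_simp
      rw [e]
      apply mul_lt_mul_of_pos_right _ hNp
      exact div_lt_div_of_pos_right hj2 htp
    have h1 : Real.exp (-(t * N * x)) ≤
        (if x < ((j : ℝ) + 1) / t * N then Real.exp (-((N : ℝ) ^ 2 * j)) else 0) := by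
      rw [if_pos hxj]
      apply Real.exp_le_exp.2
      rw [hxy]
      have : (N : ℝ) ^ 2 * j ≤ (N : ℝ) ^ 2 * y := mul_le_mul_of_nonneg_left hj1 (by positivity)
      linarith
    have h2 := Finset.single_le_sum hsum0 (Finset.mem_range.2 hjK)
    have h3 := (Real.exp_pos (-((N : ℝ) ^ 2 * K))).le
    linarith

/-- the probability of a small commutator -/
lemma prob_small {C : ℝ} (hC1 : 1 ≤ C) (hC : ∀ (N : ℕ) (τ : ℝ), 1 ≤ N → 0 < τ → τ ≤ 1 →
      ((hm (Fin N)).prod (hm (Fin N))).real
        {p | ‖(p.1 : MM (Fin N)) * p.2 - p.2 * p.1‖ < τ * Real.sqrt N} ≤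
      C ^ (N ^ 2) * (1 / τ) ^ (N + 1) * τ ^ (N ^ 2)) {N : ℕ} (hN : 2 ≤ N) {s : ℝ} (hs : 0 < s) :
    ((hm (Fin N)).prod (hm (Fin N))).real {p | cmn p < s * N} ≤
      C ^ (N ^ 2) * Real.exp (((N : ℝ) ^ 2 - N - 1) / 2 * Real.log s) := by
  have hNr : (2 : ℝ) ≤ N := by exact_mod_cast hN
  have hme : 0 ≤ ((N : ℝ) ^ 2 - N - 1) / 2 := by nlinarith
  have hCp : (1 : ℝ) ≤ C ^ (N ^ 2) := one_le_pow₀ hC1
  rcases le_or_gt s 1 with h | h
  · have hset : {p : UG (Fin N) × UG (Fin N) | cmn p < s * N} =
        {p | ‖(p.1 : MM (Fin N)) * p.2 - p.2 * p.1‖ < Real.sqrt s * Real.sqrt N} := by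
      ext p
      simp only [Set.mem_ofPred_eq, cmn]
      rw [← Real.sqrt_mul hs.le]
      exact (Real.lt_sqrt (norm_nonneg _)).symm
    rw [hset]
    have hs1 : 0 < Real.sqrt s := Real.sqrt_pos.2 hs
    refine (hC N (Real.sqrt s) (by omega) hs1 (Real.sqrt_le_one.2 h)).trans (le_of_eq ?_)
    rw [mul_assoc]
    congr 1
    have e1 : Real.sqrt s = Real.exp (Real.log s / 2) := by
      rw [Real.sqrt_eq_rpow, Real.rpow_def_of_pos hs]; congr 1; ring
    rw [e1, one_div, ← Real.exp_neg, ← Real.exp_nat_mul, ← Real.exp_nat_mul, ← Real.exp_add]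
    congr 1
    push_cast
    ring
  · have h1 : ((hm (Fin N)).prod (hm (Fin N))).real {p | cmn p < s * N} ≤ 1 := measureReal_le_one
    have h2 : (1 : ℝ) ≤ Real.exp (((N : ℝ) ^ 2 - N - 1) / 2 * Real.log s) := by
      apply Real.one_le_exp
      exact mul_nonneg hme (Real.log_nonneg h.le)
    nlinarith

lemma sum_exp_half (K : ℕ) : ∑ k ∈ Finset.range K, Real.exp (-((k : ℝ) / 2)) ≤ 3 := by
  have h1 : ∀ k : ℕ, Real.exp (-((k : ℝ) / 2)) = (Real.exp (-(1 / 2))) ^ k := by
    intro k
    rw [← Real.exp_nat_mul]; congr 1; ring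
  have h2 : Real.exp (-(1 / 2 : ℝ)) ≤ 2 / 3 := by
    rw [Real.exp_neg]
    have : (3 / 2 : ℝ) ≤ Real.exp (1 / 2) := by
      have := Real.add_one_le_exp (1 / 2 : ℝ)
      linarith
    rw [inv_le_comm₀ (Real.exp_pos _) (by norm_num)]
    norm_num
    linarith
  calc ∑ k ∈ Finset.range K, Real.exp (-((k : ℝ) / 2))
      = ∑ k ∈ Finset.range K, (Real.exp (-(1 / 2))) ^ k := Finset.sum_congr rfl fun k _ => h1 k
    _ ≤ ∑ k ∈ Finset.range K, (2 / 3 : ℝ) ^ k := by
        refine Finset.sum_le_sum fun k _ => ?_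
        exact pow_le_pow_left₀ (Real.exp_pos _).le h2 k
    _ ≤ 3 := by
        rw [geom_sum_eq (by norm_num)]
        have : (0 : ℝ) ≤ (2 / 3) ^ K := by positivity
        rw [div_le_iff_of_neg (by norm_num)]
        linarith

lemma weight_lint {C : ℝ} (hC1 : 1 ≤ C) (hC : ∀ (N : ℕ) (τ : ℝ), 1 ≤ N → 0 < τ → τ ≤ 1 →
      ((hm (Fin N)).prod (hm (Fin N))).real
        {p | ‖(p.1 : MM (Fin N)) * p.2 - p.2 * p.1‖ < τ * Real.sqrt N} ≤
      C ^ (N ^ 2) * (1 / τ) ^ (N + 1) * τ ^ (N ^ 2)) {N : ℕ} (hN : 1 ≤ N) {t : ℝ} (ht : 1 ≤ t) :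
    ∫⁻ p, ENNReal.ofReal (Real.exp (-(t * N * cmn p))) ∂((hm (Fin N)).prod (hm (Fin N))) ≤
      ENNReal.ofReal ((4 * C) ^ (N ^ 2) *
        Real.exp (-(((N : ℝ) ^ 2 - N - 1) / 2 * Real.log t))) := by
  have htp : (0 : ℝ) < t := by linarith
  have hlt : 0 ≤ Real.log t := Real.log_nonneg ht
  have hCp : (1 : ℝ) ≤ C ^ (N ^ 2) := one_le_pow₀ hC1
  have hNr : (1 : ℝ) ≤ N := by exact_mod_cast hN
  have hNp : (0 : ℝ) < N := by linarith
  rcases Nat.lt_or_ge N 2 with h2 | h2
  · -- N = 1
    have h1 : ∫⁻ p, ENNReal.ofReal (Real.exp (-(t * N * cmn p)))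
        ∂((hm (Fin N)).prod (hm (Fin N))) ≤ 1 := by
      calc _ ≤ ∫⁻ p, 1 ∂((hm (Fin N)).prod (hm (Fin N))) := by
            refine lintegral_mono fun p => ?_
            rw [← ENNReal.ofReal_one]
            apply ENNReal.ofReal_le_ofReal
            apply Real.exp_le_one_iff.2
            have := cmn_nonneg p
            have : 0 ≤ t * N * cmn p := by positivity
            linarith
        _ = 1 := by rw [lintegral_one, measure_univ]
    refine h1.trans ?_
    rw [← ENNReal.ofReal_one]
    apply ENNReal.ofReal_le_ofReal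
    have h3 : (1 : ℝ) ≤ (4 * C) ^ (N ^ 2) := one_le_pow₀ (by linarith)
    have h4 : (1 : ℝ) ≤ Real.exp (-(((N : ℝ) ^ 2 - N - 1) / 2 * Real.log t)) := by
      apply Real.one_le_exp
      have : N = 1 := by omega
      subst this
      push_cast
      nlinarith
    nlinarith
  · set m : ℝ := ((N : ℝ) ^ 2 - N - 1) / 2 with hme
    have hN2r : (2 : ℝ) ≤ N := by exact_mod_cast h2
    have hm0 : 0 ≤ m := by rw [hme]; nlinarith
    have hmN : m ≤ (N : ℝ) ^ 2 / 2 := by rw [hme]; linarith
    set K := ⌈Real.log t⌉₊ with hK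
    have hKt : Real.log t ≤ K := Nat.le_ceil _
    have hP : ∀ k : ℕ, ((hm (Fin N)).prod (hm (Fin N))).real {p | cmn p < ((k : ℝ) + 1) / t * N} ≤
        C ^ (N ^ 2) * (Real.exp (m * k) * Real.exp (-(m * Real.log t))) := by
      intro k
      have hk1 : (0 : ℝ) < (k : ℝ) + 1 := by positivity
      refine (prob_small hC1 hC h2 (s := ((k : ℝ) + 1) / t) (by positivity)).trans ?_
      refine mul_le_mul_of_nonneg_left ?_ (by positivity)
      rw [← Real.exp_add]
      apply Real.exp_le_exp.2
      rw [Real.log_div hk1.ne' htp.ne']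
      have h5 : Real.log ((k : ℝ) + 1) ≤ k := by
        have := Real.log_le_sub_one_of_pos hk1
        linarith
      nlinarith [mul_le_mul_of_nonneg_left h5 hm0]
    have hmeas : ∀ k : ℕ, MeasurableSet {p : UG (Fin N) × UG (Fin N) |
        cmn p < ((k : ℝ) + 1) / t * N} := fun k =>
      (isOpen_lt cmn_cont continuous_const).measurableSet
    calc ∫⁻ p, ENNReal.ofReal (Real.exp (-(t * N * cmn p))) ∂((hm (Fin N)).prod (hm (Fin N)))
        ≤ ∫⁻ p, ((∑ k ∈ Finset.range K, ({p : UG (Fin N) × UG (Fin N) |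
            cmn p < ((k : ℝ) + 1) / t * N}).indicator
              (fun _ => ENNReal.ofReal (Real.exp (-((N : ℝ) ^ 2 * k)))) p) +
            ENNReal.ofReal (Real.exp (-((N : ℝ) ^ 2 * K))))
              ∂((hm (Fin N)).prod (hm (Fin N))) := by
          refine lintegral_mono fun p => ?_
          refine (ENNReal.ofReal_le_ofReal (shell hN ht K (cmn_nonneg p))).trans ?_
          rw [ENNReal.ofReal_add _ (Real.exp_pos _).le]
          · refine add_le_add_left (le_of_eq ?_) _
            rw [ENNReal.ofReal_sum_of_nonneg]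
            · refine Finset.sum_congr rfl fun k _ => ?_
              rw [Set.indicator_apply]
              simp only [Set.mem_ofPred_eq]
              split_ifs
              · rfl
              · exact ENNReal.ofReal_zero
            · intro k _
              split_ifs
              · exact (Real.exp_pos _).le
              · exact le_rfl
          · refine Finset.sum_nonneg fun k _ => ?_
            split_ifs
            · exact (Real.exp_pos _).le
            · exact le_rfl
      _ = (∑ k ∈ Finset.range K, ENNReal.ofReal (Real.exp (-((N : ℝ) ^ 2 * k))) *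
            ((hm (Fin N)).prod (hm (Fin N))) {p | cmn p < ((k : ℝ) + 1) / t * N}) +
            ENNReal.ofReal (Real.exp (-((N : ℝ) ^ 2 * K))) := by
          rw [lintegral_add_right _ measurable_const, lintegral_const, measure_univ, mul_one,
            lintegral_finsetSum]
          · congr 1
            refine Finset.sum_congr rfl fun k _ => ?_
            rw [lintegral_indicator (hmeas k), lintegral_const, Measure.restrict_apply_univ]
          · intro k _
            exact measurable_const.indicator (hmeas k)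
      _ = ENNReal.ofReal ((∑ k ∈ Finset.range K, Real.exp (-((N : ℝ) ^ 2 * k)) *
            ((hm (Fin N)).prod (hm (Fin N))).real {p | cmn p < ((k : ℝ) + 1) / t * N}) +
            Real.exp (-((N : ℝ) ^ 2 * K))) := by
          rw [ENNReal.ofReal_add _ (Real.exp_pos _).le, ENNReal.ofReal_sum_of_nonneg]
          · congr 1
            refine Finset.sum_congr rfl fun k _ => ?_
            rw [ENNReal.ofReal_mul (Real.exp_pos _).le, ofReal_measureReal]
          · intro k _
            exact mul_nonneg (Real.exp_pos _).le measureReal_nonneg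
          · exact Finset.sum_nonneg fun k _ =>
              mul_nonneg (Real.exp_pos _).le measureReal_nonneg
      _ ≤ _ := by
          apply ENNReal.ofReal_le_ofReal
          have h3 : ∑ k ∈ Finset.range K, Real.exp (-((N : ℝ) ^ 2 * k)) *
              ((hm (Fin N)).prod (hm (Fin N))).real {p | cmn p < ((k : ℝ) + 1) / t * N} ≤
              3 * (C ^ (N ^ 2) * Real.exp (-(m * Real.log t))) := by
            calc _ ≤ ∑ k ∈ Finset.range K, Real.exp (-((k : ℝ) / 2)) *
                  (C ^ (N ^ 2) * Real.exp (-(m * Real.log t))) := by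
                  refine Finset.sum_le_sum fun k _ => ?_
                  calc Real.exp (-((N : ℝ) ^ 2 * k)) *
                        ((hm (Fin N)).prod (hm (Fin N))).real {p | cmn p < ((k : ℝ) + 1) / t * N}
                      ≤ Real.exp (-((N : ℝ) ^ 2 * k)) *
                        (C ^ (N ^ 2) * (Real.exp (m * k) * Real.exp (-(m * Real.log t)))) :=
                        mul_le_mul_of_nonneg_left (hP k) (Real.exp_pos _).le
                    _ = (Real.exp (-((N : ℝ) ^ 2 * k)) * Real.exp (m * k)) *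
                        (C ^ (N ^ 2) * Real.exp (-(m * Real.log t))) := by ring
                    _ ≤ _ := by
                        refine mul_le_mul_of_nonneg_right ?_ (by positivity)
                        rw [← Real.exp_add]
                        apply Real.exp_le_exp.2
                        have hk0 : (0 : ℝ) ≤ k := Nat.cast_nonneg k
                        have h6 : m * k ≤ (N : ℝ) ^ 2 / 2 * k := mul_le_mul_of_nonneg_right hmN hk0
                        have h7 : (1 : ℝ) * k ≤ (N : ℝ) ^ 2 * k :=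
                          mul_le_mul_of_nonneg_right (by nlinarith) hk0
                        linarith
              _ = (∑ k ∈ Finset.range K, Real.exp (-((k : ℝ) / 2))) *
                  (C ^ (N ^ 2) * Real.exp (-(m * Real.log t))) := by rw [Finset.sum_mul]
              _ ≤ _ := mul_le_mul_of_nonneg_right (sum_exp_half K) (by positivity)
          have h4 : Real.exp (-((N : ℝ) ^ 2 * K)) ≤
              C ^ (N ^ 2) * Real.exp (-(m * Real.log t)) := by
            have h5 : Real.exp (-((N : ℝ) ^ 2 * K)) ≤ Real.exp (-(m * Real.log t)) := by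
              apply Real.exp_le_exp.2
              have h6 : m * Real.log t ≤ (N : ℝ) ^ 2 * Real.log t :=
                mul_le_mul_of_nonneg_right (by nlinarith) hlt
              have h7 : (N : ℝ) ^ 2 * Real.log t ≤ (N : ℝ) ^ 2 * K :=
                mul_le_mul_of_nonneg_left hKt (by positivity)
              linarith
            have h8 := (Real.exp_pos (-(m * Real.log t))).le
            nlinarith
          have h5 : (4 : ℝ) ≤ 4 ^ (N ^ 2) := by
            calc (4 : ℝ) = 4 ^ 1 := by norm_num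
              _ ≤ 4 ^ (N ^ 2) := pow_le_pow_right₀ (by norm_num) (by nlinarith)
          have h6 : 0 ≤ C ^ (N ^ 2) * Real.exp (-(m * Real.log t)) := by positivity
          calc _ ≤ 4 * (C ^ (N ^ 2) * Real.exp (-(m * Real.log t))) := by linarith
            _ ≤ 4 ^ (N ^ 2) * (C ^ (N ^ 2) * Real.exp (-(m * Real.log t))) :=
                mul_le_mul_of_nonneg_right h5 h6
            _ = _ := by rw [mul_pow]; ring

lemma weight_lint' : ∃ C : ℝ, 1 ≤ C ∧ ∀ (N : ℕ) (t : ℝ), 1 ≤ N → 1 ≤ t →
    ∫⁻ p, ENNReal.ofReal (Real.exp (-(t * N * cmn p))) ∂((hm (Fin N)).prod (hm (Fin N))) ≤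
      ENNReal.ofReal (C ^ (N ^ 2) *
        Real.exp (-(((N : ℝ) ^ 2 - N - 1) / 2 * Real.log t))) := by
  obtain ⟨C, hC1, hC⟩ := two_body
  refine ⟨4 * C, by linarith, fun N t hN ht => ?_⟩
  refine weight_lint hC1 (fun N τ hN hτ hτ1 => ?_) hN ht
  have h := hC (Fin N) N τ (by rw [Fintype.card_fin]) hN hτ hτ1
  rw [Fintype.card_fin] at h
  exact h

theorem two_weight : ∃ C : ℝ, 1 ≤ C ∧ ∀ (N : ℕ) (t : ℝ), 1 ≤ N → 1 ≤ t →
    ∫ p, Real.exp (-(t * N * ‖(p.1 : MM (Fin N)) * p.2 - p.2 * p.1‖ ^ 2))
      ∂((hm (Fin N)).prod (hm (Fin N))) ≤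
      C ^ (N ^ 2) * Real.exp (-(((N : ℝ) ^ 2 - N - 1) / 2 * Real.log t)) := by
  obtain ⟨C, hC1, hC⟩ := weight_lint'
  refine ⟨C, hC1, fun N t hN ht => ?_⟩
  have h1 := hC N t hN ht
  have hcont : Continuous fun p : UG (Fin N) × UG (Fin N) => Real.exp (-(t * N * cmn p)) :=
    Real.continuous_exp.comp (continuous_const.mul cmn_cont).neg
  have h2 := integral_eq_lintegral_of_nonneg_ae (μ := (hm (Fin N)).prod (hm (Fin N)))
    (f := fun p => Real.exp (-(t * N * cmn p)))
    (Filter.Eventually.of_forall fun p => (Real.exp_pos _).le)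
    hcont.aestronglyMeasurable
  have h3 : ∫ p, Real.exp (-(t * N * ‖(p.1 : MM (Fin N)) * p.2 - p.2 * p.1‖ ^ 2))
      ∂((hm (Fin N)).prod (hm (Fin N))) = ∫ p, Real.exp (-(t * N * cmn p))
      ∂((hm (Fin N)).prod (hm (Fin N))) := rfl
  rw [h3, h2]
  exact ENNReal.toReal_le_of_le_ofReal (by positivity) h1

/-- the cyclic sum is at most the sum over all pairs -/
lemma cyc_sum {m : ℕ} (a : Fin (m + 3) → Fin (m + 3) → ℝ) (ha : ∀ i j, 0 ≤ a i j)
    (hs : ∀ i j, a i j = a j i) :
    ∑ i, a i (i + 1) ≤ ∑ i, ∑ j, if i < j then a i j else 0 := by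
  classical
  set φ : Fin (m + 3) → Fin (m + 3) × Fin (m + 3) := fun i =>
    if i < i + 1 then (i, i + 1) else (i + 1, i) with hφ
  have h20 : (1 : Fin (m + 3)) + 1 ≠ 0 := by
    intro h
    have := congrArg Fin.val h
    rw [Fin.val_add, Fin.val_one, Fin.val_zero, Nat.mod_eq_of_lt (by omega)] at this
    omega
  have h10 : (1 : Fin (m + 3)) ≠ 0 := by
    intro h
    have := congrArg Fin.val h
    simp at this
  have hne : ∀ i : Fin (m + 3), i ≠ i + 1 := by
    intro i h
    exact h10 (by simpa using h.symm)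
  have hinj : Function.Injective φ := by
    intro i j hij
    simp only [hφ] at hij
    split_ifs at hij with h1 h2 h2
    · exact (Prod.ext_iff.1 hij).1
    · have e1 : i = j + 1 := (Prod.ext_iff.1 hij).1
      have e2 : i + 1 = j := (Prod.ext_iff.1 hij).2
      rw [e1, add_assoc] at e2
      exact absurd (by simpa using e2) h20
    · have e1 : i + 1 = j := (Prod.ext_iff.1 hij).1
      have e2 : i = j + 1 := (Prod.ext_iff.1 hij).2
      rw [e2, add_assoc] at e1
      exact absurd (by simpa using e1) h20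
    · exact (Prod.ext_iff.1 hij).2
  have h1 : ∑ i, ∑ j, (if i < j then a i j else 0) =
      ∑ q : Fin (m + 3) × Fin (m + 3), if q.1 < q.2 then a q.1 q.2 else 0 := by
    rw [Fintype.sum_prod_type]
  rw [h1]
  have h2 : ∑ i, a i (i + 1) = ∑ q ∈ Finset.univ.image φ, if q.1 < q.2 then a q.1 q.2 else 0 := by
    rw [Finset.sum_image (fun i _ j _ h => hinj h)]
    refine Finset.sum_congr rfl fun i _ => ?_
    simp only [hφ]
    by_cases h : i < i + 1
    · rw [if_pos h]
      simp only
      rw [if_pos h]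
    · rw [if_neg h]
      simp only
      rw [if_pos (lt_of_le_of_ne (not_lt.1 h) (hne i).symm), hs]
  rw [h2]
  refine Finset.sum_le_sum_of_subset_of_nonneg (Finset.subset_univ _) fun q _ _ => ?_
  split_ifs
  · exact ha _ _
  · exact le_rfl

/-- the sum over all pairs -/
theorem cyc_weight : ∃ C : ℝ, 1 ≤ C ∧ ∀ (d N : ℕ) (t : ℝ), 3 ≤ d → 1 ≤ N → 1 ≤ t →
    ∫ V : Fin d → UG (Fin N), Real.exp (-(t * N / 2 * ∑ i : Fin d, ∑ j : Fin d,
      if i < j then ‖(V i : MM (Fin N)) * V j - V j * V i‖ ^ 2 else 0))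
      ∂(Measure.pi fun _ => hm (Fin N)) ≤
      (C ^ (N ^ 2) * Real.exp (-(((N : ℝ) ^ 2 - N - 1) / 4 * Real.log t))) ^ d := by
  obtain ⟨C, hC1, hC⟩ := weight_lint'
  refine ⟨C, hC1, fun d N t hd hN ht => ?_⟩
  obtain ⟨m, rfl⟩ : ∃ m, d = m + 3 := ⟨d - 3, by omega⟩
  have htp : (0 : ℝ) < t := by linarith
  have hNp : (0 : ℝ) < N := by exact_mod_cast hN
  set f : UG (Fin N) × UG (Fin N) → ℝ≥0∞ := fun p =>
    ENNReal.ofReal (Real.exp (-(t * N / 2 * cmn p))) with hf
  have hfm : Measurable f := by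
    refine ENNReal.measurable_ofReal.comp ?_
    exact (Real.continuous_exp.comp (continuous_const.mul cmn_cont).neg).measurable
  set B : ℝ := C ^ (N ^ 2) * Real.exp (-(((N : ℝ) ^ 2 - N - 1) / 4 * Real.log t)) with hB
  have hB0 : 0 < B := by positivity
  have hf2 : ∫⁻ p, f p ^ 2 ∂(hm (Fin N)).prod (hm (Fin N)) ≤ ENNReal.ofReal (B ^ 2) := by
    calc _ = ∫⁻ p, ENNReal.ofReal (Real.exp (-(t * N * cmn p)))
          ∂((hm (Fin N)).prod (hm (Fin N))) := by
          refine lintegral_congr fun p => ?_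
          rw [hf]
          simp only
          rw [← ENNReal.ofReal_pow (Real.exp_pos _).le, ← Real.exp_nat_mul]
          congr 2
          push_cast
          ring
      _ ≤ _ := hC N t hN ht
      _ ≤ _ := by
          apply ENNReal.ofReal_le_ofReal
          rw [hB, mul_pow, ← Real.exp_nat_mul]
          have h1 : C ^ (N ^ 2) ≤ (C ^ (N ^ 2)) ^ 2 := by
            have : (1 : ℝ) ≤ C ^ (N ^ 2) := one_le_pow₀ hC1
            nlinarith
          have h2 : (((2 : ℕ) : ℝ) * -(((N : ℝ) ^ 2 - N - 1) / 4 * Real.log t)) =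
              -(((N : ℝ) ^ 2 - N - 1) / 2 * Real.log t) := by push_cast; ring
          rw [h2]
          exact mul_le_mul_of_nonneg_right h1 (Real.exp_pos _).le
  have hcyc := cyc (hm (Fin N)) (d := m + 3) (by omega) f hfm
  have hI : ∫⁻ V : Fin (m + 3) → UG (Fin N), ENNReal.ofReal (Real.exp (-(t * N / 2 *
      ∑ i : Fin (m + 3), ∑ j : Fin (m + 3),
      if i < j then ‖(V i : MM (Fin N)) * V j - V j * V i‖ ^ 2 else 0)))
      ∂(Measure.pi fun _ => hm (Fin N)) ≤ ENNReal.ofReal (B ^ (m + 3)) := by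
    refine le_trans (b := ∫⁻ x : Fin (m + 3) → UG (Fin N), ∏ i, f (x i, x (i + 1))
      ∂Measure.pi fun _ => hm (Fin N)) ?_ ?_
    · refine lintegral_mono fun V => ?_
      simp only [hf]
      rw [← ENNReal.ofReal_prod_of_nonneg (fun i _ => (Real.exp_pos _).le), ← Real.exp_sum]
      apply ENNReal.ofReal_le_ofReal
      apply Real.exp_le_exp.2
      have h1 := cyc_sum (m := m) (fun i j => ‖(V i : MM (Fin N)) * V j - V j * V i‖ ^ 2)
        (fun i j => by positivity) (fun i j => by rw [norm_sub_rev])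
      rw [Finset.sum_neg_distrib, ← Finset.mul_sum]
      have h2 : 0 ≤ t * N / 2 := by positivity
      have h3 := mul_le_mul_of_nonneg_left h1 h2
      have h4 : ∑ i : Fin (m + 3), cmn (V i, V (i + 1)) =
        ∑ i, (fun i j => ‖(V i : MM (Fin N)) * V j - V j * V i‖ ^ 2) i (i + 1) := rfl
      rw [h4]
      linarith
    · have h1 : (∫⁻ x : Fin (m + 3) → UG (Fin N), ∏ i, f (x i, x (i + 1))
          ∂Measure.pi fun _ => hm (Fin N)) ^ 2 ≤ (ENNReal.ofReal (B ^ (m + 3))) ^ 2 := by
        refine hcyc.trans ((pow_le_pow_left' hf2 _).trans (le_of_eq ?_))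
        rw [← ENNReal.ofReal_pow (by positivity), ← ENNReal.ofReal_pow (by positivity), ← pow_mul,
          ← pow_mul, mul_comm]
      exact (ENNReal.pow_le_pow_left_iff two_ne_zero).1 h1
  have hcont : Continuous fun V : Fin (m + 3) → UG (Fin N) => Real.exp (-(t * N / 2 *
      ∑ i : Fin (m + 3), ∑ j : Fin (m + 3),
      if i < j then ‖(V i : MM (Fin N)) * V j - V j * V i‖ ^ 2 else 0)) := by
    refine Real.continuous_exp.comp (Continuous.neg (continuous_const.mul ?_))
    refine continuous_finsetSum _ fun i _ => continuous_finsetSum _ fun j _ => ?_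
    by_cases h : i < j
    · simp only [h, if_true]
      have hc : ∀ i : Fin (m + 3), Continuous fun V : Fin (m + 3) → UG (Fin N) =>
        (V i : MM (Fin N)) := fun i => continuous_subtype_val.comp (continuous_apply i)
      exact (((hc i).mul (hc j)).sub ((hc j).mul (hc i))).norm.pow 2
    · simp only [h, if_false]
      exact continuous_const
  rw [integral_eq_lintegral_of_nonneg_ae (Filter.Eventually.of_forall fun p => (Real.exp_pos _).le)
    hcont.aestronglyMeasurable]
  exact ENNReal.toReal_le_of_le_ofReal (by positivity) hI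

end

end Pool.Agent.T2H01.EK2
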