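import Mathlib
import Pool.Agent.T2H01.EK.WkD
import Pool.Agent.T2H01.EK2.Tor
import Pool.Agent.T2H01.EK2.Conv
import Pool.Agent.T2H01.EK2.Wgt

/-!
# The free energy at weak coupling
-/

open MeasureTheory Matrix Filter
open scoped Matrix.Norms.Frobenius Topology
open Pool.Agent.H906R3.YM Pool.Agent.W793.YM Pool.Agent.TH618.YM Pool.Agent.T2H01.YM
open Pool.Agent.T2H01.EK

namespace Pool.Agent.T2H01.EK2

set_option linter.unusedSectionVars false
set_option linter.unusedVariables false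

noncomputable section

/-- the squares of the commutators -/
def cmF {d N : ℕ} (V : Fin d → UG (Fin N)) : ℝ := ∑ i : Fin d, ∑ j : Fin d,
  if i < j then ‖(V i : MM (Fin N)) * V j - V j * V i‖ ^ 2 else 0

lemma cmF_cont {d N : ℕ} : Continuous (cmF : (Fin d → UG (Fin N)) → ℝ) := by
  unfold cmF
  refine continuous_finsetSum _ fun i _ => continuous_finsetSum _ fun j _ => ?_
  split_ifs
  · have h : ∀ k : Fin d, Continuous fun V : Fin d → UG (Fin N) => (V k : MM (Fin N)) := fun k =>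
      continuous_subtype_val.comp (continuous_apply k)
    exact ((((h i).mul (h j)).sub ((h j).mul (h i))).norm).pow 2
  · exact continuous_const

lemma cmF_nonneg {d N : ℕ} (V : Fin d → UG (Fin N)) : 0 ≤ cmF V := by
  unfold cmF
  refine Finset.sum_nonneg fun i _ => Finset.sum_nonneg fun j _ => ?_
  split_ifs
  · positivity
  · exact le_rfl

lemma sc_normF {N : ℕ} (hN : 0 < N) {z : UG (Fin N)} {c : ℂ} (hc : (z : MM (Fin N)) = c • 1) :
    ‖c‖ = 1 := by
  have h := ug1 z
  rw [hc, conjTranspose_smul, conjTranspose_one, smul_mul_smul_comm, one_mul] at h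
  have h2 := congrFun (congrFun h ⟨0, hN⟩) ⟨0, hN⟩
  rw [Matrix.smul_apply, Matrix.one_apply_eq, smul_eq_mul, mul_one, Complex.star_def,
    ← Complex.normSq_eq_conj_mul_self, Complex.normSq_eq_norm_sq] at h2
  have h3 : ‖c‖ ^ 2 = 1 := by exact_mod_cast h2
  have := norm_nonneg c
  nlinarith

lemma cmF_sc {d N : ℕ} (hN : 0 < N) (z V : Fin d → UG (Fin N)) (hz : ∀ i, IsSc (z i)) :
    cmF (z * V) = cmF V := by
  unfold cmF
  refine Finset.sum_congr rfl fun i _ => Finset.sum_congr rfl fun j _ => ?_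
  split_ifs
  · obtain ⟨a, ha⟩ := hz i
    obtain ⟨c, hc⟩ := hz j
    have e1 : (((z * V) i : UG (Fin N)) : MM (Fin N)) * ((z * V) j : UG (Fin N)) -
        ((z * V) j : UG (Fin N)) * ((z * V) i : UG (Fin N)) =
        (a * c) • ((V i : MM (Fin N)) * V j - V j * V i) := by
      rw [Pi.mul_apply, Pi.mul_apply, ug_mul, ug_mul, ha, hc]
      simp only [Matrix.smul_mul, Matrix.mul_smul, Matrix.one_mul, smul_smul, smul_sub]
      rw [mul_comm c a]
    rw [e1, norm_smul, norm_mul, sc_normF hN ha, sc_normF hN hc, one_mul, one_mul]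
  · rfl

/-- The upper bound is uniform in the side `l` of the torus. -/
theorem free_two (d : ℕ) (hd : 3 ≤ d) : ∃ A : ℝ, 0 ≤ A ∧ ∀ (l : ℕ) [NeZero l] (C₁ : ℝ) (N n : ℕ)
      (G : Subgroup (UG (Fin N)))
      [MeasurableSpace G] [BorelSpace G] [CompactSpace G] [SecondCountableTopology G]
      (μ : Measure G) [IsProbabilityMeasure μ] [μ.IsMulLeftInvariant] [μ.IsMulRightInvariant]
      [μ.IsInvInvariant] (L : LD G N n), 1 ≤ C₁ → 0 < N →
      (∀ g : G, L.rho g = ((g : UG (Fin N)) : MM (Fin N))) → HG L →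
      (∀ U : UG (Fin N), (U : MM (Fin N)).det = 1 → U ∈ G) →
      (∀ ρ : ℝ, 0 < ρ → ρ ≤ 1 → (ρ / C₁) ^ (N ^ 2) ≤ μ.real {g | LN.D1 L g ≤ ρ}) →
      ∀ b : ℝ, 1 ≤ b →
        fe2 μ L d l b ≤ -((((d : ℝ) - 1) / 2 - (d - 2) / (4 * (l : ℝ) ^ d)) * Real.log b) +
          A * (1 + Real.log b / N) ∧
        -((((d : ℝ) - 1) / 2 - (d - 2) / (4 * (l : ℝ) ^ d)) * Real.log b) - c2 C₁ d l ≤
          fe2 μ L d l b := by
  obtain ⟨C, hC, hcyc⟩ := cyc_weight
  obtain ⟨c, hc⟩ : ∃ c, c = Real.log C := ⟨_, rfl⟩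
  have hc0 : 0 ≤ c := by rw [hc]; exact Real.log_nonneg hC
  have hdr : (3 : ℝ) ≤ d := by exact_mod_cast hd
  refine ⟨d * c + d, by positivity, fun l _ C₁ N n G _ _ _ _ μ _ _ _ _ L hC₁ hN hrho hg hSU hball
    b hb => ?_⟩
  have hNr : (1 : ℝ) ≤ N := by exact_mod_cast hN
  have hN0 : (0 : ℝ) < N := by linarith
  have hl1 : (1 : ℝ) ≤ l := by exact_mod_cast NeZero.pos l
  have hl0 : (0 : ℝ) < l := by linarith
  have hb0 : 0 < b := by linarith
  obtain ⟨V, hV⟩ : ∃ V : ℝ, V = (l : ℝ) ^ d := ⟨_, rfl⟩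
  have hV1 : 1 ≤ V := by rw [hV]; exact one_le_pow₀ hl1
  have hV0 : 0 < V := by linarith
  have hM : (((d - 1) * (l ^ d - 1) : ℕ) : ℝ) = (d - 1) * (V - 1) := by
    have h1 : 1 ≤ l ^ d := Nat.one_le_pow _ _ (NeZero.pos l)
    rw [Nat.cast_mul, Nat.cast_sub (by omega), Nat.cast_sub h1, hV]
    push_cast
    ring
  have hZ : 0 < Zt μ L (N * b) (fun _ : Ed d l → G => 1) := Zt_pos μ _
  obtain ⟨x, hx⟩ : ∃ x : ℝ, x = Real.log b := ⟨_, rfl⟩
  have hx0 : 0 ≤ x := by rw [hx]; exact Real.log_nonneg hb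
  have hNV : 0 < (N : ℝ) ^ 2 * V := by positivity
  obtain ⟨Z, hZd⟩ : ∃ Z : ℝ, Z = Real.log (Zt μ L (N * b) (fun _ : Ed d l → G => 1)) := ⟨_, rfl⟩
  have hfe : fe2 μ L d l b = Z / ((N : ℝ) ^ 2 * V) := by
    rw [hZd, hV]; rfl
  rw [hfe, ← hx, ← hV]
  constructor
  · -- the upper bound
    have h1 := tor_upper μ (L := L) (d := d) (l := l) hN hg hb0.le (W := fun _ => 1)
      continuous_const (fun _ => zero_le_one)
    obtain ⟨I, hI⟩ : ∃ I : ℝ, I = ∫ V : Fin d → UG (Fin N),
        Real.exp (-(N * b / (4 * (l : ℝ) ^ 2) * cmF V)) ∂(Measure.pi fun _ => hm (Fin N)) :=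
      ⟨_, rfl⟩
    have h2 : ∫ P : Fin d → G, 1 * Real.exp (-(N * b / (4 * (l : ℝ) ^ 2) * cms L P))
        ∂(Measure.pi fun _ => μ) = I := by
      have h3 := conv μ (d := d) hN hSU
        (Φ := fun V => Real.exp (-(N * b / (4 * (l : ℝ) ^ 2) * cmF V)))
        (Real.continuous_exp.comp (continuous_const.mul cmF_cont).neg)
        (fun z V hz => by rw [cmF_sc hN z V hz])
      rw [hI, ← h3]
      refine integral_congr_ae (Eventually.of_forall fun P => ?_)
      simp only [one_mul]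
      have h4 : cms L P = cmF fun i => (P i : UG (Fin N)) := by
        unfold cms cmF
        simp only [hrho]
      rw [h4]
    rw [h2] at h1
    obtain ⟨x', hx'⟩ : ∃ x' : ℝ, x' = Real.log (1 + b) := ⟨_, rfl⟩
    have hxx : x ≤ x' := by rw [hx, hx']; exact Real.log_le_log (by linarith) (by linarith)
    rw [← hx', ← Real.exp_nat_mul, hM] at h1
    have hI0 : 0 < I := by
      have h3 := lt_of_lt_of_le hZ h1
      exact pos_of_mul_pos_right h3 (Real.exp_pos _).le
    have h5 : Z ≤ (d - 1) * (V - 1) * -(((N : ℝ) ^ 2 - 1) / 2 * x') + Real.log I := by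
      rw [hZd]
      have h6 := Real.log_le_log hZ h1
      rwa [Real.log_mul (Real.exp_pos _).ne' hI0.ne', Real.log_exp] at h6
    obtain ⟨q, hq⟩ : ∃ q : ℝ, q = Real.log (2 * (l : ℝ) ^ 2) := ⟨_, rfl⟩
    have hl2 : (1 : ℝ) ≤ (l : ℝ) ^ 2 := one_le_pow₀ hl1
    have hq0 : 0 ≤ q := by rw [hq]; exact Real.log_nonneg (by linarith)
    have hqV : q ≤ 2 * V := by
      have h7 : q ≤ 2 * (l : ℝ) ^ 2 - 1 := by
        rw [hq]; exact Real.log_le_sub_one_of_pos (by positivity)
      have h8 : (l : ℝ) ^ 2 ≤ V := by rw [hV]; exact pow_le_pow_right₀ hl1 (by omega)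
      linarith
    -- the integral
    have h9 : Real.log I ≤ d * (N : ℝ) ^ 2 * c - d / 4 * (N : ℝ) ^ 2 * x +
        d / 4 * (N + 1) * x + d / 4 * (N : ℝ) ^ 2 * q := by
      rcases le_or_gt 1 (b / (2 * (l : ℝ) ^ 2)) with ht | ht
      · have h10 := hcyc d N (b / (2 * (l : ℝ) ^ 2)) hd hN ht
        have e1 : ∀ V : Fin d → UG (Fin N), -(b / (2 * (l : ℝ) ^ 2) * N / 2 *
            ∑ i : Fin d, ∑ j : Fin d,
            if i < j then ‖(V i : MM (Fin N)) * V j - V j * V i‖ ^ 2 else 0) =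
            -(N * b / (4 * (l : ℝ) ^ 2) * cmF V) := by
          intro V
          unfold cmF
          congr 1
          congr 1
          field_simp
          ring
        simp only [e1] at h10
        rw [← hI] at h10
        have h11 := Real.log_le_log hI0 h10
        have hC0 : 0 < C := by linarith
        rw [Real.log_pow, Real.log_mul (by positivity) (Real.exp_pos _).ne', Real.log_exp,
          Real.log_pow, Real.log_div (by positivity) (by positivity), ← hx, ← hc, ← hq] at h11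
        push_cast at h11
        have h12 : d / 4 * (N + 1) * q ≥ 0 := by positivity
        have e2 : (d : ℝ) * ((N : ℝ) ^ 2 * c + -(((N : ℝ) ^ 2 - N - 1) / 4 * (x - q))) =
            d * (N : ℝ) ^ 2 * c - d / 4 * (N : ℝ) ^ 2 * x +
        d / 4 * (N + 1) * x + d / 4 * (N : ℝ) ^ 2 * q - d / 4 * (N + 1) * q := by ring
        rw [e2] at h11
        linarith
      · have h10 : I ≤ 1 := by
          rw [hI]
          have h11 : ∫ V : Fin d → UG (Fin N),
              Real.exp (-(N * b / (4 * (l : ℝ) ^ 2) * cmF V)) ∂(Measure.pi fun _ => hm (Fin N)) ≤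
              ∫ V : Fin d → UG (Fin N), (1 : ℝ) ∂(Measure.pi fun _ => hm (Fin N)) := by
            refine integral_mono ?_ (integrable_const _) fun V => ?_
            · exact (Real.continuous_exp.comp (continuous_const.mul
                cmF_cont).neg).integrable_of_hasCompactSupport (HasCompactSupport.of_compactSpace _)
            · refine Real.exp_le_one_iff.2 ?_
              have := cmF_nonneg V
              have : 0 ≤ N * b / (4 * (l : ℝ) ^ 2) * cmF V := by positivity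
              linarith
          rwa [integral_const, probReal_univ, one_smul] at h11
        have h11 : Real.log I ≤ 0 := Real.log_nonpos hI0.le h10
        have h12 : x ≤ q := by
          rw [hx, hq]
          refine Real.log_le_log hb0 ?_
          rw [div_lt_one (by positivity)] at ht
          exact ht.le
        have h13 : d / 4 * (N : ℝ) ^ 2 * x ≤ d / 4 * (N : ℝ) ^ 2 * q :=
          mul_le_mul_of_nonneg_left h12 (by positivity)
        have h14 : 0 ≤ d * (N : ℝ) ^ 2 * c := by positivity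
        have h15 : 0 ≤ d / 4 * ((N : ℝ) + 1) * x := by positivity
        linarith
    rw [div_le_iff₀ hNV]
    have e3 : (-((((d : ℝ) - 1) / 2 - (d - 2) / (4 * V)) * x) + (d * c + d) * (1 + x / N)) *
        ((N : ℝ) ^ 2 * V) = -((N : ℝ) ^ 2 * x * ((d - 1) * V / 2 - (d - 2) / 4)) +
        (d * c + d) * ((N : ℝ) ^ 2 * V + N * V * x) := by
      field_simp
    rw [e3]
    have h16 : (d - 1) * (V - 1) * -(((N : ℝ) ^ 2 - 1) / 2 * x') ≤
        (d - 1) * (V - 1) * -(((N : ℝ) ^ 2 - 1) / 2 * x) := by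
      refine mul_le_mul_of_nonneg_left (neg_le_neg ?_) ?_
      · refine mul_le_mul_of_nonneg_left hxx ?_
        have : (1 : ℝ) ≤ (N : ℝ) ^ 2 := one_le_pow₀ hNr
        linarith
      · have h17 : 0 ≤ (d : ℝ) - 1 := by linarith
        have h18 : 0 ≤ V - 1 := by linarith
        positivity
    have hVx : 0 ≤ V * x := by positivity
    have s1 : 1 / 2 * ((d : ℝ) - 1) * ((V - 1) * x) ≤ d / 2 * (N * V * x) := by
      have t1 : (V - 1) * x ≤ V * x := mul_le_mul_of_nonneg_right (by linarith) hx0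
      have t2 : V * x ≤ N * (V * x) := le_mul_of_one_le_left hVx hNr
      have t3 : 0 ≤ N * (V * x) := by positivity
      have t4 : (V - 1) * x ≤ N * (V * x) := t1.trans t2
      have t5 : 1 / 2 * ((d : ℝ) - 1) * ((V - 1) * x) ≤ 1 / 2 * ((d : ℝ) - 1) * (N * (V * x)) :=
        mul_le_mul_of_nonneg_left t4 (by linarith)
      have t6 : 1 / 2 * ((d : ℝ) - 1) * (N * (V * x)) ≤ d / 2 * (N * (V * x)) :=
        mul_le_mul_of_nonneg_right (by linarith) t3
      linarith
    have s2 : d / 4 * ((N : ℝ) + 1) * x ≤ d / 2 * (N * V * x) := by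
      have t1 : ((N : ℝ) + 1) ≤ 2 * N := by linarith
      have t2 : x ≤ V * x := le_mul_of_one_le_left hx0 hV1
      have t3 : ((N : ℝ) + 1) * x ≤ 2 * N * (V * x) := mul_le_mul t1 t2 hx0 (by positivity)
      have t4 : d / 4 * (((N : ℝ) + 1) * x) ≤ d / 4 * (2 * N * (V * x)) :=
        mul_le_mul_of_nonneg_left t3 (by positivity)
      linarith
    have s3 : d / 4 * (N : ℝ) ^ 2 * q ≤ d / 2 * ((N : ℝ) ^ 2 * V) := by
      have t1 : d / 4 * (N : ℝ) ^ 2 * q ≤ d / 4 * (N : ℝ) ^ 2 * (2 * V) :=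
        mul_le_mul_of_nonneg_left hqV (by positivity)
      linarith
    have s4 : d * (N : ℝ) ^ 2 * c ≤ d * c * ((N : ℝ) ^ 2 * V) := by
      have t1 : d * c * (N : ℝ) ^ 2 ≤ d * c * (N : ℝ) ^ 2 * V :=
        le_mul_of_one_le_right (by positivity) hV1
      linarith
    have s5 : 0 ≤ d * c * (N * V * x) := by positivity
    have s6 : 0 ≤ d / 2 * ((N : ℝ) ^ 2 * V) := by positivity
    have e4 : (d - 1) * (V - 1) * -(((N : ℝ) ^ 2 - 1) / 2 * x) - d / 4 * (N : ℝ) ^ 2 * x =
        -((N : ℝ) ^ 2 * x * ((d - 1) * V / 2 - (d - 2) / 4)) +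
          1 / 2 * ((d : ℝ) - 1) * ((V - 1) * x) := by ring
    linarith
  · -- the lower bound
    have h1 := lower_exp μ (L := L) (d := d) (l := l) hC₁ hN hball hb
    have h2 := (Real.le_log_iff_exp_le hZ).2 h1
    rw [← hZd, ← hx, hM] at h2
    rw [le_div_iff₀ hNV]
    refine le_trans ?_ h2
    have hc2 := c2_nonneg hC₁ d l
    have e3 : (-((((d : ℝ) - 1) / 2 - (d - 2) / (4 * V)) * x) - c2 C₁ d l) * ((N : ℝ) ^ 2 * V) =
        -((N : ℝ) ^ 2 * (((d - 1) * (V - 1) / 2 + d / 4) * x)) - c2 C₁ d l * (N : ℝ) ^ 2 * V := by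
      field_simp
      ring
    rw [e3]
    have h3 : c2 C₁ d l * (N : ℝ) ^ 2 ≤ c2 C₁ d l * (N : ℝ) ^ 2 * V :=
      le_mul_of_one_le_right (by positivity) hV1
    linarith

end

end Pool.Agent.T2H01.EK2
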