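import Mathlib

/-!
# Tubes around a subgroup, conjugation averages (abstract compact groups)
-/

open MeasureTheory
open scoped Topology ENNReal

namespace Pool.Agent.T2H01.EK2

set_option linter.unusedSectionVars false
set_option linter.unusedVariables false

noncomputable section

variable {G H : Type*} [Group G] [TopologicalSpace G] [IsTopologicalGroup G]
  [SecondCountableTopology G] [MeasurableSpace G] [BorelSpace G] (μ : Measure G)
  [IsProbabilityMeasure μ] [μ.IsMulLeftInvariant] [μ.IsMulRightInvariant] [μ.IsInvInvariant]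
  [Group H] [TopologicalSpace H] [IsTopologicalGroup H]
  [SecondCountableTopology H] [MeasurableSpace H] [BorelSpace H] (ν : Measure H)
  [IsProbabilityMeasure ν] [ν.IsMulLeftInvariant] [ν.IsMulRightInvariant] [ν.IsInvInvariant]

/-- a continuous conjugation invariant length -/
structure Len (D : G → ℝ) : Prop where
  cont : Continuous D
  one : D 1 = 0
  mul : ∀ g h, D (g * h) ≤ D g + D h
  inv : ∀ g, D g⁻¹ = D g
  conj : ∀ g h, D (g * h * g⁻¹) = D h

/-- the tube around the image of `H` -/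
def tube (φ : H →* G) (D : G → ℝ) (r : ℝ) : Set G := {g | ∃ h, D (g * (φ h)⁻¹) < r}

theorem Grp.toR {a b c : ℝ≥0∞} (h : a ≤ b * c) (hb : b ≠ ⊤) (hc : c ≠ ⊤) :
    a.toReal ≤ b.toReal * c.toReal := by
  rw [← ENNReal.toReal_mul]
  exact ENNReal.toReal_mono (ENNReal.mul_ne_top hb hc) h

theorem Grp.toR' {a b c : ℝ≥0∞} (h : b * c ≤ a) (ha : a ≠ ⊤) :
    b.toReal * c.toReal ≤ a.toReal := by
  rw [← ENNReal.toReal_mul]
  exact ENNReal.toReal_mono ha h

theorem Grp.tube_open (φ : H →* G) {D : G → ℝ} (hD : Len D) (r : ℝ) :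
    IsOpen (tube φ D r) := by
  have h : tube φ D r = ⋃ h : H, {g | D (g * (φ h)⁻¹) < r} := by
    ext g; simp [tube]
  rw [h]
  refine isOpen_iUnion fun h => ?_
  exact isOpen_lt (hD.cont.comp (continuous_id.mul continuous_const)) continuous_const

/-- integration over `H` -/
theorem Grp.fub (φ : H →* G) (hφ : Continuous φ) {D : G → ℝ} (hD : Len D) (r : ℝ) :
    ∫⁻ g, ν {h | D (φ h * g) < r} ∂μ = μ {g | D g < r} := by
  have hS : MeasurableSet {p : G × H | D (φ p.2 * p.1) < r} := by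
    refine IsOpen.measurableSet (isOpen_lt (hD.cont.comp ?_) continuous_const)
    exact (hφ.comp continuous_snd).mul continuous_fst
  have h1 := Measure.prod_apply (μ := μ) (ν := ν) hS
  have h2 := Measure.prod_apply_symm (μ := μ) (ν := ν) hS
  have h3 : ∀ h : H, μ ((fun x => (x, h)) ⁻¹' {p : G × H | D (φ p.2 * p.1) < r}) =
      μ {g | D g < r} := fun h => measure_preimage_mul μ (φ h) {g | D g < r}
  rw [h1] at h2
  simp only [h3, lintegral_const, measure_univ, mul_one] at h2
  exact h2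

theorem tube_ge {φ : H →* G} (hφ : Continuous φ) {D : G → ℝ} (hD : Len D) (r : ℝ) :
    μ.real {g | D g < r} ≤ μ.real (tube φ D r) * ν.real {h | D (φ h) < 2 * r} := by
  refine Grp.toR ?_ (measure_ne_top _ _) (measure_ne_top _ _)
  rw [← Grp.fub μ ν φ hφ hD r, mul_comm]
  refine le_trans (lintegral_mono (g := (tube φ D r).indicator
    fun _ => ν {h | D (φ h) < 2 * r}) fun g => ?_) (lintegral_indicator_const_le _ _)
  by_cases hg : g ∈ tube φ D r
  · rw [Set.indicator_of_mem hg]
    by_cases hne : ∃ h₀, D (φ h₀ * g) < r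
    · obtain ⟨h₀, hh₀⟩ := hne
      have h1 : ν {h | D (φ (h * h₀⁻¹)) < 2 * r} = ν {h | D (φ h) < 2 * r} :=
        measure_preimage_mul_right ν h₀⁻¹ {h | D (φ h) < 2 * r}
      rw [← h1]
      refine measure_mono fun h hh => ?_
      have e1 : φ (h * h₀⁻¹) = (φ h * g) * (φ h₀ * g)⁻¹ := by
        rw [map_mul, map_inv]; group
      have h2 := hD.mul (φ h * g) (φ h₀ * g)⁻¹
      rw [hD.inv] at h2
      have h3 : D (φ h * g) < r := hh
      show D (φ (h * h₀⁻¹)) < 2 * r
      rw [e1]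
      linarith
    · have h1 : {h | D (φ h * g) < r} = ∅ := by
        ext h
        simp only [Set.mem_ofPred_eq, Set.mem_empty_iff_false, iff_false]
        exact fun h2 => hne ⟨h, h2⟩
      simp only [h1, measure_empty]
      exact zero_le
  · have h1 : {h | D (φ h * g) < r} = ∅ := by
      ext h
      simp only [Set.mem_ofPred_eq, Set.mem_empty_iff_false, iff_false]
      intro h2
      apply hg
      refine ⟨h⁻¹, ?_⟩
      have h3 := hD.conj (φ h)⁻¹ (φ h * g)
      have e1 : (φ h)⁻¹ * (φ h * g) * (φ h)⁻¹⁻¹ = g * (φ h⁻¹)⁻¹ := by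
        rw [map_inv]; group
      rw [e1] at h3
      rw [h3]
      exact h2
    simp only [h1, measure_empty]
    exact zero_le

theorem tube_le {φ : H →* G} (hφ : Continuous φ) {D : G → ℝ} (hD : Len D) (r : ℝ) :
    μ.real (tube φ D r) * ν.real {h | D (φ h) < r} ≤ μ.real {g | D g < 2 * r} := by
  refine Grp.toR' ?_ (measure_ne_top _ _)
  rw [← Grp.fub μ ν φ hφ hD (2 * r), mul_comm,
    ← lintegral_indicator_const (Grp.tube_open φ hD r).measurableSet]
  refine lintegral_mono fun g => ?_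
  by_cases hg : g ∈ tube φ D r
  · rw [Set.indicator_of_mem hg]
    obtain ⟨h₀, hh₀⟩ := hg
    have h1 : ν {h | D (φ (h * h₀)) < r} = ν {h | D (φ h) < r} :=
      measure_preimage_mul_right ν h₀ {h | D (φ h) < r}
    rw [← h1]
    refine measure_mono fun h hh => ?_
    have e1 : φ h * g = (φ h * (g * (φ h₀)⁻¹) * (φ h)⁻¹) * φ (h * h₀) := by
      rw [map_mul]; group
    have h2 := hD.mul (φ h * (g * (φ h₀)⁻¹) * (φ h)⁻¹) (φ (h * h₀))
    rw [hD.conj] at h2
    have h3 : D (φ (h * h₀)) < r := hh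
    show D (φ h * g) < 2 * r
    rw [e1]
    linarith
  · rw [Set.indicator_of_notMem hg]
    exact zero_le

theorem nbhd_le {d : ℕ} {φ : H →* G} (hφ : Continuous φ) {D : G → ℝ} (hD : Len D) {r : ℝ}
    {K K' : Set (Fin d → H)} (hm : MeasurableSet K')
    (hK : ∀ k ∈ K, ∀ k' : Fin d → H, (∀ i, D (φ (k' i) * (φ (k i))⁻¹) < 2 * r) → k' ∈ K') :
    (Measure.pi fun _ => μ).real {V : Fin d → G | ∃ k ∈ K, ∀ i, D (V i * (φ (k i))⁻¹) < r} ≤
      μ.real (tube φ D r) ^ d * (Measure.pi fun _ => ν).real K' := by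
  set A : Set (Fin d → G) := {V | ∃ k ∈ K, ∀ i, D (V i * (φ (k i))⁻¹) < r} with hA
  have hAo : IsOpen A := by
    have h : A = ⋃ k ∈ K, ⋂ i, {V : Fin d → G | D (V i * (φ (k i))⁻¹) < r} := by
      ext V; simp [hA]
    rw [h]
    refine isOpen_biUnion fun k _ => isOpen_iInter_of_finite fun i => ?_
    exact isOpen_lt (hD.cont.comp ((continuous_apply i).mul continuous_const)) continuous_const
  have hS : MeasurableSet {p : (Fin d → G) × (Fin d → H) | (fun i => φ (p.2 i) * p.1 i) ∈ A} := by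
    refine IsOpen.measurableSet (hAo.preimage ?_)
    refine continuous_pi fun i => ?_
    exact (hφ.comp ((continuous_apply i).comp continuous_snd)).mul
      ((continuous_apply i).comp continuous_fst)
  have h1 := Measure.prod_apply (μ := Measure.pi fun _ : Fin d => μ)
    (ν := Measure.pi fun _ : Fin d => ν) hS
  have h2 := Measure.prod_apply_symm (μ := Measure.pi fun _ : Fin d => μ)
    (ν := Measure.pi fun _ : Fin d => ν) hS
  have h3 : ∀ h : Fin d → H, (Measure.pi fun _ : Fin d => μ) ((fun x => (x, h)) ⁻¹'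
      {p : (Fin d → G) × (Fin d → H) | (fun i => φ (p.2 i) * p.1 i) ∈ A}) =
      (Measure.pi fun _ : Fin d => μ) A := fun h =>
    measure_preimage_mul (Measure.pi fun _ : Fin d => μ) (fun i => φ (h i)) A
  rw [h1] at h2
  simp only [h3, lintegral_const, measure_univ, mul_one] at h2
  have h4 : (μ.real (tube φ D r)) ^ d =
      ((Measure.pi fun _ : Fin d => μ) (Set.univ.pi fun _ => tube φ D r)).toReal := by
    rw [Measure.pi_pi, Finset.prod_const, Finset.card_univ, Fintype.card_fin, ENNReal.toReal_pow]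
    rfl
  rw [h4]
  refine Grp.toR ?_ (measure_ne_top _ _) (measure_ne_top _ _)
  rw [← h2, mul_comm]
  refine le_trans (lintegral_mono (g := (Set.univ.pi fun _ => tube φ D r).indicator
    fun _ => (Measure.pi fun _ : Fin d => ν) K') fun V => ?_) (lintegral_indicator_const_le _ _)
  by_cases hV : V ∈ (Set.univ.pi fun _ : Fin d => tube φ D r)
  · rw [Set.indicator_of_mem hV]
    have h5 : ∀ i, ∃ h, D (V i * (φ h)⁻¹) < r := fun i => hV i (Set.mem_univ i)
    choose k0 hk0 using h5
    have h6 : (Measure.pi fun _ : Fin d => ν) {h | h * k0 ∈ K'} =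
        (Measure.pi fun _ : Fin d => ν) K' :=
      measure_preimage_mul_right (Measure.pi fun _ : Fin d => ν) k0 K'
    rw [← h6]
    refine measure_mono fun h hh => ?_
    obtain ⟨k, hk, hki⟩ : ∃ k ∈ K, ∀ i, D (φ (h i) * V i * (φ (k i))⁻¹) < r := hh
    show h * k0 ∈ K'
    refine hK k hk _ fun i => ?_
    have e1 : φ ((h * k0) i) * (φ (k i))⁻¹ =
        (φ (h i) * (φ (k0 i) * (V i)⁻¹) * (φ (h i))⁻¹) * (φ (h i) * V i * (φ (k i))⁻¹) := by
      rw [Pi.mul_apply, map_mul]; group
    have h7 := hD.mul (φ (h i) * (φ (k0 i) * (V i)⁻¹) * (φ (h i))⁻¹)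
      (φ (h i) * V i * (φ (k i))⁻¹)
    rw [hD.conj] at h7
    have h8 := hD.inv (V i * (φ (k0 i))⁻¹)
    have e2 : (V i * (φ (k0 i))⁻¹)⁻¹ = φ (k0 i) * (V i)⁻¹ := by group
    rw [e2] at h8
    have h9 := hki i
    have h10 := hk0 i
    rw [e1]
    linarith
  · have h5 : Prod.mk V ⁻¹' {p : (Fin d → G) × (Fin d → H) |
        (fun i => φ (p.2 i) * p.1 i) ∈ A} = ∅ := by
      ext h
      simp only [Set.mem_preimage, Set.mem_ofPred_eq, Set.mem_empty_iff_false, iff_false]
      rintro ⟨k, hk, hki⟩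
      apply hV
      intro i _
      refine ⟨(h i)⁻¹ * k i, ?_⟩
      have h3 := hD.conj (φ (h i))⁻¹ (φ (h i) * V i * (φ (k i))⁻¹)
      have e1 : (φ (h i))⁻¹ * (φ (h i) * V i * (φ (k i))⁻¹) * (φ (h i))⁻¹⁻¹ =
          V i * (φ ((h i)⁻¹ * k i))⁻¹ := by
        rw [map_mul, map_inv]; group
      rw [e1] at h3
      rw [h3]
      exact hki i
    rw [h5, measure_empty]
    exact zero_le

theorem conj_le {d : ℕ} {φ : H →* G} (hφ : Continuous φ) {D : G → ℝ} (hD : Len D) {r : ℝ}
    {A A' : Set (Fin d → G)} (hA : IsOpen A) (hA' : MeasurableSet A')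
    (hAA : ∀ V ∈ A, ∀ y, D y < r → ∀ h : H,
      (fun i => (y * φ h)⁻¹ * V i * (y * φ h)) ∈ A') :
    (Measure.pi fun _ => μ).real {V : Fin d → G | ∃ g : G, (fun i => g⁻¹ * V i * g) ∈ A} *
      μ.real (tube φ D r) ≤ (Measure.pi fun _ => μ).real A' := by
  set E : Set (Fin d → G) := {V | ∃ g : G, (fun i => g⁻¹ * V i * g) ∈ A} with hE
  have hEo : IsOpen E := by
    have h : E = ⋃ g : G, (fun (V : Fin d → G) i => g⁻¹ * V i * g) ⁻¹' A := by
      ext V; simp [hE]
    rw [h]
    refine isOpen_iUnion fun g => hA.preimage ?_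
    exact continuous_pi fun i =>
      (continuous_const.mul (continuous_apply i)).mul continuous_const
  have hcont : Continuous fun (p : (Fin d → G) × G) (i : Fin d) => p.2⁻¹ * p.1 i * p.2 := by
    refine continuous_pi fun i => ?_
    exact (continuous_snd.inv.mul ((continuous_apply i).comp continuous_fst)).mul continuous_snd
  have hS : MeasurableSet {p : (Fin d → G) × G | (fun i => p.2⁻¹ * p.1 i * p.2) ∈ A'} :=
    hcont.measurable hA'
  have h1 := Measure.prod_apply (μ := Measure.pi fun _ : Fin d => μ) (ν := μ) hS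
  have h2 := Measure.prod_apply_symm (μ := Measure.pi fun _ : Fin d => μ) (ν := μ) hS
  have h3 : ∀ g : G, (Measure.pi fun _ : Fin d => μ) ((fun x => (x, g)) ⁻¹'
      {p : (Fin d → G) × G | (fun i => p.2⁻¹ * p.1 i * p.2) ∈ A'}) =
      (Measure.pi fun _ : Fin d => μ) A' := by
    intro g
    have h4 := measure_preimage_mul (Measure.pi fun _ : Fin d => μ) (fun _ => g⁻¹)
      ((fun x => x * (fun _ => g)) ⁻¹' A')
    rw [measure_preimage_mul_right] at h4
    exact h4
  rw [h1] at h2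
  simp only [h3, lintegral_const, measure_univ, mul_one] at h2
  refine Grp.toR' ?_ (measure_ne_top _ _)
  rw [← h2, mul_comm, ← lintegral_indicator_const hEo.measurableSet]
  refine lintegral_mono fun V => ?_
  by_cases hV : V ∈ E
  · rw [Set.indicator_of_mem hV]
    obtain ⟨g0, hg0⟩ := hV
    have h5 : μ {g | g0⁻¹ * g ∈ tube φ D r} = μ (tube φ D r) :=
      measure_preimage_mul μ g0⁻¹ (tube φ D r)
    rw [← h5]
    refine measure_mono fun g hg => ?_
    obtain ⟨h, hh⟩ : ∃ h, D (g0⁻¹ * g * (φ h)⁻¹) < r := hg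
    show (fun i => g⁻¹ * V i * g) ∈ A'
    have h6 := hAA _ hg0 (g0⁻¹ * g * (φ h)⁻¹) hh h
    have h7 : (fun i => (g0⁻¹ * g * (φ h)⁻¹ * φ h)⁻¹ * (g0⁻¹ * V i * g0) *
        (g0⁻¹ * g * (φ h)⁻¹ * φ h)) = fun i => g⁻¹ * V i * g := by
      funext i; group
    rw [h7] at h6
    exact h6
  · rw [Set.indicator_of_notMem hV]
    exact zero_le

end

end Pool.Agent.T2H01.EK2
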