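import Mathlib
import Pool.Agent.T2H01.EK2.Base
import Pool.Agent.T2H01.EK2.Grp

/-!
# The block diagonal subgroup
-/

open MeasureTheory Matrix
open scoped Matrix.Norms.Frobenius Topology ENNReal

namespace Pool.Agent.T2H01.EK2

set_option linter.unusedSectionVars false
set_option linter.unusedVariables false

noncomputable section

variable {ι κ : Type} [Fintype ι] [DecidableEq ι] [Fintype κ] [DecidableEq κ]

lemma len0 : Len (D0 : UG ι → ℝ) := ⟨D0_cont, D0_one, D0_mul, D0_inv, D0_conj⟩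

lemma fr_subm (e : κ ≃ ι) (A : MM ι) : ‖A.submatrix e e‖ = ‖A‖ := by
  have h : ‖A.submatrix e e‖ ^ 2 = ‖A‖ ^ 2 := by
    rw [fr_sq, fr_sq, conjTranspose_submatrix, submatrix_mul_equiv]
    unfold trace
    simp only [diag_apply, submatrix_apply]
    rw [Equiv.sum_comp e (fun i => (Aᴴ * A) i i)]
  exact (sq_eq_sq₀ (norm_nonneg _) (norm_nonneg _)).1 h

lemma rix_cont (e : ι ≃ κ) : Continuous (rix e : UG ι → UG κ) :=
  Continuous.subtype_mk (continuous_subtype_val.matrix_submatrix e.symm e.symm) _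

lemma rix_one (e : ι ≃ κ) : rix e (1 : UG ι) = 1 := by
  apply Subtype.ext
  rw [rix_val, ug_one, submatrix_one_equiv, ug_one]

variable {m n N d : ℕ}

/-- the embedding of the block diagonal subgroup -/
def ph (h : m + n = N) : UG (Fin m) × UG (Fin n) →* UG (Fin N) where
  toFun k := rix (eN h) (blk k)
  map_one' := by rw [blk_one, rix_one]
  map_mul' k k' := by rw [blk_mul, rix_mul]

lemma ph_cont (h : m + n = N) : Continuous (ph h) := (rix_cont _).comp blk_cont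

lemma ph_val (h : m + n = N) (k : UG (Fin m) × UG (Fin n)) :
    ((ph h k : UG (Fin N)) : MM (Fin N)) =
      ((blk k : UG (Fin m ⊕ Fin n)) : MM (Fin m ⊕ Fin n)).submatrix (eN h).symm (eN h).symm := rfl

lemma cj_val (h : m + n = N) (g V : UG (Fin N)) :
    ((cj h g V : UG (Fin m ⊕ Fin n)) : MM (Fin m ⊕ Fin n)) =
      ((g⁻¹ * V * g : UG (Fin N)) : MM (Fin N)).submatrix (eN h) (eN h) := rfl

/-- going back to `Fin N` -/
lemma back_sub (h : m + n = N) (g V : UG (Fin N)) :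
    ((g⁻¹ * V * g : UG (Fin N)) : MM (Fin N)) =
      ((cj h g V : UG (Fin m ⊕ Fin n)) : MM (Fin m ⊕ Fin n)).submatrix (eN h).symm (eN h).symm := by
  rw [cj_val, submatrix_submatrix]
  simp

lemma norm_fromBlocks (A : MM ι) (D : MM κ) :
    ‖Matrix.fromBlocks A 0 0 D‖ ^ 2 = ‖A‖ ^ 2 + ‖D‖ ^ 2 := by
  rw [fr_sq, fr_sq, fr_sq, fromBlocks_conjTranspose, fromBlocks_multiply]
  simp [trace, Fintype.sum_sum_type]

lemma D0_ph (h : m + n = N) (k : UG (Fin m) × UG (Fin n)) :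
    D0 (ph h k) ^ 2 = D0 k.1 ^ 2 + D0 k.2 ^ 2 := by
  unfold D0
  rw [ph_val]
  have e1 : (1 : MM (Fin N)) - ((blk k : UG (Fin m ⊕ Fin n)) : MM (Fin m ⊕ Fin n)).submatrix
      (eN h).symm (eN h).symm = (Matrix.fromBlocks (1 - (k.1 : MM (Fin m))) 0 0
        (1 - (k.2 : MM (Fin n)))).submatrix (eN h).symm (eN h).symm := by
    have e2 : (1 : MM (Fin N)) = (1 : MM (Fin m ⊕ Fin n)).submatrix (eN h).symm (eN h).symm :=
      (submatrix_one_equiv _).symm
    have e3 : (Matrix.fromBlocks (1 - (k.1 : MM (Fin m))) 0 0 (1 - (k.2 : MM (Fin n)))) =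
        1 - ((blk k : UG (Fin m ⊕ Fin n)) : MM (Fin m ⊕ Fin n)) := by
      rw [blk_val]
      ext (i | i) (j | j) <;> simp [Matrix.one_apply]
    rw [e3, e2]
    rfl
  rw [e1, fr_subm, norm_fromBlocks]

lemma D0_ph_div (h : m + n = N) (k k' : UG (Fin m) × UG (Fin n)) :
    D0 (ph h k' * (ph h k)⁻¹) ^ 2 = ‖(k'.1 : MM (Fin m)) - k.1‖ ^ 2 +
      ‖(k'.2 : MM (Fin n)) - k.2‖ ^ 2 := by
  rw [← map_inv, ← map_mul, D0_ph]
  simp only [Prod.fst_mul, Prod.fst_inv, Prod.snd_mul, Prod.snd_inv, D0_div]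

instance prodInv : ((hm (Fin m)).prod (hm (Fin n))).IsInvInvariant := by
  refine ⟨?_⟩
  have h1 : (fun x : UG (Fin m) × UG (Fin n) => x⁻¹) = Prod.map (fun x => x⁻¹) fun x => x⁻¹ := rfl
  show Measure.map (fun x : UG (Fin m) × UG (Fin n) => x⁻¹) _ = _
  rw [h1, ← Measure.map_prod_map _ _ measurable_inv measurable_inv]
  congr 1
  · exact Measure.map_inv_eq_self _
  · exact Measure.map_inv_eq_self _

lemma Rk_mono {r r' : ℕ} (h : r ≤ r') : Rk ι r ⊆ Rk ι r' := fun C hC => le_trans hC h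

lemma RC_mono {N r r' : ℕ} (h : r ≤ r') {τ τ' : ℝ} (hτ : τ ≤ τ') {U V : UG ι}
    (hU : RC N r τ U V) : RC N r' τ' U V := by
  obtain ⟨C, hC, h1⟩ := hU
  exact ⟨C, Rk_mono h hC, h1.trans_le (mul_le_mul_of_nonneg_right hτ (Real.sqrt_nonneg _))⟩

lemma RC_open (N r : ℕ) (τ : ℝ) : IsOpen {p : UG ι × UG ι | RC N r τ p.1 p.2} := by
  have h1 : {p : UG ι × UG ι | RC N r τ p.1 p.2} = ⋃ C ∈ Rk ι r,
      {p | ‖(p.1 : MM ι) * p.2 - C * p.2 * p.1‖ < τ * Real.sqrt N} := by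
    ext p
    simp only [RC, Set.mem_ofPred_eq, Set.mem_iUnion, exists_prop]
  rw [h1]
  refine isOpen_biUnion fun C _ => isOpen_lt ?_ continuous_const
  have c1 : Continuous fun p : UG ι × UG ι => (p.1 : MM ι) := continuous_subtype_val.comp continuous_fst
  have c2 : Continuous fun p : UG ι × UG ι => (p.2 : MM ι) := continuous_subtype_val.comp continuous_snd
  exact ((c1.mul c2).sub ((continuous_const.mul c2).mul c1)).norm

/-- robustly commuting neighbours, in both blocks -/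
def KK (m n d N r : ℕ) [NeZero d] (τ : ℝ) : Set (Fin d → UG (Fin m) × UG (Fin n)) :=
  {k | ∀ i, RC N r τ (k i).1 (k (i + 1)).1 ∧ RC N r τ (k i).2 (k (i + 1)).2}

lemma KK_open (m n d N r : ℕ) [NeZero d] (τ : ℝ) : IsOpen (KK m n d N r τ) := by
  have h1 : KK m n d N r τ = ⋂ i : Fin d, ((fun k => ((k i).1, (k (i + 1)).1)) ⁻¹'
      {p | RC N r τ p.1 p.2}) ∩ ((fun k => ((k i).2, (k (i + 1)).2)) ⁻¹' {p | RC N r τ p.1 p.2}) := by
    ext k
    simp only [KK, Set.mem_ofPred_eq, Set.mem_iInter, Set.mem_inter_iff, Set.mem_preimage]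
  rw [h1]
  refine isOpen_iInter_of_finite fun i => IsOpen.inter ?_ ?_
  · exact (RC_open N r τ).preimage (by fun_prop)
  · exact (RC_open N r τ).preimage (by fun_prop)

end

end Pool.Agent.T2H01.EK2
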