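import Mathlib
import Pool.Agent.T2H01.EK2.Base

/-!
# Cutting the spectrum
-/

open MeasureTheory Matrix
open scoped Matrix.Norms.Frobenius Topology ENNReal

namespace Pool.Agent.T2H01.EK2

set_option linter.unusedSectionVars false
set_option linter.unusedVariables false

noncomputable section

variable {ι κ : Type} [Fintype ι] [DecidableEq ι] [Fintype κ] [DecidableEq κ]

open Finset in
/-- a sparse window with both tails of positive proportion -/
theorem cut_real {b : ℝ} (hb : 0 < b) (x : ι → ℝ) (hx : ∀ i, |x i| ≤ 1)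
    (hN : 0 < Fintype.card ι)
    (hv : b * (Fintype.card ι : ℝ) ^ 2 ≤ ∑ i, ∑ j, (x i - x j) ^ 2) (M : ℕ) (hM : 0 < M) :
    ∃ c : ℝ, min 1 b / 64 * Fintype.card ι ≤ (univ.filter (fun i => x i < c)).card ∧
      min 1 b / 64 * Fintype.card ι ≤ (univ.filter (fun i => c + min 1 b / 4 / M ≤ x i)).card ∧
      (M : ℝ) * (univ.filter (fun i => c ≤ x i ∧ x i < c + min 1 b / 4 / M)).card ≤
        Fintype.card ι := by
  classical
  set β : ℝ := min 1 b with hβ
  have hβ0 : 0 < β := lt_min one_pos hb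
  have hβ1 : β ≤ 1 := min_le_left _ _
  have hβb : β ≤ b := min_le_right _ _
  set K : ℝ := (Fintype.card ι : ℝ) with hK
  have hK0 : 0 < K := by rw [hK]; exact_mod_cast hN
  have hM' : (0 : ℝ) < M := by exact_mod_cast hM
  -- the grid
  have hex : ∃ i : ℕ, β / 64 * K ≤ (univ.filter (fun j => x j < -1 + i * (β / 4))).card := by
    obtain ⟨i, hi⟩ := exists_nat_gt (3 / (β / 4))
    refine ⟨i, ?_⟩
    have h1 : univ.filter (fun j => x j < -1 + i * (β / 4)) = univ := by
      refine filter_true_of_mem fun j _ => ?_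
      have h2 := (abs_le.1 (hx j)).2
      rw [div_lt_iff₀ (by positivity)] at hi
      linarith
    rw [h1, card_univ]
    have h3 : β / 64 * K ≤ 1 * K := mul_le_mul_of_nonneg_right (by linarith) hK0.le
    rw [hK] at *
    linarith
  set i0 := Nat.find hex with hi0
  have hi1 := Nat.find_spec hex
  have hi2 : i0 ≠ 0 := by
    intro h
    rw [← hi0, h] at hi1
    have h1 : univ.filter (fun j => x j < -1 + ((0 : ℕ) : ℝ) * (β / 4)) = ∅ := by
      refine filter_false_of_mem fun j _ => ?_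
      have h2 := (abs_le.1 (hx j)).1
      push_cast
      linarith
    rw [h1, card_empty] at hi1
    have : 0 < β / 64 * K := by positivity
    push_cast at hi1
    linarith
  obtain ⟨k, hk⟩ := Nat.exists_eq_succ_of_ne_zero hi2
  have hlt : ((univ.filter (fun j => x j < -1 + (k : ℝ) * (β / 4))).card : ℝ) < β / 64 * K := by
    have := Nat.find_min hex (m := k) (by rw [← hi0, hk]; exact Nat.lt_succ_self k)
    exact not_le.1 this
  rw [← hi0, hk] at hi1
  push_cast at hi1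
  set s : ℝ := -1 + ((k : ℝ) + 1) * (β / 4) with hs
  have hr : -1 + (k : ℝ) * (β / 4) = s - β / 4 := by rw [hs]; ring
  rw [hr] at hlt
  by_cases hq : β / 64 * K ≤ (univ.filter (fun j => s + β / 4 ≤ x j)).card
  · -- windows
    set δ : ℝ := β / 4 / M with hδ
    have hδ0 : 0 < δ := by positivity
    have hδM : M * δ = β / 4 := by rw [hδ]; field_simp
    have hw : ∃ i ∈ range M, (M : ℝ) *
        (univ.filter (fun j => s + i * δ ≤ x j ∧ x j < s + i * δ + δ)).card ≤ K := by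
      by_contra hcon
      push Not at hcon
      have h1 : ∑ i ∈ range M, K < ∑ i ∈ range M, (M : ℝ) *
          (univ.filter (fun j => s + i * δ ≤ x j ∧ x j < s + i * δ + δ)).card :=
        sum_lt_sum_of_nonempty (nonempty_range_iff.2 hM.ne') hcon
      rw [sum_const, card_range, nsmul_eq_mul, ← mul_sum] at h1
      have h2 : ∑ i ∈ range M,
          ((univ.filter (fun j => s + i * δ ≤ x j ∧ x j < s + i * δ + δ)).card : ℝ) ≤ K := by
        have h3 : ∑ i ∈ range M, (univ.filter (fun j => s + i * δ ≤ x j ∧ x j < s + i * δ + δ)).card =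
            ((range M).biUnion fun i =>
              univ.filter (fun j => s + i * δ ≤ x j ∧ x j < s + i * δ + δ)).card := by
          refine (card_biUnion ?_).symm
          intro i _ i' _ hii
          refine disjoint_filter.2 fun j _ h4 h5 => hii ?_
          have h6 : (i : ℝ) * δ < (i' + 1) * δ := by linarith [h4.1, h5.2]
          have h7 : (i' : ℝ) * δ < (i + 1) * δ := by linarith [h5.1, h4.2]
          have h8 : (i : ℝ) < i' + 1 := lt_of_mul_lt_mul_right h6 hδ0.le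
          have h9 : (i' : ℝ) < i + 1 := lt_of_mul_lt_mul_right h7 hδ0.le
          have h10 : i < i' + 1 := by exact_mod_cast h8
          have h11 : i' < i + 1 := by exact_mod_cast h9
          omega
        have h12 := card_le_univ ((range M).biUnion fun i =>
              univ.filter (fun j => s + i * δ ≤ x j ∧ x j < s + i * δ + δ))
        rw [← h3] at h12
        rw [hK]
        exact_mod_cast h12
      have h13 := mul_le_mul_of_nonneg_left h2 hM'.le
      linarith
    obtain ⟨i, hi, hiM⟩ := hw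
    rw [mem_range] at hi
    have hiM' : ((i : ℝ) + 1) * δ ≤ β / 4 := by
      rw [← hδM]
      refine mul_le_mul_of_nonneg_right ?_ hδ0.le
      exact_mod_cast hi
    have hi' : 0 ≤ (i : ℝ) * δ := by positivity
    refine ⟨s + i * δ, ?_, ?_, hiM⟩
    · refine hi1.trans ?_
      exact_mod_cast card_le_card (fun j hj => by
        rw [mem_filter] at *
        exact ⟨hj.1, by linarith [hj.2]⟩)
    · refine hq.trans ?_
      exact_mod_cast card_le_card (fun j hj => by
        rw [mem_filter] at *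
        refine ⟨hj.1, ?_⟩
        have := hj.2
        linarith)
  · exfalso
    rw [not_le] at hq
    set O : Finset ι := univ.filter (fun j => x j < s - β / 4) ∪
      univ.filter (fun j => s + β / 4 ≤ x j) with hO
    have hOc : (O.card : ℝ) < β / 32 * K := by
      have h1 : (O.card : ℝ) ≤ (univ.filter (fun j => x j < s - β / 4)).card +
          (univ.filter (fun j => s + β / 4 ≤ x j)).card := by
        exact_mod_cast card_union_le _ _
      linarith
    have hpt : ∀ i j, (x i - x j) ^ 2 ≤ β ^ 2 / 4 + 4 * (if i ∈ O then 1 else 0) +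
        4 * (if j ∈ O then 1 else 0) := by
      intro i j
      have a1 := abs_le.1 (hx i)
      have a2 := abs_le.1 (hx j)
      have a3 : (x i - x j) ^ 2 ≤ 4 := by nlinarith
      by_cases h1 : i ∈ O
      · rw [if_pos h1]
        have : (0 : ℝ) ≤ 4 * (if j ∈ O then 1 else 0) := by split_ifs <;> simp
        nlinarith [sq_nonneg β]
      by_cases h2 : j ∈ O
      · rw [if_pos h2]
        have : (0 : ℝ) ≤ 4 * (if i ∈ O then 1 else 0) := by split_ifs <;> simp
        nlinarith [sq_nonneg β]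
      rw [if_neg h1, if_neg h2]
      simp only [hO, mem_union, mem_filter, mem_univ, true_and, not_or, not_lt, not_le] at h1 h2
      nlinarith [h1.1, h1.2, h2.1, h2.2]
    have hsum : ∑ i, ∑ j, (x i - x j) ^ 2 ≤ K * (K * (β ^ 2 / 4)) + 8 * K * O.card := by
      calc ∑ i, ∑ j, (x i - x j) ^ 2 ≤ ∑ i, ∑ j, (β ^ 2 / 4 + 4 * (if i ∈ O then 1 else 0) +
            4 * (if j ∈ O then 1 else 0)) := sum_le_sum fun i _ => sum_le_sum fun j _ => hpt i j
        _ = K * (K * (β ^ 2 / 4)) + 8 * K * O.card := by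
          simp only [sum_add_distrib, sum_const, card_univ, nsmul_eq_mul, ← mul_sum]
          simp only [sum_ite_mem, univ_inter, sum_const, nsmul_eq_mul, mul_one]
          rw [hK]
          ring
    have h5 : β ^ 2 ≤ β := by nlinarith
    have h6 : K * (K * (β ^ 2 / 4)) ≤ K ^ 2 * (β / 4) := by
      have : 0 ≤ K ^ 2 := sq_nonneg K
      nlinarith
    have h7 : 8 * K * (O.card : ℝ) ≤ K ^ 2 * (β / 4) := by
      have := mul_le_mul_of_nonneg_left hOc.le (by positivity : 0 ≤ 8 * K)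
      nlinarith
    have h8 : b * K ^ 2 ≤ K ^ 2 * (β / 2) := by linarith
    have h9 : 0 < K ^ 2 := by positivity
    nlinarith

/-- the Frobenius norm as a sum -/
theorem fr_sum {α γ : Type} [Fintype α] [Fintype γ] (A : Matrix α γ ℂ) :
    ‖A‖ ^ 2 = ∑ i, ∑ j, ‖A i j‖ ^ 2 := by
  rw [Matrix.frobenius_norm_def, ← Real.sqrt_eq_rpow, Real.sq_sqrt (by positivity)]
  norm_num

theorem cut_herm {N : ℕ} {b ε : ℝ} (hb : 0 < b) (hε : 0 < ε) {M : ℕ} (hM : 0 < M)
    (hεM : 1 ≤ ε * M) (hN : 1 ≤ N) {X X' : MM (Fin N)} (hX : X.IsHermitian)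
    (hX' : X'.IsHermitian) (h1 : X * X + X' * X' = 1)
    (hv : b * (N : ℝ) ^ 2 ≤ 2 * N * (trace (X * X)).re - 2 * (trace X).re ^ 2) :
    ∃ (m n : ℕ) (h : m + n = N) (g : UG (Fin N)), min 1 b / 64 * N ≤ m ∧ min 1 b / 64 * N ≤ n ∧
      ∀ V : UG (Fin N), ∃ (S₁ R₁ : Matrix (Fin m) (Fin n) ℂ) (S₂ R₂ : Matrix (Fin n) (Fin m) ℂ),
        (cj h g V : MM (Fin m ⊕ Fin n)).toBlocks₁₂ = S₁ + R₁ ∧
        (cj h g V : MM (Fin m ⊕ Fin n)).toBlocks₂₁ = S₂ + R₂ ∧
        min 1 b / 4 / M * ‖S₁‖ ≤ ‖X * V - V * X‖ ∧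
        min 1 b / 4 / M * ‖S₂‖ ≤ ‖X * V - V * X‖ ∧
        (R₁.rank : ℝ) ≤ ε * N ∧ (R₂.rank : ℝ) ≤ ε * N := by
  classical
  set g0 : UG (Fin N) := hX.eigenvectorUnitary with hg0
  set x : Fin N → ℝ := hX.eigenvalues with hx
  set D : MM (Fin N) := diagonal (fun i => (x i : ℂ)) with hD
  have hspec : X = (g0 : MM (Fin N)) * D * (g0 : MM (Fin N))ᴴ := hX.spectral_theorem
  have hM' : (0 : ℝ) < M := by exact_mod_cast hM
  -- the eigenvalues are at most one
  have hx1 : ∀ i, |x i| ≤ 1 := by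
    intro i
    set Y : MM (Fin N) := (g0 : MM (Fin N))ᴴ * X' * (g0 : MM (Fin N)) with hY
    have hYh : Yᴴ = Y := by
      rw [hY, conjTranspose_mul, conjTranspose_mul, conjTranspose_conjTranspose, hX'.eq,
        Matrix.mul_assoc]
    have hYY : Y * Y = 1 - D * D := by
      have e1 : Y * Y = (g0 : MM (Fin N))ᴴ * (X' * X') * (g0 : MM (Fin N)) := by
        rw [hY]
        calc (g0 : MM (Fin N))ᴴ * X' * (g0 : MM (Fin N)) * ((g0 : MM (Fin N))ᴴ * X' * (g0 : MM (Fin N))) =
            (g0 : MM (Fin N))ᴴ * X' * ((g0 : MM (Fin N)) * (g0 : MM (Fin N))ᴴ) * X' * (g0 : MM (Fin N)) := by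
              noncomm_ring
          _ = _ := by rw [ug2, Matrix.mul_one]; noncomm_ring
      have e2 : X' * X' = 1 - X * X := by rw [← h1]; abel
      have e3 : (g0 : MM (Fin N))ᴴ * (X * X) * (g0 : MM (Fin N)) = D * D := by
        rw [hspec]
        calc (g0 : MM (Fin N))ᴴ * ((g0 : MM (Fin N)) * D * (g0 : MM (Fin N))ᴴ *
              ((g0 : MM (Fin N)) * D * (g0 : MM (Fin N))ᴴ)) * (g0 : MM (Fin N)) =
            ((g0 : MM (Fin N))ᴴ * (g0 : MM (Fin N))) * D * ((g0 : MM (Fin N))ᴴ * (g0 : MM (Fin N))) * D *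
              ((g0 : MM (Fin N))ᴴ * (g0 : MM (Fin N))) := by noncomm_ring
          _ = _ := by rw [ug1, Matrix.one_mul, Matrix.mul_one, Matrix.mul_one]
      rw [e1, e2, Matrix.mul_sub, Matrix.sub_mul, e3, Matrix.mul_one, ug1]
    have hii : ((Y * Y) i i).re = ∑ j, ‖Y i j‖ ^ 2 := by
      rw [Matrix.mul_apply, Complex.re_sum]
      refine Finset.sum_congr rfl fun j _ => ?_
      have e4 : Y j i = star (Y i j) := by
        conv_lhs => rw [← hYh]
        rfl
      rw [e4, Complex.star_def, Complex.mul_conj, Complex.ofReal_re, Complex.normSq_eq_norm_sq]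
    have h0 : 0 ≤ ((Y * Y) i i).re := by rw [hii]; positivity
    rw [hYY] at h0
    have h2 : (1 - D * D : MM (Fin N)) i i = ((1 - x i ^ 2 : ℝ) : ℂ) := by
      rw [hD, diagonal_mul_diagonal, Matrix.sub_apply, Matrix.one_apply_eq, diagonal_apply_eq]
      push_cast
      ring
    rw [h2, Complex.ofReal_re] at h0
    exact abs_le_one_iff_mul_self_le_one.2 (by nlinarith)
  -- the traces
  have htX : (trace X).re = ∑ i, x i := by
    rw [hspec, trace_mul_comm, ← Matrix.mul_assoc, ug1, Matrix.one_mul, hD, trace_diagonal,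
      Complex.re_sum]
    simp
  have htXX : (trace (X * X)).re = ∑ i, x i ^ 2 := by
    have e1 : trace (X * X) = trace (D * D) := by
      rw [hspec]
      calc trace ((g0 : MM (Fin N)) * D * (g0 : MM (Fin N))ᴴ *
              ((g0 : MM (Fin N)) * D * (g0 : MM (Fin N))ᴴ)) =
            trace ((g0 : MM (Fin N)) * (D * ((g0 : MM (Fin N))ᴴ * (g0 : MM (Fin N))) * D *
              (g0 : MM (Fin N))ᴴ)) := by congr 1; noncomm_ring
          _ = _ := by
            rw [trace_mul_comm, ug1, Matrix.mul_one, Matrix.mul_assoc, Matrix.mul_assoc, ug1,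
              Matrix.mul_one]
    rw [e1, hD, diagonal_mul_diagonal, trace_diagonal, Complex.re_sum]
    refine Finset.sum_congr rfl fun i _ => ?_
    rw [← Complex.ofReal_mul, Complex.ofReal_re]
    ring
  have hdouble : ∑ i, ∑ j, (x i - x j) ^ 2 = 2 * N * ∑ i, x i ^ 2 - 2 * (∑ i, x i) ^ 2 := by
    have e1 : ∀ i j, (x i - x j) ^ 2 = x i ^ 2 + x j ^ 2 - 2 * (x i * x j) := fun i j => by ring
    simp only [e1, Finset.sum_sub_distrib, Finset.sum_add_distrib, Finset.sum_const,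
      Finset.card_univ, Fintype.card_fin, nsmul_eq_mul, ← Finset.mul_sum]
    rw [← Finset.sum_mul]
    ring
  obtain ⟨c, c1, c2, c3⟩ := cut_real (ι := Fin N) hb x hx1 (by rw [Fintype.card_fin]; exact hN)
    (by rw [hdouble, Fintype.card_fin, ← htX, ← htXX]; exact hv) M hM
  rw [Fintype.card_fin] at c1 c2 c3
  set δ : ℝ := min 1 b / 4 / M with hδ
  have hδ0 : 0 < δ := by
    have : 0 < min 1 b := lt_min one_pos hb
    positivity
  -- the equivalence
  set p : Fin N → Prop := fun i => c + δ ≤ x i with hp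
  set e1 : {i // p i} ≃ Fin (Fintype.card {i // p i}) := Fintype.equivFin _ with he1
  set e2 : {i // ¬ p i} ≃ Fin (Fintype.card {i // ¬ p i}) := Fintype.equivFin _ with he2
  set m := Fintype.card {i // p i} with hm'
  set n := Fintype.card {i // ¬ p i} with hn'
  set e : Fin m ⊕ Fin n ≃ Fin N := (Equiv.sumCongr e1.symm e2.symm).trans (Equiv.sumCompl p) with he
  have hmn : m + n = N := by
    have := Fintype.card_congr e
    rwa [Fintype.card_sum, Fintype.card_fin, Fintype.card_fin, Fintype.card_fin] at this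
  have heL : ∀ i, p (e (Sum.inl i)) := by
    intro i
    have : e (Sum.inl i) = (e1.symm i : Fin N) := rfl
    rw [this]
    exact (e1.symm i).2
  have heR : ∀ j, ¬ p (e (Sum.inr j)) := by
    intro j
    have : e (Sum.inr j) = (e2.symm j : Fin N) := rfl
    rw [this]
    exact (e2.symm j).2
  set σ : Fin N ≃ Fin N := (eN hmn).symm.trans e with hσ
  set g : UG (Fin N) := ⟨(g0 : MM (Fin N)).submatrix id σ, by
    rw [Matrix.mem_unitaryGroup_iff', star_eq_conjTranspose, conjTranspose_submatrix,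
      ← Matrix.submatrix_mul _ _ _ _ _ Function.bijective_id, ug1, submatrix_one_equiv]⟩ with hg
  have hcj : ∀ V : UG (Fin N), (cj hmn g V : MM (Fin m ⊕ Fin n)) =
      ((g0 : MM (Fin N))ᴴ * V * (g0 : MM (Fin N))).submatrix e e := by
    intro V
    unfold cj
    rw [rix_val, ug_mul, ug_mul, ug_inv]
    have : (g : MM (Fin N)) = (g0 : MM (Fin N)).submatrix id σ := rfl
    rw [this, conjTranspose_submatrix]
    ext i j
    simp only [Equiv.symm_symm, submatrix_apply, Matrix.mul_apply, hσ, Equiv.trans_apply,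
      Equiv.symm_apply_apply, id_eq]
  have hwin : ∀ j : Fin n, ¬ x (e (Sum.inr j)) < c →
      c ≤ x (e (Sum.inr j)) ∧ x (e (Sum.inr j)) < c + δ := by
    intro j hj
    exact ⟨not_lt.1 hj, not_le.1 (heR j)⟩
  set w : Fin n → ℂ := fun j => if x (e (Sum.inr j)) < c then 0 else 1 with hw
  have hwc : ((Fintype.card {j // w j ≠ 0} : ℕ) : ℝ) ≤ ε * N := by
    have k1 : Fintype.card {j // w j ≠ 0} ≤
        (Finset.univ.filter (fun i => c ≤ x i ∧ x i < c + δ)).card := by
      rw [Fintype.card_subtype]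
      refine Finset.card_le_card_of_injOn (fun j => e (Sum.inr j)) ?_ ?_
      · intro j hj
        simp only [Finset.coe_filter, Finset.mem_univ, true_and, Set.mem_ofPred_eq] at hj ⊢
        refine hwin j fun h => hj ?_
        rw [hw]
        simp only [if_pos h]
      · intro j _ j' _ hjj
        exact Sum.inr_injective (e.injective hjj)
    have k2 : ((Fintype.card {j // w j ≠ 0} : ℕ) : ℝ) ≤
        (Finset.univ.filter (fun i => c ≤ x i ∧ x i < c + δ)).card := by exact_mod_cast k1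
    have k3 : (M : ℝ) * ((Fintype.card {j // w j ≠ 0} : ℕ) : ℝ) ≤ N :=
      (mul_le_mul_of_nonneg_left k2 hM'.le).trans c3
    have k4 : (0 : ℝ) ≤ ((Fintype.card {j // w j ≠ 0} : ℕ) : ℝ) := by positivity
    calc ((Fintype.card {j // w j ≠ 0} : ℕ) : ℝ) ≤ (ε * M) * ((Fintype.card {j // w j ≠ 0} : ℕ) : ℝ) :=
          le_mul_of_one_le_left k4 hεM
      _ = ε * (M * ((Fintype.card {j // w j ≠ 0} : ℕ) : ℝ)) := by ring
      _ ≤ ε * N := mul_le_mul_of_nonneg_left k3 hε.le
  refine ⟨m, n, hmn, g, ?_, ?_, fun V => ?_⟩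
  · refine c2.trans (le_of_eq ?_)
    rw [hm', Fintype.card_subtype]
  · refine c1.trans ?_
    rw [hn', Fintype.card_subtype]
    exact_mod_cast Finset.card_le_card (fun i hi => by
      rw [Finset.mem_filter] at *
      refine ⟨hi.1, ?_⟩
      rw [hp]
      have := hi.2
      exact not_le.2 (by linarith))
  set Y : MM (Fin N) := (g0 : MM (Fin N))ᴴ * V * (g0 : MM (Fin N)) with hY
  set T : MM (Fin N) := D * Y - Y * D with hT
  have hTn : ‖X * V - V * X‖ = ‖T‖ := by
    have k1 : X * V - V * X = (g0 : MM (Fin N)) * T * ((g0⁻¹ : UG (Fin N)) : MM (Fin N)) := by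
      rw [hT, hY, ug_inv]
      have k2 : (g0 : MM (Fin N)) * (D * ((g0 : MM (Fin N))ᴴ * V * (g0 : MM (Fin N))) -
          ((g0 : MM (Fin N))ᴴ * V * (g0 : MM (Fin N))) * D) * (g0 : MM (Fin N))ᴴ =
          ((g0 : MM (Fin N)) * D * (g0 : MM (Fin N))ᴴ) * V * ((g0 : MM (Fin N)) * (g0 : MM (Fin N))ᴴ) -
          ((g0 : MM (Fin N)) * (g0 : MM (Fin N))ᴴ) * V * ((g0 : MM (Fin N)) * D * (g0 : MM (Fin N))ᴴ) := by
        noncomm_ring
      rw [k2, ug2, Matrix.mul_one, Matrix.one_mul, ← hspec]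
    rw [k1, fr_conj]
  have hTe : ∀ k l, T k l = ((x k - x l : ℝ) : ℂ) * Y k l := by
    intro k l
    rw [hT, Matrix.sub_apply, hD, diagonal_mul, mul_diagonal]
    push_cast
    ring
  have hTs : ‖T‖ ^ 2 = ∑ s : Fin m ⊕ Fin n, ∑ t : Fin m ⊕ Fin n, ‖T (e s) (e t)‖ ^ 2 := by
    rw [fr_sum, ← Equiv.sum_comp e]
    refine Finset.sum_congr rfl fun s _ => ?_
    rw [← Equiv.sum_comp e]
  set S₁ : Matrix (Fin m) (Fin n) ℂ := fun i j =>
    if x (e (Sum.inr j)) < c then Y (e (Sum.inl i)) (e (Sum.inr j)) else 0 with hS₁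
  set R₁ : Matrix (Fin m) (Fin n) ℂ := fun i j =>
    Y (e (Sum.inl i)) (e (Sum.inr j)) * w j with hR₁
  set S₂ : Matrix (Fin n) (Fin m) ℂ := fun j i =>
    if x (e (Sum.inr j)) < c then Y (e (Sum.inr j)) (e (Sum.inl i)) else 0 with hS₂
  set R₂ : Matrix (Fin n) (Fin m) ℂ := fun j i =>
    w j * Y (e (Sum.inr j)) (e (Sum.inl i)) with hR₂
  refine ⟨S₁, R₁, S₂, R₂, ?_, ?_, ?_, ?_, ?_, ?_⟩
  · rw [hcj, ← hY]
    ext i j
    rw [Matrix.add_apply, hS₁, hR₁]
    simp only [toBlocks₁₂, of_apply, submatrix_apply, hw]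
    by_cases h : x (e (Sum.inr j)) < c
    · simp [h]
    · simp [h]
  · rw [hcj, ← hY]
    ext j i
    rw [Matrix.add_apply, hS₂, hR₂]
    simp only [toBlocks₂₁, of_apply, submatrix_apply, hw]
    by_cases h : x (e (Sum.inr j)) < c
    · simp [h]
    · simp [h]
  · rw [hTn]
    refine (sq_le_sq₀ (by positivity) (norm_nonneg _)).1 ?_
    rw [mul_pow, fr_sum, hTs, Finset.mul_sum]
    rw [Fintype.sum_sum_type]
    refine le_add_of_le_of_nonneg ?_ (by positivity)
    refine Finset.sum_le_sum fun i _ => ?_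
    rw [Fintype.sum_sum_type, Finset.mul_sum]
    refine le_add_of_nonneg_of_le (by positivity) ?_
    refine Finset.sum_le_sum fun j _ => ?_
    rw [hTe, norm_mul, mul_pow, hS₁]
    simp only
    by_cases h : x (e (Sum.inr j)) < c
    · rw [if_pos h, Complex.norm_real, Real.norm_eq_abs, sq_abs]
      refine mul_le_mul_of_nonneg_right ?_ (by positivity)
      have k1 : c + δ ≤ x (e (Sum.inl i)) := heL i
      nlinarith
    · rw [if_neg h, norm_zero]
      have : 0 ≤ ‖((x (e (Sum.inl i)) - x (e (Sum.inr j)) : ℝ) : ℂ)‖ ^ 2 *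
        ‖Y (e (Sum.inl i)) (e (Sum.inr j))‖ ^ 2 := by positivity
      linarith
  · rw [hTn]
    refine (sq_le_sq₀ (by positivity) (norm_nonneg _)).1 ?_
    rw [mul_pow, fr_sum, hTs, Finset.mul_sum]
    rw [Fintype.sum_sum_type]
    refine le_add_of_nonneg_of_le (by positivity) ?_
    refine Finset.sum_le_sum fun j _ => ?_
    rw [Fintype.sum_sum_type, Finset.mul_sum]
    refine le_add_of_le_of_nonneg ?_ (by positivity)
    refine Finset.sum_le_sum fun i _ => ?_
    rw [hTe, norm_mul, mul_pow, hS₂]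
    simp only
    by_cases h : x (e (Sum.inr j)) < c
    · rw [if_pos h, Complex.norm_real, Real.norm_eq_abs, sq_abs]
      refine mul_le_mul_of_nonneg_right ?_ (by positivity)
      have k1 : c + δ ≤ x (e (Sum.inl i)) := heL i
      nlinarith
    · rw [if_neg h, norm_zero]
      have : 0 ≤ ‖((x (e (Sum.inr j)) - x (e (Sum.inl i)) : ℝ) : ℂ)‖ ^ 2 *
        ‖Y (e (Sum.inr j)) (e (Sum.inl i))‖ ^ 2 := by positivity
      linarith
  · have k1 : R₁ = Y.submatrix (fun i => e (Sum.inl i)) (fun j => e (Sum.inr j)) *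
        diagonal w := by
      ext i j
      rw [mul_diagonal, submatrix_apply]
    rw [k1]
    refine le_trans ?_ hwc
    have := Matrix.rank_mul_le_right (Y.submatrix (fun i : Fin m => e (Sum.inl i))
      (fun j : Fin n => e (Sum.inr j))) (diagonal w)
    rw [rank_diagonal] at this
    exact_mod_cast this
  · have k1 : R₂ = diagonal w *
        Y.submatrix (fun j => e (Sum.inr j)) (fun i => e (Sum.inl i)) := by
      ext j i
      rw [diagonal_mul, submatrix_apply]
    rw [k1]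
    refine le_trans ?_ hwc
    have := Matrix.rank_mul_le_left (diagonal w) (Y.submatrix (fun j : Fin n => e (Sum.inr j))
      (fun i : Fin m => e (Sum.inl i)))
    rw [rank_diagonal] at this
    exact_mod_cast this

/-- the Hermitian parts of a unitary matrix -/
def hp (α : ℂ) (u : UG ι) : MM ι := α • (u : MM ι) + star α • (u : MM ι)ᴴ

theorem hp_herm (α : ℂ) (u : UG ι) : (hp α u).IsHermitian := by
  unfold hp
  show _ᴴ = _
  rw [conjTranspose_add, conjTranspose_smul, conjTranspose_smul, conjTranspose_conjTranspose,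
    star_star, add_comm]

theorem hp_comm (α : ℂ) (hα : ‖α‖ = 1 / 2) (u V : UG ι) :
    ‖hp α u * V - V * hp α u‖ ≤ ‖(u : MM ι) * V - V * u‖ := by
  have e1 : hp α u * V - V * hp α u = α • ((u : MM ι) * V - V * u) +
      star α • ((u : MM ι)ᴴ * V - V * (u : MM ι)ᴴ) := by
    unfold hp
    rw [Matrix.add_mul, Matrix.mul_add, Matrix.smul_mul, Matrix.smul_mul, Matrix.mul_smul,
      Matrix.mul_smul, smul_sub, smul_sub]
    abel
  have e2 : (u : MM ι)ᴴ * V - V * (u : MM ι)ᴴ =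
      -(((u⁻¹ : UG ι) : MM ι) * ((u : MM ι) * V - V * u) * ((u⁻¹ : UG ι) : MM ι)) := by
    rw [ug_inv]
    have k : (u : MM ι)ᴴ * ((u : MM ι) * V - V * u) * (u : MM ι)ᴴ =
        ((u : MM ι)ᴴ * (u : MM ι)) * V * (u : MM ι)ᴴ - (u : MM ι)ᴴ * V * ((u : MM ι) * (u : MM ι)ᴴ) := by
      noncomm_ring
    rw [k, ug1, ug2, Matrix.one_mul, Matrix.mul_one]
    abel
  rw [e1, e2]
  refine (norm_add_le _ _).trans ?_
  rw [norm_smul, norm_smul, norm_star, hα, norm_neg, fr_mul_right, fr_mul_left]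
  linarith

theorem fin_arith {a N A1 A2 r1 r2 T : ℝ} (hre : (2 * r1) ^ 2 + (2 * r2) ^ 2 = T ^ 2)
    (htr : T ^ 2 ≤ a * N ^ 2)
    (q1 : 2 * N * (2 * A1 + N / 2) - 2 * (2 * r1) ^ 2 < (1 - a) * N ^ 2)
    (q2 : 2 * N * (2 * A2 + N / 2) - 2 * (2 * r2) ^ 2 < (1 - a) * N ^ 2)
    (q3 : 2 * N * (A1 + A2) = 0) : False := by
  have e1 : 2 * N * (2 * A1 + N / 2) + 2 * N * (2 * A2 + N / 2) =
    2 * (2 * N * (A1 + A2)) + 2 * N ^ 2 := by ring
  have e2 : (1 - a) * N ^ 2 = N ^ 2 - a * N ^ 2 := by ring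
  rw [e2] at q1 q2
  linarith

theorem cut (a : ℝ) (ha : a < 1) : ∃ κ : ℝ, 0 < κ ∧ ∀ ε : ℝ, 0 < ε → ∃ δ : ℝ, 0 < δ ∧ δ ≤ 1 ∧
    ∀ (N : ℕ) (u : UG (Fin N)), 1 ≤ N → ‖trace (u : MM (Fin N))‖ ^ 2 ≤ a * (N : ℝ) ^ 2 →
      ∃ (m n : ℕ) (h : m + n = N) (g : UG (Fin N)), κ * N ≤ m ∧ κ * N ≤ n ∧
        ∀ V : UG (Fin N), ∃ (S₁ R₁ : Matrix (Fin m) (Fin n) ℂ) (S₂ R₂ : Matrix (Fin n) (Fin m) ℂ),
          (cj h g V : MM (Fin m ⊕ Fin n)).toBlocks₁₂ = S₁ + R₁ ∧
          (cj h g V : MM (Fin m ⊕ Fin n)).toBlocks₂₁ = S₂ + R₂ ∧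
          δ * ‖S₁‖ ≤ ‖(u : MM (Fin N)) * V - V * u‖ ∧
          δ * ‖S₂‖ ≤ ‖(u : MM (Fin N)) * V - V * u‖ ∧
          (R₁.rank : ℝ) ≤ ε * N ∧ (R₂.rank : ℝ) ≤ ε * N := by
  have hb : 0 < 1 - a := by linarith
  have hβ0 : 0 < min 1 (1 - a) := lt_min one_pos hb
  have hβ1 : min 1 (1 - a) ≤ 1 := min_le_left _ _
  refine ⟨min 1 (1 - a) / 64, by positivity, fun ε hε => ?_⟩
  obtain ⟨M, hM⟩ := exists_nat_gt (1 / ε)
  have hM0 : (0 : ℝ) < M := lt_trans (by positivity) hM
  have hM1 : 0 < M := by exact_mod_cast hM0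
  have hM2 : (1 : ℝ) ≤ M := by exact_mod_cast hM1
  have hεM : 1 ≤ ε * M := by
    rw [div_lt_iff₀ hε] at hM
    linarith
  refine ⟨min 1 (1 - a) / 4 / M, by positivity, ?_, fun N u hN htr => ?_⟩
  · rw [div_div, div_le_one (by positivity)]
    linarith
  set t : ℂ := trace (u : MM (Fin N)) with ht
  set t2 : ℂ := trace ((u : MM (Fin N)) * (u : MM (Fin N))) with ht2
  have htr2 : trace ((u : MM (Fin N))ᴴ * (u : MM (Fin N))ᴴ) = star t2 := by
    rw [ht2, ← conjTranspose_mul, trace_conjTranspose]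
  have hsq : ∀ α : ℂ, hp α u * hp α u = (α * α) • ((u : MM (Fin N)) * (u : MM (Fin N))) +
      (star α * star α) • ((u : MM (Fin N))ᴴ * (u : MM (Fin N))ᴴ) + (2 * (α * star α)) • (1 : MM (Fin N)) := by
    intro α
    unfold hp
    rw [Matrix.add_mul, Matrix.mul_add, Matrix.mul_add]
    simp only [Matrix.smul_mul, Matrix.mul_smul, smul_smul, ug1, ug2]
    rw [two_mul, add_smul, mul_comm (star α) α]
    abel
  have htA : ∀ α : ℂ, (trace (hp α u)).re = 2 * (α * t).re := by
    intro α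
    unfold hp
    rw [trace_add, trace_smul, trace_smul, trace_conjTranspose, ← ht, smul_eq_mul, smul_eq_mul,
      Complex.add_re]
    have : star α * star t = star (α * t) := by rw [star_mul']
    rw [this, Complex.star_def, Complex.conj_re]
    ring
  have htAA : ∀ α : ℂ, ‖α‖ = 1 / 2 → (trace (hp α u * hp α u)).re = 2 * (α * α * t2).re + N / 2 := by
    intro α hα
    rw [hsq, trace_add, trace_add, trace_smul, trace_smul, trace_smul, htr2, ← ht2, trace_one,
      smul_eq_mul, smul_eq_mul, smul_eq_mul, Complex.add_re, Complex.add_re, Fintype.card_fin]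
    have k1 : star α * star α * star t2 = star (α * α * t2) := by rw [star_mul', star_mul']
    have k2 : 2 * (α * star α) * (N : ℂ) = ((N / 2 : ℝ) : ℂ) := by
      rw [Complex.star_def, Complex.mul_conj, Complex.normSq_eq_norm_sq, hα]
      push_cast
      ring
    rw [k1, k2, Complex.star_def, Complex.conj_re, Complex.ofReal_re]
    ring
  set α₁ : ℂ := 1 / 2 with hα₁
  set α₂ : ℂ := -Complex.I / 2 with hα₂
  have n1 : ‖α₁‖ = 1 / 2 := by rw [hα₁]; norm_num
  have n2 : ‖α₂‖ = 1 / 2 := by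
    rw [hα₂, norm_div, norm_neg, Complex.norm_I]
    norm_num
  have h2 : (starRingEnd ℂ) (2 : ℂ) = 2 := map_ofNat _ 2
  have s1 : star α₁ = 1 / 2 := by rw [hα₁, Complex.star_def]; simp [h2]
  have s2 : star α₂ = Complex.I / 2 := by rw [hα₂, Complex.star_def]; simp [h2]
  have hI : Complex.I * Complex.I = -1 := Complex.I_mul_I
  have hone : hp α₁ u * hp α₁ u + hp α₂ u * hp α₂ u = 1 := by
    rw [hsq, hsq, s1, s2, hα₁, hα₂]
    have k1 : (-Complex.I / 2) * (-Complex.I / 2) = -(1 / 4 : ℂ) := by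
      linear_combination (1 / 4 : ℂ) * hI
    have k2 : (Complex.I / 2) * (Complex.I / 2) = -(1 / 4 : ℂ) := by
      linear_combination (1 / 4 : ℂ) * hI
    have k3 : (2 : ℂ) * ((-Complex.I / 2) * (Complex.I / 2)) = 1 / 2 := by
      linear_combination (-(1 / 2) : ℂ) * hI
    have k4 : (1 / 2 : ℂ) * (1 / 2) = 1 / 4 := by norm_num
    rw [k1, k2, k3, k4]
    have k5 : (2 : ℂ) * (1 / 4) = 1 / 2 := by norm_num
    rw [k5]
    module
  have hone' : hp α₂ u * hp α₂ u + hp α₁ u * hp α₁ u = 1 := by rw [add_comm]; exact hone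
  have hre : (2 * (α₁ * t).re) ^ 2 + (2 * (α₂ * t).re) ^ 2 = ‖t‖ ^ 2 := by
    rw [← Complex.normSq_eq_norm_sq, Complex.normSq_apply, hα₁, hα₂]
    have k1 : ((1 / 2 : ℂ) * t).re = t.re / 2 := by
      have : (1 / 2 : ℂ) = ((1 / 2 : ℝ) : ℂ) := by push_cast; rfl
      rw [this, Complex.re_ofReal_mul]
      ring
    have k2 : ((-Complex.I / 2) * t).re = t.im / 2 := by
      have : (-Complex.I / 2) * t = ((1 / 2 : ℝ) : ℂ) * (-Complex.I * t) := by push_cast; ring
      rw [this, Complex.re_ofReal_mul]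
      simp
      ring
    rw [k1, k2]
    ring
  have htt : (α₁ * α₁ * t2).re + (α₂ * α₂ * t2).re = 0 := by
    rw [← Complex.add_re]
    have : α₁ * α₁ * t2 + α₂ * α₂ * t2 = 0 := by
      rw [hα₁, hα₂]
      linear_combination (1 / 4 : ℂ) * t2 * hI
    rw [this, Complex.zero_re]
  have hor : (1 - a) * (N : ℝ) ^ 2 ≤ 2 * N * (trace (hp α₁ u * hp α₁ u)).re -
        2 * (trace (hp α₁ u)).re ^ 2 ∨
      (1 - a) * (N : ℝ) ^ 2 ≤ 2 * N * (trace (hp α₂ u * hp α₂ u)).re -
        2 * (trace (hp α₂ u)).re ^ 2 := by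
    by_contra hcon
    push Not at hcon
    obtain ⟨q1, q2⟩ := hcon
    rw [htAA _ n1, htA] at q1
    rw [htAA _ n2, htA] at q2
    have q3 : (2 * (N : ℝ)) * ((α₁ * α₁ * t2).re + (α₂ * α₂ * t2).re) = 0 := by rw [htt, mul_zero]
    exact fin_arith hre htr q1 q2 q3
  rcases hor with hv | hv
  · obtain ⟨m, n, h, g, b1, b2, H⟩ := cut_herm hb hε hM1 hεM hN (hp_herm α₁ u) (hp_herm α₂ u) hone hv
    refine ⟨m, n, h, g, b1, b2, fun V => ?_⟩
    obtain ⟨S₁, R₁, S₂, R₂, c1, c2, c3, c4, c5, c6⟩ := H V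
    exact ⟨S₁, R₁, S₂, R₂, c1, c2, c3.trans (hp_comm _ n1 _ _), c4.trans (hp_comm _ n1 _ _), c5, c6⟩
  · obtain ⟨m, n, h, g, b1, b2, H⟩ := cut_herm hb hε hM1 hεM hN (hp_herm α₂ u) (hp_herm α₁ u) hone' hv
    refine ⟨m, n, h, g, b1, b2, fun V => ?_⟩
    obtain ⟨S₁, R₁, S₂, R₂, c1, c2, c3, c4, c5, c6⟩ := H V
    exact ⟨S₁, R₁, S₂, R₂, c1, c2, c3.trans (hp_comm _ n2 _ _), c4.trans (hp_comm _ n2 _ _), c5, c6⟩

end

end Pool.Agent.T2H01.EK2
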