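import Mathlib
import Pool.Agent.T2H01.EK2.Base

/-!
# Polar decomposition and perturbations of small rank
-/

open MeasureTheory Matrix
open scoped Matrix.Norms.Frobenius Topology ENNReal

namespace Pool.Agent.T2H01.EK2

set_option linter.unusedSectionVars false
set_option linter.unusedVariables false

noncomputable section

variable {ι κ : Type} [Fintype ι] [DecidableEq ι] [Fintype κ] [DecidableEq κ]

namespace Polar

open scoped ComplexOrder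

lemma fr_ct (A : Matrix ι κ ℂ) : ‖Aᴴ‖ = ‖A‖ := Matrix.frobenius_norm_conjTranspose A

/-- Pythagoras on the right -/
lemma pyth (P : MM κ) (h1 : Pᴴ = P) (h2 : P * P = P) (Y : Matrix ι κ ℂ) :
    ‖Y‖ ^ 2 = ‖Y * P‖ ^ 2 + ‖Y * (1 - P)‖ ^ 2 := by
  rw [fr_sq, fr_sq, fr_sq, ← Complex.add_re]
  congr 1
  have e1 : trace ((Y * P)ᴴ * (Y * P)) = trace (Yᴴ * Y * P) := by
    rw [conjTranspose_mul, h1, Matrix.mul_assoc, trace_mul_comm, Matrix.mul_assoc, Matrix.mul_assoc,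
      Matrix.mul_assoc, h2]
  have e2 : trace ((Y * (1 - P))ᴴ * (Y * (1 - P))) = trace (Yᴴ * Y * (1 - P)) := by
    have h3 : (1 - P) * (1 - P) = 1 - P := by
      rw [mul_sub, sub_mul, sub_mul, h2]; simp
    rw [conjTranspose_mul, conjTranspose_sub, conjTranspose_one, h1, Matrix.mul_assoc,
      trace_mul_comm, Matrix.mul_assoc, Matrix.mul_assoc, Matrix.mul_assoc, h3]
  rw [e1, e2, ← trace_add, ← Matrix.mul_add]
  simp

lemma le_of_sq {a b : ℝ} (hb : 0 ≤ b) (h : a ^ 2 ≤ b ^ 2) : a ≤ b := by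
  exact (le_abs_self a).trans (abs_le_of_sq_le_sq h hb)

lemma mul_P_le (P : MM κ) (h1 : Pᴴ = P) (h2 : P * P = P) (Y : Matrix ι κ ℂ) : ‖Y * P‖ ≤ ‖Y‖ := by
  refine le_of_sq (norm_nonneg _) ?_
  rw [pyth P h1 h2 Y]
  nlinarith [sq_nonneg ‖Y * (1 - P)‖]

lemma P_mul_le (P : MM ι) (h1 : Pᴴ = P) (h2 : P * P = P) (Y : Matrix ι κ ℂ) : ‖P * Y‖ ≤ ‖Y‖ := by
  rw [← fr_ct, ← fr_ct Y, conjTranspose_mul, h1]
  exact mul_P_le P h1 h2 _

lemma proj_compl {P : MM ι} (h1 : Pᴴ = P) (h2 : P * P = P) :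
    (1 - P)ᴴ = 1 - P ∧ (1 - P) * (1 - P) = 1 - P := by
  refine ⟨by rw [conjTranspose_sub, conjTranspose_one, h1], ?_⟩
  rw [mul_sub, sub_mul, sub_mul, h2]; simp

/-- `1 + Q` expands -/
lemma fr_pos {Q : MM ι} (hQ : Q.PosSemidef) (Y : Matrix ι κ ℂ) : ‖Y‖ ≤ ‖(Q + 1) * Y‖ := by
  refine le_of_sq (norm_nonneg _) ?_
  have hH : Qᴴ = Q := hQ.1
  have e1 : ((Q + 1) * Y)ᴴ * ((Q + 1) * Y) = (Q * Y)ᴴ * (Q * Y) + Yᴴ * Q * Y + Yᴴ * Q * Y + Yᴴ * Y := by
    simp only [conjTranspose_mul, conjTranspose_add, hH, Matrix.mul_add,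
      Matrix.add_mul, Matrix.one_mul, Matrix.mul_assoc]
    abel
  have h2 : 0 ≤ (trace (Yᴴ * Q * Y)).re := by
    have := (hQ.conjTranspose_mul_mul_same Y).trace_nonneg
    exact (Complex.le_def.1 this).1
  rw [fr_sq ((Q + 1) * Y), e1, trace_add, trace_add, trace_add, Complex.add_re, Complex.add_re,
    Complex.add_re, ← fr_sq, ← fr_sq]
  nlinarith [sq_nonneg ‖Q * Y‖]

lemma isUnit_add_one {Q : MM ι} (hQ : Q.PosSemidef) : IsUnit (Q + 1) := by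
  have h1 : (Q + 1).PosDef := by
    rw [add_comm]
    exact Matrix.PosDef.one.add_posSemidef hQ
  exact h1.isUnit

/-- polar decomposition of an invertible matrix -/
lemma polar (M : MM ι) (hM : IsUnit M) :
    ∃ (k : UG ι) (Q : MM ι), Q.PosSemidef ∧ M = (k : MM ι) * Q ∧ Q * Q = Mᴴ * M := by
  have hpd : (Mᴴ * M).PosDef := by
    apply Matrix.PosDef.conjTranspose_mul_self
    exact Matrix.mulVec_injective_iff_isUnit.2 hM
  have hH := hpd.1
  set x := hH.eigenvalues with hx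
  have hx0 : ∀ i, 0 < x i := fun i => hpd.eigenvalues_pos i
  set g : UG ι := hH.eigenvectorUnitary with hg
  have hspec : Mᴴ * M = (g : MM ι) * diagonal (fun i => (x i : ℂ)) * (g : MM ι)ᴴ := by
    conv_lhs => rw [hH.spectral_theorem]
    rw [Unitary.conjStarAlgAut_apply]
    rfl
  have hg1 := ug1 g
  have hg2 := ug2 g
  set Q : MM ι := (g : MM ι) * diagonal (fun i => ((Real.sqrt (x i) : ℝ) : ℂ)) * (g : MM ι)ᴴ with hQ
  set R : MM ι := (g : MM ι) * diagonal (fun i => ((Real.sqrt (x i) : ℝ) : ℂ)⁻¹) * (g : MM ι)ᴴ with hR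
  have key : ∀ a b : ι → ℂ, ((g : MM ι) * diagonal a * (g : MM ι)ᴴ) *
      ((g : MM ι) * diagonal b * (g : MM ι)ᴴ) =
      (g : MM ι) * diagonal (fun i => a i * b i) * (g : MM ι)ᴴ := by
    intro a b
    calc ((g : MM ι) * diagonal a * (g : MM ι)ᴴ) * ((g : MM ι) * diagonal b * (g : MM ι)ᴴ)
        = (g : MM ι) * diagonal a * ((g : MM ι)ᴴ * (g : MM ι)) * diagonal b * (g : MM ι)ᴴ := by
          simp only [Matrix.mul_assoc]
      _ = _ := by rw [hg1, Matrix.mul_one, Matrix.mul_assoc (g : MM ι), diagonal_mul_diagonal]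
  have hs0 : ∀ i, ((Real.sqrt (x i) : ℝ) : ℂ) ≠ 0 := fun i =>
    Complex.ofReal_ne_zero.2 (Real.sqrt_pos.2 (hx0 i)).ne'
  have hss : ∀ i, ((Real.sqrt (x i) : ℝ) : ℂ) * ((Real.sqrt (x i) : ℝ) : ℂ) = (x i : ℂ) := fun i => by
    rw [← Complex.ofReal_mul, Real.mul_self_sqrt (hx0 i).le]
  have hQQ : Q * Q = Mᴴ * M := by
    rw [hQ, key, hspec]
    simp only [hss]
  have hRQ : R * Q = 1 := by
    rw [hQ, hR, key]
    have : (fun i => ((Real.sqrt (x i) : ℝ) : ℂ)⁻¹ * ((Real.sqrt (x i) : ℝ) : ℂ)) = fun _ => 1 := by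
      funext i; exact inv_mul_cancel₀ (hs0 i)
    rw [this, diagonal_one, Matrix.mul_one, hg2]
  have hQR : Q * R = 1 := mul_eq_one_comm.1 hRQ
  have hRH : Rᴴ = R := by
    rw [hR, conjTranspose_mul, conjTranspose_mul, conjTranspose_conjTranspose,
      diagonal_conjTranspose, Matrix.mul_assoc]
    congr 3
    ext i
    simp
  have hpos : Q.PosSemidef := by
    rw [hQ]
    apply Matrix.PosSemidef.mul_mul_conjTranspose_same
    rw [Matrix.posSemidef_diagonal_iff]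
    intro i
    have := Real.sqrt_nonneg (x i)
    exact_mod_cast this
  refine ⟨⟨M * R, ?_⟩, Q, hpos, ?_, hQQ⟩
  · rw [Matrix.mem_unitaryGroup_iff', star_eq_conjTranspose, conjTranspose_mul, hRH]
    calc R * Mᴴ * (M * R) = R * (Mᴴ * M) * R := by simp only [Matrix.mul_assoc]
      _ = (R * Q) * (Q * R) := by rw [← hQQ]; simp only [Matrix.mul_assoc]
      _ = 1 := by rw [hRQ, hQR, Matrix.one_mul]
  · show M = M * R * Q
    rw [Matrix.mul_assoc, hRQ, Matrix.mul_one]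

/-- small shifts are invertible -/
lemma exists_shift (K : MM ι) {ε : ℝ} (hε : 0 < ε) :
    ∃ t : ℝ, 0 < t ∧ t < ε ∧ IsUnit (K + (t : ℂ) • (1 : MM ι)) := by
  have hfin : {z : ℂ | (-K).charpoly.IsRoot z}.Finite :=
    Polynomial.finite_setOfPred_isRoot (Matrix.charpoly_monic _).ne_zero
  have hfin2 : {t : ℝ | (-K).charpoly.IsRoot (t : ℂ)}.Finite :=
    hfin.preimage (Complex.ofReal_injective.injOn)
  have hinf : (Set.Ioo 0 ε).Infinite := Set.Ioo_infinite hε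
  obtain ⟨t, ht, hnot⟩ := (hinf.sdiff hfin2).nonempty
  refine ⟨t, ht.1, ht.2, ?_⟩
  rw [Matrix.isUnit_iff_isUnit_det, isUnit_iff_ne_zero]
  intro h0
  apply hnot
  show Polynomial.eval (t : ℂ) (-K).charpoly = 0
  rw [Matrix.eval_charpoly]
  rw [← h0]
  congr 1
  rw [sub_neg_eq_add, add_comm]
  congr 1
  rw [Matrix.smul_one_eq_diagonal]
  rfl

/-- the orthogonal projection onto the kernel -/
lemma ker_proj (R : MM ι) : ∃ P : MM ι, Pᴴ = P ∧ P * P = P ∧ R * P = 0 ∧ (1 - P).rank ≤ R.rank := by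
  have hH : (Rᴴ * R).IsHermitian := isHermitian_conjTranspose_mul_self R
  set x := hH.eigenvalues with hx
  set g : UG ι := hH.eigenvectorUnitary with hg
  have hspec : Rᴴ * R = (g : MM ι) * diagonal (fun i => (x i : ℂ)) * (g : MM ι)ᴴ := by
    conv_lhs => rw [hH.spectral_theorem]
    rw [Unitary.conjStarAlgAut_apply]
    rfl
  have hg1 := ug1 g
  have hg2 := ug2 g
  have key : ∀ a b : ι → ℂ, ((g : MM ι) * diagonal a * (g : MM ι)ᴴ) *
      ((g : MM ι) * diagonal b * (g : MM ι)ᴴ) =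
      (g : MM ι) * diagonal (fun i => a i * b i) * (g : MM ι)ᴴ := by
    intro a b
    calc ((g : MM ι) * diagonal a * (g : MM ι)ᴴ) * ((g : MM ι) * diagonal b * (g : MM ι)ᴴ)
        = (g : MM ι) * diagonal a * ((g : MM ι)ᴴ * (g : MM ι)) * diagonal b * (g : MM ι)ᴴ := by
          simp only [Matrix.mul_assoc]
      _ = _ := by rw [hg1, Matrix.mul_one, Matrix.mul_assoc (g : MM ι), diagonal_mul_diagonal]
  set a : ι → ℂ := fun i => if x i = 0 then 1 else 0 with ha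
  set P : MM ι := (g : MM ι) * diagonal a * (g : MM ι)ᴴ with hP
  have hPH : Pᴴ = P := by
    rw [hP, conjTranspose_mul, conjTranspose_mul, conjTranspose_conjTranspose,
      diagonal_conjTranspose, Matrix.mul_assoc]
    congr 3
    ext i
    simp only [ha, Pi.star_apply]
    split_ifs <;> simp
  have hPP : P * P = P := by
    rw [hP, key]
    congr 3
    funext i
    simp only [ha]
    split_ifs <;> simp
  have hRP : R * P = 0 := by
    have h1 : ‖R * P‖ ^ 2 = 0 := by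
      rw [fr_sq, conjTranspose_mul, hPH]
      have h2 : P * Rᴴ * (R * P) = P * ((Rᴴ * R) * P) := by simp only [Matrix.mul_assoc]
      rw [h2, hspec, hP, key]
      have h3 : (fun i => (x i : ℂ) * a i) = fun _ => 0 := by
        funext i
        simp only [ha]
        split_ifs with h <;> simp [h]
      rw [h3]
      simp
    exact norm_eq_zero.1 (pow_eq_zero_iff (two_ne_zero) |>.1 h1)
  refine ⟨P, hPH, hPP, hRP, ?_⟩
  have h1 : (1 : MM ι) - P = (g : MM ι) * diagonal (fun i => 1 - a i) * (g : MM ι)ᴴ := by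
    have : diagonal (fun i => 1 - a i) = (1 : MM ι) - diagonal a := by
      rw [← diagonal_one, diagonal_sub]
    rw [this, Matrix.mul_sub, Matrix.sub_mul, Matrix.mul_one, hg2]
  have h2 : (1 - P).rank ≤ (diagonal (fun i => 1 - a i) : MM ι).rank := by
    rw [h1]
    exact (rank_mul_le_left _ _).trans (rank_mul_le_right _ _)
  refine h2.trans ?_
  rw [Matrix.rank_diagonal, ← rank_conjTranspose_mul_self R, hH.rank_eq_card_non_zero_eigs]
  refine le_of_eq (Fintype.card_congr (Equiv.subtypeEquivRight fun i => ?_))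
  simp only [ha, ← hx]
  split_ifs with h <;> simp [h]

lemma fr_blocks {ι' κ' : Type} [Fintype ι'] [DecidableEq ι'] [Fintype κ'] [DecidableEq κ']
    (A : Matrix ι ι' ℂ) (B : Matrix ι κ' ℂ) (C : Matrix κ ι' ℂ) (D : Matrix κ κ' ℂ) :
    ‖fromBlocks A B C D‖ ^ 2 = ‖A‖ ^ 2 + ‖B‖ ^ 2 + ‖C‖ ^ 2 + ‖D‖ ^ 2 := by
  have tr : ∀ (X : MM ι') (Y : Matrix ι' κ' ℂ) (Z : Matrix κ' ι' ℂ) (W : MM κ'),
      trace (fromBlocks X Y Z W) = trace X + trace W := by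
    intro X Y Z W
    simp [trace, Fintype.sum_sum_type]
  rw [fr_sq, fromBlocks_conjTranspose, fromBlocks_multiply, tr, trace_add, trace_add,
    Complex.add_re, Complex.add_re, Complex.add_re, ← fr_sq, ← fr_sq, ← fr_sq, ← fr_sq]
  ring

lemma fr_off (S₁ : Matrix ι κ ℂ) (S₂ : Matrix κ ι ℂ) :
    ‖(fromBlocks 0 S₁ S₂ 0 : MM (ι ⊕ κ))‖ ≤ ‖S₁‖ + ‖S₂‖ := by
  refine le_of_sq (by positivity) ?_
  rw [fr_blocks]
  simp only [norm_zero]
  nlinarith [norm_nonneg S₁, norm_nonneg S₂]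

lemma fr_11 (X : MM (ι ⊕ κ)) : ‖X.toBlocks₁₁‖ ≤ ‖X‖ := by
  refine le_of_sq (norm_nonneg _) ?_
  conv_rhs => rw [← fromBlocks_toBlocks X]
  rw [fr_blocks]
  nlinarith [sq_nonneg ‖X.toBlocks₁₂‖, sq_nonneg ‖X.toBlocks₂₁‖, sq_nonneg ‖X.toBlocks₂₂‖]

lemma fr_22 (X : MM (ι ⊕ κ)) : ‖X.toBlocks₂₂‖ ≤ ‖X‖ := by
  refine le_of_sq (norm_nonneg _) ?_
  conv_rhs => rw [← fromBlocks_toBlocks X]
  rw [fr_blocks]
  nlinarith [sq_nonneg ‖X.toBlocks₁₂‖, sq_nonneg ‖X.toBlocks₂₁‖, sq_nonneg ‖X.toBlocks₁₁‖]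

lemma rk_add {m n : Type} [Fintype m] [Fintype n] (A B : Matrix m n ℂ) :
    (A + B).rank ≤ A.rank + B.rank := by
  unfold Matrix.rank
  rw [Matrix.mulVecLin_add]
  have h : LinearMap.range (A.mulVecLin + B.mulVecLin) ≤
      LinearMap.range A.mulVecLin ⊔ LinearMap.range B.mulVecLin := by
    rintro _ ⟨x, rfl⟩
    exact Submodule.add_mem_sup ⟨x, rfl⟩ ⟨x, rfl⟩
  exact (Submodule.finrank_mono h).trans (Submodule.finrank_add_le_finrank_add_finrank _ _)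

lemma rank_off (R₁ : Matrix ι κ ℂ) (R₂ : Matrix κ ι ℂ) :
    (fromBlocks 0 R₁ R₂ 0 : MM (ι ⊕ κ)).rank ≤ R₁.rank + R₂.rank := by
  have e : (fromBlocks 0 R₁ R₂ 0 : MM (ι ⊕ κ)) =
      (fromRows 1 0 : Matrix (ι ⊕ κ) ι ℂ) * R₁ * (fromCols 0 1 : Matrix κ (ι ⊕ κ) ℂ) +
      (fromRows 0 1 : Matrix (ι ⊕ κ) κ ℂ) * R₂ * (fromCols 1 0 : Matrix ι (ι ⊕ κ) ℂ) := by
    rw [Matrix.mul_assoc, Matrix.mul_assoc, mul_fromCols R₁, mul_fromCols R₂, fromRows_mul_fromCols,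
      fromRows_mul_fromCols, fromBlocks_add]
    simp
  rw [e]
  refine (rk_add _ _).trans (add_le_add ?_ ?_)
  · exact (rank_mul_le_left _ _).trans (rank_mul_le_right _ _)
  · exact (rank_mul_le_left _ _).trans (rank_mul_le_right _ _)

lemma rank_11 (X : MM (ι ⊕ κ)) : X.toBlocks₁₁.rank ≤ X.rank := by
  have e : X.toBlocks₁₁ = (fromCols 1 0 : Matrix ι (ι ⊕ κ) ℂ) * X * (fromRows 1 0 : Matrix (ι ⊕ κ) ι ℂ) := by
    conv_rhs => rw [← fromBlocks_toBlocks X]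
    rw [fromCols_mul_fromBlocks, fromCols_mul_fromRows]
    simp
  rw [e]
  exact (rank_mul_le_left _ _).trans (rank_mul_le_right _ _)

lemma rank_22 (X : MM (ι ⊕ κ)) : X.toBlocks₂₂.rank ≤ X.rank := by
  have e : X.toBlocks₂₂ = (fromCols 0 1 : Matrix κ (ι ⊕ κ) ℂ) * X * (fromRows 0 1 : Matrix (ι ⊕ κ) κ ℂ) := by
    conv_rhs => rw [← fromBlocks_toBlocks X]
    rw [fromCols_mul_fromBlocks, fromCols_mul_fromRows]
    simp
  rw [e]
  exact (rank_mul_le_left _ _).trans (rank_mul_le_right _ _)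

lemma fr_ug_ct (g : UG ι) (A : Matrix ι κ ℂ) : ‖(g : MM ι)ᴴ * A‖ = ‖A‖ := by
  rw [← ug_inv, fr_mul_left]

/-- the projection `P` and the compression of a unitary matrix to its complement: a contraction -/
lemma contr (C : UG ι) {P : MM ι} (h1 : Pᴴ = P) (h2 : P * P = P) (A : MM ι) :
    ‖A * (P + (1 - P) * C * (1 - P))‖ ≤ ‖A‖ := by
  obtain ⟨h3, h4⟩ := proj_compl h1 h2
  have hTP : (1 - P) * P = 0 := by rw [sub_mul, h2]; simp
  have hPT : P * (1 - P) = 0 := by rw [mul_sub, h2]; simp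
  refine le_of_sq (norm_nonneg _) ?_
  rw [pyth P h1 h2 (A * _), pyth P h1 h2 A]
  have e1 : A * (P + (1 - P) * C * (1 - P)) * P = A * P := by
    rw [Matrix.mul_assoc, Matrix.add_mul, Matrix.mul_assoc ((1 - P) * (C : MM ι)), hTP, h2]
    simp
  have e2 : A * (P + (1 - P) * C * (1 - P)) * (1 - P) = A * (1 - P) * C * (1 - P) := by
    rw [Matrix.mul_assoc, Matrix.add_mul, Matrix.mul_assoc ((1 - P) * (C : MM ι)), h4, hPT]
    simp only [zero_add, Matrix.mul_assoc]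
  rw [e1, e2]
  have e3 : ‖A * (1 - P) * C * (1 - P)‖ ≤ ‖A * (1 - P)‖ := by
    refine (mul_P_le _ h3 h4 _).trans ?_
    rw [fr_mul_right]
  have e4 := norm_nonneg (A * (1 - P) * C * (1 - P))
  nlinarith

/-- the distance from `1` of the positive part -/
lemma pos_part (V : UG ι) (M : MM ι) {t : ℝ} (hM : ∀ A : MM ι, ‖A * M‖ ≤ (1 + t) * ‖A‖) :
    ‖Mᴴ * M - 1‖ ≤ (2 + t) * ‖M - V‖ := by
  have e1 : Mᴴ * M - 1 = (M - (V : MM ι))ᴴ * M + (V : MM ι)ᴴ * (M - (V : MM ι)) := by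
    rw [← ug1 V, conjTranspose_sub, Matrix.sub_mul, Matrix.mul_sub]; abel
  rw [e1]
  refine (norm_add_le _ _).trans ?_
  rw [fr_ug_ct]
  have := hM (M - (V : MM ι))ᴴ
  rw [fr_ct] at this
  linarith

/-- the involution with the two blocks -/
def inv2 : UG (ι ⊕ κ) :=
  ⟨fromBlocks 1 0 0 (-1), by
    rw [Matrix.mem_unitaryGroup_iff', star_eq_conjTranspose, fromBlocks_conjTranspose,
      fromBlocks_multiply]
    simp [fromBlocks_one]⟩

lemma diag_contr (V : UG (ι ⊕ κ)) (A : MM (ι ⊕ κ)) :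
    ‖A * (fromBlocks (V : MM (ι ⊕ κ)).toBlocks₁₁ 0 0 (V : MM (ι ⊕ κ)).toBlocks₂₂)‖ ≤ ‖A‖ := by
  have e1 : (fromBlocks (V : MM (ι ⊕ κ)).toBlocks₁₁ 0 0 (V : MM (ι ⊕ κ)).toBlocks₂₂ : MM (ι ⊕ κ)) =
      (1 / 2 : ℂ) • ((V : MM (ι ⊕ κ)) +
        ((inv2 : UG (ι ⊕ κ)) : MM (ι ⊕ κ)) * (V : MM (ι ⊕ κ)) * ((inv2 : UG (ι ⊕ κ)) : MM (ι ⊕ κ))) := by
    have e2 : ((inv2 : UG (ι ⊕ κ)) : MM (ι ⊕ κ)) = fromBlocks 1 0 0 (-1) := rfl
    conv_rhs => rw [← fromBlocks_toBlocks (V : MM (ι ⊕ κ))]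
    rw [e2, fromBlocks_multiply, fromBlocks_multiply, fromBlocks_add, fromBlocks_smul]
    simp only [Matrix.one_mul, Matrix.zero_mul, add_zero, Matrix.mul_one, Matrix.mul_zero, zero_add,
      Matrix.neg_mul, Matrix.mul_neg, neg_neg, add_neg_cancel, smul_zero, ← two_smul ℂ, smul_smul]
    norm_num
  rw [e1, Matrix.mul_smul, norm_smul, Matrix.mul_add]
  have e3 : ‖A * (V : MM (ι ⊕ κ)) + A * (((inv2 : UG (ι ⊕ κ)) : MM (ι ⊕ κ)) * (V : MM (ι ⊕ κ)) *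
      ((inv2 : UG (ι ⊕ κ)) : MM (ι ⊕ κ)))‖ ≤ ‖A‖ + ‖A‖ := by
    refine (norm_add_le _ _).trans (add_le_add ?_ ?_)
    · rw [fr_mul_right]
    · rw [← Matrix.mul_assoc, ← Matrix.mul_assoc, fr_mul_right, fr_mul_right, fr_mul_right]
  have e4 : ‖(1 / 2 : ℂ)‖ = 1 / 2 := by norm_num
  rw [e4]
  linarith

lemma psd_blocks {A : MM ι} {B : MM κ} (hA : A.PosSemidef) (hB : B.PosSemidef) :
    (fromBlocks A 0 0 B : MM (ι ⊕ κ)).PosSemidef := by
  rw [Matrix.posSemidef_iff_dotProduct_mulVec] at hA hB ⊢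
  refine ⟨?_, fun x => ?_⟩
  · show (fromBlocks A 0 0 B : MM (ι ⊕ κ))ᴴ = _
    rw [fromBlocks_conjTranspose, hA.1, hB.1]
    simp
  · obtain ⟨x₁, x₂, rfl⟩ : ∃ x₁ x₂, x = Sum.elim x₁ x₂ :=
      ⟨x ∘ Sum.inl, x ∘ Sum.inr, (Sum.elim_comp_inl_inr x).symm⟩
    have h1 := hA.2 x₁
    have h2 := hB.2 x₂
    have e1 : star (Sum.elim x₁ x₂) = Sum.elim (star x₁) (star x₂) := by
      funext i; rcases i with i | i <;> rfl
    rw [e1, fromBlocks_mulVec]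
    simp only [Sum.elim_comp_inl, Sum.elim_comp_inr, zero_mulVec, add_zero, zero_add,
      sumElim_dotProduct_sumElim]
    exact add_nonneg h1 h2

lemma rk_ct (A : MM ι) : (Aᴴ).rank = A.rank := rank_conjTranspose A

lemma rk_neg (A : MM ι) : (-A).rank ≤ A.rank := by
  have : -A = (-1 : MM ι) * A := by rw [Matrix.neg_mul, Matrix.one_mul]
  rw [this]; exact rank_mul_le_right _ _

/-- block diagonal polar decomposition -/
lemma polar_blocks (A : MM ι) (B : MM κ) (h : IsUnit (fromBlocks A 0 0 B : MM (ι ⊕ κ))) :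
    ∃ (k : UG ι × UG κ) (Q : MM (ι ⊕ κ)), Q.PosSemidef ∧
      (fromBlocks A 0 0 B : MM (ι ⊕ κ)) = (blk k : MM (ι ⊕ κ)) * Q ∧
      Q * Q = (fromBlocks A 0 0 B : MM (ι ⊕ κ))ᴴ * (fromBlocks A 0 0 B : MM (ι ⊕ κ)) := by
  rw [Matrix.isUnit_iff_isUnit_det, det_fromBlocks_zero₂₁] at h
  have hA : IsUnit A := (Matrix.isUnit_iff_isUnit_det _).2 (isUnit_of_mul_isUnit_left h)
  have hB : IsUnit B := (Matrix.isUnit_iff_isUnit_det _).2 (isUnit_of_mul_isUnit_right h)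
  obtain ⟨k₁, Q₁, a1, a2, a3⟩ := polar A hA
  obtain ⟨k₂, Q₂, b1, b2, b3⟩ := polar B hB
  refine ⟨(k₁, k₂), fromBlocks Q₁ 0 0 Q₂, psd_blocks a1 b1, ?_, ?_⟩
  · rw [blk_val, fromBlocks_multiply]
    simp [← a2, ← b2]
  · rw [fromBlocks_conjTranspose, fromBlocks_multiply, fromBlocks_multiply]
    simp [← a3, ← b3]

end Polar

theorem near_rank {C : UG ι} {S R : MM ι} (h : (C : MM ι) - 1 = S + R) {η : ℝ} (hη : 0 < η) :
    ∃ C' ∈ Rk ι R.rank, ‖(C : MM ι) - (C' : MM ι)‖ ≤ 6 * ‖S‖ + η := by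
  obtain ⟨P, h1, h2, hRP, hrk⟩ := Polar.ker_proj R
  obtain ⟨h3, h4⟩ := Polar.proj_compl h1 h2
  have hTP : (1 - P) * P = 0 := by rw [sub_mul, h2]; simp
  have hPT : P * (1 - P) = 0 := by rw [mul_sub, h2]; simp
  obtain ⟨T, hT⟩ : ∃ T : MM ι, T = 1 - P := ⟨_, rfl⟩
  rw [← hT] at h3 h4 hTP hPT hrk
  set K : MM ι := T * C * T with hK
  have hKP : K * P = 0 := by rw [hK, Matrix.mul_assoc, hTP, Matrix.mul_zero]
  have hKT : K * T = K := by rw [hK, Matrix.mul_assoc, h4]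
  have hPK : P * K = 0 := by rw [hK, Matrix.mul_assoc, ← Matrix.mul_assoc P, hPT, Matrix.zero_mul]
  set c₁ := ‖(1 : MM ι)‖ with hc₁
  have hc₁0 : 0 ≤ c₁ := norm_nonneg _
  have hS0 : 0 ≤ ‖S‖ := norm_nonneg _
  set B := 2 * ‖S‖ + 4 * c₁ + 1 with hB
  have hB0 : 0 < B := by positivity
  obtain ⟨t, ht0, htε, htu⟩ := Polar.exists_shift K (lt_min one_pos (div_pos hη hB0))
  have ht1 : t < 1 := htε.trans_le (min_le_left _ _)
  have htB : t * B < η := by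
    have := htε.trans_le (min_le_right _ _)
    rwa [lt_div_iff₀ hB0] at this
  have htc : (t : ℂ) ≠ 0 := Complex.ofReal_ne_zero.2 ht0.ne'
  set M : MM ι := P + K + (t : ℂ) • T with hM
  have hMu : IsUnit M := by
    have e1 : M = (K + (t : ℂ) • (1 : MM ι)) * ((t : ℂ)⁻¹ • P + T) := by
      rw [Matrix.add_mul, Matrix.mul_add, Matrix.mul_add, Matrix.mul_smul, hKP, hKT, smul_zero,
        zero_add, Matrix.smul_mul, Matrix.smul_mul, Matrix.one_mul, Matrix.one_mul, smul_smul,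
        mul_inv_cancel₀ htc, one_smul, hM]
      abel
    rw [e1]
    refine htu.mul ?_
    have e2 : ((t : ℂ)⁻¹ • P + T) * ((t : ℂ) • P + T) = 1 := by
      rw [Matrix.add_mul, Matrix.mul_add, Matrix.mul_add, Matrix.smul_mul, Matrix.smul_mul,
        Matrix.mul_smul, Matrix.mul_smul, h2, h4, hPT, hTP, smul_smul, inv_mul_cancel₀ htc,
        one_smul, smul_zero, smul_zero, hT]
      abel
    exact IsUnit.of_mul_eq_one _ e2
  obtain ⟨k, Q, hQ, hkQ, hQQ⟩ := Polar.polar M hMu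
  have hMP : M * P = P := by
    rw [hM, Matrix.add_mul, Matrix.add_mul, h2, hKP, Matrix.smul_mul, hTP, smul_zero]
    simp
  have hPM : P * M = P := by
    rw [hM, Matrix.mul_add, Matrix.mul_add, h2, hPK, Matrix.mul_smul, hPT, smul_zero]
    simp
  have hMHP : Mᴴ * P = P := by
    have := congrArg conjTranspose hPM
    rwa [conjTranspose_mul, h1] at this
  have hQP : Q * P = P := by
    have e1 : (Q + 1) * ((Q - 1) * P) = 0 := by
      have : (Q + 1) * ((Q - 1) * P) = Q * Q * P - P := by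
        rw [← Matrix.mul_assoc, Matrix.add_mul, Matrix.mul_sub, Matrix.one_mul]
        simp only [Matrix.sub_mul, Matrix.add_mul, Matrix.mul_one, Matrix.one_mul]
        abel
      rw [this, hQQ, Matrix.mul_assoc, hMP, hMHP, sub_self]
    have e2 := Polar.fr_pos hQ ((Q - 1) * P)
    rw [e1, norm_zero] at e2
    have e3 : (Q - 1) * P = 0 := norm_le_zero_iff.1 e2
    rw [Matrix.sub_mul, Matrix.one_mul, sub_eq_zero] at e3
    exact e3
  have hkP : (k : MM ι) * P = P := by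
    conv_lhs => rw [← hQP]
    rw [← Matrix.mul_assoc, ← hkQ, hMP]
  refine ⟨k, ?_, ?_⟩
  · show ((k : MM ι) - 1).rank ≤ R.rank
    have e1 : (k : MM ι) - 1 = ((k : MM ι) - 1) * T := by
      rw [hT, Matrix.mul_sub, Matrix.mul_one, Matrix.sub_mul, hkP, Matrix.one_mul, sub_self,
        sub_zero]
    rw [e1]
    exact (rank_mul_le_right _ _).trans hrk
  · -- the distance of `C` and `M`
    have a1 : ((C : MM ι) - 1) * P = S * P := by
      rw [h, Matrix.add_mul, hRP, add_zero]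
    have a2 : P * ((C : MM ι) - 1) = -(P * Sᴴ * C) := by
      have e1 := congrArg conjTranspose a1
      rw [conjTranspose_mul, conjTranspose_mul, h1, conjTranspose_sub, conjTranspose_one] at e1
      rw [← e1, Matrix.mul_assoc, Matrix.sub_mul, ug1, Matrix.one_mul, ← Matrix.mul_neg, neg_sub]
    have a3 : (C : MM ι) - (P + K) = S * P - P * Sᴴ * C * T := by
      have e1 : (C : MM ι) - (P + K) = ((C : MM ι) - 1) * P + P * ((C : MM ι) - 1) * T := by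
        have e2 : P * ((C : MM ι) - 1) * T = P * C * T := by
          rw [Matrix.mul_sub P, Matrix.sub_mul _ _ T, Matrix.mul_one, hPT, sub_zero]
        rw [e2, Matrix.sub_mul, Matrix.one_mul, hK]
        have e3 : (C : MM ι) = (C : MM ι) * P + (C : MM ι) * T := by
          rw [← Matrix.mul_add, hT]; simp
        have e4 : (C : MM ι) * T = P * C * T + T * C * T := by
          rw [← Matrix.add_mul, ← Matrix.add_mul, hT]; simp
        have e5 : (C : MM ι) = (C : MM ι) * P + (P * C * T + T * C * T) := by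
          rw [← e4]; exact e3
        generalize T * (C : MM ι) * T = X1 at *
        generalize P * (C : MM ι) * T = X2 at *
        generalize (C : MM ι) * P = X3 at *
        rw [e5]
        abel
      rw [e1, a1, a2]
      simp only [Matrix.neg_mul]
      abel
    have a4 : ‖(C : MM ι) - (P + K)‖ ≤ 2 * ‖S‖ := by
      rw [a3]
      refine (norm_sub_le _ _).trans ?_
      have e1 : ‖S * P‖ ≤ ‖S‖ := Polar.mul_P_le P h1 h2 S
      have e2 : ‖P * Sᴴ * C * T‖ ≤ ‖S‖ := by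
        refine (Polar.mul_P_le T h3 h4 _).trans ?_
        rw [fr_mul_right]
        refine (Polar.P_mul_le P h1 h2 _).trans ?_
        rw [Polar.fr_ct]
      linarith
    have a5 : ‖(t : ℂ) • T‖ ≤ t * c₁ := by
      rw [norm_smul, Complex.norm_real, Real.norm_of_nonneg ht0.le]
      refine mul_le_mul_of_nonneg_left ?_ ht0.le
      have := Polar.mul_P_le T h3 h4 (1 : MM ι)
      rwa [Matrix.one_mul] at this
    have a6 : ‖(C : MM ι) - M‖ ≤ 2 * ‖S‖ + t * c₁ := by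
      have e1 : (C : MM ι) - M = ((C : MM ι) - (P + K)) - (t : ℂ) • T := by
        rw [hM]; abel
      rw [e1]
      refine (norm_sub_le _ _).trans ?_
      linarith
    have a7 : ∀ A : MM ι, ‖A * M‖ ≤ (1 + t) * ‖A‖ := by
      intro A
      have e1 : A * M = A * (P + (1 - P) * C * (1 - P)) + (t : ℂ) • (A * T) := by
        rw [hM, hK, hT, Matrix.mul_add, Matrix.mul_smul]
      rw [e1]
      refine (norm_add_le _ _).trans ?_
      have e2 := Polar.contr C h1 h2 A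
      have e3 : ‖(t : ℂ) • (A * T)‖ ≤ t * ‖A‖ := by
        rw [norm_smul, Complex.norm_real, Real.norm_of_nonneg ht0.le]
        exact mul_le_mul_of_nonneg_left (Polar.mul_P_le T h3 h4 A) ht0.le
      linarith
    have a8 := Polar.pos_part C M a7
    rw [norm_sub_rev] at a8
    rw [norm_sub_rev M] at a8
    have a9 : ‖Q - 1‖ ≤ ‖1 - Mᴴ * M‖ := by
      refine (Polar.fr_pos hQ (Q - 1)).trans (le_of_eq ?_)
      have : (Q + 1) * (Q - 1) = -(1 - Mᴴ * M) := by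
        rw [← hQQ, Matrix.add_mul, Matrix.mul_sub, Matrix.mul_one, Matrix.one_mul]; abel
      rw [this, norm_neg]
    have a10 : (C : MM ι) - (k : MM ι) = ((C : MM ι) - M) + (k : MM ι) * (Q - 1) := by
      rw [Matrix.mul_sub, ← hkQ, Matrix.mul_one]; abel
    have a11 : ‖(C : MM ι) - (k : MM ι)‖ ≤ (3 + t) * ‖(C : MM ι) - M‖ := by
      rw [a10]
      refine (norm_add_le _ _).trans ?_
      rw [fr_mul_left]
      linarith
    have a12 : (3 + t) * ‖(C : MM ι) - M‖ ≤ (3 + t) * (2 * ‖S‖ + t * c₁) :=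
      mul_le_mul_of_nonneg_left a6 (by linarith)
    have a13 : t * t * c₁ ≤ t * 1 * c₁ := by gcongr
    nlinarith

theorem near_block {V : UG (ι ⊕ κ)} {S₁ R₁ : Matrix ι κ ℂ} {S₂ R₂ : Matrix κ ι ℂ}
    (h₁ : (V : MM (ι ⊕ κ)).toBlocks₁₂ = S₁ + R₁) (h₂ : (V : MM (ι ⊕ κ)).toBlocks₂₁ = S₂ + R₂)
    {η : ℝ} (hη : 0 < η) :
    ∃ (k : UG ι × UG κ) (S R : MM (ι ⊕ κ)), (V : MM (ι ⊕ κ)) - (blk k : UG (ι ⊕ κ)) = S + R ∧
      ‖S‖ ≤ 10 * (‖S₁‖ + ‖S₂‖) + η ∧ R.rank ≤ 10 * (R₁.rank + R₂.rank) := by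
  obtain ⟨D, hD⟩ : ∃ D : MM (ι ⊕ κ), D =
    fromBlocks (V : MM (ι ⊕ κ)).toBlocks₁₁ 0 0 (V : MM (ι ⊕ κ)).toBlocks₂₂ := ⟨_, rfl⟩
  obtain ⟨Os, hOs⟩ : ∃ Os : MM (ι ⊕ κ), Os = fromBlocks 0 S₁ S₂ 0 := ⟨_, rfl⟩
  obtain ⟨Or, hOr⟩ : ∃ Or : MM (ι ⊕ κ), Or = fromBlocks 0 R₁ R₂ 0 := ⟨_, rfl⟩
  have hV : (V : MM (ι ⊕ κ)) = D + Os + Or := by
    conv_lhs => rw [← fromBlocks_toBlocks (V : MM (ι ⊕ κ))]
    rw [h₁, h₂, hD, hOs, hOr, fromBlocks_add, fromBlocks_add]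
    simp
  have hOsn : ‖Os‖ ≤ ‖S₁‖ + ‖S₂‖ := by rw [hOs]; exact Polar.fr_off S₁ S₂
  have hOrr : Or.rank ≤ R₁.rank + R₂.rank := by rw [hOr]; exact Polar.rank_off R₁ R₂
  set c₁ := ‖(1 : MM (ι ⊕ κ))‖ with hc₁
  have hc₁0 : 0 ≤ c₁ := norm_nonneg _
  have hOs0 : 0 ≤ ‖Os‖ := norm_nonneg _
  have hB0 : 0 < 4 * c₁ + 1 := by positivity
  obtain ⟨t, ht0, htε, htu⟩ := Polar.exists_shift D (lt_min one_pos (div_pos hη hB0))
  have ht1 : t < 1 := htε.trans_le (min_le_left _ _)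
  have htB : t * (4 * c₁ + 1) < η := by
    have := htε.trans_le (min_le_right _ _)
    rwa [lt_div_iff₀ hB0] at this
  obtain ⟨M, hM⟩ : ∃ M : MM (ι ⊕ κ), M = D + (t : ℂ) • (1 : MM (ι ⊕ κ)) := ⟨_, rfl⟩
  rw [← hM] at htu
  have hMb : M = fromBlocks ((V : MM (ι ⊕ κ)).toBlocks₁₁ + (t : ℂ) • (1 : MM ι)) 0 0
      ((V : MM (ι ⊕ κ)).toBlocks₂₂ + (t : ℂ) • (1 : MM κ)) := by
    rw [hM, hD, ← fromBlocks_one, fromBlocks_smul, fromBlocks_add]
    simp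
  obtain ⟨k, Q, hQ, hkQ, hQQ⟩ := Polar.polar_blocks _ _ (hMb ▸ htu)
  rw [← hMb] at hkQ hQQ
  have a5 : ‖(t : ℂ) • (1 : MM (ι ⊕ κ))‖ = t * c₁ := by
    rw [norm_smul, Complex.norm_real, Real.norm_of_nonneg ht0.le]
  have a7 : ∀ A : MM (ι ⊕ κ), ‖A * M‖ ≤ (1 + t) * ‖A‖ := by
    intro A
    rw [hM, Matrix.mul_add, Matrix.mul_smul, Matrix.mul_one]
    refine (norm_add_le _ _).trans ?_
    have e2 : ‖A * D‖ ≤ ‖A‖ := by rw [hD]; exact Polar.diag_contr V A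
    have e3 : ‖(t : ℂ) • A‖ = t * ‖A‖ := by
      rw [norm_smul, Complex.norm_real, Real.norm_of_nonneg ht0.le]
    linarith
  -- the difference
  obtain ⟨E, hE⟩ : ∃ E : MM (ι ⊕ κ), E = (t : ℂ) • (1 : MM (ι ⊕ κ)) - Os := ⟨_, rfl⟩
  have hEn : ‖E‖ ≤ t * c₁ + ‖Os‖ := by
    rw [hE]
    refine (norm_sub_le _ _).trans ?_
    rw [a5]
  have hMV : M - (V : MM (ι ⊕ κ)) = E - Or := by rw [hM, hV, hE]; abel
  obtain ⟨Ts, hTs⟩ : ∃ Ts : MM (ι ⊕ κ), Ts = Eᴴ * M + (V : MM (ι ⊕ κ))ᴴ * E := ⟨_, rfl⟩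
  obtain ⟨Tr, hTr⟩ : ∃ Tr : MM (ι ⊕ κ), Tr = (-Or)ᴴ * M + (V : MM (ι ⊕ κ))ᴴ * (-Or) := ⟨_, rfl⟩
  have hT : Q * Q - 1 = Ts + Tr := by
    have e1 : Mᴴ * M - 1 = (M - (V : MM (ι ⊕ κ)))ᴴ * M + (V : MM (ι ⊕ κ))ᴴ * (M - (V : MM (ι ⊕ κ))) := by
      rw [← ug1 V, conjTranspose_sub, Matrix.sub_mul, Matrix.mul_sub]; abel
    rw [hQQ, e1, hMV, hTs, hTr, sub_eq_add_neg, conjTranspose_add]
    simp only [Matrix.add_mul, Matrix.mul_add]
    abel
  have hTsn : ‖Ts‖ ≤ (2 + t) * ‖E‖ := by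
    rw [hTs]
    refine (norm_add_le _ _).trans ?_
    rw [Polar.fr_ug_ct]
    have := a7 Eᴴ
    rw [Polar.fr_ct] at this
    linarith
  have hnO : (-Or).rank ≤ Or.rank := Polar.rk_neg Or
  have hTrr : Tr.rank ≤ 2 * Or.rank := by
    rw [hTr]
    refine (Polar.rk_add _ _).trans ?_
    have e0 : ((-Or)ᴴ).rank ≤ Or.rank := by rw [Polar.rk_ct]; exact hnO
    have e1 := (rank_mul_le_left ((-Or)ᴴ) M).trans e0
    have e2 := (rank_mul_le_right ((V : MM (ι ⊕ κ))ᴴ) (-Or)).trans hnO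
    omega
  obtain ⟨Z, hZ⟩ := (Polar.isUnit_add_one hQ).exists_right_inv
  have hZ' : Z * (Q + 1) = 1 := mul_eq_one_comm.1 hZ
  have hQ1 : Q - 1 = Z * Ts + Z * Tr := by
    have e1 : (Q + 1) * (Q - 1) = Q * Q - 1 := by
      rw [Matrix.add_mul, Matrix.mul_sub, Matrix.mul_one, Matrix.one_mul]
      abel
    rw [← Matrix.mul_add, ← hT, ← e1, ← Matrix.mul_assoc, hZ', Matrix.one_mul]
  have hZT : ‖Z * Ts‖ ≤ ‖Ts‖ := by
    refine (Polar.fr_pos hQ _).trans ?_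
    rw [← Matrix.mul_assoc, hZ, Matrix.one_mul]
  refine ⟨k, -E + (blk k : MM (ι ⊕ κ)) * (Z * Ts), Or + (blk k : MM (ι ⊕ κ)) * (Z * Tr), ?_, ?_, ?_⟩
  · have e1 : (V : MM (ι ⊕ κ)) - (blk k : UG (ι ⊕ κ)) =
        -(M - (V : MM (ι ⊕ κ))) + (blk k : MM (ι ⊕ κ)) * (Q - 1) := by
      rw [Matrix.mul_sub, ← hkQ, Matrix.mul_one]; abel
    rw [e1, hMV, hQ1, Matrix.mul_add]
    abel
  · refine (norm_add_le _ _).trans ?_
    rw [norm_neg, fr_mul_left]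
    have e1 : ‖E‖ + ‖Z * Ts‖ ≤ (3 + t) * ‖E‖ := by linarith
    have e2 : (3 + t) * ‖E‖ ≤ (3 + t) * (t * c₁ + ‖Os‖) :=
      mul_le_mul_of_nonneg_left hEn (by linarith)
    have e3 : (3 + t) * (t * c₁ + ‖Os‖) ≤ 4 * (t * c₁ + ‖Os‖) :=
      mul_le_mul_of_nonneg_right (by linarith) (by positivity)
    have e4 : t * (4 * c₁ + 1) = 4 * (t * c₁) + t := by ring
    nlinarith
  · refine (Polar.rk_add _ _).trans ?_
    have e1 : ((blk k : MM (ι ⊕ κ)) * (Z * Tr)).rank ≤ Tr.rank :=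
      (rank_mul_le_right _ _).trans (rank_mul_le_right _ _)
    omega

theorem block_comm {V W : UG (ι ⊕ κ)} {k k' : UG ι × UG κ} {S R S' R' : MM (ι ⊕ κ)}
    (h : (V : MM (ι ⊕ κ)) - (blk k : UG (ι ⊕ κ)) = S + R)
    (h' : (W : MM (ι ⊕ κ)) - (blk k' : UG (ι ⊕ κ)) = S' + R') {N : ℕ} {τ : ℝ}
    (hτ : 7 * (‖(V : MM (ι ⊕ κ)) * W - W * V‖ + 2 * ‖S‖ + 2 * ‖S'‖) < τ * Real.sqrt N) :
    RC N (2 * (R.rank + R'.rank)) τ k.1 k'.1 ∧ RC N (2 * (R.rank + R'.rank)) τ k.2 k'.2 := by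
  obtain ⟨K, hK⟩ : ∃ K : MM (ι ⊕ κ), K = ((blk k : UG (ι ⊕ κ)) : MM (ι ⊕ κ)) := ⟨_, rfl⟩
  obtain ⟨K', hK'⟩ : ∃ K' : MM (ι ⊕ κ), K' = ((blk k' : UG (ι ⊕ κ)) : MM (ι ⊕ κ)) := ⟨_, rfl⟩
  have eV : (V : MM (ι ⊕ κ)) = K + S + R := by
    rw [hK, add_assoc, ← h]; abel
  have eW : (W : MM (ι ⊕ κ)) = K' + S' + R' := by
    rw [hK', add_assoc, ← h']; abel
  obtain ⟨A, hA⟩ : ∃ A : MM (ι ⊕ κ), A = ((V : MM (ι ⊕ κ)) * W - W * V) - S * W + W * S - K * S' + S' * K :=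
    ⟨_, rfl⟩
  obtain ⟨w, hw⟩ : ∃ w : MM (ι ⊕ κ), w = (W : MM (ι ⊕ κ)) := ⟨_, rfl⟩
  obtain ⟨B, hB⟩ : ∃ B : MM (ι ⊕ κ), B = w * R + -(R * w) + (R' * K + -(K * R')) := ⟨_, rfl⟩
  have hAB : K * K' - K' * K = A + B := by
    rw [hA, hB, hw]
    have e1 : K = (V : MM (ι ⊕ κ)) - S - R := by rw [eV]; abel
    have e2 : K' = (W : MM (ι ⊕ κ)) - S' - R' := by rw [eW]; abel
    have e3 : K * K' = (V : MM (ι ⊕ κ)) * W - S * W - R * W - K * S' - K * R' := by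
      conv_lhs => rw [e2]
      rw [Matrix.mul_sub, Matrix.mul_sub]
      have : K * (W : MM (ι ⊕ κ)) = (V : MM (ι ⊕ κ)) * W - S * W - R * W := by
        conv_lhs => rw [e1]
        rw [Matrix.sub_mul, Matrix.sub_mul]
      rw [this]
    have e4 : K' * K = (W : MM (ι ⊕ κ)) * V - W * S - W * R - S' * K - R' * K := by
      conv_lhs => rw [e2]
      rw [Matrix.sub_mul, Matrix.sub_mul]
      have : (W : MM (ι ⊕ κ)) * K = (W : MM (ι ⊕ κ)) * V - W * S - W * R := by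
        conv_lhs => rw [e1]
        rw [Matrix.mul_sub, Matrix.mul_sub]
      rw [this]
    rw [e3, e4]
    abel
  have hAn : ‖A‖ ≤ ‖(V : MM (ι ⊕ κ)) * W - W * V‖ + 2 * ‖S‖ + 2 * ‖S'‖ := by
    rw [hA]
    have n1 : ‖S * (W : MM (ι ⊕ κ))‖ = ‖S‖ := fr_mul_right _ _
    have n2 : ‖(W : MM (ι ⊕ κ)) * S‖ = ‖S‖ := fr_mul_left _ _
    have n3 : ‖K * S'‖ = ‖S'‖ := by rw [hK]; exact fr_mul_left _ _
    have n4 : ‖S' * K‖ = ‖S'‖ := by rw [hK]; exact fr_mul_right _ _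
    refine (norm_add_le _ _).trans ?_
    have m1 := norm_sub_le ((V : MM (ι ⊕ κ)) * W - W * V - S * W + W * S) (K * S')
    have m2 := norm_add_le ((V : MM (ι ⊕ κ)) * W - W * V - S * W) (W * S)
    have m3 := norm_sub_le ((V : MM (ι ⊕ κ)) * W - W * V) (S * W)
    linarith
  have hneg : ∀ X : MM (ι ⊕ κ), (-X).rank ≤ X.rank := fun X => Polar.rk_neg X
  have hBr : B.rank ≤ 2 * (R.rank + R'.rank) := by
    rw [hB]
    have r1 := Polar.rk_add (w * R + -(R * w)) (R' * K + -(K * R'))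
    have r2 := Polar.rk_add (w * R) (-(R * w))
    have r3 := Polar.rk_add (R' * K) (-(K * R'))
    have r4 := hneg (R * w)
    have r5 := hneg (K * R')
    have r6 := rank_mul_le_right w R
    have r7 := rank_mul_le_left R w
    have r8 := rank_mul_le_left R' K
    have r9 := rank_mul_le_right K R'
    omega
  have hblk : K * K' - K' * K = fromBlocks ((k.1 : MM ι) * (k'.1 : MM ι) - (k'.1 : MM ι) * (k.1 : MM ι))
      0 0 ((k.2 : MM κ) * (k'.2 : MM κ) - (k'.2 : MM κ) * (k.2 : MM κ)) := by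
    rw [hK, hK', blk_val, blk_val, fromBlocks_multiply, fromBlocks_multiply, sub_eq_add_neg,
      fromBlocks_neg, fromBlocks_add]
    simp [sub_eq_add_neg]
  -- the general step
  have step : ∀ {σ' : Type} [Fintype σ'] [DecidableEq σ'] (u v : UG σ') (S₀ R₀ : MM σ'),
      (u : MM σ') * (v : MM σ') - (v : MM σ') * (u : MM σ') = S₀ + R₀ → ‖S₀‖ ≤ ‖A‖ → R₀.rank ≤ B.rank →
      RC N (2 * (R.rank + R'.rank)) τ u v := by
    intro σ' _ _ u v S₀ R₀ he hS hR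
    set z : UG σ' := (v * u)⁻¹ with hz
    have hc : ((u * v * z : UG σ') : MM σ') - 1 = S₀ * (z : MM σ') + R₀ * (z : MM σ') := by
      rw [← Matrix.add_mul, ← he, Matrix.sub_mul, ug_mul, ug_mul, ← ug_mul v u, ← ug_mul (v * u) z,
        hz, mul_inv_cancel, ug_one]
    have hA0 : 0 ≤ ‖A‖ := norm_nonneg _
    have hη : 0 < (τ * Real.sqrt N - 6 * ‖A‖) / 2 := by linarith
    obtain ⟨C', hC', hn⟩ := near_rank hc hη
    refine ⟨C', ?_, ?_⟩
    · have h1 : ((C' : MM σ') - 1).rank ≤ (R₀ * (z : MM σ')).rank := hC'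
      have h2 := rank_mul_le_left R₀ (z : MM σ')
      show ((C' : MM σ') - 1).rank ≤ _
      omega
    · have e1 : (u : MM σ') * (v : MM σ') - (C' : MM σ') * (v : MM σ') * (u : MM σ') =
          (((u * v * z : UG σ') : MM σ') - (C' : MM σ')) * ((v * u : UG σ') : MM σ') := by
        have e2 : ((u * v * z : UG σ') : MM σ') * ((v * u : UG σ') : MM σ') = (u : MM σ') * (v : MM σ') := by
          rw [← ug_mul, hz, inv_mul_cancel_right, ug_mul]
        rw [Matrix.sub_mul, e2, ug_mul v u, Matrix.mul_assoc]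
      rw [e1, fr_mul_right]
      rw [fr_mul_right] at hn
      linarith
  constructor
  · apply step k.1 k'.1 A.toBlocks₁₁ B.toBlocks₁₁ _ (Polar.fr_11 A) (Polar.rank_11 B)
    have := congrArg toBlocks₁₁ hAB
    rw [hblk, toBlocks_fromBlocks₁₁] at this
    rw [this]
    rfl
  · apply step k.2 k'.2 A.toBlocks₂₂ B.toBlocks₂₂ _ (Polar.fr_22 A) (Polar.rank_22 B)
    have := congrArg toBlocks₂₂ hAB
    rw [hblk, toBlocks_fromBlocks₂₂] at this
    rw [this]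
    rfl

end

end Pool.Agent.T2H01.EK2
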