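import Mathlib
import Pool.Agent.T2H01.EK2.Blk
import Pool.Agent.T2H01.EK2.Pol
import Pool.Agent.T2H01.EK2.Cut

/-!
# Almost commuting unitary matrices are almost block diagonal
-/

open MeasureTheory Matrix
open scoped Matrix.Norms.Frobenius Topology ENNReal

namespace Pool.Agent.T2H01.EK2

set_option linter.unusedSectionVars false
set_option linter.unusedVariables false

noncomputable section

variable {ι κ : Type} [Fintype ι] [DecidableEq ι] [Fintype κ] [DecidableEq κ]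

variable {m n N d : ℕ}

/-- perturbation of robust commutation -/
lemma RC_pert {N r : ℕ} {τ ρ : ℝ} {U V U' V' : UG ι} (h : RC N r τ U V)
    (hU : ‖(U' : MM ι) - U‖ ≤ ρ * Real.sqrt N) (hV : ‖(V' : MM ι) - V‖ ≤ ρ * Real.sqrt N) :
    RC N r (τ + 4 * ρ) U' V' := by
  obtain ⟨C, hC, h1⟩ := h
  refine ⟨C, hC, ?_⟩
  have e1 : (U' : MM ι) * V' - C * V' * U' = ((U : MM ι) * V - C * V * U) +
      (((U' : MM ι) - U) * V' + (U : MM ι) * ((V' : MM ι) - V)) -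
      (C : MM ι) * (((V' : MM ι) - V) * U' + (V : MM ι) * ((U' : MM ι) - U)) := by
    noncomm_ring
  rw [e1]
  have b1 : ‖((U' : MM ι) - U) * V' + (U : MM ι) * ((V' : MM ι) - V)‖ ≤ 2 * (ρ * Real.sqrt N) := by
    refine (norm_add_le _ _).trans ?_
    rw [fr_mul_right, fr_mul_left]
    linarith
  have b2 : ‖(C : MM ι) * (((V' : MM ι) - V) * U' + (V : MM ι) * ((U' : MM ι) - U))‖ ≤
      2 * (ρ * Real.sqrt N) := by
    rw [fr_mul_left]
    refine (norm_add_le _ _).trans ?_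
    rw [fr_mul_right, fr_mul_left]
    linarith
  calc _ ≤ ‖(U : MM ι) * V - C * V * U‖ + ‖((U' : MM ι) - U) * V' + (U : MM ι) * ((V' : MM ι) - V)‖ +
      ‖(C : MM ι) * (((V' : MM ι) - V) * U' + (V : MM ι) * ((U' : MM ι) - U))‖ :=
        (norm_sub_le _ _).trans (add_le_add_left (norm_add_le _ _) _)
    _ < τ * Real.sqrt N + 2 * (ρ * Real.sqrt N) + 2 * (ρ * Real.sqrt N) := by linarith
    _ = (τ + 4 * ρ) * Real.sqrt N := by ring

lemma RC_conj {N r : ℕ} {τ : ℝ} {U V : UG ι} (h : RC N r τ U V) (g : UG ι) :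
    RC N r τ (g⁻¹ * U * g) (g⁻¹ * V * g) := by
  obtain ⟨C, hC, h1⟩ := h
  refine ⟨g⁻¹ * C * g, ?_, ?_⟩
  · have e1 : ((g⁻¹ * C * g : UG ι) : MM ι) - 1 = ((g⁻¹ : UG ι) : MM ι) * ((C : MM ι) - 1) * g := by
      rw [ug_mul, ug_mul, mul_sub, sub_mul, mul_one, ← ug_mul g⁻¹ g, inv_mul_cancel, ug_one]
    show (((g⁻¹ * C * g : UG ι) : MM ι) - 1).rank ≤ r
    rw [e1]
    exact ((rank_mul_le_left _ _).trans (rank_mul_le_right _ _)).trans hC
  · have e1 : ((g⁻¹ * U * g : UG ι) : MM ι) * ((g⁻¹ * V * g : UG ι) : MM ι) -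
        ((g⁻¹ * C * g : UG ι) : MM ι) * ((g⁻¹ * V * g : UG ι) : MM ι) *
          ((g⁻¹ * U * g : UG ι) : MM ι) =
        ((g⁻¹ : UG ι) : MM ι) * ((U : MM ι) * V - C * V * U) * g := by
      rw [mul_sub, sub_mul]
      simp only [← ug_mul]
      congr 2 <;> group
    rw [e1, fr_mul_right, fr_mul_left]
    exact h1

/-- tuples close to block diagonal ones, up to small rank -/
def Sg (h : m + n = N) (d r r' : ℕ) [NeZero d] (σ τ : ℝ) : Set (Fin d → UG (Fin N)) :=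
  {W | ∃ k ∈ KK m n d N r' τ, ∃ C : Fin d → UG (Fin N), (∀ i, C i ∈ Rk (Fin N) r) ∧
    ∀ i, ‖(W i : MM (Fin N)) - ((ph h (k i) * C i : UG (Fin N)) : MM (Fin N))‖ < σ * Real.sqrt N}

lemma Sg_open (h : m + n = N) (d r r' : ℕ) [NeZero d] (σ τ : ℝ) : IsOpen (Sg h d r r' σ τ) := by
  have h1 : Sg h d r r' σ τ = ⋃ k ∈ KK m n d N r' τ, ⋃ C ∈ {C : Fin d → UG (Fin N) |
      ∀ i, C i ∈ Rk (Fin N) r}, ⋂ i, {W | ‖(W i : MM (Fin N)) -
        ((ph h (k i) * C i : UG (Fin N)) : MM (Fin N))‖ < σ * Real.sqrt N} := by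
    ext W
    simp only [Sg, Set.mem_ofPred_eq, Set.mem_iUnion, Set.mem_iInter, exists_prop]
  rw [h1]
  refine isOpen_biUnion fun k _ => isOpen_biUnion fun C _ => isOpen_iInter_of_finite fun i =>
    isOpen_lt ?_ continuous_const
  exact ((continuous_subtype_val.comp (continuous_apply i)).sub continuous_const).norm

lemma rix_Rk {e : ι ≃ κ} {r : ℕ} {C : UG ι} (hC : C ∈ Rk ι r) : rix e C ∈ Rk κ r := by
  show (((rix e C : UG κ) : MM κ) - 1).rank ≤ r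
  have e1 : ((rix e C : UG κ) : MM κ) - 1 = ((C : MM ι) - 1).submatrix e.symm e.symm := by
    rw [rix_val]
    have e2 : (1 : MM κ) = (1 : MM ι).submatrix e.symm e.symm := (submatrix_one_equiv _).symm
    rw [e2]
    rfl
  rw [e1, Matrix.rank_submatrix]
  exact hC

/-- the structure of almost commuting tuples -/
lemma contain {d : ℕ} [NeZero d] {ε δ τ : ℝ} (hε : 0 ≤ ε) (hδ : 0 < δ) (hδ1 : δ ≤ 1) (hτ : 0 < τ)
    (hN : 1 ≤ N) (h : m + n = N) (g : UG (Fin N)) (V : Fin d → UG (Fin N))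
    (hV : ∀ i j, ‖(V i : MM (Fin N)) * V j - V j * V i‖ < τ * Real.sqrt N)
    (hS : ∀ i, ∃ (S₁ R₁ : Matrix (Fin m) (Fin n) ℂ) (S₂ R₂ : Matrix (Fin n) (Fin m) ℂ),
          (cj h g (V i) : MM (Fin m ⊕ Fin n)).toBlocks₁₂ = S₁ + R₁ ∧
          (cj h g (V i) : MM (Fin m ⊕ Fin n)).toBlocks₂₁ = S₂ + R₂ ∧
          δ * ‖S₁‖ ≤ τ * Real.sqrt N ∧ δ * ‖S₂‖ ≤ τ * Real.sqrt N ∧
          (R₁.rank : ℝ) ≤ ε * N ∧ (R₂.rank : ℝ) ≤ ε * N) :
    (fun i => g⁻¹ * V i * g) ∈ Sg h d ⌊20 * ε * N⌋₊ ⌊80 * ε * N⌋₊ (600 * τ / δ) (600 * τ / δ) := by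
  have hNr : (0 : ℝ) < Real.sqrt N := Real.sqrt_pos.2 (by exact_mod_cast hN)
  obtain ⟨q, hq⟩ : ∃ q : ℝ, q = τ * Real.sqrt N / δ := ⟨_, rfl⟩
  have hq0 : 0 < q := by rw [hq]; positivity
  have hqτ : τ * Real.sqrt N ≤ q := by
    rw [hq, le_div_iff₀ hδ]
    have : 0 < τ * Real.sqrt N := by positivity
    nlinarith
  have h600 : 600 * τ / δ * Real.sqrt N = 600 * q := by rw [hq]; ring
  -- the blocks
  have h1 : ∀ i, ∃ (k : UG (Fin m) × UG (Fin n)) (S R : MM (Fin m ⊕ Fin n)),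
      (cj h g (V i) : MM (Fin m ⊕ Fin n)) - (blk k : UG (Fin m ⊕ Fin n)) = S + R ∧ ‖S‖ ≤ 21 * q ∧
        (R.rank : ℝ) ≤ 20 * ε * N := by
    intro i
    obtain ⟨S₁, R₁, S₂, R₂, a1, a2, a3, a4, a5, a6⟩ := hS i
    obtain ⟨k, S, R, b1, b2, b3⟩ := near_block a1 a2 hq0
    have c1 : ‖S₁‖ ≤ q := by rw [hq, le_div_iff₀ hδ, mul_comm]; exact a3
    have c2 : ‖S₂‖ ≤ q := by rw [hq, le_div_iff₀ hδ, mul_comm]; exact a4
    refine ⟨k, S, R, b1, by linarith, ?_⟩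
    have c3 : (R.rank : ℝ) ≤ 10 * (R₁.rank + R₂.rank) := by exact_mod_cast b3
    linarith
  choose k S R hk hSn hR using h1
  -- the correction of small rank
  have h2 : ∀ i, ∃ C : UG (Fin m ⊕ Fin n), C ∈ Rk (Fin m ⊕ Fin n) ⌊20 * ε * N⌋₊ ∧
      ‖(cj h g (V i) : MM (Fin m ⊕ Fin n)) - ((blk (k i) * C : UG (Fin m ⊕ Fin n)) :
        MM (Fin m ⊕ Fin n))‖ ≤ 127 * q := by
    intro i
    have e1 : (((blk (k i))⁻¹ * cj h g (V i) : UG (Fin m ⊕ Fin n)) : MM (Fin m ⊕ Fin n)) - 1 =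
        (((blk (k i))⁻¹ : UG (Fin m ⊕ Fin n)) : MM (Fin m ⊕ Fin n)) * S i +
          (((blk (k i))⁻¹ : UG (Fin m ⊕ Fin n)) : MM (Fin m ⊕ Fin n)) * R i := by
      rw [← mul_add, ← hk i, mul_sub, ← ug_mul, ← ug_mul, inv_mul_cancel, ug_one]
    obtain ⟨C, hC, hC2⟩ := near_rank e1 hq0
    refine ⟨C, Rk_mono ?_ hC, ?_⟩
    · refine (rank_mul_le_right _ _).trans (Nat.le_floor (hR i))
    · rw [fr_mul_left] at hC2
      have e2 : (cj h g (V i) : MM (Fin m ⊕ Fin n)) - ((blk (k i) * C : UG (Fin m ⊕ Fin n)) :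
          MM (Fin m ⊕ Fin n)) = ((blk (k i) : UG (Fin m ⊕ Fin n)) : MM (Fin m ⊕ Fin n)) *
          ((((blk (k i))⁻¹ * cj h g (V i) : UG (Fin m ⊕ Fin n)) : MM (Fin m ⊕ Fin n)) - C) := by
        rw [mul_sub, ← ug_mul, ← ug_mul, mul_inv_cancel_left]
      rw [e2, fr_mul_left]
      have := hSn i
      linarith
  choose C hC hC2 using h2
  refine ⟨k, ?_, fun i => rix (eN h) (C i), fun i => rix_Rk (hC i), ?_⟩
  · intro i
    have e1 : ‖(cj h g (V i) : MM (Fin m ⊕ Fin n)) * cj h g (V (i + 1)) -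
        cj h g (V (i + 1)) * cj h g (V i)‖ = ‖(V i : MM (Fin N)) * V (i + 1) - V (i + 1) * V i‖ := by
      rw [cj_val, cj_val, submatrix_mul_equiv, submatrix_mul_equiv]
      have e2 : ∀ A B : MM (Fin N), A.submatrix (eN h) (eN h) - B.submatrix (eN h) (eN h) =
        (A - B).submatrix (eN h) (eN h) := fun A B => rfl
      rw [e2, fr_subm]
      have e3 : ((g⁻¹ * V i * g : UG (Fin N)) : MM (Fin N)) * ((g⁻¹ * V (i + 1) * g : UG (Fin N)) :
          MM (Fin N)) - ((g⁻¹ * V (i + 1) * g : UG (Fin N)) : MM (Fin N)) *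
          ((g⁻¹ * V i * g : UG (Fin N)) : MM (Fin N)) = ((g⁻¹ : UG (Fin N)) : MM (Fin N)) *
            ((V i : MM (Fin N)) * V (i + 1) - V (i + 1) * V i) * (g : MM (Fin N)) := by
        rw [mul_sub, sub_mul]
        simp only [← ug_mul]
        congr 2 <;> group
      rw [e3, fr_mul_right, fr_mul_left]
    have e4 := hV i (i + 1)
    have e5 := hSn i
    have e6 := hSn (i + 1)
    obtain ⟨r1, r2⟩ := block_comm (hk i) (hk (i + 1)) (N := N) (τ := 600 * τ / δ) (by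
      rw [h600, e1]; linarith)
    have e7 : 2 * ((R i).rank + (R (i + 1)).rank) ≤ ⌊80 * ε * N⌋₊ := by
      refine Nat.le_floor ?_
      have := hR i
      have := hR (i + 1)
      push_cast
      linarith
    exact ⟨RC_mono e7 le_rfl r1, RC_mono e7 le_rfl r2⟩
  · intro i
    have e1 : ((g⁻¹ * V i * g : UG (Fin N)) : MM (Fin N)) -
        ((ph h (k i) * rix (eN h) (C i) : UG (Fin N)) : MM (Fin N)) =
        ((cj h g (V i) : MM (Fin m ⊕ Fin n)) - ((blk (k i) * C i : UG (Fin m ⊕ Fin n)) :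
          MM (Fin m ⊕ Fin n))).submatrix (eN h).symm (eN h).symm := by
      rw [back_sub h]
      have : ph h (k i) * rix (eN h) (C i) = rix (eN h) (blk (k i) * C i) := by
        rw [rix_mul]; rfl
      rw [this]
      rfl
    rw [e1, fr_subm, h600]
    have := hC2 i
    linarith

/-- invariance under conjugations -/
lemma Sg_conj {d r r' : ℕ} [NeZero d] {h : m + n = N} {σ τ : ℝ} {W : Fin d → UG (Fin N)}
    (hW : W ∈ Sg h d r r' σ τ) {y : UG (Fin N)} (hy : D0 y < σ * Real.sqrt N)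
    (k₀ : UG (Fin m) × UG (Fin n)) :
    (fun i => (y * ph h k₀)⁻¹ * W i * (y * ph h k₀)) ∈ Sg h d r r' (3 * σ) τ := by
  obtain ⟨k, hk, C, hC, h1⟩ := hW
  refine ⟨fun i => k₀⁻¹ * k i * k₀, ?_, fun i => (ph h k₀)⁻¹ * C i * ph h k₀, fun i => ?_,
    fun i => ?_⟩
  · intro i
    exact ⟨RC_conj (hk i).1 k₀.1, RC_conj (hk i).2 k₀.2⟩
  · obtain ⟨a, ha⟩ : ∃ a, a = ph h k₀ := ⟨_, rfl⟩
    rw [← ha]
    show (((a⁻¹ * C i * a : UG (Fin N)) : MM (Fin N)) - 1).rank ≤ r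
    have e1 : ((a⁻¹ * C i * a : UG (Fin N)) : MM (Fin N)) - 1 =
        ((a⁻¹ : UG (Fin N)) : MM (Fin N)) * ((C i : MM (Fin N)) - 1) * a := by
      rw [ug_mul, ug_mul, mul_sub, sub_mul, mul_one, ← ug_mul a⁻¹ a, inv_mul_cancel, ug_one]
    rw [e1]
    exact ((rank_mul_le_left _ _).trans (rank_mul_le_right _ _)).trans (hC i)
  · obtain ⟨a, ha⟩ : ∃ a, a = ph h k₀ := ⟨_, rfl⟩
    have e1 : ph h (k₀⁻¹ * k i * k₀) * ((ph h k₀)⁻¹ * C i * ph h k₀) =
        a⁻¹ * (ph h (k i) * C i) * a := by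
      rw [map_mul, map_mul, map_inv, ha]
      group
    show ‖(((y * ph h k₀)⁻¹ * W i * (y * ph h k₀) : UG (Fin N)) : MM (Fin N)) -
      ((ph h (k₀⁻¹ * k i * k₀) * ((ph h k₀)⁻¹ * C i * ph h k₀) : UG (Fin N)) : MM (Fin N))‖ <
        3 * σ * Real.sqrt N
    rw [e1, ← ha]
    have e2 : (((y * a)⁻¹ * W i * (y * a) : UG (Fin N)) : MM (Fin N)) -
        ((a⁻¹ * (ph h (k i) * C i) * a : UG (Fin N)) : MM (Fin N)) =
        ((a⁻¹ : UG (Fin N)) : MM (Fin N)) * (((y⁻¹ * W i * y : UG (Fin N)) : MM (Fin N)) -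
          ((ph h (k i) * C i : UG (Fin N)) : MM (Fin N))) * (a : MM (Fin N)) := by
      rw [mul_sub, sub_mul]
      simp only [← ug_mul]
      congr 2
      group
    rw [e2, fr_mul_right, fr_mul_left]
    have e3 : ((y⁻¹ * W i * y : UG (Fin N)) : MM (Fin N)) - (W i : MM (Fin N)) =
        ((y⁻¹ : UG (Fin N)) : MM (Fin N)) * ((1 - (y : MM (Fin N))) * (W i : MM (Fin N)) -
          (W i : MM (Fin N)) * (1 - (y : MM (Fin N)))) := by
      have e4 : (1 - (y : MM (Fin N))) * (W i : MM (Fin N)) -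
          (W i : MM (Fin N)) * (1 - (y : MM (Fin N))) = (W i : MM (Fin N)) * y - y * W i := by
        noncomm_ring
      rw [e4, mul_sub]
      simp only [← ug_mul]
      congr 2 <;> group
    have e5 : ‖((y⁻¹ * W i * y : UG (Fin N)) : MM (Fin N)) - (W i : MM (Fin N))‖ ≤ 2 * D0 y := by
      rw [e3, fr_mul_left]
      refine (norm_sub_le _ _).trans ?_
      rw [fr_mul_right, fr_mul_left]
      unfold D0
      linarith
    calc _ ≤ ‖((y⁻¹ * W i * y : UG (Fin N)) : MM (Fin N)) - (W i : MM (Fin N))‖ +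
        ‖(W i : MM (Fin N)) - ((ph h (k i) * C i : UG (Fin N)) : MM (Fin N))‖ := by
          have e6 : ((y⁻¹ * W i * y : UG (Fin N)) : MM (Fin N)) -
            ((ph h (k i) * C i : UG (Fin N)) : MM (Fin N)) =
            (((y⁻¹ * W i * y : UG (Fin N)) : MM (Fin N)) - (W i : MM (Fin N))) +
            ((W i : MM (Fin N)) - ((ph h (k i) * C i : UG (Fin N)) : MM (Fin N))) := by abel
          rw [e6]
          exact norm_add_le _ _
      _ < 2 * (σ * Real.sqrt N) + σ * Real.sqrt N := by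
          have := h1 i
          linarith
      _ = 3 * σ * Real.sqrt N := by ring

end

end Pool.Agent.T2H01.EK2
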