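import Mathlib
import Pool.Agent.T2H01.EK2.Base
import Pool.Agent.T2H01.EK.BallA

/-!
# Nets of the unitary matrices of small rank from one
-/

open MeasureTheory Matrix
open scoped Matrix.Norms.Frobenius Topology ENNReal

namespace Pool.Agent.T2H01.EK2

set_option linter.unusedSectionVars false
set_option linter.unusedVariables false

noncomputable section

variable {ι κ : Type} [Fintype ι] [DecidableEq ι] [Fintype κ] [DecidableEq κ]

/-- the sum over `Fin r` of a family extended by zero -/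
lemma sum_fin_ext {M : Type*} [AddCommMonoid M] {d r : ℕ} (h : d ≤ r) (g : Fin d → M) :
    ∑ k : Fin r, (if hk : (k : ℕ) < d then g ⟨k, hk⟩ else 0) = ∑ k : Fin d, g k := by
  have e1 := Fin.sum_univ_eq_sum_range (fun k : ℕ => if hk : k < d then g ⟨k, hk⟩ else 0) r
  have e2 := Fin.sum_univ_eq_sum_range (fun k : ℕ => if hk : k < d then g ⟨k, hk⟩ else 0) d
  rw [e1]
  have e3 : ∑ k ∈ Finset.range r, (if hk : k < d then g ⟨k, hk⟩ else 0) =
      ∑ k ∈ Finset.range d, (if hk : k < d then g ⟨k, hk⟩ else 0) := by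
    symm
    refine Finset.sum_subset (Finset.range_subset_range.2 h) fun k _ hk => ?_
    rw [Finset.mem_range] at hk
    rw [dif_neg hk]
  rw [e3, ← e2]
  refine Finset.sum_congr rfl fun k _ => ?_
  rw [dif_pos k.2]

/-- a matrix of rank at most `r` is reproduced by a partial isometry with `r` columns -/
lemma exists_iso (A : MM ι) {r : ℕ} (hr : A.rank ≤ r) :
    ∃ X : Matrix ι (Fin r) ℂ, X * Xᴴ * X = X ∧ X * Xᴴ * A = A := by
  set e : (ι → ℂ) ≃ₗ[ℂ] EuclideanSpace ℂ ι := (WithLp.linearEquiv 2 ℂ (ι → ℂ)).symm with he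
  set V : Submodule ℂ (EuclideanSpace ℂ ι) := (LinearMap.range A.mulVecLin).map e.toLinearMap with hV
  set d := Module.finrank ℂ V with hd
  have hdr : d ≤ r := by
    have h1 : d = A.rank := by
      rw [hd, hV]
      exact LinearEquiv.finrank_map_eq e _
    omega
  let b : OrthonormalBasis (Fin d) ℂ V := stdOrthonormalBasis ℂ V
  let X : Matrix ι (Fin r) ℂ := Matrix.of fun i k =>
    if hk : (k : ℕ) < d then (b ⟨k, hk⟩ : EuclideanSpace ℂ ι) i else 0
  have key : ∀ y : ι → ℂ, e y ∈ V → X *ᵥ (Xᴴ *ᵥ y) = y := by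
    intro y hy
    have h1 : ∀ k : Fin r, (Xᴴ *ᵥ y) k =
        if hk : (k : ℕ) < d then inner ℂ ((b ⟨k, hk⟩ : V) : EuclideanSpace ℂ ι) (e y) else 0 := by
      intro k
      simp only [Matrix.mulVec, dotProduct, conjTranspose_apply, X, Matrix.of_apply]
      split_ifs with hk
      · rw [PiLp.inner_apply]
        refine Finset.sum_congr rfl fun i _ => ?_
        simp only [RCLike.inner_apply]
        rw [mul_comm]
        rfl
      · simp
    funext i
    have h2 : (X *ᵥ (Xᴴ *ᵥ y)) i = ∑ k : Fin r, (if hk : (k : ℕ) < d then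
        (b ⟨k, hk⟩ : EuclideanSpace ℂ ι) i *
          inner ℂ ((b ⟨k, hk⟩ : V) : EuclideanSpace ℂ ι) (e y) else 0) := by
      rw [Matrix.mulVec, dotProduct]
      refine Finset.sum_congr rfl fun k _ => ?_
      rw [h1 k]
      simp only [X, Matrix.of_apply]
      split_ifs <;> simp
    rw [h2, sum_fin_ext hdr (fun k : Fin d => (b k : EuclideanSpace ℂ ι) i *
      inner ℂ ((b k : V) : EuclideanSpace ℂ ι) (e y))]
    have h3 := b.sum_repr' (⟨e y, hy⟩ : V)
    have h4 := congrArg (fun z : V => (z : EuclideanSpace ℂ ι) i) h3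
    simp only [Submodule.coe_sum, Submodule.coe_smul, Submodule.coe_inner] at h4
    have h5 : ((e y : EuclideanSpace ℂ ι)) i = y i := rfl
    rw [h5] at h4
    rw [← h4]
    simp only [WithLp.ofLp_sum, WithLp.ofLp_smul, Finset.sum_apply, Pi.smul_apply, smul_eq_mul]
    refine Finset.sum_congr rfl fun k _ => ?_
    ring
  have hcol : ∀ (m : Type) (B : Matrix ι m ℂ), (∀ j, e (fun i => B i j) ∈ V) →
      X * Xᴴ * B = B := by
    intro m B hB
    ext i j
    have h1 := congrFun (key (fun i => B i j) (hB j)) i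
    rw [Matrix.mulVec_mulVec] at h1
    rw [Matrix.mul_apply]
    exact h1
  refine ⟨X, hcol _ X fun k => ?_, hcol _ A fun j => ?_⟩
  · by_cases hk : (k : ℕ) < d
    · have h1 : e (fun i => X i k) = ((b ⟨k, hk⟩ : V) : EuclideanSpace ℂ ι) := by
        ext i
        simp only [X, Matrix.of_apply, dif_pos hk]
        rfl
      rw [h1]
      exact (b ⟨k, hk⟩).2
    · have h1 : e (fun i => X i k) = 0 := by
        ext i
        simp only [X, Matrix.of_apply, dif_neg hk]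
        rfl
      rw [h1]
      exact zero_mem _
  · rw [hV]
    refine Submodule.mem_map_of_mem ⟨Pi.single j 1, ?_⟩
    rw [Matrix.mulVecLin_apply, Matrix.mulVec_single_one]
    rfl

lemma pi_le {α β m : Type} [Fintype α] [DecidableEq α] [Fintype β] [DecidableEq β] [Fintype m]
    [DecidableEq m] {X : Matrix α β ℂ} (h : X * Xᴴ * X = X) (Z : Matrix β m ℂ) : ‖X * Z‖ ≤ ‖Z‖ := by
  have h1 : ‖(1 - Xᴴ * X) * Z‖ ^ 2 = ‖Z‖ ^ 2 - ‖X * Z‖ ^ 2 := by
    have e1 : ((1 - Xᴴ * X) * Z)ᴴ * ((1 - Xᴴ * X) * Z) = Zᴴ * Z - (X * Z)ᴴ * (X * Z) := by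
      have e2 : (1 - Xᴴ * X)ᴴ * (1 - Xᴴ * X) = 1 - Xᴴ * X := by
        rw [conjTranspose_sub, conjTranspose_one, conjTranspose_mul, conjTranspose_conjTranspose,
          Matrix.mul_sub, Matrix.mul_one, Matrix.sub_mul, Matrix.one_mul]
        have e3 : Xᴴ * X * (Xᴴ * X) = Xᴴ * X := by
          rw [Matrix.mul_assoc, ← Matrix.mul_assoc X, h]
        rw [e3]
        abel
      rw [conjTranspose_mul, Matrix.mul_assoc, ← Matrix.mul_assoc _ _ Z, e2, Matrix.sub_mul,
        Matrix.one_mul, Matrix.mul_sub, conjTranspose_mul]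
      simp only [Matrix.mul_assoc]
    rw [fr_sq, fr_sq Z, fr_sq (X * Z), e1, trace_sub, Complex.sub_re]
  have h2 : ‖X * Z‖ ^ 2 ≤ ‖Z‖ ^ 2 := by nlinarith [sq_nonneg ‖(1 - Xᴴ * X) * Z‖]
  exact (sq_le_sq₀ (norm_nonneg _) (norm_nonneg _)).1 h2

lemma fr_one : ‖(1 : MM ι)‖ = Real.sqrt (Fintype.card ι) := by
  have h := fr_unit (1 : UG ι)
  rw [ug_one] at h
  rw [← h, Real.sqrt_sq (norm_nonneg _)]

lemma fr_ug (g : UG ι) : ‖(g : MM ι)‖ = Real.sqrt (Fintype.card ι) := by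
  rw [← fr_unit g, Real.sqrt_sq (norm_nonneg _)]

/-- coordinates of the unitary matrices of small rank from one -/
lemma exists_coord {r : ℕ} (C : UG ι) (hC : C ∈ Rk ι r) :
    ∃ (X : Matrix ι (Fin r) ℂ) (Y : Matrix (Fin r) ι ℂ), (C : MM ι) - 1 = X * Y ∧
      (∀ Z : Matrix (Fin r) ι ℂ, ‖X * Z‖ ≤ ‖Z‖) ∧ (∀ Z : Matrix ι (Fin r) ℂ, ‖Z * Y‖ ≤ 2 * ‖Z‖) ∧
      ‖X‖ ≤ Real.sqrt (Fintype.card ι) ∧ ‖Y‖ ≤ 2 * Real.sqrt (Fintype.card ι) := by
  obtain ⟨X, h1, h2⟩ := exists_iso ((C : MM ι) - 1) hC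
  have h1' : Xᴴ * Xᴴᴴ * Xᴴ = Xᴴ := by
    have := congrArg conjTranspose h1
    rw [conjTranspose_mul, conjTranspose_mul] at this
    rw [Matrix.mul_assoc]
    exact this
  refine ⟨X, Xᴴ * ((C : MM ι) - 1), ?_, fun Z => pi_le h1 Z, fun Z => ?_, ?_, ?_⟩
  · rw [← Matrix.mul_assoc, h2]
  · have h3 : ‖Z * Xᴴ‖ ≤ ‖Z‖ := by
      have h4 := pi_le h1 Zᴴ
      rw [← frobenius_norm_conjTranspose, conjTranspose_mul, conjTranspose_conjTranspose] at h4
      rwa [frobenius_norm_conjTranspose] at h4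
    have h5 : Z * (Xᴴ * ((C : MM ι) - 1)) = Z * Xᴴ * (C : MM ι) - Z * Xᴴ := by
      rw [← Matrix.mul_assoc, Matrix.mul_sub, Matrix.mul_one]
    rw [h5]
    refine (norm_sub_le _ _).trans ?_
    rw [fr_mul_right]
    linarith
  · have h3 := pi_le h1' (1 : MM ι)
    rw [Matrix.mul_one, frobenius_norm_conjTranspose, fr_one] at h3
    exact h3
  · refine (pi_le h1' _).trans ((norm_sub_le _ _).trans ?_)
    rw [fr_ug, fr_one]
    linarith

theorem net_rank : ∃ K : ℝ, 1 ≤ K ∧ ∀ (ι : Type) [Fintype ι] [DecidableEq ι] (N r : ℕ) (σ : ℝ),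
    Fintype.card ι ≤ N → 1 ≤ N → 0 < σ → σ ≤ 1 →
    ∃ F : Finset (UG ι), (F.card : ℝ) ≤ (K / σ) ^ (4 * r * N) ∧
      ∀ C ∈ Rk ι r, ∃ C' ∈ F, ‖(C : MM ι) - (C' : MM ι)‖ < σ * Real.sqrt N := by
  classical
  refine ⟨18, by norm_num, ?_⟩
  intro ι _ _ N r σ hN hN1 hσ hσ1
  have hNpos : (0 : ℝ) < N := by exact_mod_cast hN1
  set q := Real.sqrt (N : ℝ) with hq
  have hq0 : 0 < q := Real.sqrt_pos.2 hNpos
  have hcN : Real.sqrt (Fintype.card ι) ≤ q := Real.sqrt_le_sqrt (by exact_mod_cast hN)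
  choose! X Y hXY hX hY hXn hYn using fun (C : UG ι) (hC : C ∈ Rk ι r) => exists_coord C hC
  have hdist : ∀ C ∈ Rk ι r, ∀ C' ∈ Rk ι r, ‖(C : MM ι) - (C' : MM ι)‖ ≤
      3 * ‖((X C, Y C) : Matrix ι (Fin r) ℂ × Matrix (Fin r) ι ℂ) - (X C', Y C')‖ := by
    intro C hC C' hC'
    have e1 : (C : MM ι) - (C' : MM ι) = (X C - X C') * Y C + X C' * (Y C - Y C') := by
      have : (C : MM ι) - (C' : MM ι) = ((C : MM ι) - 1) - ((C' : MM ι) - 1) := by abel
      rw [this, hXY C hC, hXY C' hC', Matrix.sub_mul, Matrix.mul_sub]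
      abel
    rw [e1]
    refine (norm_add_le _ _).trans ?_
    have h1 := hY C hC (X C - X C')
    have h2 := hX C' hC' (Y C - Y C')
    have h3 : ‖X C - X C'‖ ≤ ‖((X C, Y C) : Matrix ι (Fin r) ℂ × Matrix (Fin r) ι ℂ) - (X C', Y C')‖ := by
      rw [Prod.norm_def]
      exact le_max_left _ _
    have h4 : ‖Y C - Y C'‖ ≤ ‖((X C, Y C) : Matrix ι (Fin r) ℂ × Matrix (Fin r) ι ℂ) - (X C', Y C')‖ := by
      rw [Prod.norm_def]
      exact le_max_right _ _
    linarith
  have hbd : ∀ F : Finset (UG ι), (∀ C ∈ F, C ∈ Rk ι r) →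
      (∀ C ∈ F, ∀ C' ∈ F, C ≠ C' → σ * q ≤ ‖(C : MM ι) - (C' : MM ι)‖) →
      (F.card : ℝ) ≤ (18 / σ) ^ (4 * r * N) := by
    intro F hF hs
    let ψ : UG ι → Matrix ι (Fin r) ℂ × Matrix (Fin r) ι ℂ := fun C => (2 * q)⁻¹ • (X C, Y C)
    have hψ : ∀ C ∈ F, ∀ C' ∈ F, C ≠ C' → σ / 6 ≤ ‖ψ C - ψ C'‖ := by
      intro C hC C' hC' hne
      have h1 := hs C hC C' hC' hne
      have h2 := hdist C (hF C hC) C' (hF C' hC')
      have h3 : ψ C - ψ C' = (2 * q)⁻¹ • (((X C, Y C) : Matrix ι (Fin r) ℂ × Matrix (Fin r) ι ℂ) -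
          (X C', Y C')) := by
        rw [smul_sub]
      rw [h3, norm_smul, Real.norm_of_nonneg (by positivity)]
      have h4 : σ * q / 3 ≤ ‖((X C, Y C) : Matrix ι (Fin r) ℂ × Matrix (Fin r) ι ℂ) - (X C', Y C')‖ := by
        linarith
      calc σ / 6 = (2 * q)⁻¹ * (σ * q / 3) := by field_simp; norm_num
        _ ≤ _ := mul_le_mul_of_nonneg_left h4 (by positivity)
    have hinj : Set.InjOn ψ F := by
      intro C hC C' hC' he
      by_contra hne
      have h1 := hψ C hC C' hC' hne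
      rw [he, sub_self, norm_zero] at h1
      linarith
    have h0 := EK.card_sep (E := Matrix ι (Fin r) ℂ × Matrix (Fin r) ι ℂ) (ε := σ / 6)
      (by positivity) (by linarith) (F.image ψ) ?_ ?_
    · rw [Finset.card_image_of_injOn hinj] at h0
      refine h0.trans ?_
      have e1 : (3 : ℝ) / (σ / 6) = 18 / σ := by field_simp; norm_num
      rw [e1]
      have e2 : Module.finrank ℝ (Matrix ι (Fin r) ℂ × Matrix (Fin r) ι ℂ) =
          4 * r * Fintype.card ι := by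
        rw [Module.finrank_prod, Module.finrank_matrix, Module.finrank_matrix,
          Complex.finrank_real_complex, Fintype.card_fin]
        ring
      rw [e2]
      refine pow_le_pow_right₀ ?_ (Nat.mul_le_mul_left _ hN)
      rw [le_div_iff₀ hσ]
      linarith
    · intro c hc
      obtain ⟨C, hC, rfl⟩ := Finset.mem_image.1 hc
      have h1 := hXn C (hF C hC)
      have h2 := hYn C (hF C hC)
      change ‖(2 * q)⁻¹ • ((X C, Y C) : Matrix ι (Fin r) ℂ × Matrix (Fin r) ι ℂ)‖ ≤ 1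
      rw [norm_smul, Real.norm_of_nonneg (by positivity), Prod.norm_def]
      have h3 : max ‖X C‖ ‖Y C‖ ≤ 2 * q := max_le (by linarith) (by linarith)
      calc (2 * q)⁻¹ * max ‖X C‖ ‖Y C‖ ≤ (2 * q)⁻¹ * (2 * q) :=
            mul_le_mul_of_nonneg_left h3 (by positivity)
        _ = 1 := inv_mul_cancel₀ (by positivity)
    · intro c hc c' hc' hne
      obtain ⟨C, hC, rfl⟩ := Finset.mem_image.1 hc
      obtain ⟨C', hC', rfl⟩ := Finset.mem_image.1 hc'
      exact hψ C hC C' hC' fun h => hne (by rw [h])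
  -- a maximal separated set
  let S : Set ℕ := {k | ∃ F : Finset (UG ι), (∀ C ∈ F, C ∈ Rk ι r) ∧
      (∀ C ∈ F, ∀ C' ∈ F, C ≠ C' → σ * q ≤ ‖(C : MM ι) - (C' : MM ι)‖) ∧ F.card = k}
  have hS0 : S.Nonempty := ⟨0, ∅, by simp, by simp, by simp⟩
  have hSb : BddAbove S := by
    refine ⟨⌊(18 / σ) ^ (4 * r * N)⌋₊, ?_⟩
    rintro k ⟨F, hF, hs, rfl⟩
    exact Nat.le_floor (hbd F hF hs)
  obtain ⟨F, hF, hs, hcard⟩ := Nat.sSup_mem hS0 hSb
  refine ⟨F, hbd F hF hs, fun C hC => ?_⟩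
  by_contra hcon
  push Not at hcon
  have hCF : C ∉ F := by
    intro h
    have h1 := hcon C h
    rw [sub_self, norm_zero] at h1
    have : 0 < σ * q := by positivity
    linarith
  have h1 : (insert C F).card ∈ S := by
    refine ⟨insert C F, ?_, ?_, rfl⟩
    · intro D hD
      rcases Finset.mem_insert.1 hD with rfl | hD
      · exact hC
      · exact hF D hD
    · intro D hD D' hD' hne
      rcases Finset.mem_insert.1 hD with h3 | h3
      · rcases Finset.mem_insert.1 hD' with h4 | h4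
        · exact absurd (h3.trans h4.symm) hne
        · rw [h3]
          exact hcon D' h4
      · rcases Finset.mem_insert.1 hD' with h4 | h4
        · rw [h4, norm_sub_rev]
          exact hcon D h3
        · exact hs D h3 D' h4 hne
  have h2 := le_csSup hSb h1
  rw [Finset.card_insert_of_notMem hCF, hcard] at h2
  omega

end

end Pool.Agent.T2H01.EK2
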