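import Mathlib
import Pool.Agent.T2H01.EK2.Two
import Pool.Agent.T2H01.EK2.Rnk

/-!
# Robustly commuting pairs
-/

open MeasureTheory Matrix
open scoped Matrix.Norms.Frobenius Topology ENNReal

namespace Pool.Agent.T2H01.EK2

set_option linter.unusedSectionVars false
set_option linter.unusedVariables false

noncomputable section

variable {ι κ : Type} [Fintype ι] [DecidableEq ι] [Fintype κ] [DecidableEq κ]

lemma robX (D : UG ι) (s : ℝ) :
    MeasurableSet {p : UG ι × UG ι | ‖(p.1 : MM ι) * p.2 - D * p.2 * p.1‖ < s} := by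
  have h1 : Continuous fun p : UG ι × UG ι => (p.1 : MM ι) :=
    continuous_subtype_val.comp continuous_fst
  have h2 : Continuous fun p : UG ι × UG ι => (p.2 : MM ι) :=
    continuous_subtype_val.comp continuous_snd
  have h3 : Continuous fun p : UG ι × UG ι => ‖(p.1 : MM ι) * p.2 - D * p.2 * p.1‖ :=
    ((h1.mul h2).sub ((continuous_const.mul h2).mul h1)).norm
  exact (isOpen_lt h3 continuous_const).measurableSet

lemma robY (s : ℝ) :
    MeasurableSet {p : UG ι × UG ι | ‖(p.1 : MM ι) * p.2 - p.2 * p.1‖ < s} := by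
  have h := robX (1 : UG ι) s
  simpa only [ug_one, Matrix.one_mul] using h

lemma rob_sub {D U V₀ V : UG ι} {s : ℝ} (h₀ : ‖(U : MM ι) * V₀ - D * V₀ * U‖ < 2 * s)
    (h : ‖(U : MM ι) * V - D * V * U‖ < 2 * s) :
    ‖(U : MM ι) * ((V₀⁻¹ * V : UG ι) : MM ι) - ((V₀⁻¹ * V : UG ι) : MM ι) * U‖ < 4 * s := by
  -- `‖V⁻¹ D⁻¹ U V - U‖` is the norm of `U V - D V U`
  have key : ∀ W : UG ι, ‖((W⁻¹ * (D⁻¹ * U) * W : UG ι) : MM ι) - U‖ = ‖(U : MM ι) * W - D * W * U‖ := by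
    intro W
    have e1 : (U : MM ι) * W - D * W * U = ((D * W : UG ι) : MM ι) *
        (((W⁻¹ * (D⁻¹ * U) * W : UG ι) : MM ι) - U) := by
      have e0 : (D * W : UG ι) * (W⁻¹ * (D⁻¹ * U) * W) = U * W := by group
      rw [Matrix.mul_sub, ← ug_mul (D * W), e0, ug_mul, ug_mul]
    rw [e1, fr_mul_left]
  rw [← key] at h₀ h
  set B : UG ι := V₀⁻¹ * (D⁻¹ * U) * V₀ with hB
  set Y : UG ι := V₀⁻¹ * V with hY
  have e2 : V⁻¹ * (D⁻¹ * U) * V = Y⁻¹ * B * Y := by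
    rw [hB, hY]
    group
  rw [e2] at h
  have e3 : (U : MM ι) * (Y : MM ι) - (Y : MM ι) * U = (Y : MM ι) * (((Y⁻¹ * B * Y : UG ι) : MM ι) - U) -
      ((B : MM ι) - U) * (Y : MM ι) := by
    have e4 : (Y : MM ι) * ((Y⁻¹ * B * Y : UG ι) : MM ι) = (B : MM ι) * (Y : MM ι) := by
      rw [← ug_mul, ← ug_mul]
      congr 1
      group
    rw [Matrix.mul_sub, Matrix.sub_mul, e4]
    abel
  rw [e3]
  refine (norm_sub_le _ _).trans_lt ?_
  rw [fr_mul_left, fr_mul_right]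
  linarith

lemma rob_one (D : UG ι) (s : ℝ) :
    ((hm ι).prod (hm ι)).real {p | ‖(p.1 : MM ι) * p.2 - D * p.2 * p.1‖ < 2 * s} ≤
      ((hm ι).prod (hm ι)).real {p | ‖(p.1 : MM ι) * p.2 - p.2 * p.1‖ < 4 * s} := by
  rw [measureReal_def, measureReal_def]
  refine ENNReal.toReal_mono (measure_ne_top _ _) ?_
  rw [Measure.prod_apply (robX D _), Measure.prod_apply (robY _)]
  refine lintegral_mono fun U => ?_
  by_cases hne : ∃ V₀ : UG ι, ‖(U : MM ι) * V₀ - D * V₀ * U‖ < 2 * s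
  · obtain ⟨V₀, h₀⟩ := hne
    have h1 : (Prod.mk U ⁻¹' {p : UG ι × UG ι | ‖(p.1 : MM ι) * p.2 - D * p.2 * p.1‖ < 2 * s}) ⊆
        (fun V => V₀⁻¹ * V) ⁻¹'
          (Prod.mk U ⁻¹' {p : UG ι × UG ι | ‖(p.1 : MM ι) * p.2 - p.2 * p.1‖ < 4 * s}) := by
      intro V hV
      exact rob_sub h₀ hV
    refine (measure_mono h1).trans (le_of_eq ?_)
    exact measure_preimage_mul (hm ι) V₀⁻¹ _
  · have h1 : (Prod.mk U ⁻¹' {p : UG ι × UG ι | ‖(p.1 : MM ι) * p.2 - D * p.2 * p.1‖ < 2 * s}) = ∅ := by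
      ext V
      simp only [Set.mem_preimage, Set.mem_empty_iff_false, iff_false]
      intro hV
      exact hne ⟨V, hV⟩
    rw [h1, measure_empty]
    exact bot_le

theorem robust_two : ∃ K : ℝ, 1 ≤ K ∧ ∀ (ι : Type) [Fintype ι] [DecidableEq ι] (N r : ℕ) (τ : ℝ),
    Fintype.card ι ≤ N → 1 ≤ N → 0 < τ → τ ≤ 1 →
    ((hm ι).prod (hm ι)).real {p | RC N r τ p.1 p.2} ≤
      K ^ (N ^ 2) * (K / τ) ^ (4 * r * N + N + 1) * τ ^ (Fintype.card ι ^ 2) := by
  obtain ⟨C, hC1, hC⟩ := two_body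
  obtain ⟨K, hK1, hK⟩ := net_rank
  have hKK : K ≤ 4 * C * K := by nlinarith
  have h4K : 4 * C ≤ 4 * C * K := by nlinarith
  have hKK1 : 1 ≤ 4 * C * K := by linarith
  refine ⟨4 * C * K, hKK1, ?_⟩
  intro ι _ _ N r τ hN hN1 hτ hτ1
  have hnN : Fintype.card ι ^ 2 ≤ N ^ 2 := Nat.pow_le_pow_left hN 2
  set n := Fintype.card ι with hn
  by_cases hτ4 : 1 / 4 < τ
  · -- the trivial case
    have h1 : ((hm ι).prod (hm ι)).real {p | RC N r τ p.1 p.2} ≤ 1 := measureReal_le_one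
    refine h1.trans ?_
    have h2 : (1 : ℝ) ≤ (4 * C * K / τ) ^ (4 * r * N + N + 1) := by
      apply one_le_pow₀
      rw [le_div_iff₀ hτ]
      linarith
    have h3 : (1 : ℝ) ≤ (4 * C * K) ^ (N ^ 2) * τ ^ (n ^ 2) := by
      have h4 : (1 / 4 : ℝ) ^ (N ^ 2) ≤ τ ^ (n ^ 2) := by
        calc (1 / 4 : ℝ) ^ (N ^ 2) ≤ (1 / 4 : ℝ) ^ (n ^ 2) :=
              pow_le_pow_of_le_one (by norm_num) (by norm_num) hnN
          _ ≤ _ := pow_le_pow_left₀ (by norm_num) hτ4.le _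
      calc (1 : ℝ) = 4 ^ (N ^ 2) * (1 / 4) ^ (N ^ 2) := by
            rw [← mul_pow]; norm_num
        _ ≤ (4 * C * K) ^ (N ^ 2) * τ ^ (n ^ 2) := by
            apply mul_le_mul _ h4 (by positivity) (by positivity)
            apply pow_le_pow_left₀ (by norm_num)
            linarith
    calc (1 : ℝ) ≤ ((4 * C * K) ^ (N ^ 2) * τ ^ (n ^ 2)) * (4 * C * K / τ) ^ (4 * r * N + N + 1) :=
          one_le_mul_of_one_le_of_one_le h3 h2
      _ = _ := by ring
  · push Not at hτ4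
    obtain ⟨F, hF, hnet⟩ := hK ι N r τ hN hN1 hτ hτ1
    set s := τ * Real.sqrt N with hs
    have hsub : {p : UG ι × UG ι | RC N r τ p.1 p.2} ⊆
        ⋃ D ∈ F, {p : UG ι × UG ι | ‖(p.1 : MM ι) * p.2 - D * p.2 * p.1‖ < 2 * s} := by
      rintro ⟨U, V⟩ ⟨D, hD, hUV⟩
      obtain ⟨D', hD', hDD⟩ := hnet D hD
      refine Set.mem_iUnion₂.2 ⟨D', hD', ?_⟩
      change ‖(U : MM ι) * V - D' * V * U‖ < 2 * s
      have e1 : (U : MM ι) * V - D' * V * U = ((U : MM ι) * V - D * V * U) +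
          ((D : MM ι) - D') * ((V * U : UG ι) : MM ι) := by
        rw [Matrix.sub_mul, ug_mul, ← Matrix.mul_assoc, ← Matrix.mul_assoc]
        abel
      rw [e1]
      refine (norm_add_le _ _).trans_lt ?_
      rw [fr_mul_right]
      have : ‖(U : MM ι) * V - D * V * U‖ < s := hUV
      linarith
    have h1 : ((hm ι).prod (hm ι)).real {p | RC N r τ p.1 p.2} ≤
        F.card * ((hm ι).prod (hm ι)).real {p | ‖(p.1 : MM ι) * p.2 - p.2 * p.1‖ < 4 * s} := by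
      refine (measureReal_mono hsub (measure_ne_top _ _)).trans ?_
      refine (measureReal_biUnion_finset_le _ _).trans ?_
      refine (Finset.sum_le_sum fun D _ => rob_one D s).trans ?_
      rw [Finset.sum_const, nsmul_eq_mul]
    have h2 := hC ι N (4 * τ) hN hN1 (by positivity) (by linarith)
    have e2 : 4 * τ * Real.sqrt N = 4 * s := by rw [hs]; ring
    rw [e2] at h2
    refine h1.trans ((mul_le_mul hF h2 measureReal_nonneg (by positivity)).trans ?_)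
    have e3 : (4 * τ) ^ (n ^ 2) = 4 ^ (n ^ 2) * τ ^ (n ^ 2) := mul_pow _ _ _
    have h5 : (4 : ℝ) ^ (n ^ 2) ≤ 4 ^ (N ^ 2) := pow_le_pow_right₀ (by norm_num) hnN
    have h6 : (1 / (4 * τ)) ^ (N + 1) ≤ (4 * C * K / τ) ^ (N + 1) := by
      apply pow_le_pow_left₀ (by positivity)
      rw [div_le_div_iff₀ (by positivity) hτ]
      nlinarith
    have h7 : (K / τ) ^ (4 * r * N) ≤ (4 * C * K / τ) ^ (4 * r * N) := by
      apply pow_le_pow_left₀ (by positivity)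
      gcongr
    have h8 : C ^ (N ^ 2) * 4 ^ (n ^ 2) ≤ (4 * C * K) ^ (N ^ 2) := by
      calc C ^ (N ^ 2) * 4 ^ (n ^ 2) ≤ C ^ (N ^ 2) * 4 ^ (N ^ 2) :=
            mul_le_mul_of_nonneg_left h5 (by positivity)
        _ = (4 * C) ^ (N ^ 2) := by rw [← mul_pow, mul_comm C 4]
        _ ≤ _ := pow_le_pow_left₀ (by positivity) h4K _
    rw [e3]
    calc (K / τ) ^ (4 * r * N) * (C ^ (N ^ 2) * (1 / (4 * τ)) ^ (N + 1) * (4 ^ (n ^ 2) * τ ^ (n ^ 2)))
        = ((C ^ (N ^ 2) * 4 ^ (n ^ 2)) * ((K / τ) ^ (4 * r * N) * (1 / (4 * τ)) ^ (N + 1))) *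
            τ ^ (n ^ 2) := by ring
      _ ≤ ((4 * C * K) ^ (N ^ 2) * ((4 * C * K / τ) ^ (4 * r * N) * (4 * C * K / τ) ^ (N + 1))) *
            τ ^ (n ^ 2) := by
          apply mul_le_mul_of_nonneg_right _ (by positivity)
          apply mul_le_mul h8 _ (by positivity) (by positivity)
          exact mul_le_mul h7 h6 (by positivity) (by positivity)
      _ = _ := by
          rw [← pow_add]
          ring_nf

end

end Pool.Agent.T2H01.EK2
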