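import Mathlib
import Pool.Agent.T2H01.EK2.Blk
import Pool.Agent.T2H01.EK2.Cyc

/-!
# Robustly commuting cycles in the block diagonal subgroup
-/

open MeasureTheory Matrix
open scoped Matrix.Norms.Frobenius Topology ENNReal

namespace Pool.Agent.T2H01.EK2

set_option linter.unusedSectionVars false
set_option linter.unusedVariables false

noncomputable section

/-- Cauchy-Schwarz along a cycle for a measurable relation -/
lemma cyc_rel {X : Type*} [MeasurableSpace X] (ν : Measure X) [IsProbabilityMeasure ν] {d : ℕ}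
    [NeZero d] (hd : 2 ≤ d) (R : Set (X × X)) (hR : MeasurableSet R) :
    (Measure.pi fun _ : Fin d => ν).real {x | ∀ i, (x i, x (i + 1)) ∈ R} ^ 2 ≤
      (ν.prod ν).real R ^ d := by
  classical
  set S : Set (Fin d → X) := {x | ∀ i, (x i, x (i + 1)) ∈ R} with hSdef
  have hS : MeasurableSet S := by
    have h1 : S = ⋂ i : Fin d, (fun x : Fin d → X => (x i, x (i + 1))) ⁻¹' R := by
      ext x
      simp only [hSdef, Set.mem_ofPred_eq, Set.mem_iInter, Set.mem_preimage]
    rw [h1]
    refine MeasurableSet.iInter fun i => ?_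
    exact hR.preimage (by fun_prop)
  have h := cyc ν hd (R.indicator 1) (measurable_one.indicator hR)
  have e1 : ∀ x : Fin d → X, ∏ i, R.indicator (1 : X × X → ℝ≥0∞) (x i, x (i + 1)) =
      S.indicator 1 x := by
    intro x
    by_cases hx : x ∈ S
    · rw [Set.indicator_of_mem hx, Pi.one_apply]
      refine Finset.prod_eq_one fun i _ => ?_
      rw [Set.indicator_of_mem (hx i), Pi.one_apply]
    · rw [Set.indicator_of_notMem hx]
      simp only [hSdef, Set.mem_ofPred_eq, not_forall] at hx
      obtain ⟨i, hi⟩ := hx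
      exact Finset.prod_eq_zero (Finset.mem_univ i) (Set.indicator_of_notMem hi _)
  have e2 : ∀ p : X × X, R.indicator (1 : X × X → ℝ≥0∞) p ^ 2 = R.indicator 1 p := by
    intro p
    by_cases hp : p ∈ R
    · rw [Set.indicator_of_mem hp, Pi.one_apply, one_pow]
    · rw [Set.indicator_of_notMem hp]
      simp
  rw [lintegral_congr e1, lintegral_congr e2, lintegral_indicator_one hS,
    lintegral_indicator_one hR] at h
  have h2 := ENNReal.toReal_mono (ENNReal.pow_ne_top (measure_ne_top _ _)) h
  rwa [ENNReal.toReal_pow, ENNReal.toReal_pow] at h2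

theorem KK_le (m n d N r : ℕ) [NeZero d] (hd : 2 ≤ d) (τ : ℝ) :
    (Measure.pi fun _ : Fin d => (hm (Fin m)).prod (hm (Fin n))).real (KK m n d N r τ) ^ 2 ≤
      ((hm (Fin m)).prod (hm (Fin m))).real {p | RC N r τ p.1 p.2} ^ d *
        ((hm (Fin n)).prod (hm (Fin n))).real {p | RC N r τ p.1 p.2} ^ d := by
  have hp := measurePreserving_arrowProdEquivProdArrow (UG (Fin m)) (UG (Fin n)) (Fin d)
    (fun _ => hm (Fin m)) (fun _ => hm (Fin n))
  set Sm : Set (Fin d → UG (Fin m)) :=
    {x | ∀ i, (x i, x (i + 1)) ∈ {p : UG (Fin m) × UG (Fin m) | RC N r τ p.1 p.2}} with hSm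
  set Sn : Set (Fin d → UG (Fin n)) :=
    {x | ∀ i, (x i, x (i + 1)) ∈ {p : UG (Fin n) × UG (Fin n) | RC N r τ p.1 p.2}} with hSn
  have h1 : KK m n d N r τ = (MeasurableEquiv.arrowProdEquivProdArrow (UG (Fin m)) (UG (Fin n))
      (Fin d)) ⁻¹' (Sm ×ˢ Sn) := by
    ext k
    simp only [KK, Set.mem_ofPred_eq, hSm, hSn, Set.mem_preimage, Set.mem_prod]
    exact forall_and
  have h2 : (Measure.pi fun _ : Fin d => (hm (Fin m)).prod (hm (Fin n))).real
      (KK m n d N r τ) = (Measure.pi fun _ : Fin d => hm (Fin m)).real Sm *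
        (Measure.pi fun _ : Fin d => hm (Fin n)).real Sn := by
    rw [h1, ← measureReal_prod_prod, measureReal_def, measureReal_def,
      hp.measure_preimage_equiv]
  rw [h2, mul_pow]
  exact mul_le_mul (cyc_rel _ hd _ (RC_open N r τ).measurableSet)
    (cyc_rel _ hd _ (RC_open N r τ).measurableSet) (by positivity) (by positivity)

end

end Pool.Agent.T2H01.EK2
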