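import Mathlib
import Pool.Agent.T2H01.EK2.Blk
import Pool.Agent.T2H01.EK2.Vol

/-!
# Volumes of the tubes around the block diagonal subgroup
-/

open MeasureTheory Matrix
open scoped Matrix.Norms.Frobenius Topology ENNReal

namespace Pool.Agent.T2H01.EK2

set_option linter.unusedSectionVars false
set_option linter.unusedVariables false

noncomputable section

theorem tubes : ∃ C : ℝ, 1 ≤ C ∧ ∀ (m n N : ℕ) (h : m + n = N) (σ : ℝ), 1 ≤ m → 1 ≤ n →
    0 < σ → σ ≤ 1 / 2 →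
    σ ^ (2 * m * n + 2) ≤ C ^ (N ^ 2) *
      (hm (Fin N)).real (tube (ph h) D0 (σ * Real.sqrt N)) ∧
    (hm (Fin N)).real (tube (ph h) D0 (4 * σ * Real.sqrt N)) * σ ≤
      C ^ (N ^ 2) * σ ^ (2 * m * n) := by
  obtain ⟨CL, hCL, hL⟩ := ball_lower
  obtain ⟨CU, hCU, hU⟩ := ball_upper
  have hCL0 : 0 < CL := by linarith
  have hCU0 : 0 < CU := by linarith
  refine ⟨8 * CL * CU ^ 2, ?_, ?_⟩
  · have h1 : 1 ≤ CU ^ 2 := one_le_pow₀ hCU
    have h2 : (8 : ℝ) ≤ 8 * CL := by linarith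
    nlinarith
  intro m n N h σ hm1 hn1 hσ hσ2
  have hN1 : 1 ≤ N := by omega
  have hsN : 0 < Real.sqrt N := Real.sqrt_pos.2 (by exact_mod_cast hN1)
  have hNsq : N ^ 2 = m ^ 2 + n ^ 2 + 2 * m * n := by rw [← h]; ring
  have hm2 : 1 ≤ m ^ 2 := Nat.one_le_pow _ _ hm1
  have hn2 : 1 ≤ n ^ 2 := Nat.one_le_pow _ _ hn1
  -- product sets
  have hprod : ∀ S : Set (UG (Fin m)), ∀ T : Set (UG (Fin n)),
      ((hm (Fin m)).prod (hm (Fin n))).real (S ×ˢ T) = (hm (Fin m)).real S * (hm (Fin n)).real T := by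
    intro S T
    simp only [Measure.real, Measure.prod_prod, ENNReal.toReal_mul]
  constructor
  · set T : ℝ := (hm (Fin N)).real (tube (ph h) D0 (σ * Real.sqrt N)) with hT
    have hT0 : 0 ≤ T := measureReal_nonneg
    have h1 := tube_ge (hm (Fin N)) ((hm (Fin m)).prod (hm (Fin n))) (ph_cont h) len0
      (σ * Real.sqrt N)
    have h2 := hL (Fin N) N σ (by rw [Fintype.card_fin]) hN1 hσ (by linarith)
    rw [Fintype.card_fin] at h2
    have h3 := hU (Fin m) N (2 * σ) (by rw [Fintype.card_fin]; omega) (by linarith)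
    have h4 := hU (Fin n) N (2 * σ) (by rw [Fintype.card_fin]; omega) (by linarith)
    rw [Fintype.card_fin] at h3 h4
    have h5 : ((hm (Fin m)).prod (hm (Fin n))).real
        {k | D0 (ph h k) < 2 * (σ * Real.sqrt N)} ≤
        (CU ^ (N ^ 2) * (2 * σ) ^ (m ^ 2 - 1)) * (CU ^ (N ^ 2) * (2 * σ) ^ (n ^ 2 - 1)) := by
      refine le_trans (measureReal_mono (s₂ := {g : UG (Fin m) | D0 g < 2 * σ * Real.sqrt N} ×ˢ
        {g : UG (Fin n) | D0 g < 2 * σ * Real.sqrt N}) ?_) ?_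
      · intro k hk
        have hk' : D0 (ph h k) < 2 * (σ * Real.sqrt N) := hk
        have h6 := D0_ph h k
        have h7 := D0_nonneg (ph h k)
        have h8 := D0_nonneg k.1
        have h9 := D0_nonneg k.2
        have h10 : D0 k.1 ≤ D0 (ph h k) := by
          apply le_of_sq_le_sq _ h7
          nlinarith
        have h11 : D0 k.2 ≤ D0 (ph h k) := by
          apply le_of_sq_le_sq _ h7
          nlinarith
        refine ⟨?_, ?_⟩
        · show D0 k.1 < 2 * σ * Real.sqrt N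
          linarith
        · show D0 k.2 < 2 * σ * Real.sqrt N
          linarith
      · rw [hprod]
        exact mul_le_mul h3 h4 measureReal_nonneg (by positivity)
    have h6 : (σ / CL) ^ (N ^ 2) ≤ T * ((CU ^ (N ^ 2) * (2 * σ) ^ (m ^ 2 - 1)) *
        (CU ^ (N ^ 2) * (2 * σ) ^ (n ^ 2 - 1))) :=
      (h2.trans h1).trans (mul_le_mul_of_nonneg_left h5 hT0)
    have h7 : (CU ^ (N ^ 2) * (2 * σ) ^ (m ^ 2 - 1)) * (CU ^ (N ^ 2) * (2 * σ) ^ (n ^ 2 - 1)) ≤
        (2 * CU ^ 2) ^ (N ^ 2) * σ ^ (m ^ 2 + n ^ 2 - 2) := by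
      have e1 : (CU ^ (N ^ 2) * (2 * σ) ^ (m ^ 2 - 1)) * (CU ^ (N ^ 2) * (2 * σ) ^ (n ^ 2 - 1)) =
          (CU ^ 2) ^ (N ^ 2) * (2 ^ (m ^ 2 + n ^ 2 - 2) * σ ^ (m ^ 2 + n ^ 2 - 2)) := by
        have e3 : (CU ^ 2) ^ (N ^ 2) = CU ^ (N ^ 2) * CU ^ (N ^ 2) := by
          rw [← pow_mul, ← pow_add]
          congr 1
          ring
        have e4 : (2 * σ) ^ (m ^ 2 + n ^ 2 - 2) = (2 * σ) ^ (m ^ 2 - 1) * (2 * σ) ^ (n ^ 2 - 1) := by
          rw [← pow_add]
          congr 1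
          omega
        rw [← mul_pow, e3, e4]
        ring
      rw [e1, mul_pow 2 (CU ^ 2), mul_comm ((2 : ℝ) ^ (N ^ 2)), mul_assoc]
      refine mul_le_mul_of_nonneg_left ?_ (by positivity)
      refine mul_le_mul_of_nonneg_right ?_ (by positivity)
      exact pow_le_pow_right₀ (by norm_num) (by rw [hNsq]; omega)
    have h8 : σ ^ (N ^ 2) ≤ CL ^ (N ^ 2) * (T * ((2 * CU ^ 2) ^ (N ^ 2) *
        σ ^ (m ^ 2 + n ^ 2 - 2))) := by
      have h9 := h6.trans (mul_le_mul_of_nonneg_left h7 hT0)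
      rw [div_pow, div_le_iff₀ (by positivity)] at h9
      linarith
    have e2 : σ ^ (N ^ 2) = σ ^ (2 * m * n + 2) * σ ^ (m ^ 2 + n ^ 2 - 2) := by
      rw [← pow_add]
      congr 1
      omega
    rw [e2] at h8
    have h10 : 0 < σ ^ (m ^ 2 + n ^ 2 - 2) := by positivity
    have h11 : σ ^ (2 * m * n + 2) ≤ (2 * CL * CU ^ 2) ^ (N ^ 2) * T := by
      refine le_of_mul_le_mul_right (h8.trans (le_of_eq ?_)) h10
      rw [show 2 * CL * CU ^ 2 = CL * (2 * CU ^ 2) by ring, mul_pow CL]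
      ring
    refine h11.trans (mul_le_mul_of_nonneg_right ?_ hT0)
    refine pow_le_pow_left₀ (by positivity) ?_ _
    have h12 : 0 < CL * CU ^ 2 := by positivity
    nlinarith
  · set T : ℝ := (hm (Fin N)).real (tube (ph h) D0 (4 * σ * Real.sqrt N)) with hT
    have hT0 : 0 ≤ T := measureReal_nonneg
    have h1 := tube_le (hm (Fin N)) ((hm (Fin m)).prod (hm (Fin n))) (ph_cont h) len0
      (4 * σ * Real.sqrt N)
    have h2 := hU (Fin N) N (8 * σ) (by rw [Fintype.card_fin]) (by linarith)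
    rw [Fintype.card_fin] at h2
    have h3 := hL (Fin m) N (2 * σ) (by rw [Fintype.card_fin]; omega) hN1 (by linarith)
      (by linarith)
    have h4 := hL (Fin n) N (2 * σ) (by rw [Fintype.card_fin]; omega) hN1 (by linarith)
      (by linarith)
    rw [Fintype.card_fin] at h3 h4
    have h5 : (2 * σ / CL) ^ (m ^ 2) * (2 * σ / CL) ^ (n ^ 2) ≤
        ((hm (Fin m)).prod (hm (Fin n))).real {k | D0 (ph h k) < 4 * σ * Real.sqrt N} := by
      refine le_trans ?_ (measureReal_mono (s₁ := {g : UG (Fin m) | D0 g < 2 * σ * Real.sqrt N} ×ˢ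
        {g : UG (Fin n) | D0 g < 2 * σ * Real.sqrt N}) ?_)
      · rw [hprod]
        exact mul_le_mul h3 h4 (by positivity) measureReal_nonneg
      · rintro k ⟨hk1, hk2⟩
        have hk1' : D0 k.1 < 2 * σ * Real.sqrt N := hk1
        have hk2' : D0 k.2 < 2 * σ * Real.sqrt N := hk2
        have h6 := D0_ph h k
        have h7 := D0_nonneg (ph h k)
        have h8 := D0_nonneg k.1
        have h9 := D0_nonneg k.2
        show D0 (ph h k) < 4 * σ * Real.sqrt N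
        have hs : 0 < σ * Real.sqrt N := by positivity
        have h10 : D0 (ph h k) ^ 2 < (4 * σ * Real.sqrt N) ^ 2 := by
          rw [h6]
          nlinarith
        exact lt_of_pow_lt_pow_left₀ 2 (by positivity) h10
    have h6 : T * ((2 * σ / CL) ^ (m ^ 2) * (2 * σ / CL) ^ (n ^ 2)) ≤
        CU ^ (N ^ 2) * (8 * σ) ^ (N ^ 2 - 1) := by
      refine (mul_le_mul_of_nonneg_left h5 hT0).trans (h1.trans ?_)
      rw [show 2 * (4 * σ * Real.sqrt N) = 8 * σ * Real.sqrt N by ring]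
      exact h2
    have h7 : T * σ ^ (m ^ 2 + n ^ 2) ≤ CL ^ (m ^ 2 + n ^ 2) *
        (CU ^ (N ^ 2) * (8 * σ) ^ (N ^ 2 - 1)) := by
      have h8 : σ ^ (m ^ 2 + n ^ 2) ≤ CL ^ (m ^ 2 + n ^ 2) *
          ((2 * σ / CL) ^ (m ^ 2) * (2 * σ / CL) ^ (n ^ 2)) := by
        rw [← pow_add, ← mul_pow, mul_div_cancel₀ _ hCL0.ne']
        exact pow_le_pow_left₀ hσ.le (by linarith) _
      calc T * σ ^ (m ^ 2 + n ^ 2) ≤ T * (CL ^ (m ^ 2 + n ^ 2) *
            ((2 * σ / CL) ^ (m ^ 2) * (2 * σ / CL) ^ (n ^ 2))) := mul_le_mul_of_nonneg_left h8 hT0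
        _ = CL ^ (m ^ 2 + n ^ 2) * (T * ((2 * σ / CL) ^ (m ^ 2) * (2 * σ / CL) ^ (n ^ 2))) := by ring
        _ ≤ _ := mul_le_mul_of_nonneg_left h6 (by positivity)
    have h9 : T * σ * σ ^ (m ^ 2 + n ^ 2) ≤
        ((8 * CL * CU ^ 2) ^ (N ^ 2) * σ ^ (2 * m * n)) * σ ^ (m ^ 2 + n ^ 2) := by
      have hN2 : 1 ≤ N ^ 2 := Nat.one_le_pow _ _ hN1
      have e1 : (8 * σ) ^ (N ^ 2 - 1) * σ = 8 ^ (N ^ 2 - 1) * σ ^ (N ^ 2) := by
        rw [mul_pow, mul_assoc, ← pow_succ, Nat.sub_add_cancel hN2]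
      calc T * σ * σ ^ (m ^ 2 + n ^ 2) = (T * σ ^ (m ^ 2 + n ^ 2)) * σ := by ring
        _ ≤ (CL ^ (m ^ 2 + n ^ 2) * (CU ^ (N ^ 2) * (8 * σ) ^ (N ^ 2 - 1))) * σ :=
          mul_le_mul_of_nonneg_right h7 hσ.le
        _ = CL ^ (m ^ 2 + n ^ 2) * CU ^ (N ^ 2) * 8 ^ (N ^ 2 - 1) * σ ^ (N ^ 2) := by
          rw [mul_assoc (CL ^ (m ^ 2 + n ^ 2)), mul_assoc (CU ^ (N ^ 2)), e1]; ring
        _ ≤ CL ^ (N ^ 2) * (CU ^ 2) ^ (N ^ 2) * 8 ^ (N ^ 2) * σ ^ (N ^ 2) := by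
          refine mul_le_mul_of_nonneg_right ?_ (by positivity)
          refine mul_le_mul (mul_le_mul ?_ ?_ (by positivity) (by positivity)) ?_ (by positivity)
            (by positivity)
          · exact pow_le_pow_right₀ hCL (by rw [hNsq]; omega)
          · refine pow_le_pow_left₀ hCU0.le ?_ _
            nlinarith
          · exact pow_le_pow_right₀ (by norm_num) (by omega)
        _ = ((8 * CL * CU ^ 2) ^ (N ^ 2) * σ ^ (2 * m * n)) * σ ^ (m ^ 2 + n ^ 2) := by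
          rw [mul_pow, mul_pow, mul_assoc _ (σ ^ (2 * m * n)), ← pow_add,
            show 2 * m * n + (m ^ 2 + n ^ 2) = N ^ 2 by omega]
          ring
    exact le_of_mul_le_mul_right h9 (by positivity)

end

end Pool.Agent.T2H01.EK2
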