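import Mathlib
import Pool.Agent.T2H01.EK2.Cnt
import Pool.Agent.T2H01.EK2.Tub
import Pool.Agent.T2H01.EK2.Spl
import Pool.Agent.T2H01.EK2.Rob

/-!
# Almost commuting unitary matrices are close to scalars
-/

open MeasureTheory Matrix
open scoped Matrix.Norms.Frobenius Topology ENNReal

namespace Pool.Agent.T2H01.EK2

set_option linter.unusedSectionVars false
set_option linter.unusedVariables false

noncomputable section

variable {m n N d : ℕ}

/-- the product of the Haar measures -/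
abbrev hmd (d N : ℕ) : Measure (Fin d → UG (Fin N)) := Measure.pi fun _ => hm (Fin N)

/-- the neighbourhood of the robustly commuting tuples of the block diagonal subgroup -/
def Nb (h : m + n = N) (d r' : ℕ) [NeZero d] (ρ τ : ℝ) : Set (Fin d → UG (Fin N)) :=
  {V | ∃ k ∈ KK m n d N r' τ, ∀ i, D0 (V i * (ph h (k i))⁻¹) < ρ}

lemma KK_pert {r' : ℕ} [NeZero d] (h : m + n = N) {σ τ : ℝ} (hσ : 0 ≤ σ)
    {k : Fin d → UG (Fin m) × UG (Fin n)} (hk : k ∈ KK m n d N r' τ)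
    {k' : Fin d → UG (Fin m) × UG (Fin n)}
    (hkk : ∀ i, D0 (ph h (k' i) * (ph h (k i))⁻¹) < 2 * (4 * σ * Real.sqrt N)) :
    k' ∈ KK m n d N r' (τ + 4 * (8 * σ)) := by
  have h0 : ∀ i, ‖((k' i).1 : MM (Fin m)) - (k i).1‖ ≤ 8 * σ * Real.sqrt N ∧
      ‖((k' i).2 : MM (Fin n)) - (k i).2‖ ≤ 8 * σ * Real.sqrt N := by
    intro i
    have h1 := hkk i
    have h2 := D0_ph_div h (k i) (k' i)
    have h3 := D0_nonneg (ph h (k' i) * (ph h (k i))⁻¹)
    have h4 : 0 ≤ 8 * σ * Real.sqrt N := by positivity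
    have h5 : D0 (ph h (k' i) * (ph h (k i))⁻¹) ^ 2 ≤ (8 * σ * Real.sqrt N) ^ 2 :=
      pow_le_pow_left₀ h3 (by linarith) 2
    constructor
    · exact abs_le_of_sq_le_sq' (by nlinarith [sq_nonneg ‖((k' i).2 : MM (Fin n)) - (k i).2‖]) h4 |>.2
    · exact abs_le_of_sq_le_sq' (by nlinarith [sq_nonneg ‖((k' i).1 : MM (Fin m)) - (k i).1‖]) h4 |>.2
  intro i
  exact ⟨RC_pert (hk i).1 (h0 i).1 (h0 (i + 1)).1, RC_pert (hk i).2 (h0 i).2 (h0 (i + 1)).2⟩

/-- the nets -/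
lemma net_step {K : ℝ} (hK : ∀ (ι : Type) [Fintype ι] [DecidableEq ι] (N r : ℕ) (σ : ℝ),
    Fintype.card ι ≤ N → 1 ≤ N → 0 < σ → σ ≤ 1 →
    ∃ F : Finset (UG ι), (F.card : ℝ) ≤ (K / σ) ^ (4 * r * N) ∧
      ∀ C ∈ Rk ι r, ∃ C' ∈ F, ‖(C : MM ι) - (C' : MM ι)‖ < σ * Real.sqrt N)
    [NeZero d] (h : m + n = N) (hN : 1 ≤ N) {r r' : ℕ} {σ τ : ℝ} (hσ : 0 < σ) (hσ1 : σ ≤ 1) :
    (hmd d N).real (Sg h d r r' (3 * σ) τ) ≤ ((K / σ) ^ (4 * r * N)) ^ d *
      ((hm (Fin N)).real (tube (ph h) D0 (4 * σ * Real.sqrt N)) ^ d *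
        (Measure.pi fun _ : Fin d => (hm (Fin m)).prod (hm (Fin n))).real
          (KK m n d N r' (τ + 4 * (8 * σ)))) := by
  classical
  obtain ⟨F, hF, hF2⟩ := hK (Fin N) N r σ (by simp) hN hσ hσ1
  have h1 : Sg h d r r' (3 * σ) τ ⊆ ⋃ C' ∈ Fintype.piFinset (fun _ : Fin d => F),
      {W | W * C'⁻¹ ∈ Nb h d r' (4 * σ * Real.sqrt N) τ} := by
    rintro W ⟨k, hk, C, hC, hW⟩
    choose C' hC' hCC using fun i => hF2 (C i) (hC i)
    simp only [Set.mem_iUnion, Set.mem_ofPred_eq, exists_prop]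
    refine ⟨C', Fintype.mem_piFinset.2 hC', k, hk, fun i => ?_⟩
    have e1 : (W * C'⁻¹) i * (ph h (k i))⁻¹ = W i * (ph h (k i) * C' i)⁻¹ := by
      rw [Pi.mul_apply, Pi.inv_apply, _root_.mul_inv_rev, mul_assoc]
    rw [e1, D0_div]
    have e2 : (W i : MM (Fin N)) - ((ph h (k i) * C' i : UG (Fin N)) : MM (Fin N)) =
        ((W i : MM (Fin N)) - ((ph h (k i) * C i : UG (Fin N)) : MM (Fin N))) +
          ((ph h (k i) : UG (Fin N)) : MM (Fin N)) * ((C i : MM (Fin N)) - C' i) := by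
      rw [ug_mul, ug_mul, mul_sub]; abel
    rw [e2]
    refine (norm_add_le _ _).trans_lt ?_
    rw [fr_mul_left]
    have := hW i
    have := hCC i
    linarith
  have h2 : ∀ C' : Fin d → UG (Fin N), (hmd d N).real
      {W | W * C'⁻¹ ∈ Nb h d r' (4 * σ * Real.sqrt N) τ} =
        (hmd d N).real (Nb h d r' (4 * σ * Real.sqrt N) τ) := by
    intro C'
    unfold Measure.real
    congr 1
    exact measure_preimage_mul_right (hmd d N) C'⁻¹ _
  have h3 : (hmd d N).real (Nb h d r' (4 * σ * Real.sqrt N) τ) ≤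
      (hm (Fin N)).real (tube (ph h) D0 (4 * σ * Real.sqrt N)) ^ d *
        (Measure.pi fun _ : Fin d => (hm (Fin m)).prod (hm (Fin n))).real
          (KK m n d N r' (τ + 4 * (8 * σ))) :=
    nbhd_le (hm (Fin N)) ((hm (Fin m)).prod (hm (Fin n))) (ph_cont h) len0
      (KK_open _ _ _ _ _ _).measurableSet fun k hk k' hkk => KK_pert h hσ.le hk hkk
  have h4 : (0 : ℝ) ≤ (hm (Fin N)).real (tube (ph h) D0 (4 * σ * Real.sqrt N)) ^ d *
        (Measure.pi fun _ : Fin d => (hm (Fin m)).prod (hm (Fin n))).real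
          (KK m n d N r' (τ + 4 * (8 * σ))) := by positivity
  calc (hmd d N).real (Sg h d r r' (3 * σ) τ)
      ≤ (hmd d N).real (⋃ C' ∈ Fintype.piFinset (fun _ : Fin d => F),
        {W | W * C'⁻¹ ∈ Nb h d r' (4 * σ * Real.sqrt N) τ}) := measureReal_mono h1 (measure_ne_top _ _)
    _ ≤ ∑ C' ∈ Fintype.piFinset (fun _ : Fin d => F), (hmd d N).real
        {W | W * C'⁻¹ ∈ Nb h d r' (4 * σ * Real.sqrt N) τ} := measureReal_biUnion_finset_le _ _
    _ ≤ ∑ C' ∈ Fintype.piFinset (fun _ : Fin d => F),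
      ((hm (Fin N)).real (tube (ph h) D0 (4 * σ * Real.sqrt N)) ^ d *
        (Measure.pi fun _ : Fin d => (hm (Fin m)).prod (hm (Fin n))).real
          (KK m n d N r' (τ + 4 * (8 * σ)))) :=
        Finset.sum_le_sum fun C' _ => by rw [h2]; exact h3
    _ ≤ _ := by
        rw [Finset.sum_const, nsmul_eq_mul]
        refine mul_le_mul_of_nonneg_right ?_ h4
        rw [Fintype.card_piFinset, Finset.prod_const, Finset.card_univ, Fintype.card_fin]
        push_cast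
        exact pow_le_pow_left₀ (Nat.cast_nonneg _) hF d

/-- the conjugates of the almost block diagonal tuples -/
def Em (h : m + n = N) (d r r' : ℕ) [NeZero d] (σ : ℝ) : Set (Fin d → UG (Fin N)) :=
  {V | ∃ g : UG (Fin N), (fun i => g⁻¹ * V i * g) ∈ Sg h d r r' σ σ}

lemma Em_open (h : m + n = N) (d r r' : ℕ) [NeZero d] (σ : ℝ) : IsOpen (Em h d r r' σ) := by
  have h1 : Em h d r r' σ = ⋃ g : UG (Fin N),
      (fun (V : Fin d → UG (Fin N)) i => g⁻¹ * V i * g) ⁻¹' Sg h d r r' σ σ := by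
    ext V; simp [Em]
  rw [h1]
  refine isOpen_iUnion fun g => (Sg_open h d r r' σ σ).preimage ?_
  exact continuous_pi fun i => (continuous_const.mul (continuous_apply i)).mul continuous_const

lemma conj_step [NeZero d] (h : m + n = N) {r r' : ℕ} {σ : ℝ} :
    (hmd d N).real (Em h d r r' σ) * (hm (Fin N)).real (tube (ph h) D0 (σ * Real.sqrt N)) ≤
      (hmd d N).real (Sg h d r r' (3 * σ) σ) :=
  conj_le (hm (Fin N)) (φ := ph h) (ph_cont h) len0 (Sg_open h d r r' σ σ)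
    (Sg_open h d r r' (3 * σ) σ).measurableSet fun V hV y hy k₀ => Sg_conj hV hy k₀

/-- the estimate for given sizes of the blocks -/
lemma block_est (d : ℕ) (hd : 3 ≤ d) [NeZero d] : ∃ C₀ : ℝ, 0 ≤ C₀ ∧
    ∀ (m n N : ℕ) (h : m + n = N) (r r' : ℕ) (L : ℝ), 1 ≤ m → 1 ≤ n → r ≤ N → r' ≤ N → 4 ≤ L →
    (hmd d N).real (Em h d r r' (Real.exp (-L))) ≤
      Real.exp (C₀ * (N : ℝ) ^ 2 - (d / 2 * (N : ℝ) ^ 2 + (d - 2) * (m * n) -
        (2 + 2 * d + d * N + 4 * d * N * (r + r'))) * L) := by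
  obtain ⟨C, hC, htub⟩ := tubes
  obtain ⟨K, hK, hnet⟩ := net_rank
  obtain ⟨K', hK', hrob⟩ := robust_two
  obtain ⟨c, hc⟩ : ∃ c, c = Real.log C := ⟨_, rfl⟩
  obtain ⟨k, hk⟩ : ∃ k, k = Real.log K := ⟨_, rfl⟩
  obtain ⟨k', hk'⟩ : ∃ k', k' = Real.log K' := ⟨_, rfl⟩
  have eC : C = Real.exp c := by rw [hc, Real.exp_log (by linarith)]
  have eK : K = Real.exp k := by rw [hk, Real.exp_log (by linarith)]
  have eK' : K' = Real.exp k' := by rw [hk', Real.exp_log (by linarith)]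
  have c0 : 0 ≤ c := by rw [hc]; exact Real.log_nonneg hC
  have k0 : 0 ≤ k := by rw [hk]; exact Real.log_nonneg hK
  have k0' : 0 ≤ k' := by rw [hk']; exact Real.log_nonneg hK'
  refine ⟨(1 + d) * c + 4 * d * k + 7 * d * k' + 2 * d, by positivity,
    fun m n N h r r' L hm1 hn1 hr hr' hL => ?_⟩
  have hN : 1 ≤ N := by omega
  have hNr : (1 : ℝ) ≤ N := by exact_mod_cast hN
  obtain ⟨σ, hσ⟩ : ∃ σ, σ = Real.exp (-L) := ⟨_, rfl⟩
  rw [← hσ]
  have hσ0 : 0 < σ := by rw [hσ]; exact Real.exp_pos _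
  have hexp4 : (33 : ℝ) * Real.exp (-L) ≤ 1 := by
    have h1 : Real.exp (-L) ≤ Real.exp (-4) := Real.exp_le_exp.2 (by linarith)
    have h2 : (2.7 : ℝ) ≤ Real.exp 1 := by
      have := Real.exp_one_gt_d9
      linarith
    have h3 : (33 : ℝ) ≤ Real.exp 4 := by
      have h4 : Real.exp 4 = Real.exp 1 ^ 4 := by rw [← Real.exp_nat_mul]; norm_num
      rw [h4]
      calc (33 : ℝ) ≤ 2.7 ^ 4 := by norm_num
        _ ≤ Real.exp 1 ^ 4 := pow_le_pow_left₀ (by norm_num) h2 4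
    have h5 : Real.exp (-4) * Real.exp 4 = 1 := by rw [← Real.exp_add]; norm_num
    nlinarith [Real.exp_pos (-4)]
  have hσ33 : 33 * σ ≤ 1 := by rw [hσ]; exact hexp4
  have hσ1 : σ ≤ 1 := by linarith
  obtain ⟨E, hE⟩ : ∃ E, E = (hmd d N).real (Em h d r r' σ) := ⟨_, rfl⟩
  obtain ⟨T1, hT1⟩ : ∃ T1, T1 = (hm (Fin N)).real (tube (ph h) D0 (σ * Real.sqrt N)) := ⟨_, rfl⟩
  obtain ⟨T4, hT4⟩ : ∃ T4, T4 = (hm (Fin N)).real (tube (ph h) D0 (4 * σ * Real.sqrt N)) :=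
    ⟨_, rfl⟩
  obtain ⟨Q, hQ⟩ : ∃ Q, Q = (Measure.pi fun _ : Fin d => (hm (Fin m)).prod (hm (Fin n))).real
          (KK m n d N r' (33 * σ)) := ⟨_, rfl⟩
  obtain ⟨Pm, hPm⟩ : ∃ Pm, Pm = ((hm (Fin m)).prod (hm (Fin m))).real
    {p | RC N r' (33 * σ) p.1 p.2} := ⟨_, rfl⟩
  obtain ⟨Pn, hPn⟩ : ∃ Pn, Pn = ((hm (Fin n)).prod (hm (Fin n))).real
    {p | RC N r' (33 * σ) p.1 p.2} := ⟨_, rfl⟩
  have hE0 : 0 ≤ E := by rw [hE]; positivity
  have hT10 : 0 ≤ T1 := by rw [hT1]; positivity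
  have hT40 : 0 ≤ T4 := by rw [hT4]; positivity
  have hQ0 : 0 ≤ Q := by rw [hQ]; positivity
  have hPm0 : 0 ≤ Pm := by rw [hPm]; positivity
  have hPn0 : 0 ≤ Pn := by rw [hPn]; positivity
  -- the inequalities
  have a1 : E * T1 ≤ ((K / σ) ^ (4 * r * N)) ^ d * (T4 ^ d * Q) := by
    have h1 := conj_step (d := d) h (r := r) (r' := r') (σ := σ)
    have h2 := net_step hnet (d := d) h hN (r := r) (r' := r') (τ := σ) hσ0 hσ1
    have e1 : σ + 4 * (8 * σ) = 33 * σ := by ring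
    rw [e1] at h2
    rw [hE, hT1, hT4, hQ]
    exact h1.trans h2
  obtain ⟨a2, a3⟩ := htub m n N h σ hm1 hn1 hσ0 (by linarith)
  rw [← hT1] at a2
  rw [← hT4] at a3
  have a4 : Q ^ 2 ≤ Pm ^ d * Pn ^ d := by
    rw [hQ, hPm, hPn]; exact KK_le m n d N r' (by omega) (33 * σ)
  have a5 := hrob (Fin m) N r' (33 * σ) (by simp; omega) hN (by positivity) hσ33
  have a6 := hrob (Fin n) N r' (33 * σ) (by simp; omega) hN (by positivity) hσ33
  rw [← hPm, Fintype.card_fin] at a5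
  rw [← hPn, Fintype.card_fin] at a6
  -- in exponential form
  have pw : ∀ (x : ℝ) (j : ℕ), Real.exp x ^ j = Real.exp (j * x) := fun x j =>
    (Real.exp_nat_mul x j).symm
  have b2 : Real.exp (-((2 * (m * n) + 2) * L) - c * (N : ℝ) ^ 2) ≤ T1 := by
    rw [hσ, eC, pw, pw] at a2
    rw [Real.exp_sub, div_le_iff₀ (Real.exp_pos _), mul_comm T1]
    refine le_trans (le_of_eq ?_) (a2.trans (le_of_eq ?_))
    · congr 1; push_cast; ring
    · congr 2; push_cast; ring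
  have b3 : T4 ≤ Real.exp (c * (N : ℝ) ^ 2 - (2 * (m * n) - 1) * L) := by
    rw [hσ, eC, pw, pw, ← Real.exp_add] at a3
    have e1 : Real.exp (c * (N : ℝ) ^ 2 - (2 * (m * n) - 1) * L) =
        Real.exp (c * (N : ℝ) ^ 2 - 2 * (m * n) * L) / Real.exp (-L) := by
      rw [← Real.exp_sub]; congr 1; ring
    rw [e1, le_div_iff₀ (Real.exp_pos _)]
    refine a3.trans (le_of_eq ?_)
    congr 1; push_cast; ring
  have bP : ∀ (P : ℝ) (q : ℕ), P ≤ K' ^ (N ^ 2) * (K' / (33 * σ)) ^ (4 * r' * N + N + 1) *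
      (33 * σ) ^ (q ^ 2) → P ≤ Real.exp (k' * (N : ℝ) ^ 2 +
        (4 * r' * N + N + 1) * (k' + L) + (q : ℝ) ^ 2 * (4 - L)) := by
    intro P q hP
    have h1 : K' / (33 * σ) ≤ Real.exp (k' + L) := by
      rw [div_le_iff₀ (by positivity), hσ, eK']
      have e1 : Real.exp (k' + L) * (33 * Real.exp (-L)) = 33 * Real.exp k' := by
        have : Real.exp (k' + L) * Real.exp (-L) = Real.exp k' := by
          rw [← Real.exp_add]; congr 1; ring
        linear_combination 33 * this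
      rw [e1]
      linarith [Real.exp_pos k']
    have h2 : 33 * σ ≤ Real.exp (4 - L) := by
      have h3 : (33 : ℝ) ≤ Real.exp 4 := by
        have h4 : Real.exp 4 = Real.exp 1 ^ 4 := by rw [← Real.exp_nat_mul]; norm_num
        have h2 : (2.7 : ℝ) ≤ Real.exp 1 := by
          have := Real.exp_one_gt_d9
          linarith
        rw [h4]
        calc (33 : ℝ) ≤ 2.7 ^ 4 := by norm_num
          _ ≤ Real.exp 1 ^ 4 := pow_le_pow_left₀ (by norm_num) h2 4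
      have e1 : Real.exp (4 - L) = Real.exp 4 * σ := by
        rw [hσ, ← Real.exp_add]; congr 1
      rw [e1]
      exact mul_le_mul_of_nonneg_right h3 hσ0.le
    have h3 : K' ^ (N ^ 2) = Real.exp (k' * (N : ℝ) ^ 2) := by
      rw [eK', pw]; congr 1; push_cast; ring
    calc P ≤ K' ^ (N ^ 2) * (K' / (33 * σ)) ^ (4 * r' * N + N + 1) * (33 * σ) ^ (q ^ 2) := hP
      _ ≤ Real.exp (k' * (N : ℝ) ^ 2) * Real.exp (k' + L) ^ (4 * r' * N + N + 1) *
          Real.exp (4 - L) ^ (q ^ 2) := by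
          rw [h3]
          gcongr
      _ = _ := by
          rw [pw, pw, ← Real.exp_add, ← Real.exp_add]
          congr 1
          push_cast
          ring
  have b5 := bP _ _ a5
  have b6 := bP _ _ a6
  have b7 : Q ≤ Real.exp (d * (k' * (N : ℝ) ^ 2 + (4 * r' * N + N + 1) * (k' + L)) +
      d / 2 * ((m : ℝ) ^ 2 + (n : ℝ) ^ 2) * (4 - L)) := by
    have h1 : Q ^ 2 ≤ Real.exp (d * (k' * (N : ℝ) ^ 2 + (4 * r' * N + N + 1) * (k' + L)) +
      d / 2 * ((m : ℝ) ^ 2 + (n : ℝ) ^ 2) * (4 - L)) ^ 2 := by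
      calc Q ^ 2 ≤ Pm ^ d * Pn ^ d := a4
        _ ≤ Real.exp (k' * (N : ℝ) ^ 2 +
        (4 * r' * N + N + 1) * (k' + L) + (m : ℝ) ^ 2 * (4 - L)) ^ d * Real.exp (k' * (N : ℝ) ^ 2 +
        (4 * r' * N + N + 1) * (k' + L) + (n : ℝ) ^ 2 * (4 - L)) ^ d := by
            gcongr
        _ = _ := by
            rw [pw, pw, pw, ← Real.exp_add]
            congr 1
            push_cast
            ring
    exact (pow_le_pow_iff_left₀ hQ0 (Real.exp_pos _).le two_ne_zero).1 h1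
  have b1 : ((K / σ) ^ (4 * r * N)) ^ d = Real.exp (4 * r * N * d * (k + L)) := by
    have e1 : K / σ = Real.exp (k + L) := by
      rw [eK, hσ, ← Real.exp_sub]; congr 1; ring
    rw [e1, pw, pw]
    congr 1
    push_cast
    ring
  have b4 : T4 ^ d ≤ Real.exp (d * (c * (N : ℝ) ^ 2 - (2 * (m * n) - 1) * L)) := by
    rw [← pw]
    exact pow_le_pow_left₀ hT40 b3 d
  have b8 : E * Real.exp (-((2 * (m * n) + 2) * L) - c * (N : ℝ) ^ 2) ≤
      Real.exp (4 * r * N * d * (k + L)) *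
        (Real.exp (d * (c * (N : ℝ) ^ 2 - (2 * (m * n) - 1) * L)) *
        Real.exp (d * (k' * (N : ℝ) ^ 2 + (4 * r' * N + N + 1) * (k' + L)) +
      d / 2 * ((m : ℝ) ^ 2 + (n : ℝ) ^ 2) * (4 - L))) := by
    calc E * Real.exp (-((2 * (m * n) + 2) * L) - c * (N : ℝ) ^ 2) ≤ E * T1 :=
          mul_le_mul_of_nonneg_left b2 hE0
      _ ≤ ((K / σ) ^ (4 * r * N)) ^ d * (T4 ^ d * Q) := a1
      _ ≤ _ := by
          rw [b1]
          gcongr
  rw [← le_div_iff₀ (Real.exp_pos _), ← Real.exp_add, ← Real.exp_add, ← Real.exp_sub] at b8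
  rw [← hE]
  refine b8.trans (Real.exp_le_exp.2 ?_)
  have hmn : (m : ℝ) + n = N := by exact_mod_cast h
  have hmr : (0 : ℝ) ≤ m := Nat.cast_nonneg _
  have hnr : (0 : ℝ) ≤ n := Nat.cast_nonneg _
  have hrr : (r : ℝ) ≤ N := by exact_mod_cast hr
  have hrr' : (r' : ℝ) ≤ N := by exact_mod_cast hr'
  have hdr : (0 : ℝ) ≤ d := Nat.cast_nonneg _
  have s1 : 4 * (r : ℝ) * N * d * k ≤ 4 * d * k * (N : ℝ) ^ 2 := by
    have : (r : ℝ) * N * (d * k) ≤ N * N * (d * k) := by gcongr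
    linarith
  have s2 : (d : ℝ) * ((4 * r' * N + N + 1) * k') ≤ d * (6 * (N : ℝ) ^ 2 * k') := by
    have h1 : (4 * (r' : ℝ) * N + N + 1) ≤ 6 * (N : ℝ) ^ 2 := by
      have q1 : (r' : ℝ) * N ≤ N * N := by gcongr
      have q2 : (N : ℝ) ≤ N * N := by nlinarith
      linarith
    gcongr
  have s3 : (m : ℝ) ^ 2 + (n : ℝ) ^ 2 ≤ (N : ℝ) ^ 2 := by
    rw [← hmn]
    have : 0 ≤ (m : ℝ) * n := by positivity
    linarith [add_sq (m : ℝ) n]
  have s4 : (d : ℝ) * ((m : ℝ) ^ 2 + (n : ℝ) ^ 2) ≤ d * (N : ℝ) ^ 2 := by gcongr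
  have s5 : (m : ℝ) ^ 2 + (n : ℝ) ^ 2 = (N : ℝ) ^ 2 - 2 * (m * n) := by rw [← hmn]; ring
  have s6 : d / 2 * ((m : ℝ) ^ 2 + (n : ℝ) ^ 2) * (4 - L) = 2 * (d * ((m : ℝ) ^ 2 + (n : ℝ) ^ 2)) -
      d / 2 * ((N : ℝ) ^ 2 - 2 * (m * n)) * L := by
    rw [← s5]; ring
  rw [s6]
  linarith

end

end Pool.Agent.T2H01.EK2
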