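import Mathlib
import Pool.Agent.T2H01.EK2.Asm

/-!
# Almost commuting unitary matrices are close to scalars: the theorem
-/

open MeasureTheory Matrix
open scoped Matrix.Norms.Frobenius Topology ENNReal

namespace Pool.Agent.T2H01.EK2

set_option linter.unusedSectionVars false
set_option linter.unusedVariables false

noncomputable section

variable {m n N d : ℕ}

/-- the almost commuting tuples one of which is far from the scalars -/
def Far (d N : ℕ) (τ a : ℝ) (i₀ : Fin d) : Set (Fin d → UG (Fin N)) :=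
  {V | (∀ i j, ‖(V i : MM (Fin N)) * V j - V j * V i‖ < τ * Real.sqrt N) ∧
    ‖trace (V i₀ : MM (Fin N))‖ ^ 2 ≤ a * (N : ℝ) ^ 2}

theorem far_le (d : ℕ) (hd : 3 ≤ d) (a : ℝ) (ha : a < 1) : ∃ (c C : ℝ) (N₀ : ℕ) (τ₀ : ℝ),
    0 < c ∧ 0 < τ₀ ∧ τ₀ ≤ 1 ∧ 1 ≤ N₀ ∧ ∀ N, N₀ ≤ N → ∀ τ, 0 < τ → τ ≤ τ₀ → ∀ i₀ : Fin d,
      (hmd d N).real (Far d N τ a i₀) ≤
        Real.exp ((N : ℝ) ^ 2 * (C - (d / 2 + c) * Real.log (1 / τ))) := by
  have : NeZero d := ⟨by omega⟩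
  obtain ⟨κ₀, hκ₀, hcut⟩ := cut a ha
  obtain ⟨κ, hκ⟩ : ∃ κ, κ = min κ₀ 1 := ⟨_, rfl⟩
  have hκ0 : 0 < κ := by rw [hκ]; exact lt_min hκ₀ one_pos
  have hκ1 : κ ≤ 1 := by rw [hκ]; exact min_le_right _ _
  have hκκ : κ ≤ κ₀ := by rw [hκ]; exact min_le_left _ _
  have hdr : (3 : ℝ) ≤ d := by exact_mod_cast hd
  obtain ⟨ε, hε⟩ : ∃ ε : ℝ, ε = κ ^ 2 * (d - 2) / (1600 * d) := ⟨_, rfl⟩
  have hκ2 : 0 < κ ^ 2 := by positivity
  have hd2 : (0 : ℝ) < (d : ℝ) - 2 := by linarith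
  have hε0 : 0 < ε := by rw [hε]; positivity
  have hε1 : ε ≤ 1 / 1600 := by
    rw [hε, div_le_div_iff₀ (by positivity) (by norm_num)]
    have : κ ^ 2 ≤ 1 := pow_le_one₀ hκ0.le hκ1
    nlinarith
  have hεd : 400 * d * ε = κ ^ 2 * (d - 2) / 4 := by
    rw [hε]; field_simp; ring
  obtain ⟨δ, hδ0, hδ1, hcut2⟩ := hcut ε hε0
  obtain ⟨C₀, hC₀, hblock⟩ := block_est d hd
  obtain ⟨c, hc⟩ : ∃ c : ℝ, c = (d - 2) * κ ^ 2 / 2 := ⟨_, rfl⟩
  have hc0 : 0 < c := by rw [hc]; positivity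
  obtain ⟨τ₀, hτ₀⟩ : ∃ τ₀ : ℝ, τ₀ = δ / 600 * Real.exp (-4) := ⟨_, rfl⟩
  have hτ₀0 : 0 < τ₀ := by rw [hτ₀]; positivity
  have hexp4 : Real.exp (-4) ≤ 1 := Real.exp_le_one_iff.2 (by norm_num)
  have hτ₀1 : τ₀ ≤ 1 := by
    rw [hτ₀]
    have : δ / 600 ≤ 1 := by linarith
    have h2 := Real.exp_pos (-4)
    nlinarith
  refine ⟨c, C₀ + 1 + (d / 2 + c) * Real.log (600 / δ),
    ⌈4 * (2 + 3 * d) / (κ ^ 2 * (d - 2))⌉₊ + 1, τ₀, hc0, hτ₀0, hτ₀1, by omega,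
    fun N hN τ hτ hττ i₀ => ?_⟩
  have hN1 : 1 ≤ N := by omega
  have hNr : (1 : ℝ) ≤ N := by exact_mod_cast hN1
  have hNbig : (2 + 3 * d) * (N : ℝ) ≤ κ ^ 2 * (d - 2) / 4 * (N : ℝ) ^ 2 := by
    have h1 : 4 * (2 + 3 * d) / (κ ^ 2 * (d - 2)) ≤ (N : ℝ) := by
      refine (Nat.le_ceil _).trans ?_
      have : ⌈4 * (2 + 3 * (d : ℝ)) / (κ ^ 2 * (d - 2))⌉₊ ≤ N := by omega
      exact_mod_cast this
    rw [div_le_iff₀ (by positivity)] at h1
    have := mul_le_mul_of_nonneg_right h1 (show (0 : ℝ) ≤ N / 4 by positivity)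
    linarith
  obtain ⟨L, hL⟩ : ∃ L, L = Real.log (1 / τ) - Real.log (600 / δ) := ⟨_, rfl⟩
  have hLe : Real.exp (-L) = 600 * τ / δ := by
    rw [hL, neg_sub, Real.exp_sub, Real.exp_log (by positivity), Real.exp_log (by positivity)]
    field_simp
  have hL4 : 4 ≤ L := by
    have h1 : Real.exp (-L) ≤ Real.exp (-4) := by
      rw [hLe]
      have h2 : 600 * τ / δ ≤ 600 * τ₀ / δ := by gcongr
      refine h2.trans (le_of_eq ?_)
      rw [hτ₀]; field_simp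
    have := Real.exp_le_exp.1 h1
    linarith
  obtain ⟨r, hr⟩ : ∃ r, r = ⌊20 * ε * N⌋₊ := ⟨_, rfl⟩
  obtain ⟨r', hr'⟩ : ∃ r', r' = ⌊80 * ε * N⌋₊ := ⟨_, rfl⟩
  have hr1 : (r : ℝ) ≤ 20 * ε * N := by rw [hr]; exact Nat.floor_le (by positivity)
  have hr1' : (r' : ℝ) ≤ 80 * ε * N := by rw [hr']; exact Nat.floor_le (by positivity)
  have hεN : ε * N ≤ 1 / 1600 * N := by gcongr
  have hrN : r ≤ N := by
    have : (r : ℝ) ≤ N := by linarith
    exact_mod_cast this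
  have hrN' : r' ≤ N := by
    have : (r' : ℝ) ≤ N := by linarith
    exact_mod_cast this
  obtain ⟨B, hB⟩ : ∃ B, B = Real.exp (C₀ * (N : ℝ) ^ 2 - (d / 2 + c) * (N : ℝ) ^ 2 * L) :=
    ⟨_, rfl⟩
  have hB0 : 0 < B := by rw [hB]; exact Real.exp_pos _
  -- the sets
  have hm : ∀ m : Fin (N + 1), (m : ℕ) + (N - m) = N := fun m => by have := m.2; omega
  classical
  obtain ⟨S, hS⟩ : ∃ S : Fin (N + 1) → Set (Fin d → UG (Fin N)), S = fun m : Fin (N + 1) =>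
    if κ * N ≤ (m : ℕ) ∧ κ * N ≤ ((N - m : ℕ) : ℝ) then Em (hm m) d r r' (Real.exp (-L)) else ∅ :=
    ⟨_, rfl⟩
  have hsub : Far d N τ a i₀ ⊆ ⋃ m ∈ (Finset.univ : Finset (Fin (N + 1))), S m := by
    rintro V ⟨hV1, hV2⟩
    obtain ⟨m, n, h, g, h1, h2, h3⟩ := hcut2 N (V i₀) hN1 hV2
    have hmN : m < N + 1 := by omega
    have hn : n = N - m := by omega
    subst hn
    simp only [Set.mem_iUnion, Finset.mem_univ, exists_prop, true_and]
    refine ⟨⟨m, hmN⟩, ?_⟩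
    have h4 : κ * N ≤ κ₀ * N := by gcongr
    rw [hS]
    simp only
    rw [if_pos ⟨h4.trans h1, h4.trans h2⟩]
    refine ⟨g, ?_⟩
    rw [hLe, hr, hr']
    refine contain hε0.le hδ0 hδ1 hτ hN1 h g V hV1 fun i => ?_
    obtain ⟨S₁, R₁, S₂, R₂, q1, q2, q3, q4, q5, q6⟩ := h3 (V i)
    exact ⟨S₁, R₁, S₂, R₂, q1, q2, q3.trans (hV1 i₀ i).le, q4.trans (hV1 i₀ i).le, q5, q6⟩
  have hSB : ∀ m : Fin (N + 1), (hmd d N).real (S m) ≤ B := by
    intro m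
    rw [hS]
    simp only
    split_ifs with hcond
    · obtain ⟨c1, c2⟩ := hcond
      have hκN : 0 < κ * N := by positivity
      have m1 : 1 ≤ (m : ℕ) := by
        have : (0 : ℝ) < (m : ℕ) := lt_of_lt_of_le hκN c1
        exact_mod_cast this
      have n1 : 1 ≤ N - (m : ℕ) := by
        have : (0 : ℝ) < ((N - m : ℕ) : ℝ) := lt_of_lt_of_le hκN c2
        exact_mod_cast this
      refine (hblock m (N - m) N (hm m) r r' L m1 n1 hrN hrN' hL4).trans ?_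
      rw [hB]
      refine Real.exp_le_exp.2 ?_
      have p1 : κ * N * (κ * N) ≤ ((m : ℕ) : ℝ) * ((N - m : ℕ) : ℝ) :=
        mul_le_mul c1 c2 hκN.le (Nat.cast_nonneg _)
      have p2 : (d - 2) * (κ * N * (κ * N)) ≤ (d - 2) * (((m : ℕ) : ℝ) * ((N - m : ℕ) : ℝ)) :=
        mul_le_mul_of_nonneg_left p1 hd2.le
      have p3 : 4 * (d : ℝ) * N * (r + r') ≤ κ ^ 2 * (d - 2) / 4 * (N : ℝ) ^ 2 := by
        have h1 : 4 * (d : ℝ) * N * (r + r') ≤ 4 * (d : ℝ) * N * (100 * ε * N) := by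
          gcongr; linarith
        refine h1.trans (le_of_eq ?_)
        rw [← hεd]; ring
      have p4 : (2 + 2 * d + d * N : ℝ) ≤ (2 + 3 * d) * (N : ℝ) := by
        have : (d : ℝ) ≤ d * N := by nlinarith
        linarith
      have p5 : (d / 2 + c) * (N : ℝ) ^ 2 ≤ d / 2 * (N : ℝ) ^ 2 +
          (d - 2) * (((m : ℕ) : ℝ) * ((N - m : ℕ) : ℝ)) - (2 + 2 * d + d * N + 4 * d * N * (r + r')) := by
        rw [hc]
        linarith
      have p6 := mul_le_mul_of_nonneg_right p5 (show 0 ≤ L by linarith)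
      linarith
    · rw [measureReal_empty]
      exact hB0.le
  calc (hmd d N).real (Far d N τ a i₀)
      ≤ (hmd d N).real (⋃ m ∈ (Finset.univ : Finset (Fin (N + 1))), S m) :=
        measureReal_mono hsub (measure_ne_top _ _)
    _ ≤ ∑ m : Fin (N + 1), (hmd d N).real (S m) := measureReal_biUnion_finset_le _ _
    _ ≤ ∑ m : Fin (N + 1), B := Finset.sum_le_sum fun m _ => hSB m
    _ = (N + 1) * B := by
        rw [Finset.sum_const, Finset.card_univ, Fintype.card_fin, nsmul_eq_mul]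
        push_cast; ring
    _ ≤ Real.exp N * B := mul_le_mul_of_nonneg_right (Real.add_one_le_exp _) hB0.le
    _ ≤ _ := by
        rw [hB, ← Real.exp_add]
        refine Real.exp_le_exp.2 ?_
        have : (N : ℝ) ≤ (N : ℝ) ^ 2 := by nlinarith
        rw [hL]
        linarith

end

end Pool.Agent.T2H01.EK2
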