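import Mathlib
import Pool.Agent.T2H01.EK.WkD
import Pool.Agent.T2H01.EK2.Tor
import Pool.Agent.T2H01.EK2.Conv
import Pool.Agent.T2H01.EK2.Thm

/-!
# The breaking of the symmetry of the centre at weak coupling
-/

open MeasureTheory Matrix Filter
open scoped Matrix.Norms.Frobenius Topology
open Pool.Agent.H906R3.YM Pool.Agent.W793.YM Pool.Agent.TH618.YM Pool.Agent.T2H01.YM
open Pool.Agent.T2H01.EK

namespace Pool.Agent.T2H01.EK2

set_option linter.unusedSectionVars false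
set_option linter.unusedVariables false

noncomputable section

/-- the cut-off -/
def chi (a a₁ x : ℝ) : ℝ := max 0 (min 1 ((a₁ - x) / (a₁ - a)))

lemma chi_cont (a a₁ : ℝ) : Continuous (chi a a₁) := by
  unfold chi
  exact continuous_const.max (continuous_const.min ((continuous_const.sub continuous_id).div_const _))

lemma chi_nonneg (a a₁ x : ℝ) : 0 ≤ chi a a₁ x := le_max_left _ _

lemma chi_le_one (a a₁ x : ℝ) : chi a a₁ x ≤ 1 := max_le zero_le_one (min_le_left _ _)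

lemma chi_one {a a₁ x : ℝ} (h : a < a₁) (hx : x ≤ a) : 1 ≤ chi a a₁ x := by
  unfold chi
  refine le_max_of_le_right (le_min le_rfl ?_)
  rw [le_div_iff₀ (by linarith)]
  linarith

lemma chi_zero {a a₁ x : ℝ} (h : a < a₁) (hx : a₁ ≤ x) : chi a a₁ x = 0 := by
  unfold chi
  refine le_antisymm (max_le le_rfl ((min_le_right _ _).trans ?_)) (le_max_left _ _)
  exact div_nonpos_of_nonpos_of_nonneg (by linarith) (by linarith)

variable {N d : ℕ}

/-- the squares of the commutators of unitary matrices -/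
def cmU (V : Fin d → UG (Fin N)) : ℝ := ∑ i : Fin d, ∑ j : Fin d,
  if i < j then ‖(V i : MM (Fin N)) * V j - V j * V i‖ ^ 2 else 0

lemma cmU_cont : Continuous (cmU : (Fin d → UG (Fin N)) → ℝ) := by
  unfold cmU
  refine continuous_finsetSum _ fun i _ => continuous_finsetSum _ fun j _ => ?_
  split_ifs
  · have h : ∀ k : Fin d, Continuous fun P : Fin d → UG (Fin N) => (P k : MM (Fin N)) := fun k =>
      continuous_subtype_val.comp (continuous_apply k)
    exact ((((h i).mul (h j)).sub ((h j).mul (h i))).norm).pow 2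
  · exact continuous_const

lemma cmU_nonneg (V : Fin d → UG (Fin N)) : 0 ≤ cmU V := by
  unfold cmU
  refine Finset.sum_nonneg fun i _ => Finset.sum_nonneg fun j _ => ?_
  split_ifs
  · positivity
  · exact le_rfl

lemma cmU_ge_lt (V : Fin d → UG (Fin N)) {i j : Fin d} (hij : i < j) :
    ‖(V i : MM (Fin N)) * V j - V j * V i‖ ^ 2 ≤ cmU V := by
  unfold cmU
  have h0 : ∀ i j : Fin d, 0 ≤ (if i < j then ‖(V i : MM (Fin N)) * V j - V j * V i‖ ^ 2 else 0) := by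
    intro i j
    split_ifs
    · positivity
    · exact le_rfl
  refine le_trans ?_ (Finset.single_le_sum (f := fun i : Fin d => ∑ j : Fin d,
    if i < j then ‖(V i : MM (Fin N)) * V j - V j * V i‖ ^ 2 else 0)
    (fun i _ => Finset.sum_nonneg fun j _ => h0 i j) (Finset.mem_univ i))
  refine le_trans ?_ (Finset.single_le_sum (f := fun j : Fin d =>
    if i < j then ‖(V i : MM (Fin N)) * V j - V j * V i‖ ^ 2 else 0)
    (fun j _ => h0 i j) (Finset.mem_univ j))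
  simp only [if_pos hij]
  exact le_rfl

lemma cmU_ge (V : Fin d → UG (Fin N)) {i j : Fin d} (hij : i ≠ j) :
    ‖(V i : MM (Fin N)) * V j - V j * V i‖ ^ 2 ≤ cmU V := by
  rcases lt_or_gt_of_ne hij with h | h
  · exact cmU_ge_lt V h
  · have := cmU_ge_lt V h
    rwa [← norm_neg, neg_sub] at this

/-- the function which is integrated -/
def Ph (N d : ℕ) (a a₁ t : ℝ) (i : Fin d) (V : Fin d → UG (Fin N)) : ℝ :=
  chi a a₁ (‖trace (V i : MM (Fin N)) / N‖ ^ 2) * Real.exp (-(t * cmU V))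

lemma Ph_cont (a a₁ t : ℝ) (i : Fin d) : Continuous (Ph N d a a₁ t i) := by
  unfold Ph
  refine Continuous.mul ?_ (Real.continuous_exp.comp (continuous_const.mul cmU_cont).neg)
  refine (chi_cont a a₁).comp (Continuous.pow (Continuous.norm (Continuous.div_const ?_ _)) 2)
  exact Continuous.matrix_trace (continuous_subtype_val.comp (continuous_apply i))

lemma sc_norm (hN : 0 < N) {z : UG (Fin N)} {c : ℂ} (h : (z : MM (Fin N)) = c • 1) : ‖c‖ = 1 := by
  have h1 := det_norm z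
  rw [h, det_smul, det_one, mul_one, norm_pow, Fintype.card_fin] at h1
  exact (pow_eq_one_iff_of_nonneg (norm_nonneg _) hN.ne').1 h1

lemma Ph_inv (hN : 0 < N) (a a₁ t : ℝ) (i : Fin d) (z V : Fin d → UG (Fin N))
    (hz : ∀ i, IsSc (z i)) : Ph N d a a₁ t i (z * V) = Ph N d a a₁ t i V := by
  choose c hc using hz
  have hcn : ∀ i, ‖c i‖ = 1 := fun i => sc_norm hN (hc i)
  have hzV : ∀ i, (((z * V) i : UG (Fin N)) : MM (Fin N)) = c i • (V i : MM (Fin N)) := by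
    intro i
    rw [Pi.mul_apply, ug_mul, hc i, smul_mul_assoc, one_mul]
  have h1 : trace (((z * V) i : UG (Fin N)) : MM (Fin N)) = c i * trace (V i : MM (Fin N)) := by
    rw [hzV, trace_smul, smul_eq_mul]
  have h2 : cmU (z * V) = cmU V := by
    unfold cmU
    refine Finset.sum_congr rfl fun i _ => Finset.sum_congr rfl fun j _ => ?_
    split_ifs
    · have e1 : (((z * V) i : UG (Fin N)) : MM (Fin N)) * (((z * V) j : UG (Fin N)) : MM (Fin N)) -
          (((z * V) j : UG (Fin N)) : MM (Fin N)) * (((z * V) i : UG (Fin N)) : MM (Fin N)) =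
          (c i * c j) • ((V i : MM (Fin N)) * V j - V j * V i) := by
        rw [hzV, hzV, smul_mul_smul_comm, smul_mul_smul_comm, smul_sub, mul_comm (c j) (c i)]
      rw [e1, norm_smul, norm_mul, hcn, hcn, one_mul, one_mul]
    · rfl
  unfold Ph
  rw [h1, h2, mul_div_assoc, norm_mul, hcn, one_mul]

lemma Far_meas (τ a : ℝ) (i₀ : Fin d) : MeasurableSet (Far d N τ a i₀) := by
  have hc : ∀ k : Fin d, Continuous fun P : Fin d → UG (Fin N) => (P k : MM (Fin N)) := fun k =>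
    continuous_subtype_val.comp (continuous_apply k)
  have h1 : Far d N τ a i₀ = (⋂ i : Fin d, ⋂ j : Fin d, {V : Fin d → UG (Fin N) |
      ‖(V i : MM (Fin N)) * V j - V j * V i‖ < τ * Real.sqrt N}) ∩
      {V : Fin d → UG (Fin N) | ‖trace (V i₀ : MM (Fin N))‖ ^ 2 ≤ a * (N : ℝ) ^ 2} := by
    ext V
    simp only [Far, Set.mem_ofPred_eq, Set.mem_inter_iff, Set.mem_iInter]
  rw [h1]
  refine MeasurableSet.inter (MeasurableSet.iInter fun i => MeasurableSet.iInter fun j => ?_) ?_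
  · exact (isOpen_lt ((((hc i).mul (hc j)).sub ((hc j).mul (hc i))).norm)
      continuous_const).measurableSet
  · exact (isClosed_le (((Continuous.matrix_trace (hc i₀)).norm).pow 2)
      continuous_const).measurableSet

lemma Ph_le (hN : 0 < N) {a a₁ t τ : ℝ} (ha : a < a₁) (ht : 0 ≤ t) (hτ : 0 < τ) (i : Fin d)
    (V : Fin d → UG (Fin N)) :
    Ph N d a a₁ t i V ≤ (Far d N τ a₁ i).indicator 1 V + Real.exp (-(t * (τ ^ 2 * N))) := by
  have hNr : (0 : ℝ) < N := by exact_mod_cast hN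
  have hexp : Real.exp (-(t * cmU V)) ≤ 1 :=
    Real.exp_le_one_iff.2 (by have := mul_nonneg ht (cmU_nonneg V); linarith)
  by_cases hV : V ∈ Far d N τ a₁ i
  · rw [Set.indicator_of_mem hV]
    unfold Ph
    have h1 := mul_le_mul (chi_le_one a a₁ (‖trace (V i : MM (Fin N)) / N‖ ^ 2)) hexp
      (Real.exp_pos _).le zero_le_one
    have h2 := Real.exp_pos (-(t * (τ ^ 2 * N)))
    simp only [Pi.one_apply]
    linarith
  · rw [Set.indicator_of_notMem hV, zero_add]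
    have h1 : (∃ i j, τ * Real.sqrt N ≤ ‖(V i : MM (Fin N)) * V j - V j * V i‖) ∨
        a₁ * (N : ℝ) ^ 2 ≤ ‖trace (V i : MM (Fin N))‖ ^ 2 := by
      by_contra hcon
      push Not at hcon
      exact hV ⟨hcon.1, hcon.2.le⟩
    rcases h1 with ⟨j, k, h1⟩ | h1
    · have hs : 0 < τ * Real.sqrt N := mul_pos hτ (Real.sqrt_pos.2 hNr)
      have hjk : j ≠ k := by
        rintro rfl
        rw [sub_self, norm_zero] at h1
        linarith
      have h2 : τ ^ 2 * N ≤ cmU V := by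
        refine le_trans ?_ (cmU_ge V hjk)
        have := pow_le_pow_left₀ hs.le h1 2
        rwa [mul_pow, Real.sq_sqrt hNr.le] at this
      unfold Ph
      calc chi a a₁ (‖trace (V i : MM (Fin N)) / N‖ ^ 2) * Real.exp (-(t * cmU V))
          ≤ 1 * Real.exp (-(t * cmU V)) :=
            mul_le_mul_of_nonneg_right (chi_le_one _ _ _) (Real.exp_pos _).le
        _ ≤ _ := by
            rw [one_mul]
            refine Real.exp_le_exp.2 (neg_le_neg (mul_le_mul_of_nonneg_left h2 ht))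
    · unfold Ph
      rw [chi_zero ha, zero_mul]
      · exact (Real.exp_pos _).le
      · rw [norm_div, Complex.norm_natCast, div_pow, le_div_iff₀ (by positivity)]
        exact h1

lemma int_Ph_le (hN : 0 < N) {a a₁ t τ : ℝ} (ha : a < a₁) (ht : 0 ≤ t) (hτ : 0 < τ) (i : Fin d) :
    ∫ V, Ph N d a a₁ t i V ∂Measure.pi (fun _ : Fin d => hm (Fin N)) ≤
      (hmd d N).real (Far d N τ a₁ i) + Real.exp (-(t * (τ ^ 2 * N))) := by
  have h1 : Integrable (Ph N d a a₁ t i) (Measure.pi (fun _ : Fin d => hm (Fin N))) :=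
    (Ph_cont a a₁ t i).integrable_of_hasCompactSupport (HasCompactSupport.of_compactSpace _)
  have h2 : Integrable (fun V => (Far d N τ a₁ i).indicator (1 : (Fin d → UG (Fin N)) → ℝ) V)
      (Measure.pi (fun _ : Fin d => hm (Fin N))) :=
    (integrable_const (1 : ℝ)).indicator (Far_meas τ a₁ i)
  calc ∫ V, Ph N d a a₁ t i V ∂Measure.pi (fun _ : Fin d => hm (Fin N))
      ≤ ∫ V, ((Far d N τ a₁ i).indicator (1 : (Fin d → UG (Fin N)) → ℝ) V +
          Real.exp (-(t * (τ ^ 2 * N)))) ∂Measure.pi (fun _ : Fin d => hm (Fin N)) :=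
        integral_mono h1 (h2.add (integrable_const _)) fun V => Ph_le hN ha ht hτ i V
    _ = _ := by
        rw [integral_add h2 (integrable_const _), integral_const, probReal_univ, one_smul,
          integral_indicator_one (Far_meas τ a₁ i)]

/-- the estimate of the exponents -/
lemma exps2 {s y M m c C c₂ Q Y d : ℝ} (hs : 0 ≤ s) (hy : s ≤ y) (hM : 0 ≤ M) (hm : 1 ≤ m)
    (hc : 0 < c) (hMm : M / 2 ≤ m * (c / 8)) (h1 : C + Q + c₂ + 2 ≤ c / 4 * s)
    (h2 : c₂ + 2 ≤ s) (hY : Y = d / 4 + c / 2 + 1) {k : ℝ}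
    (hk : -((d / 2 + c) * k) ≤ -(d / 4 + 3 * c / 8) * s + Q) :
    -((m - 1) / 2 * y) * M + m * (C - (d / 2 + c) * k) ≤
      -m + -(m * (c₂ + (M / 2 + d / 4) * s)) + -m ∧
    -((m - 1) / 2 * y) * M + -(m * (Y * s)) ≤
      -m + -(m * (c₂ + (M / 2 + d / 4) * s)) + -m := by
  have t1 : -((m - 1) / 2 * y) * M ≤ -(m / 2) * (M * s) + M / 2 * s := by
    have e1 : (m - 1) * M * s ≤ (m - 1) * M * y :=
      mul_le_mul_of_nonneg_left hy (mul_nonneg (by linarith) hM)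
    linarith
  have t2 : M / 2 * s ≤ m * (c / 8) * s := mul_le_mul_of_nonneg_right hMm hs
  have hm0 : 0 ≤ m := by linarith
  constructor
  · have t3 := mul_le_mul_of_nonneg_left hk hm0
    have t4 := mul_le_mul_of_nonneg_left h1 hm0
    linarith
  · have t4 := mul_le_mul_of_nonneg_left h2 hm0
    have t5 : 0 ≤ m * c * s := by positivity
    rw [hY]
    linarith

/-- The lines around the torus are close to scalars. -/
theorem weak_break (d l : ℕ) [NeZero l] (hd : 3 ≤ d) {a : ℝ} (ha : a < 1) {C₁ : ℝ}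
    (hC₁ : 1 ≤ C₁) : ∃ (b₁ : ℝ) (N₁ : ℕ), 1 ≤ N₁ ∧ ∀ (N n : ℕ) (G : Subgroup (UG (Fin N)))
      [MeasurableSpace G] [BorelSpace G] [CompactSpace G] [SecondCountableTopology G]
      (μ : Measure G) [IsProbabilityMeasure μ] [μ.IsMulLeftInvariant] [μ.IsMulRightInvariant]
      [μ.IsInvInvariant] (L : LD G N n), N₁ ≤ N →
      (∀ g : G, L.rho g = ((g : UG (Fin N)) : MM (Fin N))) → HG L →
      (∀ U : UG (Fin N), (U : MM (Fin N)).det = 1 → U ∈ G) →
      (∀ ρ : ℝ, 0 < ρ → ρ ≤ 1 → (ρ / C₁) ^ (N ^ 2) ≤ μ.real {g | LN.D1 L g ≤ ρ}) →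
      ∀ b, b₁ ≤ b → ∀ i : Fin d, ∃ W : (Ed d l → G) → ℝ, Continuous W ∧ (∀ U, 0 ≤ W U) ∧
        (∀ U, ‖trace (L.rho (pol U i)) / N‖ ^ 2 ≤ a → 1 ≤ W U) ∧
        EX μ L (N * b) W ≤ Real.exp (-(N : ℝ) ^ 2) := by
  obtain ⟨a', ha'⟩ : ∃ a', a' = max a 0 := ⟨_, rfl⟩
  have haa' : a ≤ a' := by rw [ha']; exact le_max_left _ _
  have ha'1 : a' < 1 := by rw [ha']; exact max_lt ha one_pos
  obtain ⟨a₁, ha₁⟩ : ∃ a₁, a₁ = (a' + 1) / 2 := ⟨_, rfl⟩
  have h01 : a' < a₁ := by rw [ha₁]; linarith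
  have h11 : a₁ < 1 := by rw [ha₁]; linarith
  obtain ⟨c, C, N₀, τ₀, hc, hτ₀, hτ₀1, hN₀, hfar⟩ := far_le d hd a₁ h11
  obtain ⟨M, hM⟩ : ∃ M : ℕ, M = (d - 1) * (l ^ d - 1) := ⟨_, rfl⟩
  obtain ⟨Y, hY⟩ : ∃ Y : ℝ, Y = (d : ℝ) / 4 + c / 2 + 1 := ⟨_, rfl⟩
  have hdr : (3 : ℝ) ≤ d := by exact_mod_cast hd
  have hY0 : 0 < Y := by rw [hY]; positivity
  have hlr : (0 : ℝ) < l := by exact_mod_cast NeZero.pos l
  obtain ⟨η, hη⟩ : ∃ η : ℝ, η = c / (2 * (d + 2 * c)) := ⟨_, rfl⟩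
  have hη0 : 0 < η := by rw [hη]; positivity
  obtain ⟨q, hq⟩ : ∃ q : ℝ, q = Real.log (4 * (l : ℝ) ^ 2 * Y / η) := ⟨_, rfl⟩
  obtain ⟨Q, hQ⟩ : ∃ Q : ℝ, Q = ((d : ℝ) / 4 + c / 2) * q := ⟨_, rfl⟩
  obtain ⟨c₂, hc₂⟩ : ∃ c₂ : ℝ, c₂ = c2 C₁ d l := ⟨_, rfl⟩
  have hc₂0 : 0 ≤ c₂ := by rw [hc₂]; exact c2_nonneg hC₁ d l
  obtain ⟨S, hS⟩ : ∃ S : ℝ, S = 4 / c * |C + Q + c₂ + 2| + c₂ + 2 := ⟨_, rfl⟩
  have hS1 : c₂ + 2 ≤ S := by
    rw [hS]
    have : 0 ≤ 4 / c * |C + Q + c₂ + 2| := by positivity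
    linarith
  have hS2 : C + Q + c₂ + 2 ≤ c / 4 * S := by
    have h1 : c / 4 * (4 / c * |C + Q + c₂ + 2|) = |C + Q + c₂ + 2| := by
      field_simp
    have h2 := le_abs_self (C + Q + c₂ + 2)
    have h3 : 0 ≤ c / 4 * (c₂ + 2) := by positivity
    rw [hS]
    calc C + Q + c₂ + 2 ≤ c / 4 * (4 / c * |C + Q + c₂ + 2|) + c / 4 * (c₂ + 2) := by
          rw [h1]; linarith
      _ = _ := by ring
  refine ⟨Real.exp S + (8 * (l : ℝ) ^ 2 * Y / τ₀ ^ 2) ^ 2, N₀ + ⌈4 * (M : ℝ) / c⌉₊, by omega,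
    fun N n G _ _ _ _ μ _ _ _ _ L hN hrho hHG hSU hball b hb i => ?_⟩
  have hNpos : 0 < N := by omega
  have hNr : (1 : ℝ) ≤ N := by exact_mod_cast hNpos
  have hm1 : (1 : ℝ) ≤ (N : ℝ) ^ 2 := one_le_pow₀ hNr
  have hexpS : 0 < Real.exp S := Real.exp_pos _
  have hbS : Real.exp S ≤ b := by
    have : 0 ≤ (8 * (l : ℝ) ^ 2 * Y / τ₀ ^ 2) ^ 2 := by positivity
    linarith
  have hb0 : 0 < b := by linarith
  obtain ⟨s, hs⟩ : ∃ s, s = Real.log b := ⟨_, rfl⟩
  have hSs : S ≤ s := by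
    rw [hs]
    exact (Real.le_log_iff_exp_le hb0).2 hbS
  have hs0 : 0 < s := by linarith
  have hb1 : 1 ≤ b := by
    refine le_trans ?_ hbS
    exact Real.one_le_exp (by linarith)
  -- the scale
  have hT0 : 0 < 4 * (l : ℝ) ^ 2 * Y * s / b := by positivity
  obtain ⟨τ, hτ⟩ : ∃ τ, τ = Real.sqrt (4 * (l : ℝ) ^ 2 * Y * s / b) := ⟨_, rfl⟩
  have hτ0 : 0 < τ := by rw [hτ]; exact Real.sqrt_pos.2 hT0
  have hτ2 : τ ^ 2 = 4 * (l : ℝ) ^ 2 * Y * s / b := by rw [hτ]; exact Real.sq_sqrt hT0.le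
  have hττ : τ ≤ τ₀ := by
    have h1 : τ ^ 2 ≤ τ₀ ^ 2 := by
      rw [hτ2]
      have h2 : s ≤ 2 * Real.sqrt b := by
        have h3 := Real.log_le_self (Real.sqrt_nonneg b)
        rw [Real.log_sqrt hb0.le] at h3
        rw [hs]; linarith
      have h4 : 8 * (l : ℝ) ^ 2 * Y / τ₀ ^ 2 ≤ Real.sqrt b := by
        refine Real.le_sqrt_of_sq_le ?_
        linarith
      have h5 : 0 < Real.sqrt b := Real.sqrt_pos.2 hb0
      have h6 : b = Real.sqrt b * Real.sqrt b := (Real.mul_self_sqrt hb0.le).symm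
      rw [div_le_iff₀ (by positivity)] at h4
      rw [div_le_iff₀ hb0]
      calc 4 * (l : ℝ) ^ 2 * Y * s ≤ 4 * (l : ℝ) ^ 2 * Y * (2 * Real.sqrt b) := by gcongr
        _ = 8 * (l : ℝ) ^ 2 * Y * Real.sqrt b := by ring
        _ ≤ Real.sqrt b * τ₀ ^ 2 * Real.sqrt b := by gcongr
        _ = τ₀ ^ 2 * (Real.sqrt b * Real.sqrt b) := by ring
        _ = τ₀ ^ 2 * b := by rw [← h6]
    exact (pow_le_pow_iff_left₀ hτ0.le hτ₀.le two_ne_zero).1 h1
  have hlogτ : Real.log (1 / τ) = (s - Real.log (4 * (l : ℝ) ^ 2 * Y * s)) / 2 := by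
    have h1 : Real.log (τ ^ 2) = Real.log (4 * (l : ℝ) ^ 2 * Y * s) - s := by
      rw [hτ2, Real.log_div (by positivity) hb0.ne', hs]
    rw [Real.log_pow] at h1
    push_cast at h1
    rw [one_div, Real.log_inv]
    linarith
  have hlog2 : Real.log (4 * (l : ℝ) ^ 2 * Y * s) ≤ q + η * s := by
    have h1 : 4 * (l : ℝ) ^ 2 * Y * s = (4 * (l : ℝ) ^ 2 * Y / η) * (η * s) := by
      field_simp
    rw [h1, Real.log_mul (by positivity) (by positivity), ← hq]
    have := Real.log_le_self (show 0 ≤ η * s by positivity)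
    linarith
  have hk : -(((d : ℝ) / 2 + c) * Real.log (1 / τ)) ≤ -((d : ℝ) / 4 + 3 * c / 8) * s + Q := by
    rw [hlogτ, hQ]
    have h1 := mul_le_mul_of_nonneg_left hlog2 (show 0 ≤ ((d : ℝ) / 2 + c) / 2 by positivity)
    have h2 : ((d : ℝ) / 2 + c) / 2 * (η * s) = c / 8 * s := by
      rw [hη]
      field_simp
      ring
    linarith
  have hMm : (M : ℝ) / 2 ≤ (N : ℝ) ^ 2 * (c / 8) := by
    have h1 : 4 * (M : ℝ) / c ≤ N := by
      refine (Nat.le_ceil _).trans ?_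
      have : ⌈4 * (M : ℝ) / c⌉₊ ≤ N := by omega
      exact_mod_cast this
    rw [div_le_iff₀ hc] at h1
    have h2 : (N : ℝ) ≤ (N : ℝ) ^ 2 := by nlinarith
    nlinarith
  obtain ⟨hy1, -⟩ := log_one_add hb1
  rw [← hs] at hy1
  have hex := exps2 (s := s) (y := Real.log (1 + b)) (M := (M : ℝ)) (m := (N : ℝ) ^ 2) (c := c)
    (C := C) (c₂ := c₂) (Q := Q) (Y := Y) (d := (d : ℝ)) hs0.le hy1 (Nat.cast_nonneg _) hm1 hc hMm
    (hS2.trans (mul_le_mul_of_nonneg_left hSs (by positivity))) (hS1.trans hSs) hY hk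
  -- the function
  refine ⟨fun U => chi a' a₁ (‖trace (L.rho (pol U i)) / N‖ ^ 2), ?_, fun U => chi_nonneg _ _ _,
    fun U hU => chi_one h01 (hU.trans haa'), ?_⟩
  · refine (chi_cont a' a₁).comp (Continuous.pow (Continuous.norm (Continuous.div_const ?_ _)) 2)
    exact Continuous.matrix_trace (L.cont.comp (pol_cont i))
  obtain ⟨W, hW⟩ : ∃ W : (Fin d → G) → ℝ, W = fun P => chi a' a₁ (‖trace (L.rho (P i)) / N‖ ^ 2) :=
    ⟨_, rfl⟩
  have hWc : Continuous W := by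
    rw [hW]
    refine (chi_cont a' a₁).comp (Continuous.pow (Continuous.norm (Continuous.div_const ?_ _)) 2)
    exact Continuous.matrix_trace (L.cont.comp (continuous_apply i))
  have hW0 : ∀ P, 0 ≤ W P := by
    intro P; rw [hW]; exact chi_nonneg _ _ _
  have hup := tor_upper μ (L := L) (l := l) hNpos hHG hb0.le hWc hW0
  rw [← hM] at hup
  have hlo := lower_exp μ (L := L) (d := d) (l := l) hC₁ hNpos hball hb1
  rw [← hM, ← hc₂, ← hs] at hlo
  have hI : ∫ P, W P * Real.exp (-(N * b / (4 * (l : ℝ) ^ 2) * cms L P)) ∂Measure.pi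
      (fun _ : Fin d => μ) = ∫ V, Ph N d a' a₁ (N * b / (4 * (l : ℝ) ^ 2)) i V
        ∂Measure.pi (fun _ : Fin d => hm (Fin N)) := by
    rw [← conv μ hNpos hSU (Ph_cont a' a₁ _ i) (fun z V hz => Ph_inv hNpos a' a₁ _ i z V hz)]
    refine integral_congr_ae (Eventually.of_forall fun P => ?_)
    simp only [hW, Ph, cms, cmU, hrho]
  have hJ : ∫ P, W P * Real.exp (-(N * b / (4 * (l : ℝ) ^ 2) * cms L P)) ∂Measure.pi
      (fun _ : Fin d => μ) ≤ Real.exp ((N : ℝ) ^ 2 * (C - (d / 2 + c) * Real.log (1 / τ))) +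
        Real.exp (-((N : ℝ) ^ 2 * (Y * s))) := by
    rw [hI]
    refine (int_Ph_le hNpos h01 (by positivity) hτ0 i).trans ?_
    refine add_le_add (hfar N (by omega) τ hτ0 hττ i) (le_of_eq ?_)
    congr 1
    rw [hτ2]
    field_simp
  have hZ : 0 < Zt μ L (N * b) (fun _ : Ed d l → G => 1) := Zt_pos μ _
  have hpow : Real.exp (-(((N : ℝ) ^ 2 - 1) / 2 * Real.log (1 + b))) ^ M =
      Real.exp (-(((N : ℝ) ^ 2 - 1) / 2 * Real.log (1 + b)) * M) := by
    rw [← Real.exp_nat_mul, mul_comm]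
  have hmain : Zt μ L (N * b) (fun U : Ed d l → G => W (fun k => pol U k)) ≤
      Real.exp (-(N : ℝ) ^ 2) * Zt μ L (N * b) (fun _ : Ed d l → G => 1) := by
    refine hup.trans ?_
    rw [hpow]
    refine (mul_le_mul_of_nonneg_left hJ (Real.exp_pos _).le).trans ?_
    refine le_trans ?_ (mul_le_mul_of_nonneg_left hlo (Real.exp_pos _).le)
    rw [mul_add, ← Real.exp_add, ← Real.exp_add, ← Real.exp_add]
    refine (add_le_add (Real.exp_le_exp.2 hex.1) (Real.exp_le_exp.2 hex.2)).trans ?_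
    rw [Real.exp_add _ (-(N : ℝ) ^ 2), ← two_mul]
    have h1 : 2 * Real.exp (-(N : ℝ) ^ 2) ≤ 1 := by
      have h2 : Real.exp (-(N : ℝ) ^ 2) ≤ Real.exp (-1) := Real.exp_le_exp.2 (by linarith)
      have h3 : Real.exp (-1) ≤ 1 / 2 := by
        rw [Real.exp_neg, one_div]
        refine inv_anti₀ two_pos ?_
        have := Real.add_one_le_exp (1 : ℝ)
        linarith
      linarith
    have h2 := Real.exp_pos (-(N : ℝ) ^ 2 + -((N : ℝ) ^ 2 * (c₂ + ((M : ℝ) / 2 + d / 4) * s)))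
    nlinarith
  unfold EX
  rw [div_le_iff₀ hZ]
  refine le_trans (le_of_eq ?_) hmain
  rw [hW]

end

end Pool.Agent.T2H01.EK2
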