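import Mathlib
import Pool.Agent.T2H01.EK.Strong
import Pool.Agent.T2H01.EK.FreeS
import Pool.Agent.TH618.YM.Cartan

/-!
# The limit `N → ∞` at strong coupling: the master field and the free energy
-/

open MeasureTheory Matrix Filter
open scoped Matrix.Norms.Frobenius Topology
open Pool.Agent.H906R3.YM Pool.Agent.W793.YM Pool.Agent.TH618.YM Pool.Agent.T2H01.YM

namespace Pool.Agent.T2H01.EK

set_option linter.unusedSectionVars false
set_option linter.unusedVariables false

noncomputable section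

section abs

variable {d : ℕ}

lemma apx_mono {l : ℕ} {b δ δ' : ℝ} {φ : List (Lp d) → ℂ} (h : Apx l b δ φ) (hd : δ ≤ δ') :
    Apx l b δ' φ :=
  { one := h.one
    bdd := h.bdd
    emp := h.emp
    equ := fun x k A r h1 h2 => (h.equ x k A r h1 h2).trans
      (mul_le_mul_of_nonneg_right hd (Nat.cast_nonneg _))
    neg := h.neg
    cnj := h.cnj }

/-- comparison of two functionals at `l = 1` -/
lemma comp_one {b δ : ℝ} (hb0 : 0 ≤ b) (hb : b * (20000 * d) ≤ 1) (hδ : 0 ≤ δ)
    {φ φ' : List (Lp d) → ℂ} (h : Apx 1 b δ φ) (h' : Apx 1 b δ φ') (s : List (Lp d)) :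
    ‖φ s - φ' s‖ ≤ 600 * δ * WT s := by
  have h1 := comp_red hb0 hb hδ h h' s
  rwa [res_pos fun a _ => cl_one a] at h1

/-- the functionals of the model with gauge group `U(N)` at `l = 1` and its free energy -/
structure Mdl (d N : ℕ) (φ : ℝ → List (Lp d) → ℂ) (f : ℝ → ℝ) : Prop where
  apx : ∀ b, Apx 1 b (2 / (N : ℝ) ^ 2) (φ b)
  opn : ∀ b : ℝ, 0 ≤ b → b * (20000 * d) ≤ 1 → ∀ a : Lp d, ¬Cl 0 a →
    ‖φ b [a]‖ ≤ 1200 / (N : ℝ) ^ 2 * 8 ^ a.2.length
  bas : ∀ b x y w, φ b [(x, w)] = φ b [(y, w)]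
  zer : f 0 = 0
  hd : ∀ b, HasDerivAt f (-(∑ i, ∑ j,
    if i < j then (1 - (φ b [((0 : Fin d → ℤ), sq4 i j)]).re) else 0)) b

/-- the plaquettes of two models at `l = 1` -/
lemma plq_dist {N M : ℕ} (hN : 0 < N) (hM : N ≤ M) {φ φ' : ℝ → List (Lp d) → ℂ} {f f' : ℝ → ℝ}
    (hm : Mdl d N φ f) (hm' : Mdl d M φ' f') {b : ℝ} (hb0 : 0 ≤ b) (hb : b * (20000 * d) ≤ 1)
    (i j : Fin d) :
    |(φ b [((0 : Fin d → ℤ), sq4 i j)]).re - (φ' b [((0 : Fin d → ℤ), sq4 i j)]).re| ≤
      52800 / (N : ℝ) ^ 2 := by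
  have hN' : (0 : ℝ) < N := by exact_mod_cast hN
  have hM' : (N : ℝ) ≤ M := by exact_mod_cast hM
  have hd : (0 : ℝ) ≤ 2 / (N : ℝ) ^ 2 := by positivity
  have hNM : 2 / (M : ℝ) ^ 2 ≤ 2 / (N : ℝ) ^ 2 := by gcongr
  have h := comp_one hb0 hb hd (hm.apx b) (apx_mono (hm'.apx b) hNM)
    [((0 : Fin d → ℤ), sq4 i j)]
  rw [WT_sq4] at h
  rw [← Complex.sub_re]
  refine (Complex.abs_re_le_norm _).trans (h.trans (le_of_eq ?_))
  ring

/-- the free energies of two models at `l = 1` -/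
lemma free_mdl {N M : ℕ} (hN : 0 < N) (hM : N ≤ M) {φ φ' : ℝ → List (Lp d) → ℂ} {f f' : ℝ → ℝ}
    (hm : Mdl d N φ f) (hm' : Mdl d M φ' f') {b : ℝ} (hb0 : 0 ≤ b)
    (hb : b * (20000 * d) ≤ 1) :
    |f b - f' b| ≤ 10 ^ 6 * (d : ℝ) ^ 2 * b / (N : ℝ) ^ 2 := by
  have hNr : (0 : ℝ) < N := by exact_mod_cast hN
  have hbd : ∀ t ∈ Set.Icc (0 : ℝ) b, ‖∑ i, ∑ j,
      (if i < j then ((φ t [((0 : Fin d → ℤ), sq4 i j)]).re -
        (φ' t [((0 : Fin d → ℤ), sq4 i j)]).re) else 0)‖ ≤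
        10 ^ 6 * (d : ℝ) ^ 2 / (N : ℝ) ^ 2 := by
    intro t ht
    have ht2 : t * (20000 * d) ≤ 1 :=
      (mul_le_mul_of_nonneg_right ht.2 (by positivity)).trans hb
    refine (norm_sum_le _ _).trans ?_
    have h2 : ∀ i ∈ (Finset.univ : Finset (Fin d)), ‖∑ j, (if i < j then
        ((φ t [((0 : Fin d → ℤ), sq4 i j)]).re -
          (φ' t [((0 : Fin d → ℤ), sq4 i j)]).re) else 0)‖ ≤
        (d : ℝ) * (52800 / (N : ℝ) ^ 2) := by
      intro i _
      refine (norm_sum_le _ _).trans ?_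
      have h3 : ∀ j ∈ (Finset.univ : Finset (Fin d)), ‖(if i < j then
          ((φ t [((0 : Fin d → ℤ), sq4 i j)]).re -
            (φ' t [((0 : Fin d → ℤ), sq4 i j)]).re) else 0 : ℝ)‖ ≤
          52800 / (N : ℝ) ^ 2 := by
        intro j _
        split_ifs with h
        · rw [Real.norm_eq_abs]
          exact plq_dist hN hM hm hm' ht.1 ht2 i j
        · rw [norm_zero]; positivity
      refine (Finset.sum_le_sum h3).trans (le_of_eq ?_)
      rw [Finset.sum_const, Finset.card_univ, Fintype.card_fin, nsmul_eq_mul]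
    refine (Finset.sum_le_sum h2).trans ?_
    rw [Finset.sum_const, Finset.card_univ, Fintype.card_fin, nsmul_eq_mul]
    have h4 : (d : ℝ) * ((d : ℝ) * (52800 / (N : ℝ) ^ 2)) =
        52800 * (d : ℝ) ^ 2 / (N : ℝ) ^ 2 := by
      ring
    rw [h4]
    refine div_le_div_of_nonneg_right ?_ (by positivity)
    nlinarith [sq_nonneg (d : ℝ)]
  have hder : ∀ t : ℝ, HasDerivAt (fun b => f b - f' b) (∑ i, ∑ j,
      (if i < j then ((φ t [((0 : Fin d → ℤ), sq4 i j)]).re -
        (φ' t [((0 : Fin d → ℤ), sq4 i j)]).re) else 0)) t := by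
    intro t
    refine ((hm.hd t).sub (hm'.hd t)).congr_deriv ?_
    simp only [← Finset.sum_neg_distrib, ← Finset.sum_sub_distrib]
    refine Finset.sum_congr rfl fun i _ => Finset.sum_congr rfl fun j _ => ?_
    split_ifs
    · ring
    · ring
  have h := Convex.norm_image_sub_le_of_norm_hasDerivWithin_le
    (f := fun b => f b - f' b)
    (fun t ht => (hder t).hasDerivWithinAt) hbd (convex_Icc 0 b)
    (Set.left_mem_Icc.2 hb0) (Set.right_mem_Icc.2 hb0)
  simp only [hm.zer, hm'.zer, sub_zero] at h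
  rw [Real.norm_eq_abs, Real.norm_of_nonneg hb0] at h
  refine h.trans (le_of_eq ?_)
  ring

end abs

section exist

/-- A Haar probability measure is invariant under right multiplications. -/
lemma right_inv1 {H : Type*} [Group H] [TopologicalSpace H] [IsTopologicalGroup H]
    [CompactSpace H] [MeasurableSpace H] [BorelSpace H] (μ : Measure H)
    [IsProbabilityMeasure μ] [μ.IsHaarMeasure] : μ.IsMulRightInvariant := by
  refine ⟨fun g => ?_⟩
  have h1 : IsProbabilityMeasure (Measure.map (fun x => x * g) μ) :=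
    Measure.isProbabilityMeasure_map (measurable_mul_const g).aemeasurable
  exact Measure.isHaarMeasure_eq_of_isProbabilityMeasure _ _

/-- A Haar probability measure is invariant under the inversion. -/
lemma inv_inv1 {H : Type*} [Group H] [TopologicalSpace H] [IsTopologicalGroup H]
    [CompactSpace H] [MeasurableSpace H] [BorelSpace H] (μ : Measure H)
    [IsProbabilityMeasure μ] [μ.IsHaarMeasure] : μ.IsInvInvariant := by
  have hr := right_inv1 μ
  refine ⟨?_⟩
  have h1 : IsProbabilityMeasure μ.inv :=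
    Measure.isProbabilityMeasure_map measurable_inv.aemeasurable
  have h2 : μ.inv.IsMulLeftInvariant := inferInstance
  have h3 : μ.inv.IsHaarMeasure :=
    Measure.isHaarMeasure_of_isCompact_nonempty_interior μ.inv Set.univ isCompact_univ
      (by simp) (by simp) (by simp)
  exact Measure.isHaarMeasure_eq_of_isProbabilityMeasure _ _

/-- a model gives a family of functionals -/
lemma mdl_of {G : Type} [Group G] [TopologicalSpace G] [IsTopologicalGroup G] [CompactSpace G]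
    [SecondCountableTopology G] [MeasurableSpace G] [BorelSpace G] (μ : Measure G)
    [IsProbabilityMeasure μ] [μ.IsMulLeftInvariant] [μ.IsMulRightInvariant] [μ.IsInvInvariant]
    {N n : ℕ} (d : ℕ) (L : LD G N n) (hN : 0 < N) (hg : HG L) :
    Mdl d N (fun b => ph μ L 1 b) (fe μ L d 1) := by
  constructor
  · intro b
    exact ph_apx μ hN hg b
  · intro b hb0 hb a ha
    exact open_small μ hN hg hb0 hb ha
  · intro b x y w
    exact ph_one_base μ b x y w
  · unfold fe Zt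
    simp
  · intro b
    refine (fe_hd (d := d) (L := L) μ hN 1 b).congr_deriv ?_
    rw [Fintype.sum_unique, Nat.cast_one, one_pow, div_one]
    congr 1

lemma exists_mdl (d N : ℕ) (hN : 0 < N) : ∃ (φ : ℝ → List (Lp d) → ℂ) (f : ℝ → ℝ),
    Mdl d N φ f := by
  let G : Subgroup (UN N) := ⊤
  have hG : IsClosed (G : Set (UN N)) := by
    simp [G]
  have h0 : CompactSpace G := by
    have h1 : IsCompact (G : Set (UN N)) := hG.isCompact
    exact isCompact_iff_compactSpace.1 h1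
  have h00 : SecondCountableTopology (UN N) := TopologicalSpace.Subtype.secondCountableTopology _
  have h01 : SecondCountableTopology G := TopologicalSpace.Subtype.secondCountableTopology _
  obtain ⟨n, ⟨B⟩⟩ := exists_frame hG
  let _ : MeasurableSpace G := borel G
  have : BorelSpace G := ⟨rfl⟩
  let μ : Measure G := Measure.haarMeasure ⟨⟨Set.univ, isCompact_univ⟩, by simp⟩
  have : IsProbabilityMeasure μ := ⟨by
    show Measure.haarMeasure (⟨⟨Set.univ, isCompact_univ⟩, by simp⟩ :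
      TopologicalSpace.PositiveCompacts G) Set.univ = 1
    exact Measure.haarMeasure_self⟩
  have : μ.IsHaarMeasure := Measure.isHaarMeasure_haarMeasure _
  have := right_inv1 μ
  have := inv_inv1 μ
  have hg : HG B.toLD := hg_of B fun U _ => Subgroup.mem_top U
  exact ⟨_, _, mdl_of μ d B.toLD hN hg⟩

end exist

section compare

variable {G : Type} [Group G] [TopologicalSpace G] [IsTopologicalGroup G] [CompactSpace G]
  [SecondCountableTopology G] [MeasurableSpace G] [BorelSpace G] (μ : Measure G)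
  [IsProbabilityMeasure μ] [μ.IsMulLeftInvariant] [μ.IsMulRightInvariant] [μ.IsInvInvariant]
  {N n d : ℕ} {L : LD G N n}

/-- the plaquettes of two models -/
lemma ph_dist2 (hN : 0 < N) (hg : HG L) {M : ℕ} (hM : N ≤ M) {φ : ℝ → List (Lp d) → ℂ}
    {f : ℝ → ℝ} (hm : Mdl d M φ f) {b : ℝ} (hb0 : 0 ≤ b) (hb : b * (20000 * d) ≤ 1)
    (l : ℕ) [NeZero l] (x y : Fin d → ℤ) (i j : Fin d) :
    |(φ b [(y, sq4 i j)]).re - (ph μ L l b [(x, sq4 i j)]).re| ≤ 52800 / (N : ℝ) ^ 2 := by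
  have hN' : (0 : ℝ) < N := by exact_mod_cast hN
  have hM' : (N : ℝ) ≤ M := by exact_mod_cast hM
  have hd : (0 : ℝ) ≤ 2 / (N : ℝ) ^ 2 := by positivity
  have hNM : 2 / (M : ℝ) ^ 2 ≤ 2 / (N : ℝ) ^ 2 := by gcongr
  have h := comp_red hb0 hb hd (apx_mono (hm.apx b) hNM) (ph_apx (l := l) μ hN hg b)
    [(x, sq4 i j)]
  rw [res_pos (by
    intro a ha
    rw [List.mem_singleton] at ha
    rw [ha]
    exact cl_sq4 l x i j), WT_sq4, hm.bas b x y] at h
  rw [← Complex.sub_re]
  refine (Complex.abs_re_le_norm _).trans (h.trans (le_of_eq ?_))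
  ring

lemma dif2_hd (hN : 0 < N) {M : ℕ} {φ : ℝ → List (Lp d) → ℂ}
    {f : ℝ → ℝ} (hm : Mdl d M φ f) (l : ℕ) [NeZero l] (b : ℝ) :
    HasDerivAt (fun b => fe μ L d l b - f b) (∑ X : Fin d → ZMod l, (∑ i, ∑ j,
      if i < j then ((ph μ L l b [(lft X, sq4 i j)]).re - (φ b [((0 : Fin d → ℤ), sq4 i j)]).re)
        else 0) / (l : ℝ) ^ d) b := by
  have hl : (l : ℝ) ≠ 0 := by exact_mod_cast NeZero.ne l
  have h1 := (fe_hd (d := d) (L := L) μ hN l b).sub (hm.hd b)
  refine h1.congr_deriv ?_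
  have e2 : ∑ i, ∑ j, (if i < j then (1 - (φ b [((0 : Fin d → ℤ), sq4 i j)]).re)
      else 0) = ∑ X : Fin d → ZMod l, (∑ i, ∑ j,
        (if i < j then (1 - (φ b [((0 : Fin d → ℤ), sq4 i j)]).re) else 0)) /
          (l : ℝ) ^ d := by
    rw [Finset.sum_const, Finset.card_univ, Fintype.card_fun, ZMod.card, Fintype.card_fin,
      nsmul_eq_mul]
    push_cast
    field_simp
  rw [e2, neg_div, Finset.sum_div, ← Finset.sum_neg_distrib,
    ← Finset.sum_neg_distrib, ← Finset.sum_sub_distrib]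
  refine Finset.sum_congr rfl fun X _ => ?_
  rw [← neg_div, ← neg_div, div_sub_div_same]
  congr 1
  simp only [← Finset.sum_neg_distrib, ← Finset.sum_sub_distrib]
  refine Finset.sum_congr rfl fun i _ => Finset.sum_congr rfl fun j _ => ?_
  split_ifs
  · ring
  · ring

/-- the free energies of two models -/
lemma free_two (hN : 0 < N) (hg : HG L) {M : ℕ} (hM : N ≤ M) {φ : ℝ → List (Lp d) → ℂ}
    {f : ℝ → ℝ} (hm : Mdl d M φ f) {b : ℝ} (hb0 : 0 ≤ b) (hb : b * (20000 * d) ≤ 1)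
    (l : ℕ) [NeZero l] :
    |fe μ L d l b - f b| ≤ 10 ^ 6 * (d : ℝ) ^ 2 * b / (N : ℝ) ^ 2 := by
  have hNr : (0 : ℝ) < N := by exact_mod_cast hN
  have hl : (0 : ℝ) < l := by exact_mod_cast Nat.pos_of_ne_zero (NeZero.ne l)
  have hbd : ∀ t ∈ Set.Icc (0 : ℝ) b, ‖(∑ X : Fin d → ZMod l, (∑ i, ∑ j,
      if i < j then ((ph μ L l t [(lft X, sq4 i j)]).re -
        (φ t [((0 : Fin d → ℤ), sq4 i j)]).re) else 0) / (l : ℝ) ^ d)‖ ≤
        10 ^ 6 * (d : ℝ) ^ 2 / (N : ℝ) ^ 2 := by
    intro t ht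
    have ht2 : t * (20000 * d) ≤ 1 :=
      (mul_le_mul_of_nonneg_right ht.2 (by positivity)).trans hb
    have h1 : ∀ X : Fin d → ZMod l, ‖(∑ i, ∑ j,
      if i < j then ((ph μ L l t [(lft X, sq4 i j)]).re -
        (φ t [((0 : Fin d → ℤ), sq4 i j)]).re) else 0) / (l : ℝ) ^ d‖ ≤
        (d : ℝ) ^ 2 * (52800 / (N : ℝ) ^ 2) / (l : ℝ) ^ d := by
      intro X
      rw [norm_div, norm_pow, Real.norm_of_nonneg hl.le]
      refine div_le_div_of_nonneg_right ?_ (by positivity)
      refine (norm_sum_le _ _).trans ?_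
      have h2 : ∀ i ∈ (Finset.univ : Finset (Fin d)), ‖∑ j, if i < j then
          ((ph μ L l t [(lft X, sq4 i j)]).re -
            (φ t [((0 : Fin d → ℤ), sq4 i j)]).re) else 0‖ ≤
          (d : ℝ) * (52800 / (N : ℝ) ^ 2) := by
        intro i _
        refine (norm_sum_le _ _).trans ?_
        have h3 : ∀ j ∈ (Finset.univ : Finset (Fin d)), ‖if i < j then
            ((ph μ L l t [(lft X, sq4 i j)]).re -
              (φ t [((0 : Fin d → ℤ), sq4 i j)]).re) else 0‖ ≤
            52800 / (N : ℝ) ^ 2 := by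
          intro j _
          split_ifs with h
          · rw [Real.norm_eq_abs, abs_sub_comm]
            exact ph_dist2 μ hN hg hM hm ht.1 ht2 l _ _ i j
          · rw [norm_zero]; positivity
        refine (Finset.sum_le_sum h3).trans (le_of_eq ?_)
        rw [Finset.sum_const, Finset.card_univ, Fintype.card_fin, nsmul_eq_mul]
      refine (Finset.sum_le_sum h2).trans (le_of_eq ?_)
      rw [Finset.sum_const, Finset.card_univ, Fintype.card_fin, nsmul_eq_mul]
      ring
    refine (norm_sum_le _ _).trans ((Finset.sum_le_sum fun X _ => h1 X).trans ?_)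
    rw [Finset.sum_const, Finset.card_univ, Fintype.card_fun, ZMod.card, Fintype.card_fin,
      nsmul_eq_mul]
    push_cast
    have h4 : (l : ℝ) ^ d * ((d : ℝ) ^ 2 * (52800 / (N : ℝ) ^ 2) / (l : ℝ) ^ d) =
        52800 * (d : ℝ) ^ 2 / (N : ℝ) ^ 2 := by
      field_simp
    rw [h4]
    refine div_le_div_of_nonneg_right ?_ (by positivity)
    nlinarith [sq_nonneg (d : ℝ)]
  have h := Convex.norm_image_sub_le_of_norm_hasDerivWithin_le
    (f := fun b => fe μ L d l b - f b)
    (fun t ht => (dif2_hd (d := d) (L := L) μ hN hm l t).hasDerivWithinAt) hbd (convex_Icc 0 b)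
    (Set.left_mem_Icc.2 hb0) (Set.right_mem_Icc.2 hb0)
  have hz : fe μ L d l 0 - f 0 = 0 := by
    rw [hm.zer]
    unfold fe Zt
    simp
  simp only [hz, sub_zero] at h
  rw [Real.norm_eq_abs, Real.norm_of_nonneg hb0] at h
  refine h.trans (le_of_eq ?_)
  ring

end compare

/-- the master field -/
theorem master (d : ℕ) : ∃ (w : ℝ → List (Lp d) → ℂ) (F : ℝ → ℝ),
    (∀ b : ℝ, 0 ≤ b → b * (20000 * d) ≤ 1 → Apx 1 b 0 (w b) ∧ ∀ a, ¬Cl 0 a → w b [a] = 0) ∧
    ∀ (N n : ℕ) (G : Type) [Group G] [TopologicalSpace G] [IsTopologicalGroup G] [CompactSpace G]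
      [SecondCountableTopology G] [MeasurableSpace G] [BorelSpace G] (μ : Measure G)
      [IsProbabilityMeasure μ] [μ.IsMulLeftInvariant] [μ.IsMulRightInvariant] [μ.IsInvInvariant]
      (L : LD G N n), 0 < N → HG L → ∀ b : ℝ, 0 ≤ b → b * (20000 * d) ≤ 1 → ∀ (l : ℕ) [NeZero l],
      |fe μ L d l b - F b| ≤ 10 ^ 6 * (d : ℝ) ^ 2 * b / (N : ℝ) ^ 2 := by
  have hex : ∀ k : ℕ, ∃ (φ : ℝ → List (Lp d) → ℂ) (f : ℝ → ℝ), Mdl d (k + 1) φ f :=
    fun k => exists_mdl d (k + 1) (Nat.succ_pos k)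
  choose φ f hm using hex
  have hto : Tendsto (fun k : ℕ => 2 / ((k + 1 : ℕ) : ℝ) ^ 2) atTop (𝓝 0) := by
    have h1 : Tendsto (fun k : ℕ => ((k + 1 : ℕ) : ℝ)) atTop atTop :=
      tendsto_natCast_atTop_atTop.comp (tendsto_add_atTop_nat 1)
    exact Tendsto.const_div_atTop ((tendsto_pow_atTop two_ne_zero).comp h1) 2
  have hmono : ∀ k m : ℕ, k ≤ m → 2 / ((m + 1 : ℕ) : ℝ) ^ 2 ≤ 2 / ((k + 1 : ℕ) : ℝ) ^ 2 := by
    intro k m hkm
    have : ((k + 1 : ℕ) : ℝ) ≤ ((m + 1 : ℕ) : ℝ) := by exact_mod_cast Nat.succ_le_succ hkm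
    gcongr
  -- the functionals
  have hcau : ∀ b : ℝ, 0 ≤ b → b * (20000 * d) ≤ 1 → ∀ s, ∃ z, Tendsto (fun k => φ k b s) atTop (𝓝 z) := by
    intro b hb0 hb s
    apply cauchySeq_tendsto_of_complete
    refine cauchySeq_of_le_tendsto_0 (fun k : ℕ => 2 * (600 * (2 / ((k + 1 : ℕ) : ℝ) ^ 2) * WT s))
      ?_ ?_
    · intro k m K hk hm'
      have hK : (0 : ℝ) ≤ 2 / ((K + 1 : ℕ) : ℝ) ^ 2 := by positivity
      have h1 := comp_one hb0 hb hK (apx_mono ((hm k).apx b) (hmono K k hk))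
        (apx_mono ((hm K).apx b) le_rfl) s
      have h2 := comp_one hb0 hb hK (apx_mono ((hm m).apx b) (hmono K m hm'))
        (apx_mono ((hm K).apx b) le_rfl) s
      rw [dist_eq_norm]
      have e : φ k b s - φ m b s = (φ k b s - φ K b s) - (φ m b s - φ K b s) := by ring
      rw [e]
      refine (norm_sub_le _ _).trans ?_
      linarith
    · have h3 := ((hto.const_mul 600).mul_const (WT s)).const_mul 2
      simpa using h3
  -- the free energy
  have hfree : ∀ b : ℝ, 0 ≤ b → b * (20000 * d) ≤ 1 →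
      ∃ z, Tendsto (fun k => f k b) atTop (𝓝 z) := by
    intro b hb0 hb
    apply cauchySeq_tendsto_of_complete
    refine cauchySeq_of_le_tendsto_0 (fun k : ℕ => 2 * (10 ^ 6 * (d : ℝ) ^ 2 * b /
      ((k + 1 : ℕ) : ℝ) ^ 2)) ?_ ?_
    · intro k m K hk hm'
      have h1 := free_mdl (Nat.succ_pos K) (Nat.succ_le_succ hk) (hm K) (hm k) hb0 hb
      have h2 := free_mdl (Nat.succ_pos K) (Nat.succ_le_succ hm') (hm K) (hm m) hb0 hb
      rw [Real.dist_eq]
      have e : f k b - f m b = (f K b - f m b) - (f K b - f k b) := by ring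
      rw [e]
      refine (abs_sub _ _).trans ?_
      have e3 : 10 ^ 6 * (d : ℝ) ^ 2 * b / ((K.succ : ℕ) : ℝ) ^ 2 =
        10 ^ 6 * (d : ℝ) ^ 2 * b / ((K + 1 : ℕ) : ℝ) ^ 2 := rfl
      rw [e3] at h1 h2
      linarith
    · have h3 := (hto.const_mul (10 ^ 6 * (d : ℝ) ^ 2 * b))
      rw [mul_zero] at h3
      refine h3.congr fun k => ?_
      ring
  have hw : ∃ w : ℝ → List (Lp d) → ℂ, ∀ b : ℝ, 0 ≤ b → b * (20000 * d) ≤ 1 → ∀ s,
      Tendsto (fun k => φ k b s) atTop (𝓝 (w b s)) := by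
    classical
    refine ⟨fun b s => if h : 0 ≤ b ∧ b * (20000 * d) ≤ 1 then (hcau b h.1 h.2 s).choose else 0,
      fun b hb0 hb s => ?_⟩
    simp only [dif_pos (And.intro hb0 hb)]
    exact (hcau b hb0 hb s).choose_spec
  have hF : ∃ F : ℝ → ℝ, ∀ b : ℝ, 0 ≤ b → b * (20000 * d) ≤ 1 →
      Tendsto (fun k => f k b) atTop (𝓝 (F b)) := by
    classical
    refine ⟨fun b => if h : 0 ≤ b ∧ b * (20000 * d) ≤ 1 then (hfree b h.1 h.2).choose else 0,
      fun b hb0 hb => ?_⟩
    simp only [dif_pos (And.intro hb0 hb)]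
    exact (hfree b hb0 hb).choose_spec
  obtain ⟨w, hw⟩ := hw
  obtain ⟨F, hF⟩ := hF
  refine ⟨w, F, ?_, ?_⟩
  · intro b hb0 hb
    have hlim := hw b hb0 hb
    refine ⟨⟨?_, ?_, ?_, ?_, ?_, ?_⟩, ?_⟩
    · refine tendsto_nhds_unique (hlim []) ?_
      simp only [((hm _).apx b).one]
      exact tendsto_const_nhds
    · intro r
      exact le_of_tendsto (hlim r).norm (Eventually.of_forall fun j => ((hm j).apx b).bdd r)
    · intro x r
      refine tendsto_nhds_unique (hlim _) ((hlim r).congr fun j => ?_)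
      rw [((hm j).apx b).emp]
    · intro x k A r h1 h2
      have h3 : Tendsto (fun j : ℕ => 2 / ((j + 1 : ℕ) : ℝ) ^ 2 *
          (len ((x, (k, true) :: A) :: r) : ℝ)) atTop
          (𝓝 (0 * (len ((x, (k, true) :: A) :: r) : ℝ))) := hto.mul_const _
      refine le_of_tendsto_of_tendsto ((hlim _).sub (tendsto_mm hlim 1 b x k A r)).norm h3
        (Eventually.of_forall fun j => ?_)
      exact ((hm j).apx b).equ x k A r h1 h2
    · intro x k A r h1 h2
      refine tendsto_nhds_unique (hlim _) ?_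
      refine (((Complex.continuous_conj.tendsto _).comp (hlim _))).congr fun j => ?_
      exact (((hm j).apx b).neg x k A r h1 h2).symm
    · intro r
      refine tendsto_nhds_unique (hlim _) ?_
      refine (((Complex.continuous_conj.tendsto _).comp (hlim _))).congr fun j => ?_
      exact (((hm j).apx b).cnj r).symm
    · intro a ha
      have h3 : Tendsto (fun j : ℕ => 600 * (2 / ((j + 1 : ℕ) : ℝ) ^ 2) * 8 ^ a.2.length)
          atTop (𝓝 (600 * 0 * 8 ^ a.2.length)) := (hto.const_mul 600).mul_const _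
      have h4 := le_of_tendsto_of_tendsto (hlim [a]).norm h3 (Eventually.of_forall fun j => by
        refine ((hm j).opn b hb0 hb a ha).trans (le_of_eq ?_)
        ring)
      rw [mul_zero, zero_mul] at h4
      exact norm_eq_zero.1 (le_antisymm h4 (norm_nonneg _))
  · intro N n G _ _ _ _ _ _ _ μ _ _ _ _ L hN hg b hb0 hb l _
    have h1 : Tendsto (fun k => |fe μ L d l b - f k b|) atTop (𝓝 |fe μ L d l b - F b|) :=
      (tendsto_const_nhds.sub (hF b hb0 hb)).abs
    refine le_of_tendsto h1 ?_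
    filter_upwards [eventually_ge_atTop N] with k hk
    exact free_two μ hN hg (show N ≤ k + 1 by omega) (hm k) hb0 hb l

variable {G : Type} [Group G] [TopologicalSpace G] [IsTopologicalGroup G] [CompactSpace G]
  [SecondCountableTopology G] [MeasurableSpace G] [BorelSpace G] (μ : Measure G)
  [IsProbabilityMeasure μ] [μ.IsMulLeftInvariant] [μ.IsMulRightInvariant] [μ.IsInvInvariant]
  {N n d l : ℕ} {L : LD G N n}

/-- the lines which wind around the torus -/
theorem wind_small [NeZero l] (hN : 0 < N) (hg : HG L) {b : ℝ} (hb0 : 0 ≤ b)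
    (hb : b * (20000 * d) ≤ 1) (i : Fin d) :
    EX μ L (N * b) (fun U : Ed d l → G => ‖trace (L.rho (pol U i)) / N‖ ^ 2) ≤
      3000 * ((2 * (l : ℝ) + 1) * 8 ^ (2 * l)) / (N : ℝ) ^ 2 := by
  obtain ⟨w, F, hw, -⟩ := master d
  obtain ⟨hA, hw0⟩ := hw b hb0 hb
  have hδ : (0 : ℝ) ≤ 2 / (N : ℝ) ^ 2 := by positivity
  have hpc : Continuous fun U : Ed d l → G => pol U i := pol_cont i
  have hfc : Continuous fun U : Ed d l → G => ‖trace (L.rho (pol U i)) / N‖ ^ 2 :=
    (((Continuous.matrix_trace (L.cont.comp hpc)).div_const _).norm).pow 2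
  have e1 := ez_norm_le μ (L := L) (β := N * b) (c := 0) hfc (pl d i (1 * l)) (fun U => by
    rw [wr_pl, pow_one])
  refine e1.trans ?_
  have hcl : ∀ a ∈ [pl d i (1 * l), iv (pl d i (1 * l))], Cl l a := by
    intro a ha
    simp only [List.mem_cons, List.not_mem_nil, or_false] at ha
    rcases ha with rfl | rfl
    · exact pl_closed i 1
    · exact cl_iv (pl_closed i 1)
  have e2 := reduction hb0 hb hδ (apx_mono hA hδ)
    (ph_apx μ (L := L) (d := d) (l := l) hN hg b) hcl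
  have hlen : (pl d i (1 * l)).2.length = l := by unfold pl; simp
  have hlen2 : len [pl d i (1 * l), iv (pl d i (1 * l))] = 2 * l := by
    rw [len_cons, len_cons, iv_length, hlen]
    simp [len]
    ring
  rw [hlen2] at e2
  simp only [List.map_cons, List.map_nil, List.prod_cons, List.prod_nil, mul_one] at e2
  rw [hw0 _ (pl_open (l := l) i one_pos), zero_mul, sub_zero] at e2
  refine e2.trans (le_of_eq ?_)
  push_cast
  ring

end

end Pool.Agent.T2H01.EK
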