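import Mathlib
import Pool.Agent.T2H01.EK.WkD

/-!
# The lower bound of the free energy at weak coupling: the maximal tree
-/

open MeasureTheory Matrix Filter
open scoped Matrix.Norms.Frobenius Topology
open Pool.Agent.H906R3.YM Pool.Agent.W793.YM Pool.Agent.TH618.YM Pool.Agent.T2H01.YM
open Pool.Agent.T2H01.EK

namespace Pool.Agent.T2H01.EK2.Low

set_option linter.unusedSectionVars false
set_option linter.unusedVariables false

noncomputable section

section alg

variable {G : Type} [Group G] {d l : ℕ} [NeZero l]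

/-- the first `k` coordinates -/
def tr (k : ℕ) (x : Fin d → ZMod l) : Fin d → ZMod l := fun j => if (j : ℕ) < k then x j else 0

/-- the transport along the tree, first `k` directions -/
def gk (U : Ed d l → G) (x : Fin d → ZMod l) : ℕ → G
  | 0 => 1
  | k + 1 => gk U x k * (if h : k < d then ln U ⟨k, h⟩ (x ⟨k, h⟩).val (tr k x) else 1)

/-- the links of the tree -/
def Tl (e : Ed d l) : Prop := (∀ j, e.2 < j → e.1 j = 0) ∧ e.1 e.2 + 1 ≠ 0

/-- the axis seams -/
def Ax (e : Ed d l) : Prop := e.1 + eT e.2 = 0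

/-- the gauged link -/
def H (U : Ed d l → G) (e : Ed d l) : G := gk U e.1 d * U e * (gk U (e.1 + eT e.2) d)⁻¹

lemma tr_congr {k : ℕ} {x y : Fin d → ZMod l} (h : ∀ j : Fin d, (j : ℕ) < k → x j = y j) :
    tr k x = tr k y := by
  funext j
  unfold tr
  split_ifs with hj
  · exact h j hj
  · rfl

lemma gk_congr (U : Ed d l → G) {k : ℕ} {x y : Fin d → ZMod l}
    (h : ∀ j : Fin d, (j : ℕ) < k → x j = y j) : gk U x k = gk U y k := by
  induction k with
  | zero => rfl
  | succ k ih =>
    unfold gk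
    rw [ih fun j hj => h j (by omega), tr_congr (x := x) (y := y) (fun j hj => h j (by omega))]
    by_cases hk : k < d
    · rw [dif_pos hk, dif_pos hk, h ⟨k, hk⟩ (by simp)]
    · rw [dif_neg hk, dif_neg hk]

lemma gk_zero (U : Ed d l → G) {x : Fin d → ZMod l} (k m : ℕ)
    (h : ∀ j : Fin d, k ≤ (j : ℕ) → x j = 0) : gk U x (k + m) = gk U x k := by
  induction m with
  | zero => rfl
  | succ m ih =>
    rw [← add_assoc]
    show gk U x (k + m) * _ = _
    rw [ih]
    by_cases hk : k + m < d
    · rw [dif_pos hk, h ⟨k + m, hk⟩ (by simp), ZMod.val_zero]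
      exact mul_one _
    · rw [dif_neg hk, mul_one]

lemma gk_last (U : Ed d l → G) {x : Fin d → ZMod l} (i : Fin d)
    (h : ∀ j : Fin d, i < j → x j = 0) :
    gk U x d = gk U x i * ln U i (x i).val (tr i x) := by
  have h1 : d = ((i : ℕ) + 1) + (d - (i + 1)) := by omega
  have h2 : gk U x (((i : ℕ) + 1) + (d - (i + 1))) = gk U x ((i : ℕ) + 1) :=
    gk_zero U _ _ fun j hj => h j (by
      rw [Fin.lt_def]; omega)
  rw [← h1] at h2
  rw [h2]
  show gk U x i * _ = _
  rw [dif_pos i.2]

lemma gk_origin (U : Ed d l → G) (k : ℕ) : gk U 0 k = 1 := by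
  have h1 := gk_zero U (x := 0) 0 k fun j _ => rfl
  rw [zero_add] at h1
  rw [h1]
  rfl

lemma eT_same (i : Fin d) : (eT i : Fin d → ZMod l) i = 1 := by
  unfold eT; rw [Pi.single_eq_same]

lemma eT_other {i j : Fin d} (h : j ≠ i) : (eT i : Fin d → ZMod l) j = 0 := by
  unfold eT; rw [Pi.single_eq_of_ne h]

lemma val_add_one {z : ZMod l} (h : z + 1 ≠ 0) : (z + 1).val = z.val + 1 := by
  have h1 : z.val < l := ZMod.val_lt z
  have h2 : ((z.val + 1 : ℕ) : ZMod l) = z + 1 := by
    push_cast
    rw [ZMod.natCast_val, ZMod.cast_id]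
  have h3 : z.val + 1 < l := by
    by_contra hc
    have h4 : z.val + 1 = l := by omega
    rw [h4, ZMod.natCast_self] at h2
    exact h h2.symm
  rw [← h2, ZMod.val_natCast, Nat.mod_eq_of_lt h3]

lemma val_of_neg {z : ZMod l} (h : z + 1 = 0) : z.val + 1 = l := by
  have h1 : z.val < l := ZMod.val_lt z
  have h2 : ((z.val + 1 : ℕ) : ZMod l) = 0 := by
    push_cast
    rw [ZMod.natCast_val, ZMod.cast_id, h]
  rw [ZMod.natCast_eq_zero_iff] at h2
  have := Nat.le_of_dvd (by omega) h2
  omega

/-- the end of the path -/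
lemma tr_end {x : Fin d → ZMod l} (i : Fin d) (h : ∀ j : Fin d, i < j → x j = 0) :
    tr i x + (x i).val • eT i = x := by
  funext j
  rw [Pi.add_apply, LN.nsmul_eT_apply]
  unfold tr
  rcases lt_trichotomy i j with hj | hj | hj
  · rw [if_neg hj.ne', if_neg (by rw [Fin.lt_def] at hj; omega), h j hj, add_zero]
  · subst hj
    rw [if_pos rfl, if_neg (lt_irrefl _), zero_add, ZMod.natCast_val, ZMod.cast_id]
  · rw [if_neg hj.ne, if_pos (Fin.lt_def.1 hj), add_zero]

lemma H_tree (U : Ed d l → G) {e : Ed d l} (he : Tl e) : H U e = 1 := by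
  obtain ⟨x, i⟩ := e
  obtain ⟨h1, h2⟩ := he
  simp only at h1 h2
  have h3 : ∀ j : Fin d, i < j → (x + eT i : Fin d → ZMod l) j = 0 := by
    intro j hj
    rw [Pi.add_apply, h1 j hj, eT_other hj.ne', add_zero]
  have h4 : (x + eT i : Fin d → ZMod l) i = x i + 1 := by rw [Pi.add_apply, eT_same]
  have h5 : ∀ j : Fin d, (j : ℕ) < (i : ℕ) → (x + eT i : Fin d → ZMod l) j = x j := by
    intro j hj
    rw [Pi.add_apply, eT_other (by
      intro h; subst h; omega), add_zero]
  show gk U x d * U (x, i) * (gk U (x + eT i) d)⁻¹ = 1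
  rw [gk_last U i h1, gk_last U i h3, h4, val_add_one h2, gk_congr U h5, tr_congr h5,
    Pool.Agent.TH618.YM.ln_add, tr_end i h1]
  show _ * U (x, i) * (gk U x i * (ln U i (x i).val (tr i x) * (U (x, i) * 1)))⁻¹ = 1
  group

lemma H_axis (U : Ed d l → G) {e : Ed d l} (he : Ax e) : H U e = pol U e.2 := by
  obtain ⟨x, i⟩ := e
  unfold Ax at he
  simp only at he
  have h0 : ∀ j : Fin d, j ≠ i → x j = 0 := by
    intro j hj
    have := congrFun he j
    rwa [Pi.add_apply, eT_other hj, add_zero] at this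
  have h1 : ∀ j : Fin d, i < j → x j = 0 := fun j hj => h0 j hj.ne'
  have h2 : x i + 1 = 0 := by
    have := congrFun he i
    rwa [Pi.add_apply, eT_same] at this
  have h3 : ∀ j : Fin d, (j : ℕ) < (i : ℕ) → x j = (0 : Fin d → ZMod l) j := by
    intro j hj
    exact h0 j (by intro h; subst h; omega)
  show gk U x d * U (x, i) * (gk U (x + eT i) d)⁻¹ = pol U i
  rw [he, gk_origin, gk_last U i h1, gk_congr U h3, gk_origin, tr_congr h3]
  have h4 : tr (i : ℕ) (0 : Fin d → ZMod l) = 0 := by
    funext j; unfold tr; simp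
  have h5 := tr_end i h1
  rw [tr_congr h3, h4, zero_add] at h5
  rw [h4, one_mul, inv_one, mul_one]
  unfold pol
  have h6 : ln U i ((x i).val + 1) 0 = ln U i (x i).val 0 * U (x, i) := by
    rw [Pool.Agent.TH618.YM.ln_add, zero_add, h5]
    show _ * (U (x, i) * 1) = _
    rw [mul_one]
  rw [← h6, val_of_neg h2]

lemma ln_sh_path (U : Ed d l → G) {e : Ed d l} {i : Fin d} (g : G) (m : ℕ) (x : Fin d → ZMod l)
    (he : ∀ a < m, e ≠ ((x + a • eT i, i) : Ed d l)) : ln (LN.sh e g U) i m x = ln U i m x := by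
  induction m generalizing x with
  | zero => rfl
  | succ m ih =>
    show LN.sh e g U (x, i) * ln (LN.sh e g U) i m (x + eT i) = U (x, i) * ln U i m (x + eT i)
    have h0 := he 0 (by omega)
    rw [zero_smul, add_zero] at h0
    rw [LN.sh_ne h0.symm, ih (x + eT i) fun a ha => ?_]
    have := he (a + 1) (by omega)
    rwa [add_smul, one_smul, add_comm (a • (eT i : Fin d → ZMod l)), ← add_assoc] at this

lemma gk_sh (U : Ed d l → G) {e : Ed d l} (he : ¬Tl e) (g : G) (x : Fin d → ZMod l) (k : ℕ) :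
    gk (LN.sh e g U) x k = gk U x k := by
  induction k with
  | zero => rfl
  | succ k ih =>
    show gk (LN.sh e g U) x k * _ = gk U x k * _
    rw [ih]
    by_cases hk : k < d
    · rw [dif_pos hk, dif_pos hk, ln_sh_path U g _ _ fun a ha h => he ?_]
      rw [h]
      refine ⟨fun j hj => ?_, ?_⟩
      · simp only [Pi.add_apply] at hj ⊢
        rw [LN.nsmul_eT_apply, if_neg hj.ne']
        unfold tr
        rw [Fin.lt_def] at hj
        simp only at hj
        rw [if_neg (by omega), zero_add]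
      · simp only [Pi.add_apply]
        rw [LN.nsmul_eT_apply, if_pos rfl]
        unfold tr
        rw [if_neg (by simp), zero_add]
        intro h0
        have h1 : ((a + 1 : ℕ) : ZMod l) = 0 := by push_cast; exact h0
        rw [ZMod.natCast_eq_zero_iff] at h1
        have h2 := Nat.le_of_dvd (by omega) h1
        have h3 := ZMod.val_lt (x ⟨k, hk⟩)
        omega
    · rw [dif_neg hk, dif_neg hk]

lemma H_sh_other (U : Ed d l → G) {e e' : Ed d l} (he : ¬Tl e) (h : e' ≠ e) (g : G) :
    H (LN.sh e g U) e' = H U e' := by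
  unfold H
  rw [gk_sh U he, gk_sh U he, LN.sh_ne h]

lemma H_sh_same (U : Ed d l → G) {e : Ed d l} (he : ¬Tl e) (g : G) :
    H (LN.sh e g U) e = gk U e.1 d * g * (U e * (gk U (e.1 + eT e.2) d)⁻¹) := by
  unfold H
  rw [gk_sh U he, gk_sh U he, LN.sh_same]
  group

lemma plq_H (U : Ed d l → G) (x : Fin d → ZMod l) (i j : Fin d) :
    H U (x, i) * H U (x + eT i, j) * (H U (x + eT j, i))⁻¹ * (H U (x, j))⁻¹ =
      gk U x d * plqT U x i j * (gk U x d)⁻¹ := by
  unfold H plqT
  simp only
  have h1 : x + eT j + eT i = x + eT i + eT j := by abel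
  rw [h1]
  group

/-- the background -/
def Bg (U : Ed d l → G) (e : Ed d l) : G := if e.1 e.2 + 1 = 0 then pol U e.2 else 1

lemma Bg_tree (U : Ed d l → G) {e : Ed d l} (he : Tl e) : Bg U e = 1 := if_neg he.2

lemma Bg_axis (U : Ed d l → G) {e : Ed d l} (he : Ax e) : Bg U e = pol U e.2 := by
  unfold Bg
  rw [if_pos]
  have := congrFun he e.2
  rwa [Pi.add_apply, eT_same] at this

lemma Bg_add (U : Ed d l → G) {i j : Fin d} (h : i ≠ j) (x : Fin d → ZMod l) :
    Bg U (x + eT j, i) = Bg U (x, i) := by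
  unfold Bg
  simp only [Pi.add_apply]
  rw [eT_other h, add_zero]

/-- an axis link is a link of the tree or an axis seam -/
lemma axis_link (k : Fin d) (a : ℕ) : Tl ((a • (eT k : Fin d → ZMod l), k) : Ed d l) ∨
    Ax ((a • (eT k : Fin d → ZMod l), k) : Ed d l) := by
  by_cases h : (a • (eT k : Fin d → ZMod l)) k + 1 = 0
  · right
    unfold Ax
    funext j
    by_cases hj : j = k
    · subst hj
      simp only [Pi.add_apply, Pi.zero_apply]
      rw [eT_same]
      exact h
    · simp only [Pi.add_apply, Pi.zero_apply]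
      rw [eT_other hj, LN.nsmul_eT_apply, if_neg hj, add_zero]
  · left
    refine ⟨fun j hj => ?_, h⟩
    simp only at hj ⊢
    rw [LN.nsmul_eT_apply, if_neg hj.ne']

lemma Bg_sh (U : Ed d l → G) {e : Ed d l} (he : ¬Tl e) (he' : ¬Ax e) (g : G) (e' : Ed d l) :
    Bg (LN.sh e g U) e' = Bg U e' := by
  have h0 : pol (LN.sh e g U) e'.2 = pol U e'.2 := by
    unfold pol
    refine ln_sh_path U g l 0 fun a _ h => ?_
    rw [zero_add] at h
    rcases axis_link (l := l) e'.2 a with h1 | h1
    · exact he (h ▸ h1)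
    · exact he' (h ▸ h1)
  unfold Bg
  rw [h0]

end alg

/-! ### counting -/

section count

variable {d l : ℕ} [NeZero l]

open Classical in
/-- the other links -/
def Ot (d l : ℕ) [NeZero l] : Finset (Ed d l) := Finset.univ.filter fun e => ¬Tl e ∧ ¬Ax e

lemma card_Ot : (Ot d l).card ≤ (d - 1) * (l ^ d - 1) := by
  classical
  rcases Nat.eq_zero_or_pos d with rfl | hd
  · have h1 := Finset.card_le_univ (Ot 0 l)
    simpa using h1
  have hne : Nonempty (Fin d) := ⟨⟨0, hd⟩⟩
  -- the axis seams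
  have hA : ∀ i : Fin d, Ax ((-eT i, i) : Ed d l) := fun i => by
    unfold Ax; simp
  have hdis : ∀ e : Ed d l, Tl e → ¬Ax e := by
    intro e h1 h2
    have := congrFun h2 e.2
    rw [Pi.add_apply, eT_same] at this
    exact h1.2 this
  let S : Finset (Ed d l) := Finset.univ.image fun i : Fin d => ((-eT i, i) : Ed d l)
  have hS : S.card = d := by
    rw [Finset.card_image_of_injective _ fun i j h => (Prod.ext_iff.1 h).2, Finset.card_univ,
      Fintype.card_fin]
  -- the tree
  let Z : Finset (Fin d → ZMod l) := Finset.univ.erase 0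
  have hZ : Z.card = l ^ d - 1 := by
    rw [Finset.card_erase_of_mem (Finset.mem_univ _), Finset.card_univ]
    simp [ZMod.card]
  have hex : ∀ x ∈ Z, ∃ i : Fin d, x i ≠ 0 ∧ ∀ j, i < j → x j = 0 := by
    intro x hx
    have hx0 : x ≠ 0 := (Finset.mem_erase.1 hx).1
    obtain ⟨i0, hi0⟩ : ∃ i, x i ≠ 0 := by
      by_contra hc
      push Not at hc
      exact hx0 (funext hc)
    obtain ⟨i, hi, hmax⟩ := Finset.exists_max_image (Finset.univ.filter fun i => x i ≠ 0) id
      ⟨i0, by simpa using hi0⟩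
    refine ⟨i, (Finset.mem_filter.1 hi).2, fun j hj => ?_⟩
    by_contra hc
    have := hmax j (by simpa using hc)
    simp only [id] at this
    exact absurd hj (not_lt.2 this)
  choose! last hl0 hl1 using hex
  let T : Finset (Ed d l) := Z.image fun x => ((x - eT (last x), last x) : Ed d l)
  have hTinj : Set.InjOn (fun x => ((x - eT (last x), last x) : Ed d l)) (Z : Set (Fin d → ZMod l)) := by
    intro x _ y _ h
    simp only [Prod.mk.injEq] at h
    rw [h.2] at h
    exact sub_left_injective h.1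
  have hT : T.card = l ^ d - 1 := by
    rw [Finset.card_image_of_injOn hTinj, hZ]
  have hTT : ∀ e ∈ T, Tl e := by
    intro e he
    obtain ⟨x, hx, rfl⟩ := Finset.mem_image.1 he
    refine ⟨fun j hj => ?_, ?_⟩
    · simp only [Pi.sub_apply] at hj ⊢
      rw [eT_other hj.ne', sub_zero]
      exact hl1 x hx j hj
    · simp only [Pi.sub_apply]
      rw [eT_same, sub_add_cancel]
      exact hl0 x hx
  have hSA : ∀ e ∈ S, Ax e := by
    intro e he
    obtain ⟨i, _, rfl⟩ := Finset.mem_image.1 he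
    exact hA i
  have d1 : Disjoint S T := by
    rw [Finset.disjoint_left]
    intro e h1 h2
    exact hdis e (hTT e h2) (hSA e h1)
  have d2 : Disjoint (Ot d l) (S ∪ T) := by
    rw [Finset.disjoint_left]
    intro e h1 h2
    have h3 := (Finset.mem_filter.1 h1).2
    rcases Finset.mem_union.1 h2 with h | h
    · exact h3.2 (hSA e h)
    · exact h3.1 (hTT e h)
  have hc : ((Ot d l) ∪ (S ∪ T)).card ≤ l ^ d * d := by
    refine (Finset.card_le_univ _).trans (le_of_eq ?_)
    simp [ZMod.card]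
  rw [Finset.card_union_of_disjoint d2, Finset.card_union_of_disjoint d1, hS, hT] at hc
  have hl : 1 ≤ l ^ d := Nat.one_le_pow _ _ (NeZero.pos l)
  obtain ⟨m, rfl⟩ : ∃ m, d = m + 1 := ⟨d - 1, by omega⟩
  obtain ⟨V, hV⟩ : ∃ V, l ^ (m + 1) = V + 1 := ⟨l ^ (m + 1) - 1, by omega⟩
  rw [hV] at hc ⊢
  simp only [Nat.add_sub_cancel] at hc ⊢
  nlinarith

end count

end

end Pool.Agent.T2H01.EK2.Low
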