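import Mathlib
import Pool.Agent.T2H01.EK2.LowA

/-!
# The lower bound of the free energy at weak coupling, uniform in the volume
-/

open MeasureTheory Matrix Filter
open scoped Matrix.Norms.Frobenius Topology
open Pool.Agent.H906R3.YM Pool.Agent.W793.YM Pool.Agent.TH618.YM Pool.Agent.T2H01.YM
open Pool.Agent.T2H01.EK

namespace Pool.Agent.T2H01.EK2

set_option linter.unusedSectionVars false
set_option linter.unusedVariables false

noncomputable section

variable {G : Type} [Group G] [TopologicalSpace G] [IsTopologicalGroup G] [CompactSpace G]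
  [SecondCountableTopology G] [MeasurableSpace G] [BorelSpace G] (μ : Measure G)
  [IsProbabilityMeasure μ] [μ.IsMulLeftInvariant] [μ.IsMulRightInvariant] [μ.IsInvInvariant]
  {N n d l : ℕ} [NeZero l] {L : LD G N n}

namespace Low

lemma gk_cont (x : Fin d → ZMod l) (k : ℕ) : Continuous fun U : Ed d l → G => gk U x k := by
  induction k with
  | zero => exact continuous_const
  | succ k ih =>
    show Continuous fun U : Ed d l → G => gk U x k *
      (if h : k < d then ln U ⟨k, h⟩ (x ⟨k, h⟩).val (tr k x) else 1)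
    refine ih.mul ?_
    by_cases hk : k < d
    · simp only [dif_pos hk]
      exact ln_contT _ _ _
    · simp only [dif_neg hk]
      exact continuous_const

lemma H_cont (e : Ed d l) : Continuous fun U : Ed d l → G => H U e :=
  ((gk_cont _ _).mul (continuous_apply e)).mul (gk_cont _ _).inv

lemma Bg_cont (e : Ed d l) : Continuous fun U : Ed d l → G => Bg U e := by
  unfold Bg
  split_ifs
  · exact pol_cont _
  · exact continuous_const

/-- four links close to the background -/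
lemma D1_four {s : ℝ} {h1 h2 h3 h4 B1 B2 : G} (e1 : LN.D1 L h1 ≤ s ^ 2) (e2 : LN.D1 L h2 ≤ s ^ 2)
    (e3 : LN.D1 L h3 ≤ s ^ 2) (e4 : LN.D1 L h4 ≤ s ^ 2) (b1 : LN.D1 L B1 ≤ s)
    (b2 : LN.D1 L B2 ≤ s) (hs : 0 ≤ s) :
    LN.D1 L ((h1 * B1) * (h2 * B2) * (h3 * B1)⁻¹ * (h4 * B2)⁻¹) ≤ 6 * s ^ 2 := by
  have h : (h1 * B1) * (h2 * B2) * (h3 * B1)⁻¹ * (h4 * B2)⁻¹ =
      h1 * (B1 * h2 * B1⁻¹) * (B1 * B2 * B1⁻¹ * B2⁻¹) * (B2 * h3⁻¹ * B2⁻¹) * h4⁻¹ := by group
  rw [h]
  have c1 := LN.D1_mul L (h1 * (B1 * h2 * B1⁻¹) * (B1 * B2 * B1⁻¹ * B2⁻¹) * (B2 * h3⁻¹ * B2⁻¹)) h4⁻¹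
  have c2 := LN.D1_mul L (h1 * (B1 * h2 * B1⁻¹) * (B1 * B2 * B1⁻¹ * B2⁻¹)) (B2 * h3⁻¹ * B2⁻¹)
  have c3 := LN.D1_mul L (h1 * (B1 * h2 * B1⁻¹)) (B1 * B2 * B1⁻¹ * B2⁻¹)
  have c4 := LN.D1_mul L h1 (B1 * h2 * B1⁻¹)
  rw [D1_invg] at c1
  rw [LN.D1_conj L B2 h3⁻¹, D1_invg] at c2
  rw [LN.D1_conj L B1 h2] at c4
  have c5 := D1_comm (L := L) B1 B2
  have c6 : LN.D1 L B1 * LN.D1 L B2 ≤ s * s := mul_le_mul b1 b2 (LN.D1_nonneg L _) hs
  nlinarith

lemma plq_small {s : ℝ} (hs : 0 ≤ s) {U : Ed d l → G}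
    (h : ∀ e, LN.D1 L (H U e * (Bg U e)⁻¹) ≤ s ^ 2) (hp : ∀ k, LN.D1 L (pol U k) ≤ s)
    (x : Fin d → ZMod l) {i j : Fin d} (hij : i ≠ j) : LN.D1 L (plqT U x i j) ≤ 6 * s ^ 2 := by
  have hB : ∀ e, LN.D1 L (Bg U e) ≤ s := by
    intro e
    unfold Bg
    split_ifs
    · exact hp _
    · rw [LN.D1_one L]; exact hs
  have e0 : ∀ e, H U e = (H U e * (Bg U e)⁻¹) * Bg U e := fun e => by group
  have e1 : LN.D1 L (plqT U x i j) =
      LN.D1 L (H U (x, i) * H U (x + eT i, j) * (H U (x + eT j, i))⁻¹ * (H U (x, j))⁻¹) := by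
    rw [plq_H, LN.D1_conj L]
  rw [e1, e0 (x, i), e0 (x + eT i, j), e0 (x + eT j, i), e0 (x, j), Bg_add U hij x,
    Bg_add U hij.symm x]
  have h1 := h (x, i)
  have h2 := h (x + eT i, j)
  have h3 := h (x + eT j, i)
  have h4 := h (x, j)
  rw [Bg_add U hij.symm x] at h2
  rw [Bg_add U hij x] at h3
  exact D1_four h1 h2 h3 h4 (hB _) (hB _) hs

lemma act_upper2 {s : ℝ} (hs : 0 ≤ s) {U : Ed d l → G}
    (h : ∀ x i j, i ≠ j → LN.D1 L (plqT U x i j) ≤ 6 * s ^ 2) :
    act L U ≤ N * (18 * (d : ℝ) ^ 2 * (l : ℝ) ^ d) * s ^ 4 := by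
  have h1 : ∀ x i j, i < j → we L (plqT U x i j) ≤ N / 2 * (6 * s ^ 2) ^ 2 := fun x i j hij =>
    (we_opn _).trans (mul_le_mul_of_nonneg_left
      (pow_le_pow_left₀ (LN.D1_nonneg L _) (h x i j hij.ne) 2) (by positivity))
  unfold act
  calc ∑ x, ∑ i, ∑ j, (if i < j then we L (plqT U x i j) else 0) ≤
      ∑ _x : Fin d → ZMod l, ∑ _i : Fin d, ∑ _j : Fin d, N / 2 * (6 * s ^ 2) ^ 2 := by
        refine Finset.sum_le_sum fun x _ => Finset.sum_le_sum fun i _ =>
          Finset.sum_le_sum fun j _ => ?_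
        split_ifs with hij
        · exact h1 x i j hij
        · positivity
    _ = N * (18 * (d : ℝ) ^ 2 * (l : ℝ) ^ d) * s ^ 4 := by
        simp only [Finset.sum_const, Finset.card_univ, Fintype.card_fin, nsmul_eq_mul,
          Fintype.card_pi, ZMod.card, Finset.prod_const, Nat.cast_pow]
        ring

end Low

open Low

/-- the lower bound, with a constant proportional to the volume -/
theorem weak_lower2 {C : ℝ} (hC : 1 ≤ C) (hN : 0 < N)
    (hball : ∀ ρ : ℝ, 0 < ρ → ρ ≤ 1 → (ρ / C) ^ (N ^ 2) ≤ μ.real {g | LN.D1 L g ≤ ρ}) {b s : ℝ}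
    (hs : 0 < s) (hs1 : s ≤ 1) (hb : b * s ^ 4 = 1) :
    Real.exp (-((N : ℝ) ^ 2 * (18 * (d : ℝ) ^ 2 * (l : ℝ) ^ d))) *
      (((s ^ 2 / (4 * C)) ^ (N ^ 2)) ^ ((d - 1) * (l ^ d - 1)) *
      ((s / (4 * C)) ^ (N ^ 2)) ^ d) ≤ Zt μ L (N * b) (fun _ : Ed d l → G => 1) := by
  classical
  have hC0 : 0 < C := by linarith
  have hb0 : 0 < b := by
    by_contra hlt
    push Not at hlt
    have := mul_nonpos_of_nonpos_of_nonneg hlt (pow_nonneg hs.le 4)
    linarith
  have hN' : (0 : ℝ) < N := by exact_mod_cast hN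
  obtain ⟨O, hO⟩ : ∃ O, O = Ot d l := ⟨_, rfl⟩
  have hmem : ∀ e, e ∈ O ↔ ¬Tl e ∧ ¬Ax e := by
    intro e
    rw [hO]
    unfold Ot
    rw [Finset.mem_filter]
    simp
  have hcard : O.card ≤ (d - 1) * (l ^ d - 1) := hO ▸ card_Ot
  obtain ⟨c, hc⟩ : ∃ c : ℝ, c = 18 * (d : ℝ) ^ 2 * (l : ℝ) ^ d := ⟨_, rfl⟩
  rw [← hc]
  have hpc : ∀ k, Continuous fun U : Ed d l → G => pol U k := fun k => pol_cont k
  obtain ⟨F, hF⟩ : ∃ F : (Ed d l → G) → ℝ, F = fun U => ∏ k, tent L s (pol U k) := ⟨_, rfl⟩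
  have hFc : Continuous F := by
    rw [hF]
    exact continuous_finsetProd _ fun k _ => (tent_cont s).comp (hpc k)
  have hF0 : ∀ U, 0 ≤ F U := by
    intro U; rw [hF]; exact Finset.prod_nonneg fun k _ => tent_nonneg _ _
  obtain ⟨f, hf⟩ : ∃ f : Ed d l → (Ed d l → G) → ℝ, f = fun e U =>
    tent L (s ^ 2) (H U e * (Bg U e)⁻¹) := ⟨_, rfl⟩
  have hfc : ∀ e, Continuous (f e) := by
    intro e; rw [hf]; exact (tent_cont _).comp ((H_cont e).mul (Bg_cont e).inv)
  have hf0 : ∀ e U, 0 ≤ f e U := by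
    intro e U; rw [hf]; exact tent_nonneg _ _
  have hs2 : 0 < s ^ 2 := by positivity
  have hs21 : s ^ 2 ≤ 1 := pow_le_one₀ hs.le hs1
  -- step 1
  have s1 : Real.exp (-((N : ℝ) ^ 2 * c)) * ∫ U, (∏ e ∈ O, f e U) * F U ∂ME μ (Ed d l) ≤
      Zt μ L (N * b) (fun _ : Ed d l → G => 1) := by
    unfold Zt
    rw [← integral_const_mul]
    refine integral_mono ((intE μ ((continuous_finsetProd _ fun e _ => hfc e).mul
      hFc)).const_mul _) (intE μ ?_) fun U => ?_
    · exact continuous_const.mul (Real.continuous_exp.comp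
        (continuous_const.mul (act_cont : Continuous (act L : (Ed d l → G) → ℝ))).neg)
    · show Real.exp (-((N : ℝ) ^ 2 * c)) * ((∏ e ∈ O, f e U) * F U) ≤
        1 * Real.exp (-(N * b * act L U))
      have hle : (∏ e ∈ O, f e U) * F U ≤ 1 := by
        have e1 : ∏ e ∈ O, f e U ≤ 1 := Finset.prod_le_one (fun e _ => hf0 e U) fun e _ => by
          rw [hf]; exact tent_le_one hs2 _
        have e2 : F U ≤ 1 := by
          rw [hF]
          exact Finset.prod_le_one (fun k _ => tent_nonneg _ _) fun k _ => tent_le_one hs _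
        exact mul_le_one₀ e1 (hF0 U) e2
      by_cases hz : (∏ e ∈ O, f e U) * F U = 0
      · rw [hz, mul_zero]; positivity
      · have hz1 : (∏ e ∈ O, f e U) ≠ 0 := left_ne_zero_of_mul hz
        have hz2 : F U ≠ 0 := right_ne_zero_of_mul hz
        have d1 : ∀ e, LN.D1 L (H U e * (Bg U e)⁻¹) ≤ s ^ 2 := by
          intro e
          by_cases hT : Tl e
          · rw [H_tree U hT, Bg_tree U hT, inv_one, mul_one, LN.D1_one L]
            exact hs2.le
          · by_cases hA : Ax e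
            · rw [H_axis U hA, Bg_axis U hA, mul_inv_cancel, LN.D1_one L]
              exact hs2.le
            · have := Finset.prod_ne_zero_iff.1 hz1 e ((hmem e).2 ⟨hT, hA⟩)
              rw [hf] at this
              exact tent_supp hs2 this
        have d2 : ∀ k, LN.D1 L (pol U k) ≤ s := by
          intro k
          rw [hF] at hz2
          exact tent_supp hs (Finset.prod_ne_zero_iff.1 hz2 k (Finset.mem_univ k))
        have d5 := act_upper2 (L := L) hs.le fun x i j hij => plq_small hs.le d1 d2 x hij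
        rw [← hc] at d5
        have d6 : (N : ℝ) * b * act L U ≤ (N : ℝ) ^ 2 * c := by
          have e1 := mul_le_mul_of_nonneg_left d5 (show 0 ≤ (N : ℝ) * b by positivity)
          refine e1.trans (le_of_eq ?_)
          calc (N : ℝ) * b * (N * c * s ^ 4) = (N : ℝ) ^ 2 * c * (b * s ^ 4) := by ring
            _ = _ := by rw [hb, mul_one]
        calc Real.exp (-((N : ℝ) ^ 2 * c)) * ((∏ e ∈ O, f e U) * F U) ≤
            Real.exp (-((N : ℝ) ^ 2 * c)) * 1 :=
              mul_le_mul_of_nonneg_left hle (Real.exp_pos _).le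
          _ ≤ 1 * Real.exp (-(N * b * act L U)) := by
              rw [mul_one, one_mul]
              exact Real.exp_le_exp.2 (neg_le_neg d6)
  -- step 2
  have s2 : (∏ e ∈ O, (s ^ 2 / (4 * C)) ^ (N ^ 2)) * ∫ U, F U ∂ME μ (Ed d l) ≤
      ∫ U, (∏ e ∈ O, f e U) * F U ∂ME μ (Ed d l) := by
    refine seq_ge μ O id (fun _ => 0) f F _ hfc hf0 hFc hF0 (fun e _ => by positivity) ?_ ?_ ?_
    · intro e he U
      obtain ⟨hT, hA⟩ := (hmem e).1 he
      rw [hf]
      simp only [id]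
      have e1 : ∀ g : G, H (LN.sh e g U) e * (Bg (LN.sh e g U) e)⁻¹ =
          gk U e.1 d * g * (U e * (gk U (e.1 + eT e.2) d)⁻¹ * (Bg U e)⁻¹) := by
        intro g
        rw [H_sh_same U hT, Bg_sh U hT hA]
        group
      simp only [e1]
      rw [int_lr μ (fun g => tent L (s ^ 2) g)]
      exact tent_int μ hC hN hball hs2 hs21
    · intro e he e' he' hne _ g U
      obtain ⟨hT, hA⟩ := (hmem e).1 he
      rw [hf]
      simp only [id]
      rw [H_sh_other U hT hne, Bg_sh U hT hA]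
    · intro e he g U
      obtain ⟨hT, hA⟩ := (hmem e).1 he
      rw [hF]
      simp only [id]
      have e1 : ∀ k, pol (LN.sh e g U) k = pol U k := by
        intro k
        refine pol_sh_not (fun a h => ?_) g U
        rcases axis_link (l := l) k a with h1 | h1
        · exact hT (h ▸ h1)
        · exact hA (h ▸ h1)
      simp only [e1]
  -- step 3
  have s3 : ((s / (4 * C)) ^ (N ^ 2)) ^ d ≤ ∫ U, F U ∂ME μ (Ed d l) := by
    have e1 := seq_ge μ (Finset.univ : Finset (Fin d)) (fun j => ((0, j) : Ed d l)) (fun _ => 0)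
      (fun j U => tent L s (pol U j)) (fun _ => 1) (fun _ => (s / (4 * C)) ^ (N ^ 2))
      (fun j => (tent_cont s).comp (hpc j)) (fun j U => tent_nonneg _ _) continuous_const
      (fun _ => zero_le_one) (fun j _ => by positivity) ?_ ?_ ?_
    · rw [Finset.prod_const, Finset.card_univ, Fintype.card_fin, integral_const, probReal_univ,
        one_smul, mul_one] at e1
      refine e1.trans (le_of_eq ?_)
      rw [hF]
      exact integral_congr_ae (Eventually.of_forall fun U => by simp only [mul_one])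
    · intro j _ U
      simp only [pol_sh]
      have e3 := integral_mul_right_eq_self (μ := μ) (fun g => tent L s g) (pol U j)
      rw [e3]
      exact tent_int μ hC hN hball hs hs1
    · intro j _ j' _ hne _ g U
      simp only [pol_sh_other U hne]
    · intro j _ g U
      rfl
  refine le_trans ?_ s1
  refine mul_le_mul_of_nonneg_left ?_ (Real.exp_pos _).le
  refine le_trans ?_ s2
  rw [Finset.prod_const]
  have hx0 : 0 ≤ (s ^ 2 / (4 * C)) ^ (N ^ 2) := by positivity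
  have hx1 : (s ^ 2 / (4 * C)) ^ (N ^ 2) ≤ 1 := by
    refine pow_le_one₀ (by positivity) ?_
    rw [div_le_one (by positivity)]
    linarith
  have h5 : ((s ^ 2 / (4 * C)) ^ (N ^ 2)) ^ ((d - 1) * (l ^ d - 1)) ≤
      ((s ^ 2 / (4 * C)) ^ (N ^ 2)) ^ O.card := pow_le_pow_of_le_one hx0 hx1 hcard
  calc _ ≤ ((s ^ 2 / (4 * C)) ^ (N ^ 2)) ^ ((d - 1) * (l ^ d - 1)) *
        ∫ U, F U ∂ME μ (Ed d l) := mul_le_mul_of_nonneg_left s3 (by positivity)
    _ ≤ _ := mul_le_mul_of_nonneg_right h5 (le_trans (by positivity) s3)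

end

end Pool.Agent.T2H01.EK2
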